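import Mathlib

/-!
# Project HC5: statements on relations between sign vectors (only Mathlib is needed)
-/

set_option linter.unusedSectionVars false

namespace Pool.Agent.H841.HC5

/-! ## Combinatorics -/

/-- **S_BETA.** Positive integers, at most five of them, such that for each two indices `k ≠ l` the
equation `∑ ε i * β i = 0` has a solution `ε i = ± 1` with `ε k = ε l` and one with `ε k = -ε l`. Then there
are four and they are equal, or there are five: four equal ones and one which is the double.

Proof. `N ≤ 5`; `N = 1` is impossible by `_h0`, `N = 2, 3` are impossible (take for `k, l` the two largest ones and the solution with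
`ε k = ε l`, then `β k + β l ≤` the sum of the others). Sort (e.g. `Tuple.sort`, or WLOG by permutation, or
choose the two largest etc.). `N = 4`, `β₁ ≥ β₂ ≥ β₃ ≥ β₄`: `ε₁ = ε₂` gives `β₁ + β₂ ≤ β₃ + β₄`, so all are
equal. `N = 5`, `β₁ ≥ ... ≥ β₅`: `ε₁ = ε₂` gives `β₁ + β₂ = β₃ + β₄ + β₅` (the other possibilities have a sum
on the left side which is too large). `ε₁ = ε₃` gives `β₁ + β₃ = β₂ + β₄ + β₅` (all others are impossible by
size), so `β₂ = β₃`. `ε₁ = ε₄`: either `β₁ + β₄ = β₂ + β₃ + β₅`, so (with the first equation) `β₂ = β₄`; or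
`β₁ + β₄ + β₅ = β₂ + β₃`, so `β₁ = β₃` and `β₁ = β₂ = β₃ = β₄ + β₅ =: b`, but then there is no solution with
`ε₄ = -ε₅` (half of the sum is `2 b`, a set which contains `4` but not `5` has the sum `β₄ + k b`, so
`β₄ = b`, `β₅ = 0` or `β₄ = 0`, a contradiction). So `β₂ = β₃ = β₄ = y` and `β₁ = y + β₅`; `ε₁ = ε₅`: if
`β₅ ≠ y` there is no such solution (half of the sum is `2 y + β₅`; a set which contains `1` and `5` has the
sum `y + 2 β₅ + k y`, so `β₅ = (1 - k) y`, so `k = 0`, `β₅ = y`). -/
def S_BETA : Prop :=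
  ∀ (S : Type) [Fintype S] [DecidableEq S] (β : S → ℤ) (_h5 : Fintype.card S ≤ 5)
    (_hβ : ∀ i, 0 < β i) (_h0 : ∃ ε : S → ℤ, (∀ i, ε i = 1 ∨ ε i = -1) ∧ ∑ i, ε i * β i = 0)
    (_hne : Nonempty S)
    (_h1 : ∀ k l, k ≠ l → ∃ ε : S → ℤ, (∀ i, ε i = 1 ∨ ε i = -1) ∧ ε k = ε l ∧ ∑ i, ε i * β i = 0)
    (_h2 : ∀ k l, k ≠ l → ∃ ε : S → ℤ, (∀ i, ε i = 1 ∨ ε i = -1) ∧ ε k = -ε l ∧ ∑ i, ε i * β i = 0),
    ∃ c : ℤ, 0 < c ∧ ((Fintype.card S = 4 ∧ ∀ i, β i = c) ∨
      (Fintype.card S = 5 ∧ ∃ i₀, β i₀ = 2 * c ∧ ∀ i, i ≠ i₀ → β i = c))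

/-- The combinatorial data. `I` is the set of isomorphism classes of the irreducible submodules, `st i` is
the dual class, `m i` the dimension, `F i σ` the trace of the conjugate of the complex structure. -/
structure CD {Γ I : Type} [Fintype I] [DecidableEq I] (st : I → I) (m : I → ℕ) (F : I → Γ → ℤ) : Prop where
  st2 : ∀ i, st (st i) = i
  pos : ∀ i, 0 < m i
  mst : ∀ i, m (st i) = m i
  pq : ∀ i σ, ∃ p q : ℕ, p + q = m i ∧ F i σ = p - q
  Fst : ∀ i σ, F (st i) σ = -F i σ
  one : ∀ i j, m i = 1 → m j = 1 → F i = F j → i = j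
  two : ∀ i, 2 ≤ m i → ∃ σ, F i σ ≠ m i ∧ F i σ ≠ -m i
  zero : ∀ i, m i = 2 → st i ≠ i → ∃ σ, F i σ ≠ 0
  ten : ∑ i ∈ Finset.univ.filter (fun i => st i ≠ i), m i ≤ 10

/-- An odd relation between the `F i`. -/
def OddRel {Γ I : Type} [Fintype I] (st : I → I) (F : I → Γ → ℤ) (a : I → ℤ) : Prop :=
  (∀ i, a (st i) = -a i) ∧ (∀ σ, ∑ i, a i * F i σ = 0) ∧ a ≠ 0

/-- The normal form of a relation. -/
def NForm {I : Type} [Fintype I] (st : I → I) (m : I → ℕ) (A : I → ℤ) : Prop :=
  ((∀ i, |A i| ≤ 1) ∧ ∑ i ∈ Finset.univ.filter (fun i => A i = 1), m i = 4) ∨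
    ∃ i₀, m i₀ = 1 ∧ A i₀ = 2 ∧ (∀ i, i ≠ i₀ → i ≠ st i₀ → |A i| ≤ 1) ∧
      ∑ i ∈ Finset.univ.filter (fun i => A i = 1), m i = 4

/-- **S_REL (odd relations).** Uses S_BETA.

Proof. Let `P = {i | 0 < a i}` and let the slots be `S = Σ i : P, Fin (m i)`, `β (i, k) = a i`. `P` and
`st '' P` are disjoint subsets of `I` (as `a (st i) = -a i`), with the same sum of the `m i`, so
`card S ≤ 5`; `S` is not empty as `a ≠ 0`. For each `σ`: `∑ i, a i * F i σ = 2 * ∑ i ∈ P, a i * F i σ`
(`Fst`; `a i = 0` outside of `P ∪ st '' P`), so `∑ i ∈ P, a i * F i σ = 0`, and by `pq` (`F i σ` is a sum of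
`m i` signs, which may be put on the slots `(i, k)` in each order) each choice of the signs with these
numbers of `+1` in the classes gives a solution `∑ ε * β = 0`. Two slots `k ≠ l`:
* in the same class `i` (`m i ≥ 2`): `two` gives a `σ` with both signs in the class `i`, so there is a
  solution with `ε k = -ε l`; if `m i ≥ 3` then two of the three signs agree and there is a solution with
  `ε k = ε l` (for the `σ` of `two` or any `σ`), if `m i = 2` use `zero` (`st i ≠ i` as `a i ≠ 0`): `F i σ ≠ 0`
  means that both signs agree.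
* in different classes `i ≠ j`: if `m i ≥ 2` (or `m j ≥ 2`) use `two` and choose the sign of `k` in the
  class `i` freely. If `m i = m j = 1`: `F i ≠ F j` by `one`, so there is a `σ` with `F i σ = -F j σ` (both
  are `± 1`); and `F i ≠ F (st j) = -F j` because `i ≠ st j` (`a i > 0 > a (st j)`), so there is a `σ` with
  `F i σ = F j σ`.
Now S_BETA. In the second case the class of the slot `i₀` with the double coefficient has only one slot
(its other slots would have the same coefficient). `A = a / c` (all `a i` are `0`, `± c`, `± 2 c`). -/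
def S_REL : Prop :=
  ∀ (Γ I : Type) [Fintype I] [DecidableEq I] (st : I → I) (m : I → ℕ) (F : I → Γ → ℤ)
    (_h : CD st m F) (a : I → ℤ) (_ha : OddRel st F a),
    ∃ (c : ℤ) (A : I → ℤ), 0 < c ∧ (∀ i, a i = c * A i) ∧ NForm st m A

/-- **S_RK (there is only one odd relation up to factors).** Uses S_REL.

Proof. Suppose that `a`, `b` are odd relations which are not proportional. Each nonzero combination
`x a + y b` (`x y : ℤ`) is an odd relation, so S_REL applies to it: the number of slots with
`A ≠ 0` and positive sign is `4` or `5`, and if it is `4` all the coefficients have the same absolute value.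
The total number of slots (pairs `{i, st i}`, `i ≠ st i`, with multiplicity `m i`) is at most five (`ten`).
Let `i` be a class with `a i ≠ 0`; the relation `r = (b i) a - (a i) b` is not zero and `r i = 0`,
so it has exactly `4` slots, all with the same absolute value, and `m i = 1`, and the total number of slots
is exactly `5`, and all classes different from `i`, `st i` and not self-dual are in the support of `r`.
So for each class `j ≠ st j`: either `a j ≠ 0` or `b j ≠ 0` (`j = i, st i`: `a i ≠ 0`; otherwise `r j ≠ 0`), and by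
the same argument (with `b` if `a j = 0`) `m j = 1`: there are exactly five pairs `{j, st j}`, `j ≠ st j`,
choose one class of each pair, `j₁, ..., j₅`, such that (after a factor) the relation `r` with `r j₁ = 0`
has `r j₂ = ... = r j₅ = 1` (replace `j` by `st j` if necessary) and the relation `r'` with `r' j₂ = 0` has
`r' j₁, r' j₃, r' j₄, r' j₅ ∈ {1, -1}`. The relation `r + r'` has at `j₁`, `j₂` the absolute value `1` and
at `j₃, j₄, j₅` the absolute values `0` or `2`; by S_REL the absolute values on `j₁, ..., j₅` are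
`c, c, c, c, 0` or `2 c, c, c, c, c` in some order, and both are impossible. (Instead of choosing the
`j_k` one may argue with `|r j|` and parity: `r + r'` takes odd values exactly on the classes `j₁`, `j₂`
(and duals), and even values on the three other pairs; in the first case of S_REL there are exactly four
pairs with the nonzero value `± c`, `c` is odd and there would be four odd ones; in the second case `c`
is odd and there are four odd ones.) -/
def S_RK : Prop :=
  ∀ (Γ I : Type) [Fintype I] [DecidableEq I] (st : I → I) (m : I → ℕ) (F : I → Γ → ℤ)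
    (_h : CD st m F) (a b : I → ℤ) (_ha : OddRel st F a) (_hb : OddRel st F b),
    ∃ x y : ℤ, x ≠ 0 ∧ y ≠ 0 ∧ ∀ i, x * a i = y * b i

/-- **S_COMB.** Uses S_REL, S_RK.

Proof. `c`, `A` by S_REL. `A` is an odd relation (`c ≠ 0`). For `τ` let `b i = A (π i)`, `π = π τ`. It is an
odd relation: `b (st i) = A (π (st i)) = A (st (π i)) = -b i`; for `σ'` take `σ` with `tm τ σ = σ'`, then
`∑ i, A (π i) * F i σ' = ∑ i, A (π i) * F (π i) σ = ∑ j, A j * F j σ = 0` (`π` is an injective map of a
finite set, so bijective); `b ≠ 0`. By S_RK `x A = y b` with `x, y ≠ 0`. `A` and `b` have the same sum of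
absolute values (`b` is a permutation of `A`), which is not zero, so `|x| = |y|` and `b = ± A`. -/
def S_COMB : Prop :=
  ∀ (Γ I : Type) [Fintype I] [DecidableEq I] (st : I → I) (m : I → ℕ) (F : I → Γ → ℤ)
    (_h : CD st m F) (π : Γ → I → I) (tm : Γ → Γ → Γ) (_hπ : ∀ τ, Function.Injective (π τ))
    (_hπs : ∀ τ i, π τ (st i) = st (π τ i)) (_hπF : ∀ τ i σ, F (π τ i) σ = F i (tm τ σ))
    (_htm : ∀ τ, Function.Surjective (tm τ)) (a : I → ℤ) (_ha : OddRel st F a),
    ∃ (c : ℤ) (A : I → ℤ), 0 < c ∧ (∀ i, a i = c * A i) ∧ NForm st m A ∧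
      ∀ τ, (∀ i, A (π τ i) = A i) ∨ (∀ i, A (π τ i) = -A i)

end Pool.Agent.H841.HC5
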