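import Mathlib
import Pool.Agent.H926.A.Qasm
import Pool.Agent.H926.A.Qloc
import Pool.Agent.H926.A.Qone
import Pool.Agent.H926.A.Qdet
import Pool.Agent.H841.HC5.Comb

/-!
# Hodge classes on all powers of abelian varieties of dimension at most five: lemma statements

Target (project HC5): `X` a complex abelian variety of dimension at most five without quotient of
Mumford's type (NO condition on the endomorphisms). Then for all `n` each Hodge class on `X ^ n` is in the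
ring generated by divisors and pull-backs of Weil classes for imaginary quadratic fields on abelian
fourfolds and on abelian sixfolds of discriminant `-1`. `QR per B c κ f`, `NQ Z B c` (`H926/A/Q0.lean`) is
the ring and the system of forms, as in `H926/A/*.lean`.

Notation: `Z` is a period matrix, `V = Fin G ⊕ Fin G → ℂ`, `LZ Z` the Hodge Lie algebra (spanned by
commutators of the `DS Z σ`), `tr Z U = dim (U ∩ (+1)) - dim (U ∩ (-1))` for the eigenspaces of `DZ Z`.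
-/

set_option linter.unusedSectionVars false

namespace Pool.Agent.H841.HC5

open Matrix Module Pool.Agent.W437.HC Pool.Agent.W437.HD Pool.Agent.TH504.CB Pool.Agent.W522.U
open Pool.Agent.Y90 hiding mulA exists_lam mulA_altQ
open Pool.Agent.W548.Odd hiding cv
open Pool.Agent.W437.HP (cK cK_mul cK_one)
open Pool.Agent.H204R3.CM (IsHodge)
open Pool.Agent.H204R3.SP (Kills bil2 IsTate)
open Pool.Agent.Y4.P (MaxM EigM cx)
open Pool.Agent.H926.A (NQ clo_NQ PDq AltE S_QWEIL)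

noncomputable section

section defs

variable {B : Type} [Fintype B] [DecidableEq B]

/-- `U` is isomorphic to `U'` (equivariantly for the matrices in `L`). -/
def Eqv (L : Submodule ℂ (Matrix B B ℂ)) (U U' : Submodule ℂ (B → ℂ)) : Prop :=
  ∃ T : (B → ℂ) →ₗ[ℂ] (B → ℂ), (∀ X ∈ L, ∀ u ∈ U, T (X *ᵥ u) = X *ᵥ T u) ∧
    (∀ u ∈ U, T u = 0 → u = 0) ∧ U.map T = U'

/-- There is a nonzero invariant pairing of `U` with `U'`. -/
def Prg (L : Submodule ℂ (Matrix B B ℂ)) (U U' : Submodule ℂ (B → ℂ)) : Prop :=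
  ∃ b : (B → ℂ) →ₗ[ℂ] (B → ℂ) →ₗ[ℂ] ℂ, (∃ u ∈ U, ∃ v ∈ U', b u v ≠ 0) ∧
    ∀ X ∈ L, ∀ u ∈ U, ∀ v ∈ U', b (X *ᵥ u) v + b u (X *ᵥ v) = 0

/-- The idempotent `ε` commutes with `L`, has coefficients in `ℚ + ℚ w`, and its image is the direct sum
of the images of the `W j` under the equivariant injective maps `T j`. -/
def IdT (L : Submodule ℂ (Matrix B B ℂ)) (w : ℂ) {J : Type} (W : J → Submodule ℂ (B → ℂ))
    (ε : Matrix B B ℂ) (T : J → (B → ℂ) →ₗ[ℂ] (B → ℂ)) : Prop :=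
  ε * ε = ε ∧ (∀ X ∈ L, X * ε = ε * X) ∧ (∀ i j, ∃ x y : ℚ, ε i j = x + y * w) ∧
    (∀ j, ∀ X ∈ L, ∀ u ∈ W j, T j (X *ᵥ u) = X *ᵥ T j u) ∧ (∀ j, ∀ u ∈ W j, T j u = 0 → u = 0) ∧
    iSupIndep (fun j => (W j).map (T j)) ∧ ∀ v, v ∈ (⨆ j, (W j).map (T j)) ↔ ε *ᵥ v = v

/-- The direct sum of the `W j` is isomorphic to the image of such an idempotent. -/
def IdJ (L : Submodule ℂ (Matrix B B ℂ)) (w : ℂ) {J : Type} (W : J → Submodule ℂ (B → ℂ)) : Prop :=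
  ∃ (ε : Matrix B B ℂ) (T : J → (B → ℂ) →ₗ[ℂ] (B → ℂ)), IdT L w W ε T

end defs

/-- The endomorphism algebra of the simple `Z'` has a totally real maximal commutative subfield. -/
def RM {a : ℕ} (Z' : Matrix (Fin a) (Fin a) ℂ) : Prop :=
  ∃ φ, MaxM Z' φ ∧ ∀ z ∈ (minpoly ℚ φ).aroots ℂ, z.im = 0

/-- All simple factors have a totally real maximal commutative subfield or dimension at most five. -/
def F5 {G : ℕ} (Z : Matrix (Fin G) (Fin G) ℂ) : Prop :=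
  ∀ (a : ℕ) (Z' : Matrix (Fin a) (Fin a) ℂ) (E : Matrix (Fin G ⊕ Fin G) (Fin a ⊕ Fin a) ℚ)
    (F : Matrix (Fin a ⊕ Fin a) (Fin G ⊕ Fin G) ℚ), Fac Z Z' E F → PM Z' → IsSimpleAV Z' →
    0 < a → RM Z' ∨ a ≤ 5

/-- The sum of the dimensions of pairwise non-isomorphic irreducible submodules which are not symplectic
is at most ten. -/
def S10 {G : ℕ} (Z : Matrix (Fin G) (Fin G) ℂ) : Prop :=
  ∀ (I : Type) [Fintype I] (W : I → Submodule ℂ (Fin G ⊕ Fin G → ℂ)), (∀ i, IrS (LZ Z) (W i)) →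
    (∀ i j, Eqv (LZ Z) (W i) (W j) → i = j) → (∀ i, ¬AltE (LZ Z) (W i)) →
      ∑ i, finrank ℂ (W i) ≤ 10

/-- Each simple factor of `Z` has a totally real maximal commutative subfield or is a factor of `Z₀`. -/
def FN {G G₀ : ℕ} (Z : Matrix (Fin G) (Fin G) ℂ) (Z₀ : Matrix (Fin G₀) (Fin G₀) ℂ) : Prop :=
  ∀ (a : ℕ) (Z' : Matrix (Fin a) (Fin a) ℂ) (E : Matrix (Fin G ⊕ Fin G) (Fin a ⊕ Fin a) ℚ)
    (F : Matrix (Fin a ⊕ Fin a) (Fin G ⊕ Fin G) ℚ), Fac Z Z' E F → PM Z' → IsSimpleAV Z' →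
    0 < a → RM Z' ∨ ∃ (E' : Matrix (Fin G₀ ⊕ Fin G₀) (Fin a ⊕ Fin a) ℚ)
      (F' : Matrix (Fin a ⊕ Fin a) (Fin G₀ ⊕ Fin G₀) ℚ), Fac Z₀ Z' E' F'

/-! ## Quadratic irrationalities -/

/-- **S_FIX.** Proof. `w ≠ 0`, `cc w = -w` (`w * w = -D < 0`: `w` is purely imaginary), so with `ρ = cc`
(complex conjugation, `Pool.Agent.Y90.cc`) `ρ w = -w`. Let `x` be fixed by all `σ` with `σ w = w`. For each `σ`
either `σ w = w` or `σ w = -w` (`(σ w) ^ 2 = w ^ 2`). `s = x + ρ x` is fixed by all `σ`: if `σ w = w` then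
`σ x = x` and `ρ⁻¹ σ ρ` fixes `w`, so `σ (ρ x) = ρ x`; if `σ w = -w` then `ρ⁻¹ σ` fixes `w`, so `σ x = ρ x`, and
`σ ρ` fixes `w`, so `σ (ρ x) = x`. In the same way `(x - ρ x) / w` is fixed by all `σ`. Numbers fixed by all
automorphisms of `ℂ` are rational: `exists_rat` (used in `rat_of_chr`, `Pool/Agent/H926/A/Qdet.lean`). -/
def S_FIX : Prop :=
  ∀ (w : ℂ) (D : ℚ) (_hD : 0 < D) (_hw : w * w = -(D : ℂ)) (x : ℂ)
    (_hx : ∀ σ : ℂ ≃+* ℂ, σ w = w → σ x = x), ∃ y z : ℚ, x = y + z * w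

/-- **S_W.** Proof. For `k : ℕ` let `w k = ∑ z ∈ Ω, n z * z ^ k`. Not all `w k` vanish: otherwise
`∑ z ∈ Ω, n z * p z = 0` for all polynomials `p`; take the Lagrange polynomial of a `z₀ ∈ Ω` with
`n z₀ ≠ 0` (or a Vandermonde determinant). `σ` permutes `Ω` (injective map of a finite set to itself), so
`σ (w k) = ∑ n z * (σ z) ^ k = ∑ χ σ * n (σ z) * (σ z) ^ k = χ σ * w k` (`χ σ = ± 1`, `n z = χ σ * n (σ z)`).
So `w ^ 2` is fixed by all `σ`, so it is rational (`exists_rat`), and `conj w = cc w = -w ≠ 0`, so `w` is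
purely imaginary and `w ^ 2 < 0`. -/
def S_W : Prop :=
  ∀ (Ω : Finset ℂ) (n : ℂ → ℤ) (χ : (ℂ ≃+* ℂ) → ℤ) (_hχ : ∀ σ, χ σ = 1 ∨ χ σ = -1)
    (_hΩ : ∀ (σ : ℂ ≃+* ℂ), ∀ z ∈ Ω, σ z ∈ Ω) (_hn : ∀ (σ : ℂ ≃+* ℂ), ∀ z ∈ Ω, n (σ z) = χ σ * n z)
    (_h0 : ∃ z ∈ Ω, n z ≠ 0) (_hcc : χ cc = -1),
    ∃ (w : ℂ) (D : ℚ), 0 < D ∧ w * w = -(D : ℂ) ∧ ∀ σ : ℂ ≃+* ℂ, σ w = χ σ * w

/-! ## Irreducible submodules -/

/-- **S_EQV (isomorphisms).**

Proof. (1) `T = id`. (2) symmetry: extend the inverse of `T : U → U'` by a linear projection `V → U'`.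
(3) composition. (4) conjugation: `T^σ v = σ (T (σ⁻¹ v))` (coordinatewise), `gal_LZ`. (5) images of
irreducible submodules. (6) dimension. (7) `cjS σ U ≅ cjS σ U'` by (4); for `tr` see `pd_iso` and its
analogue `qd_iso` (`Pool.Graph.R_seed8.Y90.Pie4`). (8) `pd_add_qd`. Look for these facts in the library
(`Pool.Graph.R_seed8.Y90.*`: `Tw (RZ Z) (fun _ => 1)`, `rz_equiv`, `finrank_cjS`, `IrS.cj`). -/
structure EqvL : Prop where
  refl : ∀ {G : ℕ} {Z : Matrix (Fin G) (Fin G) ℂ} {U : Submodule ℂ (Fin G ⊕ Fin G → ℂ)},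
    Eqv (LZ Z) U U
  symm : ∀ {G : ℕ} {Z : Matrix (Fin G) (Fin G) ℂ} {U U' : Submodule ℂ (Fin G ⊕ Fin G → ℂ)},
    Stab (LZ Z) U → Eqv (LZ Z) U U' → Eqv (LZ Z) U' U
  trans : ∀ {G : ℕ} {Z : Matrix (Fin G) (Fin G) ℂ} {U U' U'' : Submodule ℂ (Fin G ⊕ Fin G → ℂ)},
    Eqv (LZ Z) U U' → Eqv (LZ Z) U' U'' → Eqv (LZ Z) U U''
  cj : ∀ {G : ℕ} {Z : Matrix (Fin G) (Fin G) ℂ} {U U' : Submodule ℂ (Fin G ⊕ Fin G → ℂ)}
    (σ : ℂ ≃+* ℂ), Eqv (LZ Z) U U' → Eqv (LZ Z) (cjS σ U) (cjS σ U')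
  irr : ∀ {G : ℕ} {Z : Matrix (Fin G) (Fin G) ℂ} {U U' : Submodule ℂ (Fin G ⊕ Fin G → ℂ)},
    IrS (LZ Z) U → Eqv (LZ Z) U U' → IrS (LZ Z) U'
  fin : ∀ {G : ℕ} {Z : Matrix (Fin G) (Fin G) ℂ} {U U' : Submodule ℂ (Fin G ⊕ Fin G → ℂ)},
    Eqv (LZ Z) U U' → finrank ℂ U' = finrank ℂ U
  trc : ∀ {G : ℕ} {Z : Matrix (Fin G) (Fin G) ℂ}, PM Z →
    ∀ {U U' : Submodule ℂ (Fin G ⊕ Fin G → ℂ)},
    Stab (LZ Z) U → Eqv (LZ Z) U U' → ∀ σ : ℂ ≃+* ℂ, tr Z (cjS σ U') = tr Z (cjS σ U)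
  pq : ∀ {G : ℕ} {Z : Matrix (Fin G) (Fin G) ℂ}, PM Z → ∀ {U : Submodule ℂ (Fin G ⊕ Fin G → ℂ)},
    Stab (LZ Z) U → ∀ σ : ℂ ≃+* ℂ, ∃ p q : ℕ, p + q = finrank ℂ U ∧ tr Z (cjS σ U) = p - q

/-- **S_PRG (pairings).**

Proof. (1) symmetry: the transposed form. (2) conjugation: `b^σ u v = σ (b (σ⁻¹ u) (σ⁻¹ v))`. (3) compose
with the isomorphism. (4) A nonzero invariant pairing of irreducible modules is nondegenerate on both
sides (the kernels are stable), so `V' → Dual U` is an isomorphism, and so is `V'' → Dual U`; the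
composition of the first with the inverse of the second is an isomorphism `V' → V''` (extend to `V` by a
linear projection). In terms of `Du (RZ Z) 1` (`rz_du`) this may be in the library (used for `exists_repsQ`,
`H926/T/Non.lean`). (5) The form `om G` pairs `U` nontrivially with `cjS cc U`: for `0 ≠ u ∈ U` the positive
definite Hermitian form `u ↦ om G (J u) (conj u)`-like (`PM.pos`): with `E = ` real symplectic form, `J` the
complex structure, `E (J u) (conj u)`, has a nonzero value for `u ≠ 0`, and `J u ∈ U` (`U` is stable under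
`DZ Z = ± i J`), `conj u ∈ cjS cc U`. Look for this in the library (`tr_dual`, `Pie*.lean`, `hermZ`).
(6) traces: `tr_st`/`tr_dual` in the library (`DS Z σ` is skew for `b`). -/
structure PrgL : Prop where
  symm : ∀ {G : ℕ} {Z : Matrix (Fin G) (Fin G) ℂ} {U U' : Submodule ℂ (Fin G ⊕ Fin G → ℂ)},
    Prg (LZ Z) U U' → Prg (LZ Z) U' U
  cj : ∀ {G : ℕ} {Z : Matrix (Fin G) (Fin G) ℂ} {U U' : Submodule ℂ (Fin G ⊕ Fin G → ℂ)}
    (σ : ℂ ≃+* ℂ), Prg (LZ Z) U U' → Prg (LZ Z) (cjS σ U) (cjS σ U')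
  eqv : ∀ {G : ℕ} {Z : Matrix (Fin G) (Fin G) ℂ} {U U' V' : Submodule ℂ (Fin G ⊕ Fin G → ℂ)},
    Stab (LZ Z) U → Eqv (LZ Z) U U' → Prg (LZ Z) U V' → Prg (LZ Z) U' V'
  uniq : ∀ {G : ℕ} {Z : Matrix (Fin G) (Fin G) ℂ} {U V' V'' : Submodule ℂ (Fin G ⊕ Fin G → ℂ)},
    IrS (LZ Z) U → IrS (LZ Z) V' → IrS (LZ Z) V'' → Prg (LZ Z) U V' → Prg (LZ Z) U V'' →
      Eqv (LZ Z) V' V''
  cc : ∀ {G : ℕ} {Z : Matrix (Fin G) (Fin G) ℂ}, PM Z → ∀ {U : Submodule ℂ (Fin G ⊕ Fin G → ℂ)},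
    IrS (LZ Z) U → Prg (LZ Z) U (cjS cc U)
  trc : ∀ {G : ℕ} {Z : Matrix (Fin G) (Fin G) ℂ}, PM Z →
    ∀ {U U' : Submodule ℂ (Fin G ⊕ Fin G → ℂ)},
    IrS (LZ Z) U → IrS (LZ Z) U' → Prg (LZ Z) U U' → finrank ℂ U' = finrank ℂ U ∧
      ∀ σ : ℂ ≃+* ℂ, tr Z (cjS σ U') = -tr Z (cjS σ U)

/-- **S_TRI (small dimensions and traces).**

Proof. (1) `one`: `LZ Z` is generated by the `DS Z σ` (`LZ_le`), `DS Z σ ^ 2 = 1`, and `DS Z σ` acts on the
line `U` as the scalar `tr Z (cjS σ.symm U) = ± 1` (`pq`; compare `mem_cj_eig`, `jtrace`); so the `DS Z σ`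
act on `U` and `U'` as the same scalars, and each linear isomorphism `U → U'` (extended to `V`) commutes
with all `X ∈ LZ Z` (the set of the matrices which act on `U` and `U'` as the same scalar is a Lie
algebra).
(2) `two`: if `tr Z (cjS σ U) = ± finrank U` for all `σ` then each `DS Z σ` acts on `U` as a scalar `± 1`, so
all elements of `LZ Z` act on `U` as scalars (these matrices are a Lie algebra), and each line in `U` is
stable; contradiction to `IrS`, `finrank U ≥ 2`. (Compare S_QTWO, `Pool/Agent/H926/A/Qtwo.lean`.)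
(3) `zero`: all `DS Z σ` act on `U` with trace zero, so all elements of `LZ Z` do (`trace_all`,
or: commutators have trace zero), and the determinant form on the plane `U` is invariant:
`det (X u) v + det u (X v) = trace X * det u v = 0`. (Compare `Qtwo.lean`.) -/
structure TriL : Prop where
  one : ∀ {G : ℕ} {Z : Matrix (Fin G) (Fin G) ℂ}, PM Z →
    ∀ {U U' : Submodule ℂ (Fin G ⊕ Fin G → ℂ)}, IrS (LZ Z) U → IrS (LZ Z) U' →
      finrank ℂ U = 1 → finrank ℂ U' = 1 →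
      (∀ σ : ℂ ≃+* ℂ, tr Z (cjS σ U) = tr Z (cjS σ U')) →
      Eqv (LZ Z) U U'
  two : ∀ {G : ℕ} {Z : Matrix (Fin G) (Fin G) ℂ}, PM Z →
    ∀ {U : Submodule ℂ (Fin G ⊕ Fin G → ℂ)}, IrS (LZ Z) U → 2 ≤ finrank ℂ U →
      ∃ σ : ℂ ≃+* ℂ, tr Z (cjS σ U) ≠ finrank ℂ U ∧
        tr Z (cjS σ U) ≠ -(finrank ℂ U : ℤ)
  zero : ∀ {G : ℕ} {Z : Matrix (Fin G) (Fin G) ℂ}, PM Z →
    ∀ {U : Submodule ℂ (Fin G ⊕ Fin G → ℂ)}, IrS (LZ Z) U → finrank ℂ U = 2 →
      (∀ σ : ℂ ≃+* ℂ, tr Z (cjS σ U) = 0) → Prg (LZ Z) U U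

/-- **S_RL (totally real maximal subfields).**

Proof. `Pool.Agent.Y261.P.jspec` for `φ`: a root `z` and `T` with `U'.map T = EigM φ z`; `z` is real, so
`om a` is not zero on `EigM φ z` (`Pool.Agent.Y4.P.om_real`), and `b u v = om a (T u) (T v)`: this is case 1 of
`s_qloc` (`Pool/Agent/H926/A/Qloc.lean`). -/
def S_RL : Prop :=
  ∀ (a : ℕ) (Z' : Matrix (Fin a) (Fin a) ℂ) (_h : PM Z') (_hs : IsSimpleAV Z') (_ha : 0 < a)
    (_hr : RM Z') (U' : Submodule ℂ (Fin a ⊕ Fin a → ℂ)) (_hU : IrS (LZ Z') U'),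
    AltE (LZ Z') U' ∧ Prg (LZ Z') U' U'

/-- **S_IND (independence).** Proof. Pairwise non-isomorphic irreducible submodules are independent:
induction on the finite set / a relation `∑ v i = 0`, `v i ∈ W i`, of minimal length; or: a minimal
dependent set `{W i}_{i ∈ s} ∪ {W j}` gives `W j ≤ ⨆ i ∈ s, W i` (`W j ⊓ ⨆` is stable and not zero) with the
`W i`, `i ∈ s`, independent; for one of the projections `⨆ W i → W i` (equivariant) the restriction to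
`W j` is not zero, so by Schur's lemma it is an isomorphism `W j ≅ W i` (extend to `V` linearly). -/
def S_IND : Prop :=
  ∀ (G : ℕ) (Z : Matrix (Fin G) (Fin G) ℂ) (_h : PM Z) (I : Type) [Fintype I]
    (W : I → Submodule ℂ (Fin G ⊕ Fin G → ℂ)) (_hW : ∀ i, IrS (LZ Z) (W i))
    (_hWW : ∀ i j, Eqv (LZ Z) (W i) (W j) → i = j), iSupIndep W

/-- **S_Q11 (multiplicity one, dimension one).**

Proof. Let `A` be the algebra of the rational matrices `ψ` with `qm ψ * DZ Z' = DZ Z' * qm ψ`. It is a division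
algebra (`Pool.Agent.Y261.P.div_of_comm`). Fix `v ≠ 0` in `ℚ ^ (2 a)`: `ψ ↦ ψ v` is injective on `A`, so it is
injective on `ℚ[φ]` of dimension `deg = 2 a`, so `ℚ[φ] v = ℚ ^ (2 a)`; for `ψ ∈ A` there is a `g ∈ ℚ[φ]` with
`ψ v = g v`, so `ψ = g`. So all `ψ ∈ A` commute with `φ`. The isomorphism `EigM z → EigM z'`, composed with
the projector `Pz φ z` (which commutes with `LZ Z'`: `Pz_comm` and `LZ_le`), is a matrix `M ≠ 0` which commutes
with `LZ Z'` and maps `EigM z` injectively to `EigM z'` (and kills the other eigenspaces). `M` commutes with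
all `DS Z' σ`; the space of the complex matrices which commute with all `DS Z' σ` is spanned by the rational
ones in it (library: `exp_mem`; `CF`, `CF_scal` and its proof in `Y261/P/Spec.lean`; `TT` in
`Pool.Graph.R_seed8.Y90.Wei7`), which are in `A`. So `M` commutes with `qm φ`, but `qm φ (M v) = z' M v` and
`M (qm φ v) = z M v` for `v ∈ EigM z`, `M v ≠ 0`: `z = z'`. -/
def S_Q11 : Prop :=
  ∀ (a : ℕ) (Z' : Matrix (Fin a) (Fin a) ℂ) (_h : PM Z') (_hs : IsSimpleAV Z') (_ha : 0 < a)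
    (φ : Matrix (Fin a ⊕ Fin a) (Fin a ⊕ Fin a) ℚ) (_hφ : MaxM Z' φ)
    (_hd : (minpoly ℚ φ).natDegree = 2 * a) (z z' : ℂ)
    (_hz : z ∈ (minpoly ℚ φ).aroots ℂ) (_hz' : z' ∈ (minpoly ℚ φ).aroots ℂ)
    (_he : Eqv (LZ Z') (EigM φ z) (EigM φ z')), z = z'

/-- **S_Q1 (multiplicity one).** Uses `EqvL`, `PrgL`, `TriL`, S_Q11.

Proof. `Pool.Agent.Y261.P.jspec`, `EigM_irr`, `finrank_EigM`: `r m = 2 a ≤ 10`, where `r` is the degree
of the minimal polynomial of `φ` and `m = finrank (EigM φ z)` for each root `z` (all roots: same `m`).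
`cjS σ (EigM φ z) = EigM φ (σ z)` (`φ` is rational) and `σ z` is a root. The minimal polynomial is irreducible
(`Y261.P.minpoly_irr`), so each root is `σ z` for an automorphism `σ` of `ℂ` (library: look for it, e.g. in
the proof of `maxcm` or `jspec`; otherwise `IsAlgClosed.lift`/extension of isomorphisms). No root `x` is
real: `om a` would be nonzero on `EigM φ x` (`Pool.Agent.Y4.P.om_real`), so `Prg (EigM x) (EigM x)`, and by
conjugation `Prg (EigM z) (EigM z)`, a contradiction. So the roots come in complex conjugate pairs and `r`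
is even. Suppose `z ≠ z'`. `EigM (cc z) = cjS cc (EigM z)` pairs with `EigM z` (`PrgL.cc`). `cc z ≠ z'`:
otherwise `EigM z ≅ EigM z' = cjS cc (EigM z)` and `Prg (EigM z) (EigM z)`. So `z, z', cc z, cc z'` are four
different roots, `r ≥ 4`, `r` even, `r m = 2 a ≤ 10`, so `m ≤ 2`.
`m = 2`: `r = 4`, these are all roots. For each `σ`: `σ z` is one of them, so `cjS σ (EigM z) = EigM (σ z)` is
isomorphic to `EigM z` or to its dual `cjS cc (EigM z)`, so `tr (cjS σ (EigM z)) = ± tr (EigM z)`.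
`tr (EigM z) ∈ {0, 2, -2}` (`pq`). If it is `0` then `TriL.zero` gives `Prg (EigM z) (EigM z)`, a
contradiction; if it is `± 2` this contradicts `TriL.two`.
`m = 1`: `r = 2 a`, S_Q11. -/
def S_Q1 : Prop :=
  ∀ (a : ℕ) (Z' : Matrix (Fin a) (Fin a) ℂ) (_h : PM Z') (_hs : IsSimpleAV Z') (_ha : 0 < a)
    (_h5 : a ≤ 5) (φ : Matrix (Fin a ⊕ Fin a) (Fin a ⊕ Fin a) ℚ) (_hφ : MaxM Z' φ) (z z' : ℂ)
    (_hz : z ∈ (minpoly ℚ φ).aroots ℂ) (_hz' : z' ∈ (minpoly ℚ φ).aroots ℂ)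
    (_hn : ¬Prg (LZ Z') (EigM φ z) (EigM φ z)) (_he : Eqv (LZ Z') (EigM φ z) (EigM φ z')), z = z'

/-- **S_FM (the model of an irreducible submodule).**

Proof. `exists_fac h hU.1` (see `s_qloc`, `Pool/Agent/H926/A/Qloc.lean`) gives the simple factor and
`ml F` injective on `U`, `U' = U.map (ml F)` irreducible (`Fac.inj`, `Fac.irr`); `φ` by
`Pool.Agent.Y484.MC.maxcm a Z' h' hs ha`; `Pool.Agent.Y261.P.jspec a Z' h' hs ha φ hφ` gives the root `z` and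
`T'`, equivariant for `LZ Z'`, injective on `U'`, `U'.map T' = EigM φ z`. `T = ml E ∘ T' ∘ ml F` is equivariant for
`LZ Z` (`Fac.comp`, `Fac.act`: `ml F (X v) = (F X E) (ml F v)`, `X * E = E * (F X E)`), injective on `U` (`F E = 1`)
and maps `U` onto `(EigM φ z).map (ml E)`. Conjugation: `T^σ v = σ (T (σ⁻¹ v))` is linear and equivariant
(`gal_LZ`), and `cjS σ ((EigM φ z).map (ml E)) = (EigM φ (σ z)).map (ml E)` since `E` and `φ` are rational;
`σ z` is a root (`Y261.P.Rt_aut`). -/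
def S_FM : Prop :=
  ∀ (G : ℕ) (Z : Matrix (Fin G) (Fin G) ℂ) (_h : PM Z) (U : Submodule ℂ (Fin G ⊕ Fin G → ℂ))
    (_hU : IrS (LZ Z) U),
    ∃ (a : ℕ) (Z' : Matrix (Fin a) (Fin a) ℂ) (E : Matrix (Fin G ⊕ Fin G) (Fin a ⊕ Fin a) ℚ)
      (F : Matrix (Fin a ⊕ Fin a) (Fin G ⊕ Fin G) ℚ) (φ : Matrix (Fin a ⊕ Fin a) (Fin a ⊕ Fin a) ℚ)
      (z : ℂ), Fac Z Z' E F ∧ PM Z' ∧ IsSimpleAV Z' ∧ 0 < a ∧ MaxM Z' φ ∧
      ∀ σ : ℂ ≃+* ℂ, σ z ∈ (minpoly ℚ φ).aroots ℂ ∧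
        Eqv (LZ Z) (cjS σ U) ((EigM φ (σ z)).map (ml E))

/-- **S_FT (transfer between a factor and the whole space).**

Proof. `ml E` is injective (`F E = 1`). First part: `T' = ml F ∘ T ∘ ml E`; for `Y ∈ LZ Z'` there is an
`X ∈ LZ Z` with `F X E = Y` (`Fac.lift`), `X * E = E * Y`, `F * X = Y * F` (`Fac.comp`). Second part:
`b u v = b' (ml F u) (ml F v)`. -/
def S_FT : Prop :=
  ∀ (G a : ℕ) (Z : Matrix (Fin G) (Fin G) ℂ) (Z' : Matrix (Fin a) (Fin a) ℂ)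
    (E : Matrix (Fin G ⊕ Fin G) (Fin a ⊕ Fin a) ℚ) (F : Matrix (Fin a ⊕ Fin a) (Fin G ⊕ Fin G) ℚ)
    (_hf : Fac Z Z' E F) (U₁ U₂ : Submodule ℂ (Fin a ⊕ Fin a → ℂ)) (_h₁ : Stab (LZ Z') U₁)
    (_h₂ : Stab (LZ Z') U₂),
    (Eqv (LZ Z) (U₁.map (ml E)) (U₂.map (ml E)) → Eqv (LZ Z') U₁ U₂) ∧
      (Prg (LZ Z') U₁ U₂ → Prg (LZ Z) (U₁.map (ml E)) (U₂.map (ml E)))

/-- **S_ORBF (the idempotent of an orbit).** Uses S_FIX.

Proof. `Ω = Finset.univ.image z` (a subset of `Y261.P.Rt φ`), `ε' = ∑ j, Pz φ (z j)` (`Pool.Agent.Y261.P.Pz`;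
`Pz_mem`, `Pz_idem`, `Pz_self`, `Pz_other`, `Pz_comm`, `Pz_map`; the minimal polynomial is separable because
it is irreducible, `minpoly_irr`): an idempotent which commutes with `LZ Z'` with the image
`⨁ j, EigM φ (z j)`. If `σ w = w` then `σ` permutes `Ω` and `ε'.map σ = ε'` (`Pz_map`), so by S_FIX the
coefficients of `ε'` are in `ℚ + ℚ w`. `ε = cK ℂ E * ε' * cK ℂ F` has the same property (`E`, `F` rational), is
idempotent (`F E = 1`), commutes with `LZ Z` (`Fac.comp`), and its image is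
`⨆ j, (EigM φ (z j)).map (ml E)` (compare `H297.transfer_q` in `Qloc.lean` and `Pool.Agent.Y4.P.jtransfer2`).
`T j` from `_hWz`: `(W j).map (T j) = (EigM φ (z j)).map (ml E)`. Independence: eigenspaces for different
eigenvalues (`Module.End.eigenspaces_iSupIndep`) and `ml E` injective (`iSupIndep.map_...`). -/
def S_ORBF : Prop :=
  ∀ (G a : ℕ) (Z : Matrix (Fin G) (Fin G) ℂ) (Z' : Matrix (Fin a) (Fin a) ℂ)
    (E : Matrix (Fin G ⊕ Fin G) (Fin a ⊕ Fin a) ℚ) (F : Matrix (Fin a ⊕ Fin a) (Fin G ⊕ Fin G) ℚ)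
    (_hf : Fac Z Z' E F) (_h : PM Z) (_h' : PM Z') (_hs : IsSimpleAV Z') (_ha : 0 < a)
    (φ : Matrix (Fin a ⊕ Fin a) (Fin a ⊕ Fin a) ℚ) (_hφ : MaxM Z' φ) (w : ℂ) (D : ℚ)
    (_hD : 0 < D) (_hw : w * w = -(D : ℂ)) (J : Type) [Fintype J] (z : J → ℂ)
    (_hz : ∀ j, z j ∈ (minpoly ℚ φ).aroots ℂ) (_hzi : Function.Injective z)
    (_hst : ∀ σ : ℂ ≃+* ℂ, σ w = w → ∀ j, ∃ k, σ (z j) = z k)
    (W : J → Submodule ℂ (Fin G ⊕ Fin G → ℂ)) (_hW : ∀ j, IrS (LZ Z) (W j))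
    (_hWz : ∀ j, Eqv (LZ Z) (W j) ((EigM φ (z j)).map (ml E))), IdJ (LZ Z) w W

/-- **S_ORB (orbits).** Uses `EqvL`, `PrgL`, S_Q1, S_FM, S_FT, S_ORBF, S_RL.

Proof. Let `U = W j₀`. S_FM gives `Z'`, `E`, `F`, `φ`, `z`; put
`M x = (EigM φ x).map (ml E)`, so `Eqv (cjS σ U) (M (σ z))` for all `σ`. `F5 Z` gives `a ≤ 5`: the other
alternative `RM Z'` implies by S_RL `Prg (EigM φ z) (EigM φ z)`, which is excluded (see below). Choose for each `j` (by `_htr`) a `σ j`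
with `σ j w = w`, `Eqv (cjS (σ j) U) (W j)`, and `z j = σ j z`, so `Eqv (W j) (M (z j))`
(`EqvL.symm`, `EqvL.trans`; `cjS σ U` is irreducible by `IrS.cj gal_LZ`). `j ↦ z j` is injective (`_hWW`).
Let `σ w = w`; for `σ (z j)` let `σ' = (σ j).trans σ` (`σ' w = w`, `σ' z = σ (z j)`); by `_hst`
`Eqv (cjS σ' U) (W k)` for some `k`, so `Eqv (M (σ' z)) (M (z k))`, and by S_FT
`Eqv (LZ Z') (EigM φ (σ' z)) (EigM φ (z k))` (`EigM_stab`). `EigM φ (σ' z)` is not self-dual: otherwise S_FT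
gives `Prg (M (σ' z)) (M (σ' z))`, so `Prg (cjS σ' U) (cjS σ' U)` (`PrgL.eqv`, `PrgL.symm`), so (`PrgL.cj` with
`σ'.symm`, `cjS_symm`) `Prg U U`, a contradiction to `_hn`. S_Q1 gives `σ (z j) = σ' z = z k`. Now S_ORBF. -/
def S_ORB : Prop :=
  ∀ (G : ℕ) (Z : Matrix (Fin G) (Fin G) ℂ) (_h : PM Z) (_h5 : F5 Z) (w : ℂ) (D : ℚ) (_hD : 0 < D)
    (_hw : w * w = -(D : ℂ)) (J : Type) [Fintype J]
    (W : J → Submodule ℂ (Fin G ⊕ Fin G → ℂ)) (_hW : ∀ j, IrS (LZ Z) (W j))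
    (_hWW : ∀ i j, Eqv (LZ Z) (W i) (W j) → i = j) (j₀ : J)
    (_hst : ∀ σ : ℂ ≃+* ℂ, σ w = w → ∃ j, Eqv (LZ Z) (cjS σ (W j₀)) (W j))
    (_htr : ∀ j, ∃ σ : ℂ ≃+* ℂ, σ w = w ∧ Eqv (LZ Z) (cjS σ (W j₀)) (W j))
    (_hn : ¬Prg (LZ Z) (W j₀) (W j₀)), IdJ (LZ Z) w W

/-! ## Determinants -/

/-- **S_JTR (traces).**

Proof. As `Pool.Agent.Y977.P.jtrace` (the case of one `W j`): `V` is the direct sum of the image of `ε`
and its kernel, `DS Z σ` commutes with `ε` (`DS_mem`), so `trace (DS Z σ * ε)` is the trace of the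
restriction of `DS Z σ` to the image of `ε`, which is the direct sum of the stable subspaces
`(W j).map (T j) ≅ W j`; so it is the sum of the traces of the restrictions of `DS Z σ` to the `W j`, and
these are `tr Z (cjS σ.symm (W j))`. (One may also derive it from `jtrace` itself: let `ε j` be the
projection to `(W j).map (T j)` along the other ones and the kernel of `ε`: `ε = ∑ j, ε j`, `ε j` is
idempotent, commutes with `LZ Z`, and has the image `(W j).map (T j)`; then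
`trace (DS Z σ * ε) = ∑ j, trace (DS Z σ * ε j)` and `jtrace` for each `j`. The projection exists by
`iSupIndep` and `ε *ᵥ v ∈ ⨆ j, (W j).map (T j)`.) -/
def S_JTR : Prop :=
  ∀ (G : ℕ) (Z : Matrix (Fin G) (Fin G) ℂ) (_h : PM Z) (w : ℂ) (J : Type) [Fintype J]
    (W : J → Submodule ℂ (Fin G ⊕ Fin G → ℂ)) (_hW : ∀ j, IrS (LZ Z) (W j))
    (ε : Matrix (Fin G ⊕ Fin G) (Fin G ⊕ Fin G) ℂ)
    (T : J → (Fin G ⊕ Fin G → ℂ) →ₗ[ℂ] (Fin G ⊕ Fin G → ℂ)) (_hT : IdT (LZ Z) w W ε T)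
    (σ : ℂ ≃+* ℂ),
    Matrix.trace (DS Z σ * ε) = ((∑ j, tr Z (cjS σ.symm (W j)) : ℤ) : ℂ)

/-- **S_ELEM (products of determinants).** Uses S_QWEIL (`Pool.Agent.H926.A.s_qweil`, take it as a
hypothesis), S_JTR.

Proof. Compare `s_qone` (`Pool/Agent/H926/A/Qone.lean`), which is the case that each fibre of `bl` has one
element; the second half (`hdB`) of that proof is to be copied. Let `K = ℚ(w)`
(`IntermediateField.adjoin ℚ {w}`). For each `x : S` take `ε x`, `T x` from `_hI`;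
`exists_PQ Pool.Agent.Y317.P.Idem.x (ε x) ..` gives `d x`, `P x`, `Q x` over `K` with `cx (P x * Q x) = ε x`,
`Q x * P x = 1`. The coordinates: the linear isomorphism `A x : ((y : fibre) → W y) ≃ (Fin (d x) → ℂ)`,
`(u_y) ↦ cx (Q x) *ᵥ ∑ y, T x y (u_y)` (injective by `iSupIndep` and the injectivity of the `T x y`,
surjective since the image of `ε x` is `⨆ (W y).map (T x y)`), `cx (P x) *ᵥ A x u = ∑ y, T x y (u_y)`. So
`d x = ∑ y, finrank (W y)`, and (bases) a bijection `e x : (Σ y : fibre, ι y) ≃ Fin (d x)`. For the slot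
`k = (x, i)`, `i = e x (y, t)`, let `R k v = A x (Pi.single y (q y t v))`, an equivariant map (as in
`s_qone`). The matrix with the rows `A x (Pi.single y (q y t (v ⟨y, t⟩)))`, `(y, t)` in the fibre, is the
matrix of the vectors `Pi.single y (q y t ..)` of `(y : fibre) → W y` in the basis given by `A x`; its
determinant is a nonzero constant (change of basis, `det_coord`) times the determinant in the basis
`Pi.basis f`, which is block diagonal, so it is `∏ y, (f y).det (fun t => q y t (v ⟨y, t⟩))`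
(`Matrix.det_blockDiagonal'`). The traces: S_JTR and `_htr` give
`∑ x, trace (DS Z σ * ε x) = 0` for all `σ`, and `Pool.Agent.Y4.P.trace_all` gives it for all `X ∈ LZ Z`.
`∑ x, d x = ∑ y, finrank (W y) ≤ B`. S_QWEIL and reindexing (`(clo_NQ Z B c).reindex`,
`(Σ y, ι y) ≃ Σ x, Fin (d x)`). -/
def S_ELEM : Prop :=
  ∀ (B G : ℕ) (Z : Matrix (Fin G) (Fin G) ℂ) (_h : PM Z) (w : ℂ) (D : ℚ) (_hD : 0 < D)
    (_hw : w * w = -(D : ℂ)) (S₀ S : Type) [Fintype S₀] [DecidableEq S₀] [Fintype S]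
    [DecidableEq S] (bl : S₀ → S) (W : S₀ → Submodule ℂ (Fin G ⊕ Fin G → ℂ))
    (_hW : ∀ y, IrS (LZ Z) (W y)) (_hI : ∀ x, IdJ (LZ Z) w (fun y : {y : S₀ // bl y = x} => W y.1))
    (_htr : ∀ σ : ℂ ≃+* ℂ, ∑ y, tr Z (cjS σ (W y)) = 0) (_hB : ∑ y, finrank ℂ (W y) ≤ B)
    (c : Prop) (_hc : c → ∑ y, finrank ℂ (W y) = 6 →
      ∃ x, Odd (∑ y : {y : S₀ // bl y = x}, finrank ℂ (W y.1)))
    (ι : S₀ → Type) [∀ y, Fintype (ι y)] [∀ y, DecidableEq (ι y)] (f : ∀ y, Basis (ι y) ℂ (W y))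
    (q : ∀ y, ι y → (Fin G ⊕ Fin G → ℂ) →ₗ[ℂ] W y)
    (_hq : ∀ y t, ∀ X ∈ LZ Z, ∀ v, (q y t (X *ᵥ v) : Fin G ⊕ Fin G → ℂ) =
      X *ᵥ (q y t v : Fin G ⊕ Fin G → ℂ))
    (ψ : MultilinearMap ℂ (fun _ : (Σ y, ι y) => Fin G ⊕ Fin G → ℂ) ℂ)
    (_hψ : ∀ v, ψ v = ∏ y, (f y).det (fun t => q y t (v ⟨y, t⟩))),
    ψ ∈ NQ Z B c (Σ y, ι y)

/-- **S_CLS (the classification).** Uses `EqvL`, `PrgL`, `TriL`, S_COMB, S_W, S_FM.

Proof. Let `U : Fin s₀ → _` be representatives of all irreducible submodules of `V` up to isomorphism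
(`exists_reps (rz_proj h)`, see `exists_repsQ` in `Pool/Agent/H926/T/Non.lean`, translate with `rz_equiv`,
`si_iff h.genI`; or directly from S10: a maximal family): `Eqv (U i) (U j) → i = j` and each irreducible
submodule is isomorphic to some `U i`. Let `st₀ i` be the index of `cjS cc (U i)` (the dual, `PrgL.cc`),
`π τ i` the index of `cjS τ (U i)`, `m i = finrank (U i)`, `F i σ = tr Z (cjS σ (U i))`, `tm τ σ = τ.trans σ`
(`cjS_trans`), `Γ = ℂ ≃+* ℂ`. `CD st₀ m F` by `EqvL`, `PrgL`, `TriL` and `S10 Z` (`ten`: if `st₀ i ≠ i` then `U i` is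
not self-dual, in particular not symplectic (`AltE` implies `Prg (U i) (U i)`); `zero`: if all
`F i σ = 0` and `m i = 2` then `Prg (U i) (U i)`, so `U i ≅ cjS cc (U i)` by `PrgL.uniq` and `st₀ i = i`).
Let `ρ : Fin s → Fin s₀` be the index of `W i`; it is injective, because `Eqv (W i) (W j)` implies
`Prg (W j) (W (st i))`, so `st i = st j`, `i = j`. `ρ (st i) = st₀ (ρ i)` (`PrgL.uniq`). Let
`a₀ (ρ i) = a i` and `a₀ = 0` outside of the image of `ρ`: an odd relation. S_COMB gives `c`, `A₀`; `A = A₀ ∘ ρ`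
(and `A₀ = 0` outside of the image, so the sums over `A₀ i = 1` are the same). `χ τ = 1` if
`A₀ (π τ i) = A₀ i` for all `i`, and `-1` otherwise (then `A₀ (π τ i) = -A₀ i` for all `i`).
`χ cc = -1` because `A₀ (st₀ i) = -A₀ i` and `A₀ ≠ 0`. For `w`: take `i` with `A₀ i ≠ 0` and S_FM for `U i`:
`Eqv (cjS σ (U i)) (M (σ z₀))`, `M z = (EigM φ z).map (ml E)`, for all `σ`. `Ω` = the set of the numbers `σ z₀`
(finite: roots of `minpoly ℚ φ`; take `Rt φ` filtered by `∃ σ, z = σ z₀`), `n z = A₀ (index of M z)` (`n (σ z₀) =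
A₀ (π σ i)`; `n z = 0` if `z` is not in `Ω`). For `z = τ z₀`: `M (σ z) ≅ cjS σ (M z)` as both are isomorphic to
`cjS (τ.trans σ) (U i)`, so `n (σ z) = A₀ (π σ (π τ i)) = χ σ * n z`; `n z₀ = A₀ i ≠ 0` (`σ` = identity,
`RingEquiv.refl ℂ`). S_W gives `w`, `D`. If `σ w = w` then `χ σ = 1` (`w ≠ 0`), and for `A i ≠ 0`
the class `k = π σ (ρ i)` of `cjS σ (W i)` has `A₀ k = A i ≠ 0`, so `k = ρ j` and `A j = A i`. -/
def S_CLS : Prop :=
  ∀ (G : ℕ) (Z : Matrix (Fin G) (Fin G) ℂ) (_h : PM Z) (_h10 : S10 Z) (s : ℕ)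
    (W : Fin s → Submodule ℂ (Fin G ⊕ Fin G → ℂ)) (_hW : ∀ i, IrS (LZ Z) (W i))
    (st : Fin s → Fin s) (_hst : ∀ i, st (st i) = i)
    (_hDu : ∀ i, Prg (LZ Z) (W i) (W (st i))) (_hDu' : ∀ i j, Prg (LZ Z) (W i) (W j) → j = st i)
    (a : Fin s → ℤ) (_ha : ∀ i, a (st i) = -a i)
    (_htr : ∀ σ : ℂ ≃+* ℂ, ∑ i, a i * tr Z (cjS σ (W i)) = 0) (_h0 : a ≠ 0),
    ∃ (c : ℤ) (A : Fin s → ℤ) (w : ℂ) (D : ℚ), 0 < c ∧ (∀ i, a i = c * A i) ∧ 0 < D ∧
      w * w = -(D : ℂ) ∧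
      (∀ σ : ℂ ≃+* ℂ, σ w = w → ∀ i, A i ≠ 0 →
        ∃ j, A j = A i ∧ Eqv (LZ Z) (cjS σ (W i)) (W j)) ∧
      NForm st (fun i => finrank ℂ (W i)) A

/-- **S_QD5 (products of determinants).** Uses S_CLS, S_ORB, S_ELEM, `EqvL`, `PrgL`. Compare `s_qdet`
(`Pool/Agent/H926/A/Qdet.lean`) and the tools `prodM`, `PA`, `PA_classes`, `of_PA_univ` there.

Proof. If `a = 0` then `Σ i, Fin (a i).toNat` is empty and `ψ` is a constant (`hN.unit`; or `PA_empty`).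
Otherwise S_CLS (traces: `Pool.Agent.Y4.P.tr_rel`; `Du (RZ Z) 1` and `Prg` by `rz_du`) gives `c`, `A`, `w`,
`D`. Let `Sg = Σ i, Fin (a i).toNat`; for `x = (i, k)`: `a i = c * A i > 0`, `A i ∈ {1, 2}`. Let `χ x = k % c`
(in `Fin c.toNat` or `ℕ`). By `PA_classes` it suffices to treat one class `{x | χ x = g}`, `g < c`, i.e. the
`(i, g + c l)` with `l < A i`, `0 < A i`. S_ELEM with `S₀ = {x : Sg // χ x = g}` and the blocks: the equivalence
relation `(i, k) ~ (j, k')` iff `k = k'` and there is a `σ` with `σ w = w` and `Eqv (cjS σ (W i)) (W j)`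
(then `A i = A j`), `S = Quotient`, `bl` the projection. Each fibre satisfies the hypotheses of S_ORB: for
`j₀ = (i, k)` and `σ w = w` there is a `j` with `A j = A i` and `Eqv (cjS σ (W i)) (W j)`, and `(j, k)` is in
the fibre; `W i` is not self-dual as `a i ≠ 0` (`st i = i` would give `a i = 0`); the `W i` are pairwise not
isomorphic (as in S_CLS). The traces: `∑ x, tr Z (cjS σ (W x.1)) = 0` over all `x : Sg`
(`Pool.Agent.Y4.P.tr_pos`) is `c` times the sum over one class (the number of `k < c A i` with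
`k % c = g` is `A i` for each `g`), so the sum over each class is zero. The dimensions: in the first case of
`NForm` the sum over the class is `4`; in the second case it is `4 + 2 * 1 = 6`, and the block of
`(i₀, g)` is odd: it consists of the `(j, g)` with `W j` conjugate to `W i₀`, so `A j = A i₀ = 2`, so `j = i₀`
and its total dimension is `finrank (W i₀) = 1`. -/
def S_QD5 : Prop :=
  ∀ (G : ℕ) (Z : Matrix (Fin G) (Fin G) ℂ) (_h : PM Z) (_h5 : F5 Z) (_h10 : S10 Z) (s : ℕ)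
    (W : Fin s → Submodule ℂ (Fin G ⊕ Fin G → ℂ)) (_hW : ∀ i, IrS (LZ Z) (W i))
    (st : Fin s → Fin s) (_hst : ∀ i, st (st i) = i) (_hDu : ∀ i, Du (RZ Z) 1 (W i) (W (st i)))
    (_hDu' : ∀ i j, Du (RZ Z) 1 (W i) (W j) → j = st i)
    (a : Fin s → ℤ) (_ha : ∀ i, a (st i) = -a i)
    (_hdet : ∀ (g : Gam (GG (LZ Z))) (hg : ∀ i, ∀ u ∈ W i, RZ Z g u ∈ W i), ∃ M : ℕ, M ≠ 0 ∧
      (∏ i, LinearMap.det ((RZ Z g).restrict (hg i)) ^ a i) ^ M = 1)
    (ι : Fin s → Type) [∀ i, Fintype (ι i)] [∀ i, DecidableEq (ι i)]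
    (f : ∀ i, Basis (ι i) ℂ (W i))
    (q : ∀ x : (Σ i, Fin (a i).toNat), ι x.1 → (Fin G ⊕ Fin G → ℂ) →ₗ[ℂ] W x.1)
    (_hq : ∀ x y g v, (q x y (RZ Z g v) : Fin G ⊕ Fin G → ℂ) = RZ Z g (q x y v))
    (ψ : MultilinearMap ℂ (fun _ : (Σ x : (Σ i, Fin (a i).toNat), ι x.1) =>
      Fin G ⊕ Fin G → ℂ) ℂ)
    (_hψ : ∀ v, ψ v = ∏ x : (Σ i, Fin (a i).toNat), (f x.1).det (fun y => q x y (v ⟨x, y⟩))),
    ψ ∈ NQ Z 6 True (Σ x : (Σ i, Fin (a i).toNat), ι x.1)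

/-- **S_OR5 (orthogonal submodules).**

Proof. As `s_qloc` (`Pool/Agent/H926/A/Qloc.lean`): `exists_fac`: a simple factor `Z'`; by `F5 Z` either
`RM Z'`, and then S_RL (or case 1 of `s_qloc`) gives `AltE (LZ Z) U`, a contradiction to
`not_alt_of_sym`; or `a ≤ 5`, `φ` by `Pool.Agent.Y484.MC.maxcm a Z' h' hs ha`, `jspec`: a root `z` and `T`, `U'.map T = EigM φ z`,
and `finrank U * deg = 2 a ≤ 10`, so with `finrank U ≥ 3` the degree is at most three. No root is real: if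
the root `x` is real then `om a` is not zero on `EigM φ x` (`om_real`), and, conjugating with `σ`,
`σ x = z`, also on `EigM φ z` (`om_conj`; `cjS σ (EigM φ x) = EigM φ (σ x)`); this gives an invariant form on
`U`, alternating and nonzero, a contradiction (`not_alt_of_sym`, used in `supp_allq`, `Qasm.lean`). So the
roots come in complex conjugate pairs, the degree is two, `finrank U = a ≤ 5`, and PDq follows as in case 2
of `s_qloc` (`H297.quad`, `H297.transfer_q`). (`Rt_aut`; transitivity of the automorphisms on the roots as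
in `maxcm` or the library; alternatively `maxcm` also says `cc (σ x) = σ (cc x)` for the roots, so if one
root is real then all are.) -/
def S_OR5 : Prop :=
  ∀ (G : ℕ) (Z : Matrix (Fin G) (Fin G) ℂ) (_h : PM Z) (_h5 : F5 Z)
    (U : Submodule ℂ (Fin G ⊕ Fin G → ℂ)) (_hU : IrS (LZ Z) U)
    (b : (Fin G ⊕ Fin G → ℂ) →ₗ[ℂ] (Fin G ⊕ Fin G → ℂ) →ₗ[ℂ] ℂ)
    (_hb : ∀ X ∈ LZ Z, ∀ u ∈ U, ∀ v ∈ U, b (X *ᵥ u) v + b u (X *ᵥ v) = 0)
    (_hb0 : ∃ u ∈ U, ∃ v ∈ U, b u v ≠ 0) (_hbs : ∀ u ∈ U, ∀ v ∈ U, b u v = b v u)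
    (_h3 : 3 ≤ finrank ℂ U), PDq (LZ Z) U ∧ finrank ℂ U ≤ 5

/-- **S_DET5 (determinants on orthogonal submodules).** Uses S_ELEM, `PrgL`, `EqvL`.

Proof. S_ELEM with `S₀ = S = Unit`, `B = 6`, `c = True`: `IdJ` from `PDq` (one submodule), the traces vanish
because `U` is self-dual (`PrgL.trc`: `tr (cjS σ U) = -tr (cjS σ U)`), `∑ finrank = n ≤ 5`, so the case `= 6`
does not occur. Reindexing `Fin n ≃ Σ _ : Unit, Fin n` as in `Pool/Agent/H926/A/Qdet1.lean`. -/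
def S_DET5 : Prop :=
  ∀ (G : ℕ) (Z : Matrix (Fin G) (Fin G) ℂ) (_h : PM Z)
    (U : Submodule ℂ (Fin G ⊕ Fin G → ℂ)) (_hU : IrS (LZ Z) U) (_hPD : PDq (LZ Z) U)
    (b : (Fin G ⊕ Fin G → ℂ) →ₗ[ℂ] (Fin G ⊕ Fin G → ℂ) →ₗ[ℂ] ℂ)
    (_hb : ∀ X ∈ LZ Z, ∀ u ∈ U, ∀ v ∈ U, b (X *ᵥ u) v + b u (X *ᵥ v) = 0)
    (_hb0 : ∃ u ∈ U, ∃ v ∈ U, b u v ≠ 0) (_hbs : ∀ u ∈ U, ∀ v ∈ U, b u v = b v u)
    (n : ℕ) (_hn : n ≤ 5) (e : Basis (Fin n) ℂ U) (q : Fin n → ((Fin G ⊕ Fin G → ℂ) →ₗ[ℂ] U))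
    (_hq : ∀ i, ∀ X ∈ LZ Z, ∀ v, ((q i (X *ᵥ v) : U) : Fin G ⊕ Fin G → ℂ) =
      X *ᵥ (q i v : Fin G ⊕ Fin G → ℂ))
    (ψ : MultilinearMap ℂ (fun _ : Fin n => Fin G ⊕ Fin G → ℂ) ℂ)
    (_hψ : ∀ v, ψ v = e.det fun j => q j (v j)), ψ ∈ NQ Z 6 True (Fin n)

/-- **S_NS (replaces S_SM5).** Uses S_IND, S_RL.

Proof. `F5 Z`: a factor `Z'` of `Z₀` has dimension `a ≤ G₀ ≤ 5` (`F' E' = 1`, so `2 a ≤ 2 G₀`).
`S10 Z`: let `W i` be pairwise non-isomorphic irreducible submodules of `V = Fin G ⊕ Fin G → ℂ` which are not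
symplectic. For each `i` there is (`exists_fac h (W i).1`) a simple factor `Fac Z Z' E F` with `ml F`
injective on `W i` (`Fac.inj`) and `(W i).map (ml F)` irreducible (`Fac.irr`). `RM Z'` is impossible: S_RL would
give an alternating form on `(W i).map (ml F)` and so one on `W i`. So there is `Fac Z₀ Z' E' F'`, and
`R i = E' * F` (a rational matrix) is injective on `W i`, `U i = (W i).map (ml (R i))`, and
`cK ℂ (R i) * DS Z σ = DS Z₀ σ * cK ℂ (R i)` for all `σ` (`Fac.fds`, `Fac.des`). `U i` is an irreducible submodule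
of `V₀` for `LZ Z₀` (`Fac.comp`, `Fac.lift` as in `Fac.irr`). The `U i` are pairwise not
isomorphic: an isomorphism `τ : U i → U j` over `LZ Z₀` gives the linear isomorphism
`W i → U i → U j → W j` (the last one is the inverse of `ml (R j)` on `W j`) which satisfies
`T (DS Z σ *ᵥ u) = DS Z σ *ᵥ T u` for `u ∈ W i` and all `σ`, hence `T (X *ᵥ u) = X *ᵥ T u` for all `X ∈ LZ Z`
(`LZ_le`: the `X` with this property which preserve `W i` are a Lie algebra). So by S_IND the `U i` are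
independent in `V₀`, of dimension `2 G₀ ≤ 10`, so `∑ finrank (U i) = finrank (⨆ U i) ≤ 10`, and
`finrank (U i) = finrank (W i)`. -/
def S_NS : Prop :=
  ∀ (G G₀ : ℕ) (Z : Matrix (Fin G) (Fin G) ℂ) (Z₀ : Matrix (Fin G₀) (Fin G₀) ℂ) (_h : PM Z)
    (_h₀ : PM Z₀) (_hG : G₀ ≤ 5) (_hF : FN Z Z₀), F5 Z ∧ S10 Z

/-- The endomorphism algebra of the simple abelian subvariety `U` has a totally real maximal
commutative subfield. -/
def IsRealSub {H T : Type} [AddCommGroup H] [Module ℚ H] [AddCommGroup T] [Module ℂ T]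
    (per : H →+ T) (U : Submodule ℚ H) : Prop :=
  ∃ a : U →ₗ[ℚ] U, Pool.Agent.Y4.Q.IsMaxEndo per U a ∧ ∀ z ∈ (minpoly ℚ a).aroots ℂ, z.im = 0

/-- **S_GOODN (from abstract abelian varieties to period matrices).**

Proof. As `s_qgood` (`Pool/Agent/H926/A/Qgood.lean`): let `Z'` be a simple factor of `Z`. `exists_sd A hC hf h'
hs ha` gives a simple abelian subvariety `U` of `X` which is isogenous to `Z'` (`Sd`). If `IsRealSub per U` then
`RM Z'` (as in `s_qgood`: `maxM`, the minimal polynomials agree). Otherwise there is `r : X → X₀` which is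
injective on `U`; the composition of `Z' → U → X → X₀ → Z₀` (`A₀`, `hC₀`) is a rational matrix `M` which
commutes with the complex structures, injective; as in `s_facp` (`Pool/Agent/H926/T/Facp.lean`; `M† M` is
invertible) it splits: `Fac Z₀ Z' E' F'`. -/
def S_GOODN : Prop :=
  ∀ (H T : Type) [AddCommGroup H] [Module ℚ H] [AddCommGroup T] [Module ℂ T] (per : H →+ T)
    (H₀ T₀ : Type) [AddCommGroup H₀] [Module ℚ H₀] [AddCommGroup T₀] [Module ℂ T₀] (per₀ : H₀ →+ T₀)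
    (G : ℕ) (Z : Matrix (Fin G) (Fin G) ℂ) (_h : PM Z) (A : H ≃ₗ[ℚ] (Fin G ⊕ Fin G → ℚ))
    (_hC : Cht (per.comp A.symm.toLinearMap.toAddMonoidHom) (JR Z))
    (G₀ : ℕ) (Z₀ : Matrix (Fin G₀) (Fin G₀) ℂ) (_h₀ : PM Z₀) (A₀ : H₀ ≃ₗ[ℚ] (Fin G₀ ⊕ Fin G₀ → ℚ))
    (_hC₀ : Cht (per₀.comp A₀.symm.toLinearMap.toAddMonoidHom) (JR Z₀))
    (_hs : ∀ U : Submodule ℚ H, St.IsSimpleSub per U → IsRealSub per U ∨
      ∃ r : H →ₗ[ℚ] H₀, St.IsHom per per₀ r ∧ ∀ u ∈ U, r u = 0 → u = 0),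
    FN Z Z₀

end

end Pool.Agent.H841.HC5
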