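import Mathlib
import Pool.Agent.H841.HC5.Jobs
import Pool.Agent.H926.T.Main4

/-!
# Simple quotients of dimension six with real multiplication: lemma statements
-/

set_option linter.unusedSectionVars false

namespace Pool.Agent.H841.HC5

open Matrix Module Pool.Agent.W437.HC Pool.Agent.W437.HD Pool.Agent.TH504.CB Pool.Agent.W522.U
open Pool.Agent.Y90 hiding mulA exists_lam mulA_altQ
open Pool.Agent.W548.Odd hiding cv
open Pool.Agent.W437.HP (cK cK_mul cK_one)
open Pool.Agent.H204R3.CM (IsHodge)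
open Pool.Agent.H204R3.SP (Kills bil2 IsTate)
open Pool.Agent.Y4.P (MaxM EigM cx)
open Pool.Agent.H926.T
open Pool.Agent.H926.A

noncomputable section

/-- **S_REAL0 (totally real maximal subfields: the Hodge ring is generated by divisors).** -/
def S_REAL0 : Prop :=
  ∀ (G : ℕ) (Z : Matrix (Fin G) (Fin G) ℂ) (_h : PM Z) (_hs : IsSimpleAV Z) (_hG : 0 < G)
    (_hr : RM Z) (_hB : LB (GG (LZ Z)) (om G)), AllFq Z 0 True

/-- **S_BRQ (the commutators for quotients).**

Proof. By `Pool.Agent.H926.T.tstar hY` (`T/Main.lean`) it suffices that all Hodge classes `f` on all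
powers `powPer per' n` are in `Pool.Agent.Y4.P.WeilRing`, and by `tstar hX` this is true for the powers of `X`.
`Pool.Agent.H926.T.DzL.exists_section hX hY q hq hqs` (`T/D0.lean`): a homomorphism `s` with `q (s w) = w`. The
pull-back of `f` along `X ^ n → X' ^ n`, `w ↦ fun i => q (w i)` is a Hodge class
(`Pool.Agent.TH504.CB.isHodge_comp`), so it is in `WeilRing`; its pull-back along `v ↦ fun i => s (v i)` is `f`
(`Pool.Agent.Y275.P.pull`: pull-backs for `WeilRing`). Exactly as in `s_d0` (`T/D0.lean`). -/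
def S_BRQ : Prop :=
  ∀ (H T H' T' : Type) [AddCommGroup H] [Module ℚ H] [AddCommGroup T] [Module ℂ T]
    [AddCommGroup H'] [Module ℚ H'] [AddCommGroup T'] [Module ℂ T'] (per : H →+ T)
    (per' : H' →+ T') (_hX : St.IsAV per) (_hY : St.IsAV per') (q : H →ₗ[ℚ] H')
    (_hq : St.IsHom per per' q) (_hqs : Function.Surjective q)
    (_hbr : ∀ x y : H →ₗ[ℚ] H, InLef per x → InLef per y → InHdg per (x ∘ₗ y - y ∘ₗ x))
    (x y : H' →ₗ[ℚ] H') (_hx : InLef per' x) (_hy : InLef per' y), InHdg per' (x ∘ₗ y - y ∘ₗ x)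

/-- **S_SIXM (simple quotients of dimension six of a period matrix).** The same for a period matrix (this is
what is needed in the applications); proof: the steps (a), (b), (d), (e) of S_SIX, and (c) is `F5 Z`. -/
def S_SIXM : Prop :=
  ∀ (G : ℕ) (Z : Matrix (Fin G) (Fin G) ℂ) (_h : PM Z) (_hb : BrH Z) (_h5 : F5 Z) (H' T' : Type)
    [AddCommGroup H'] [Module ℚ H'] [AddCommGroup T'] [Module ℂ T'] (per' : H' →+ T')
    (_hY : St.IsAV per') (_hsi : St.IsSimpleSub per' ⊤) (_hd : finrank ℚ H' = 12)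
    (q : (Fin G ⊕ Fin G → ℚ) →ₗ[ℚ] H') (_hq : St.IsHom (perOne Z) per' q)
    (_hqs : Function.Surjective q) (κ : Type) [Finite κ] (f : H' [⋀^κ]→ₗ[ℚ] ℚ)
    (_hf : IsHodge per' f), QR per' 0 True κ f

/-- **S_SIX (simple quotients `Y` of dimension six).** Uses S_REAL0, S_BRQ, S_GOODN.

Proof. `exists_ppav hX`: `G, Z, h, A, hC`; `exists_ppav hX₀`: `G₀, Z₀, h₀, A₀, hC₀`, `G₀ ≤ 5` (as in
`Lem5.hodge`, `HC5/Asm.lean`); `exists_ppav hY`: `G', Z', h', A', hC'`, `G' = 6` (`finrank ℚ H' = 12`).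
(a) `IsSimpleAV Z'` from `_hsi` (`IsSimpleAV Z'`, defined in the library, says that rational subspaces stable
under the complex structure `JR Z'` are trivial; `_hsi.2.2`: the abelian subvarieties of `Y` are trivial;
transport by `A'`; look for the relation in `Pool/Agent/H926/A/Qweil.lean` (it proves
`St.IsSimpleSub per ⊤` from `IsSimpleAV`), in `Pool.Graph.R_pool_sql_team_seeded_1acbe0a2.Y90.NSub`
(`sub_map`, `sub_ker`), in `Y4.P.Goo` and `R_seed8.Y90.Ab2`, and in `H926/T/Fz.lean`).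
(b) `Fac Z Z' E F`: the section `s : Y → X` of `q` (`Pool.Agent.H926.T.DzL.exists_section`, `T/D0.lean`) gives a
nonzero rational matrix `M` (`M *ᵥ v = A (s (A'.symm v))`) which is compatible with the complex structures
(`FacL.mat_of_hom`, `FacL.cplx_of_real`), and `FacL.fac_of_hom h h' hsim h2 h0` gives `F'` (see `fac_of_sd` in
`Pool/Agent/H841/HC5/Goodn.lean`).
(c) S_GOODN for `Z`, `Z₀`: `FN Z Z₀`; applied to `Z'`: `RM Z'`, or `Fac Z₀ Z' E' F'`, which is impossible since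
`F' * E' = 1` and `2 * 6 > 2 * G₀` (the rank of the matrices).
(d) S_BRQ and `brh_of h' A' hC'` (used in `Lem5.hodge`) give `BrH Z'`, and `s_lb : S_LB` (`H926/T`) gives
`LB (GG (LZ Z')) (om 6)`.
(e) S_REAL0 gives `AllFq Z' 0 True`, and `hodge_abs h' A' hC' (fun g hg => hodge_altq h' (altFoq_of_all _) g hg) f hf`
as at the end of `Lem5.pow` (`HC5/Asm.lean`) the result. -/
def S_SIX : Prop :=
  ∀ (H T H' T' H₀ T₀ : Type) [AddCommGroup H] [Module ℚ H] [AddCommGroup T] [Module ℂ T]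
    [AddCommGroup H'] [Module ℚ H'] [AddCommGroup T'] [Module ℂ T'] [AddCommGroup H₀]
    [Module ℚ H₀] [AddCommGroup T₀] [Module ℂ T₀] (per : H →+ T) (per' : H' →+ T')
    (per₀ : H₀ →+ T₀) (_hX : St.IsAV per) (_hY : St.IsAV per') (_hX₀ : St.IsAV per₀)
    (_h5 : finrank ℂ T₀ ≤ 5)
    (_hs : ∀ U : Submodule ℚ H, St.IsSimpleSub per U → IsRealSub per U ∨
      ∃ r : H →ₗ[ℚ] H₀, St.IsHom per per₀ r ∧ ∀ u ∈ U, r u = 0 → u = 0)
    (_hbr : ∀ x y : H →ₗ[ℚ] H, InLef per x → InLef per y → InHdg per (x ∘ₗ y - y ∘ₗ x))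
    (q : H →ₗ[ℚ] H') (_hq : St.IsHom per per' q) (_hqs : Function.Surjective q)
    (_hsi : St.IsSimpleSub per' ⊤) (_hd : finrank ℚ H' = 12) (κ : Type) [Finite κ]
    (f : H' [⋀^κ]→ₗ[ℚ] ℚ) (_hf : IsHodge per' f), QR per' 0 True κ f

end

end Pool.Agent.H841.HC5
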