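import Mathlib
import Pool.Agent.H841.HC5.Jobs2
import Pool.Agent.H926.T.D0
import Pool.Agent.H926.T.Main

/-!
# Commutators pass to quotients
-/

set_option linter.unusedSectionVars false

namespace Pool.Agent.H841.HC5

open Matrix Module Pool.Agent.W437.HC Pool.Agent.W437.HD Pool.Agent.TH504.CB Pool.Agent.W522.U
open Pool.Agent.Y90 hiding mulA exists_lam mulA_altQ
open Pool.Agent.W548.Odd hiding cv
open Pool.Agent.W437.HP (cK cK_mul cK_one)
open Pool.Agent.H204R3.CM (IsHodge)
open Pool.Agent.H204R3.SP (Kills bil2 IsTate)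
open Pool.Agent.Y4.P (MaxM EigM cx)
open Pool.Agent.H926.T
open Pool.Agent.H926.A

noncomputable section

namespace BrqX

/-- the map of the powers -/
def pw {K V V' : Type} [Field K] [AddCommGroup V] [Module K V] [AddCommGroup V']
    [Module K V'] (n : ℕ) (f : V →ₗ[K] V') : (Fin n → V) →ₗ[K] (Fin n → V') :=
  LinearMap.pi fun j => f ∘ₗ LinearMap.proj j

end BrqX

/-- **S_BRQ (the commutators for quotients).** -/
theorem s_brq : S_BRQ := by
  intro H T H' T' _ _ _ _ _ _ _ _ per per' hX hY q hq hqs hbr x y hx hy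
  refine (Pool.Agent.H926.T.tstar hY).1 (fun n κ _ f hf => ?_) x y hx hy
  have hW := (Pool.Agent.H926.T.tstar hX).2 hbr
  obtain ⟨s, ⟨Ψs, hΨs⟩, hs⟩ := Pool.Agent.H926.T.DzL.exists_section hX hY q hq hqs
  obtain ⟨Ψq, hΨq⟩ := hq
  have h1 : IsHodge (powPer per n) (f.compLinearMap (BrqX.pw n q)) := by
    refine Pool.Agent.TH504.CB.isHodge_comp (BrqX.pw n q) (BrqX.pw n Ψq) (fun w => ?_) hf
    funext j
    exact hΨq _
  have h2 := hW n κ _ h1
  have h3 := Pool.Agent.Y275.P.pull h2 (per := powPer per' n) (BrqX.pw n s) (BrqX.pw n Ψs)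
    (fun v => by
      funext i
      exact hΨs _)
  have h4 : (f.compLinearMap (BrqX.pw n q)).compLinearMap (BrqX.pw n s) = f := by
    apply AlternatingMap.ext
    intro v
    rw [AlternatingMap.compLinearMap_apply, AlternatingMap.compLinearMap_apply]
    congr 1
    funext k j
    exact hs _
  rw [h4] at h3
  exact h3

end

end Pool.Agent.H841.HC5
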