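import Mathlib
import Pool.Agent.H926.T.Main4

/-!
# Exceptional classes on squares of fourfolds of Mumford's type: statement

`IsExc A f`: the Hodge class `f` of degree four on `A × A` is exceptional (its component in
`H^2(A) ⊗ H^2(A)` does not come from divisors), as in
`Pool.Agent.Results.MP_90e98f_ag.MumfordFourfolds`.
-/

set_option linter.unusedSectionVars false

namespace Pool.Agent.H841.HC5

open Matrix Module Pool.Agent.Y90 Pool.Agent.W437.HC Pool.Agent.W437.HD
  Pool.Agent.TH504.CB
open Pool.Agent.W548.Odd hiding cv
open Pool.Agent.W437.HP (cK cK_mul cK_one)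
open Pool.Agent.H204R3.CM (IsHodge)
open Pool.Agent.H204R3.SP (Kills)
open Pool.Agent.N178.HW (prodAV)
open Pool.Agent.H926
open Pool.Agent.H926.T

noncomputable section

/-- A Hodge class `f` of degree four on `A × A` is exceptional if its component in `H^2(A) ⊗ H^2(A)` is
not a component of a combination of products of divisor classes: it is not of the form
`a θ(x, y) θ(z, w) + b (θ(x, z) θ(y, w) - θ(x, w) θ(y, z))` for a Hodge class `θ` of degree two
on `A` and rational numbers `a`, `b`. -/
def IsExc (A : AV) (f : (prodAV A A).H [⋀^Fin 4]→ₗ[ℚ] ℚ) : Prop :=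
  IsHodge (prodAV A A).per f ∧
    ¬ ∃ (θ : A.H [⋀^Fin 2]→ₗ[ℚ] ℚ) (a b : ℚ), IsHodge A.per θ ∧ ∀ x y z w : A.H,
      f ![(x, 0), (y, 0), (0, z), (0, w)] =
        a * (θ ![x, y] * θ ![z, w]) + b * (θ ![x, z] * θ ![y, w] - θ ![x, w] * θ ![y, z])

/-- **S_EXC (existence of exceptional classes).** (Template: `mum_square` in
`Pool/Agent/H926/T/Main2.lean` and `s_d4` in `Pool/Agent/H926/T/D4.lean`.)

Proof. Suppose that no `f` is exceptional.
(1) Let `z : M.H →ₗ[ℚ] M.H` with `InLef M.per z`. For every Hodge class `f` of degree four on `M × M` the form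
`p_f (x, y, z', w) = f ![(x, 0), (y, 0), (0, z'), (0, w)]` is `a θ θ + b (θ θ - θ θ)` with a Hodge class `θ` of
degree two on `M`, and `θ` is killed by `z` (`InLef`, second part: `θ ![z v, w] + θ ![v, z w] = 0`), so `p_f` is
killed by `z` (a sum of four terms is zero: `linear_combination`).
(2) `s_d4'`: copy the proof of `s_d4` with the weaker hypothesis `_hz`: for all Hodge classes
`f : (Fin 2 → H) [⋀^Fin 4]→ₗ[ℚ] ℚ` on `powPer per 2` and all `w : Fin 4 → H`
`∑ k, f (Function.update (fun j => Pi.single (tau j) (w j)) k (dg 2 z (Pi.single (tau k) (w k)))) = 0`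
(this is the only instance of `_hz` which is used in the proof of `s_d4`, in `hk`; `tau = ![0, 0, 1, 1]`, and
`dg 2 z (Pi.single i v) = Pi.single i (z v)`). Transport `f` from `Fin 2 → H` to `(prodAV M M).H = M.H × M.H`
(the isomorphism `w ↦ (w 0, w 1)` and its inverse are homomorphisms; `isHodge_comp`; see `square_of` in
`Pool/Agent/H841/MS/Hall.lean` for a similar transport) and use (1).
(3) Now copy `mum_square` (`Pool/Agent/H926/T/Main2.lean`, with `hMU := s_mu (s_gbr s_facp) s_perf`, `s_perf`,
`s_d1`, `s_d2` as in `Pool/Agent/H926/T/Main3.lean`): `g` from `s_d2` is killed by `LZ Z`; in the place of `hz`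
there (commutators) one gets that `ph _ (qm (matQ A z))` kills `g` for all `z` with `InLef M.per z`; the end of the
proof of `mum_square` is simpler or the same (for the commutators: `a ∘ₗ b - b ∘ₗ a` is also in the Lefschetz Lie
algebra, so the given end of the proof applies literally if one first shows `hz` for commutators of elements of
`InLef`: the commutator kills `p_f` because both operators do; or show that `InLef` is closed under commutators).
The contradiction is with the last part of `s_d2`. -/
def S_EXC : Prop :=
  ∀ M : AV, IsMumfordType M.per → ∃ f : (prodAV M M).H [⋀^Fin 4]→ₗ[ℚ] ℚ, IsExc M f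

end

end Pool.Agent.H841.HC5
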