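import Mathlib
import Pool.Agent.H841.HC5.ExcJobs
import Pool.Agent.H926.T.Main3

/-!
# Existence of exceptional classes on squares of fourfolds of Mumford's type
-/

set_option linter.unusedSectionVars false

namespace Pool.Agent.H841.HC5

open Matrix Module Pool.Agent.Y90 Pool.Agent.W437.HC Pool.Agent.W437.HD
  Pool.Agent.TH504.CB
open Pool.Agent.W548.Odd hiding cv
open Pool.Agent.W437.HP (cK cK_mul cK_one)
open Pool.Agent.H204R3.CM (IsHodge)
open Pool.Agent.H204R3.SP (Kills)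
open Pool.Agent.N178.HW (prodAV)
open Pool.Agent.H926
open Pool.Agent.H926.T

noncomputable section

namespace ExcL

open Pool.Agent.H926.T.TraL Pool.Agent.H926.T.D4L

/-- Descent for forms of type `(2, 2)` on the square; a variant of `s_d4`. -/
theorem s_d4' {H T : Type} [AddCommGroup H] [Module ℚ H] [AddCommGroup T] [Module ℂ T]
    (per : H →+ T) (G : ℕ) (Z : Matrix (Fin G) (Fin G) ℂ) (h : PM Z)
    (A : H ≃ₗ[ℚ] (Fin G ⊕ Fin G → ℚ))
    (hC : Cht (per.comp A.symm.toLinearMap.toAddMonoidHom) (JR Z)) (z : H →ₗ[ℚ] H)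
    (hz : ∀ f : (Fin 2 → H) [⋀^Fin 4]→ₗ[ℚ] ℚ, IsHodge (powPer per 2) f → ∀ w : Fin 4 → H,
      ∑ k, f (Function.update (fun j => (Pi.single (tau j) (w j) : Fin 2 → H)) k
        (dg 2 z (Pi.single (tau k) (w k)))) = 0)
    (g : MultilinearMap ℂ (fun _ : Fin 4 => Fin G ⊕ Fin G → ℂ) ℂ)
    (h1 : ∀ v : Fin 4 → (Fin G ⊕ Fin G → ℂ), g (fun k => v (Equiv.swap 0 1 k)) = -g v)
    (h2 : ∀ v : Fin 4 → (Fin G ⊕ Fin G → ℂ), g (fun k => v (Equiv.swap 2 3 k)) = -g v)
    (hg : ∀ X ∈ LZ Z, Kills (ph (Fin G ⊕ Fin G) X) g) :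
    Kills (ph (Fin G ⊕ Fin G) (qm (matQ A z))) g := by
  have hL : ∀ X ∈ LZ Z, act X (CF g) = 0 := fun X hX => act_of_kills (hg X hX)
  apply kills_of_act
  have key : ∀ l : ℂ →ₗ[ℚ] ℚ, act (matQ A z) (fun I => l (CF g I)) = 0 := by
    intro l
    set c : (Fin 4 → Fin G ⊕ Fin G) → ℚ := fun I => l (CF g I) with hc
    have hcJ : IsH (DJ (JR Z)) c := kill_lam gal_LZ hL l _ DZ_mem
    have hev : ∀ v : Fin 4 → Fin G ⊕ Fin G → ℚ, evalM c v = l (g (fun k => cv (v k))) := by
      intro v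
      rw [evalM_apply, lam_eval]
    obtain ⟨P, I, hP1, hP2, hI1, hI2⟩ := hC.ex
    let gg : MultilinearMap ℚ (fun _ : Fin 4 => H) ℚ :=
      (evalM c).compLinearMap (fun _ => A.toLinearMap)
    have hgg : ∀ v, gg v = l (g (fun k => cv (A (v k)))) := fun v => hev _
    have a1 : ∀ v : Fin 4 → H, gg (fun k => v (Equiv.swap 0 1 k)) = -gg v := by
      intro v
      rw [hgg, hgg, ← map_neg]
      congr 1
      exact h1 (fun k => cv (A (v k)))
    have a2 : ∀ v : Fin 4 → H, gg (fun k => v (Equiv.swap 2 3 k)) = -gg v := by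
      intro v
      rw [hgg, hgg, ← map_neg]
      congr 1
      exact h2 (fun k => cv (A (v k)))
    have hH : IsHodge (powPer per 2) (sqf gg) := by
      refine sqf_hodge per gg ((evalM (cst ℝ c)).compLinearMap (fun _ => I)) (fun v => ?_)
        (fun w hw u => ?_)
      · rw [MultilinearMap.compLinearMap_apply, MultilinearMap.compLinearMap_apply, evalM_apply,
          evalM_apply, evalF_castK]
        congr 1
        funext k
        change I (per (v k)) = fun i => (((A (v k)) i : ℚ) : ℝ)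
        rw [← perA_apply (A := A), ← hP1, hI1]
      · rw [MultilinearMap.compLinearMap_apply, MultilinearMap.compLinearMap_apply, evalM_apply,
          evalM_apply]
        have h1 : w.re = Real.cos w.arg ∧ w.im = Real.sin w.arg := by
          have h2 := Complex.norm_mul_cos_arg w
          have h3 := Complex.norm_mul_sin_arg w
          rw [hw, one_mul] at h2 h3
          exact ⟨h2.symm, h3.symm⟩
        have h2 : (fun k => I (w • u k)) = fun k => Real.cos w.arg • I (u k) +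
            Real.sin w.arg • (JR Z *ᵥ I (u k)) := by
          funext k
          rw [← hI1 (Real.cos w.arg • I (u k) + Real.sin w.arg • (JR Z *ᵥ I (u k))), map_add P,
            map_smul P, map_smul P, hP2, hI2, smul_rot, ← h1.1, ← h1.2, Complex.re_add_im]
        rw [h2]
        exact rot_of_act hC.sq ((act_real (J := JR Z) (D := DJ (JR Z)) rfl).1 hcJ) w.arg _
    have hk : ∀ w : Fin 4 → H, ∑ k, gg (Function.update w k (z (w k))) = 0 := by
      intro w
      have h3 := hz (sqf gg) hH w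
      have h4 : ∀ k, (sqf gg) (Function.update
          (fun k => (Pi.single (tau k) (w k) : Fin 2 → H)) k
            (dg 2 z (Pi.single (tau k) (w k)))) = 4 * gg (Function.update w k (z (w k))) := by
        intro k
        rw [← sqf_single gg a1 a2]
        change sqf gg _ = sqf gg _
        congr 1
        funext j
        by_cases hj : j = k
        · subst hj
          rw [Function.update_self, Function.update_self]
          funext i
          change z ((Pi.single (tau j) (w j) : Fin 2 → H) i) = _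
          by_cases hi : i = tau j
          · subst hi
            rw [Pi.single_eq_same, Pi.single_eq_same]
          · rw [Pi.single_eq_of_ne hi, Pi.single_eq_of_ne hi, map_zero]
        · rw [Function.update_of_ne hj, Function.update_of_ne hj]
      rw [Finset.sum_congr rfl (fun k _ => h4 k), ← Finset.mul_sum] at h3
      exact (mul_eq_zero.1 h3).resolve_left (by norm_num)
    apply eq_zero_of_evalF
    intro y
    rw [evalF_act]
    have h3 := hk (fun k => A.symm (y k))
    rw [← h3]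
    refine Finset.sum_congr rfl fun k _ => ?_
    change _ = (evalM c).compLinearMap (fun _ => A.toLinearMap) _
    rw [MultilinearMap.compLinearMap_apply, evalM_apply]
    congr 1
    funext l
    by_cases hl : l = k
    · subst hl
      rw [Function.update_self, Function.update_self]
      change _ = A (z (A.symm (y l)))
      rw [← matQ_mulVec, LinearEquiv.apply_symm_apply]
    · rw [Function.update_of_ne hl, Function.update_of_ne hl]
      change _ = A (A.symm (y l))
      rw [LinearEquiv.apply_symm_apply]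
  funext I
  rw [Pi.zero_apply, ← Module.forall_dual_apply_eq_zero_iff ℚ]
  intro l
  have h3 := key l
  rw [act_lam] at h3
  exact congrFun h3 I

/-- Commutators of operators which kill a form of degree two. -/
theorem comm_kill {H : Type} [AddCommGroup H] [Module ℚ H] {θ : H [⋀^Fin 2]→ₗ[ℚ] ℚ}
    {a b : H →ₗ[ℚ] H} (ha : ∀ v w, θ ![a v, w] + θ ![v, a w] = 0)
    (hb : ∀ v w, θ ![b v, w] + θ ![v, b w] = 0) (v w : H) :
    θ ![(a ∘ₗ b - b ∘ₗ a) v, w] + θ ![v, (a ∘ₗ b - b ∘ₗ a) w] = 0 := by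
  have e1 : θ ![(a ∘ₗ b - b ∘ₗ a) v, w] = θ ![a (b v), w] - θ ![b (a v), w] := by
    have h := θ.map_update_sub ![v, w] 0 (a (b v)) (b (a v))
    have e : ∀ x : H, Function.update ![v, w] 0 x = ![x, w] := by
      intro x
      funext i
      fin_cases i <;> rfl
    rw [e, e, e] at h
    exact h
  have e2 : θ ![v, (a ∘ₗ b - b ∘ₗ a) w] = θ ![v, a (b w)] - θ ![v, b (a w)] := by
    have h := θ.map_update_sub ![v, w] 1 (a (b w)) (b (a w))
    have e : ∀ x : H, Function.update ![v, w] 1 x = ![v, x] := by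
      intro x
      funext i
      fin_cases i <;> rfl
    rw [e, e, e] at h
    exact h
  rw [e1, e2]
  linear_combination ha (b v) w - hb (a v) w - hb v (a w) + ha v (b w)

/-- If there are no exceptional classes, the operators which kill the Hodge classes of degree two
kill the components of the Hodge classes of degree four. -/
theorem kill_of {M : AV} (hno : ∀ f : (prodAV M M).H [⋀^Fin 4]→ₗ[ℚ] ℚ, ¬ IsExc M f)
    (z : M.H →ₗ[ℚ] M.H)
    (hz : ∀ θ : M.H [⋀^Fin 2]→ₗ[ℚ] ℚ, IsHodge M.per θ → ∀ v w, θ ![z v, w] + θ ![v, z w] = 0)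
    (f : (Fin 2 → M.H) [⋀^Fin 4]→ₗ[ℚ] ℚ) (hf : IsHodge (powPer M.per 2) f) (w : Fin 4 → M.H) :
    ∑ k, f (Function.update (fun j => (Pi.single (tau j) (w j) : Fin 2 → M.H)) k
      (dg 2 z (Pi.single (tau k) (w k)))) = 0 := by
  obtain ⟨Φ, hΦ⟩ : ∃ Φ : (prodAV M M).H →ₗ[ℚ] (Fin 2 → M.H), ∀ x : M.H × M.H,
      Φ x = ![x.1, x.2] := by
    refine ⟨LinearMap.pi ![LinearMap.fst ℚ M.H M.H, LinearMap.snd ℚ M.H M.H], fun x => ?_⟩
    funext q
    fin_cases q <;> rfl
  obtain ⟨Ψ, hΨ⟩ : ∃ Ψ : (prodAV M M).T →ₗ[ℂ] (Fin 2 → M.T), ∀ x : M.T × M.T,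
      Ψ x = ![x.1, x.2] := by
    refine ⟨LinearMap.pi ![LinearMap.fst ℂ M.T M.T, LinearMap.snd ℂ M.T M.T], fun x => ?_⟩
    funext q
    fin_cases q <;> rfl
  have h1 : IsHodge (prodAV M M).per (f.compLinearMap Φ) := by
    refine isHodge_comp Φ Ψ (fun x => ?_) hf
    refine (hΨ _).trans ?_
    funext q
    change _ = M.per (Φ x q)
    rw [hΦ x]
    fin_cases q <;> rfl
  have h2 : ∃ (θ : M.H [⋀^Fin 2]→ₗ[ℚ] ℚ) (a b : ℚ), IsHodge M.per θ ∧ ∀ x y z w : M.H,
      (f.compLinearMap Φ) ![(x, 0), (y, 0), (0, z), (0, w)] =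
        a * (θ ![x, y] * θ ![z, w]) + b * (θ ![x, z] * θ ![y, w] - θ ![x, w] * θ ![y, z]) := by
    by_contra h
    exact hno _ ⟨h1, h⟩
  obtain ⟨θ, a, b, hθ, hfm⟩ := h2
  have key : ∀ w : Fin 4 → M.H, f (fun j => (Pi.single (tau j) (w j) : Fin 2 → M.H)) =
      a * (θ ![w 0, w 1] * θ ![w 2, w 3]) +
        b * (θ ![w 0, w 2] * θ ![w 1, w 3] - θ ![w 0, w 3] * θ ![w 1, w 2]) := by
    intro w
    rw [← hfm (w 0) (w 1) (w 2) (w 3), AlternatingMap.compLinearMap_apply]
    congr 1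
    funext j
    have e : ∀ x : (prodAV M M).H, Φ x = ![x.1, x.2] := hΦ
    fin_cases j
    · refine Eq.trans ?_ (hΦ (w 0, 0)).symm
      funext q
      fin_cases q <;> rfl
    · refine Eq.trans ?_ (hΦ (w 1, 0)).symm
      funext q
      fin_cases q <;> rfl
    · refine Eq.trans ?_ (hΦ (0, w 2)).symm
      funext q
      fin_cases q <;> rfl
    · refine Eq.trans ?_ (hΦ (0, w 3)).symm
      funext q
      fin_cases q <;> rfl
  have h4 : ∀ k : Fin 4, f (Function.update (fun j => (Pi.single (tau j) (w j) : Fin 2 → M.H)) k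
      (dg 2 z (Pi.single (tau k) (w k)))) =
      f (fun j => (Pi.single (tau j) (Function.update w k (z (w k)) j) : Fin 2 → M.H)) := by
    intro k
    congr 1
    funext j
    by_cases hj : j = k
    · subst hj
      rw [Function.update_self, Function.update_self]
      funext i
      change z ((Pi.single (tau j) (w j) : Fin 2 → M.H) i) = _
      by_cases hi : i = tau j
      · subst hi
        rw [Pi.single_eq_same, Pi.single_eq_same]
      · rw [Pi.single_eq_of_ne hi, Pi.single_eq_of_ne hi, map_zero]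
    · rw [Function.update_of_ne hj, Function.update_of_ne hj]
  rw [Finset.sum_congr rfl (fun k _ => (h4 k).trans (key _)), Fin.sum_univ_four]
  have u00 : Function.update w 0 (z (w 0)) 0 = z (w 0) := rfl
  have u01 : Function.update w 0 (z (w 0)) 1 = w 1 := rfl
  have u02 : Function.update w 0 (z (w 0)) 2 = w 2 := rfl
  have u03 : Function.update w 0 (z (w 0)) 3 = w 3 := rfl
  have u10 : Function.update w 1 (z (w 1)) 0 = w 0 := rfl
  have u11 : Function.update w 1 (z (w 1)) 1 = z (w 1) := rfl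
  have u12 : Function.update w 1 (z (w 1)) 2 = w 2 := rfl
  have u13 : Function.update w 1 (z (w 1)) 3 = w 3 := rfl
  have u20 : Function.update w 2 (z (w 2)) 0 = w 0 := rfl
  have u21 : Function.update w 2 (z (w 2)) 1 = w 1 := rfl
  have u22 : Function.update w 2 (z (w 2)) 2 = z (w 2) := rfl
  have u23 : Function.update w 2 (z (w 2)) 3 = w 3 := rfl
  have u30 : Function.update w 3 (z (w 3)) 0 = w 0 := rfl
  have u31 : Function.update w 3 (z (w 3)) 1 = w 1 := rfl
  have u32 : Function.update w 3 (z (w 3)) 2 = w 2 := rfl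
  have u33 : Function.update w 3 (z (w 3)) 3 = z (w 3) := rfl
  rw [u00, u01, u02, u03, u10, u11, u12, u13, u20, u21, u22, u23, u30, u31, u32, u33]
  linear_combination a * θ ![w 2, w 3] * hz θ hθ (w 0) (w 1) +
    a * θ ![w 0, w 1] * hz θ hθ (w 2) (w 3) + b * θ ![w 1, w 3] * hz θ hθ (w 0) (w 2) +
    b * θ ![w 0, w 2] * hz θ hθ (w 1) (w 3) - b * θ ![w 1, w 2] * hz θ hθ (w 0) (w 3) -
    b * θ ![w 0, w 3] * hz θ hθ (w 1) (w 2)

end ExcL

open ExcL Pool.Agent.H926.T.TraL

/-- **Existence of exceptional classes on squares of fourfolds of Mumford's type.** -/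
theorem s_exc : S_EXC := by
  intro M hM
  by_contra hcon
  have hno : ∀ f : (prodAV M M).H [⋀^Fin 4]→ₗ[ℚ] ℚ, ¬ IsExc M f := fun f hf => hcon ⟨f, hf⟩
  have hX := hM.1
  obtain ⟨G, Z, h, A, hC⟩ := exists_ppav hX
  have hm := s_mu (s_gbr s_facp) s_perf M.H M.T M.per hM G Z h A hC
  obtain ⟨t1, -⟩ := s_tra M.H M.T M.per G Z h A hC
  obtain ⟨N, hN, M', hM', t, hdec⟩ := s_d1 G Z h hm
  have hOm2 : Om G ℂ * Om G ℂ = -1 := Om_sq ℂ
  have hsk : ∀ y ∈ GG (LZ Z), Skw (om G) y := by
    intro y hy x x'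
    obtain ⟨X, hX, rfl⟩ := exists_GG hy
    exact eq_neg_of_add_eq_zero_left (h.om_sp hX x x')
  have hDG : ph (Fin G ⊕ Fin G) (DZ Z) ∈ GG (LZ Z) := mem_GG.2 DZ_mem
  have htr : LinearMap.trace ℂ (Fin G ⊕ Fin G → ℂ) (ph (Fin G ⊕ Fin G) (DZ Z)) = 0 :=
    Pool.Agent.Y91.JP.trace_inv h.setup (Pool.Agent.Y91.JP.trSt hOm2) hDG
  obtain ⟨g, g1, g2, g3, u, x, hx, hnk⟩ := s_d2 (Fin G ⊕ Fin G → ℂ) (by rw [hm.fr h]; norm_num)
    (om G) om_anti om_nd _ N M' t htr (hsk _ hN) (hsk _ hM')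
  -- the form is killed by the Hodge Lie algebra
  have hg : ∀ X ∈ LZ Z, Kills (ph (Fin G ⊕ Fin G) X) g := by
    intro X hX'
    obtain ⟨c₀, c₁, c₂, b, b1, b2, b3, hy⟩ := hdec _ (mem_GG.2 hX')
    rw [hy]
    refine g3 c₀ c₁ c₂ b (fun x' y' => ?_) b1 b2 b3
    have hb : b = ph (Fin G ⊕ Fin G) X - (c₀ • ph (Fin G ⊕ Fin G) (DZ Z) + c₁ • N + c₂ • M') := by
      rw [hy, add_sub_cancel_left]
    have hb' : b ∈ GG (LZ Z) := by
      rw [hb]
      exact (GG (LZ Z)).sub_mem (mem_GG.2 hX') ((GG (LZ Z)).add_mem ((GG (LZ Z)).add_mem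
        ((GG (LZ Z)).smul_mem _ hDG) ((GG (LZ Z)).smul_mem _ hN)) ((GG (LZ Z)).smul_mem _ hM'))
    exact hsk _ hb' x' y'
  -- and by the commutators of the rational Lefschetz Lie algebra
  have hz : ∀ a b : M.H →ₗ[ℚ] M.H, InLef M.per a → InLef M.per b →
      Kills (ph (Fin G ⊕ Fin G) (qm (matQ A (a ∘ₗ b - b ∘ₗ a)))) g := by
    intro a b ha hb
    exact s_d4' M.per G Z h A hC _ (fun f hf w => kill_of hno _ (fun θ hθ v w' =>
      comm_kill (ha.2 θ hθ) (hb.2 θ hθ) v w') f hf w) g g1 g2 hg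
  -- endomorphisms are scalars
  have hsc : ∀ X : Matrix (Fin G ⊕ Fin G) (Fin G ⊕ Fin G) ℂ, Xᵀ * Om G ℂ + Om G ℂ * X = 0 →
      X ∈ lefC Z := by
    intro X hX'
    refine ⟨hX', fun φ hφ => ?_⟩
    obtain ⟨c, hc⟩ := scal_top hm.irr (ph (Fin G ⊕ Fin G) (qm φ)) (fun y hy => by
      obtain ⟨Y, hY, rfl⟩ := exists_GG hy
      have h4 : LZ Z ≤
          { carrier := {W | W * qm φ = qm φ * W}
            add_mem' := fun {a b} ha hb => by
              change (a + b) * qm φ = qm φ * (a + b)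
              rw [Matrix.add_mul, Matrix.mul_add, ha, hb]
            zero_mem' := by
              change (0 : Matrix _ _ ℂ) * qm φ = qm φ * 0
              rw [Matrix.zero_mul, Matrix.mul_zero]
            smul_mem' := fun c a ha => by
              change (c • a) * qm φ = qm φ * (c • a)
              rw [Matrix.smul_mul, Matrix.mul_smul, ha] } := by
        refine LZ_le (fun σ => ?_) (fun a ha b hb => ?_)
        · change DS Z σ * qm φ = qm φ * DS Z σ
          have h5 : (qm φ).map σ = qm φ := by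
            ext i j
            simp [qm]
          have h6 := congrArg (fun W : Matrix _ _ ℂ => W.map σ) hφ
          simp only [Matrix.map_mul] at h6
          rw [h5] at h6
          exact h6.symm
        · change (a * b - b * a) * qm φ = qm φ * (a * b - b * a)
          rw [Matrix.sub_mul, Matrix.mul_sub, Matrix.mul_assoc, Matrix.mul_assoc, ha, hb,
            ← Matrix.mul_assoc, ← Matrix.mul_assoc, ha, hb, Matrix.mul_assoc, Matrix.mul_assoc]
      have h5 : Y * qm φ = qm φ * Y := h4 hY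
      rw [← map_mul, ← map_mul, h5])
    have h5 : qm φ = c • (1 : Matrix (Fin G ⊕ Fin G) (Fin G ⊕ Fin G) ℂ) := by
      apply (ph (Fin G ⊕ Fin G)).injective
      rw [hc, map_smul, map_one]
    rw [h5, Matrix.mul_smul, Matrix.smul_mul, Matrix.mul_one, Matrix.one_mul]
  -- all symplectic matrices kill the form
  have hk : ∀ X Y : Matrix (Fin G ⊕ Fin G) (Fin G ⊕ Fin G) ℂ, X ∈ lefC Z → Y ∈ lefC Z →
      X * Y - Y * X ∈ (killS g).comap (ph (Fin G ⊕ Fin G)).toLinearMap := by
    intro X Y hX' hY'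
    obtain ⟨m, c, xs, hxs, rfl⟩ := s_ratl G Z X hX'
    obtain ⟨n, d, ys, hys, rfl⟩ := s_ratl G Z Y hY'
    have e : (∑ j, c j • qm (xs j)) * (∑ k, d k • qm (ys k)) -
        (∑ k, d k • qm (ys k)) * (∑ j, c j • qm (xs j)) =
          ∑ j, ∑ k, (c j * d k) • (qm (xs j) * qm (ys k) - qm (ys k) * qm (xs j)) := by
      rw [Matrix.sum_mul, Matrix.mul_sum, ← Finset.sum_sub_distrib]
      refine Finset.sum_congr rfl fun j _ => ?_
      rw [Matrix.mul_sum, Matrix.sum_mul, ← Finset.sum_sub_distrib]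
      refine Finset.sum_congr rfl fun k _ => ?_
      rw [smul_mul_smul_comm, smul_mul_smul_comm, mul_comm (d k), ← smul_sub]
    rw [e]
    refine Submodule.sum_mem _ fun j _ => Submodule.sum_mem _ fun k _ =>
      Submodule.smul_mem _ _ ?_
    have h6 := hz (opQ A (xs j)) (opQ A (ys k)) ((t1 _).2 (by rw [matQ_opQ]; exact hxs j))
      ((t1 _).2 (by rw [matQ_opQ]; exact hys k))
    rw [matQ_br, qm_br, matQ_opQ, matQ_opQ] at h6
    exact h6
  have hall : ∀ X : Matrix (Fin G ⊕ Fin G) (Fin G ⊕ Fin G) ℂ, Xᵀ * Om G ℂ + Om G ℂ * X = 0 →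
      Kills (ph (Fin G ⊕ Fin G) X) g := by
    intro X hX'
    have h7 : Submodule.span ℂ {Y | ∃ A B : Matrix (Fin G ⊕ Fin G) (Fin G ⊕ Fin G) ℂ,
        Aᵀ * Om G ℂ + Om G ℂ * A = 0 ∧ Bᵀ * Om G ℂ + Om G ℂ * B = 0 ∧ Y = A * B - B * A} ≤
          (killS g).comap (ph (Fin G ⊕ Fin G)).toLinearMap := by
      refine Submodule.span_le.2 ?_
      rintro _ ⟨P, Q, hP', hQ', rfl⟩
      exact hk P Q (hsc P hP') (hsc Q hQ')
    exact h7 (s_perf G X hX')
  -- the contradiction
  apply hnk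
  obtain ⟨X, rfl⟩ := (ph (Fin G ⊕ Fin G)).surjective x
  refine hall X ?_
  have h8 : ∀ v w, om G (ph (Fin G ⊕ Fin G) X v) w + om G v (ph (Fin G ⊕ Fin G) X w) = 0 := by
    intro v w
    rw [hx, hx, map_smul, map_smul, LinearMap.smul_apply, smul_eq_mul, smul_eq_mul,
      om_anti v u]
    ring
  ext i j
  have h3 := h8 (Pi.single i 1) (Pi.single j 1)
  have e1 : (ph _ X) (Pi.single i 1) = X *ᵥ Pi.single i 1 := rfl
  have e2 : (ph _ X) (Pi.single j 1) = X *ᵥ Pi.single j 1 := rfl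
  rw [e1, e2, om_apply, om_apply] at h3
  have e3 : (X *ᵥ Pi.single i (1 : ℂ)) ⬝ᵥ Om G ℂ *ᵥ Pi.single j 1 = (Xᵀ * Om G ℂ) i j := by
    rw [Matrix.mulVec_single_one, Matrix.mulVec_single_one, Matrix.mul_apply]
    rfl
  have e4 : (Pi.single i (1 : ℂ)) ⬝ᵥ Om G ℂ *ᵥ X *ᵥ Pi.single j 1 = (Om G ℂ * X) i j := by
    rw [Matrix.mulVec_mulVec, Matrix.mulVec_single_one, single_one_dotProduct]
    rfl
  rw [e3, e4] at h3
  exact h3

end

end Pool.Agent.H841.HC5
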