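import Mathlib
import Pool.Agent.H841.HC5.ExcJobs
import Pool.Agent.H841.MF.Fin4
import Pool.Agent.H926.A.Qtop

/-!
# One exceptional class gives all Hodge classes on the square
-/

set_option linter.unusedSectionVars false

namespace Pool.Agent.H841.HC5

open Matrix Module Pool.Agent.Y90 Pool.Agent.W437.HC Pool.Agent.W437.HD
  Pool.Agent.TH504.CB
open Pool.Agent.W548.Odd hiding cv
open Pool.Agent.H204R3.CM (IsHodge)
open Pool.Agent.R915 (Sys IsFactor)
open Pool.Agent.N178.HW (prodAV)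
open Pool.Agent.H926
open Pool.Agent.H926.T

noncomputable section

theorem all_of_exc (𝒜 : Sys) (A : AV) (hM : IsMumfordType A.per)
    (f : (prodAV A A).H [⋀^Fin 4]→ₗ[ℚ] ℚ) (hf : IsExc A f)
    (hfA : 𝒜.A (prodAV A A) (Fin 4) f) (X : AV) (hX : ∀ Y, IsFactor Y X → IsFactor Y A) :
    𝒜.AllHodge X := by
  have hAV : St.IsAV A.per := hM.1
  have h10 := A.rank
  have h4' := hM.2.1
  obtain ⟨G, Z, h, e, hC⟩ := exists_ppav hAV
  have hG : G = 4 := by
    have h1 := e.finrank_eq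
    rw [Module.finrank_fintype_fun_eq_card, Fintype.card_sum, Fintype.card_fin] at h1
    omega
  subst hG
  have hMM : MumM Z := s_mu (s_gbr s_facp) s_perf A.H A.T A.per hM 4 Z h e hC
  obtain ⟨ρ, hρ⟩ := s_ms 4 Z h hMM
  obtain ⟨he', he⟩ := Pool.Agent.H926.A.iso_maps h e hC
  have hd := Pool.Agent.H841.MF.dat_of h hρ.mul hρ.one hρ.comm hρ.lie
  have h1 : IsHom (prodAV (AVZ h) (AVZ h)) (prodAV A A)
      (LinearMap.prodMap e.symm.toLinearMap e.symm.toLinearMap) := by
    obtain ⟨Ψ, hΨ⟩ := he'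
    refine ⟨LinearMap.prodMap Ψ Ψ, fun v => ?_⟩
    exact Prod.ext (hΨ v.1) (hΨ v.2)
  have he2 : IsHom A (AVZ h) e.toLinearMap := he
  have hex : ¬ Pool.Agent.H841.MF.Plain (h := h) (f.compLinearMap
      (LinearMap.prodMap e.symm.toLinearMap e.symm.toLinearMap)) := by
    rintro ⟨a, b, hab⟩
    refine hf.2 ⟨(Pool.Agent.H841.MF.th 4).compLinearMap e.toLinearMap, a, b,
      Pool.Agent.H841.MS.hodge_pull (Pool.Agent.H841.MF.th_hodge h) he2, fun x y z w => ?_⟩
    have h2 := hab (e x) (e y) (e z) (e w)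
    have h3 : (f.compLinearMap (LinearMap.prodMap e.symm.toLinearMap e.symm.toLinearMap))
        ![(e x, 0), (e y, 0), (0, e z), (0, e w)] = f ![(x, 0), (y, 0), (0, z), (0, w)] := by
      change f (fun k => LinearMap.prodMap e.symm.toLinearMap e.symm.toLinearMap
        ((![(e x, 0), (e y, 0), (0, e z), (0, e w)] : Fin 4 → (AVZ h).H × (AVZ h).H) k)) = _
      congr 1
      funext k
      fin_cases k
      · exact Prod.ext (e.symm_apply_apply x) (map_zero e.symm)
      · exact Prod.ext (e.symm_apply_apply y) (map_zero e.symm)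
      · exact Prod.ext (map_zero e.symm) (e.symm_apply_apply z)
      · exact Prod.ext (map_zero e.symm) (e.symm_apply_apply w)
    have h4 : ∀ p q : A.H, ((Pool.Agent.H841.MF.th 4).compLinearMap e.toLinearMap) ![p, q] =
        Pool.Agent.H841.MF.th 4 ![e p, e q] := by
      intro p q
      rw [AlternatingMap.compLinearMap_apply]
      congr 1
      funext k
      fin_cases k <;> rfl
    refine h3.symm.trans (h2.trans ?_)
    rw [h4, h4, h4, h4, h4, h4]
  refine Pool.Agent.H841.MF.allHodge_four h hd 𝒜 (Pool.Agent.H841.MS.hodge_pull hf.1 h1)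
    (𝒜.pull _ h1 _ hfA) hex X fun Y hY => ?_
  obtain ⟨hs, i, hi, hi'⟩ := hX Y hY
  obtain ⟨Ψ, hΨ⟩ := he2
  obtain ⟨Φ, hΦ⟩ := hi
  refine ⟨hs, e.toLinearMap.comp i, ⟨Ψ.comp Φ, fun v => ?_⟩, e.injective.comp hi'⟩
  change Ψ (Φ (Y.per v)) = _
  rw [hΦ, hΨ]
  rfl

end

end Pool.Agent.H841.HC5
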