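import Mathlib
import Pool.Agent.H841.HC5.Jobs
import Pool.Agent.H926.A.Qfin

/-!
# Invariant forms and Weil classes on fourfolds and sixfolds
-/

set_option linter.unusedSectionVars false

namespace Pool.Agent.H841.HC5

open Matrix Module Pool.Agent.W437.HC Pool.Agent.W437.HD Pool.Agent.TH504.CB Pool.Agent.W522.U
open Pool.Agent.Y90 hiding mulA exists_lam mulA_altQ
open Pool.Agent.W548.Odd hiding cv
open Pool.Agent.W437.HP (cK cK_mul cK_one)
open Pool.Agent.H204R3.CM (IsHodge)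
open Pool.Agent.H204R3.SP (Kills bil2 IsTate)
open Pool.Agent.H926.T
open Pool.Agent.H926.A

noncomputable section

variable {G : ℕ} {Z : Matrix (Fin G) (Fin G) ℂ}

/-- The part without orthogonal submodules. -/
theorem non5 (hQD : S_QD5) (h1 : S_FORMQ) (h2 : S_RK1) (h3 : S_TWI) (h : PM Z)
    (h5 : F5 Z) (h10 : S10 Z) (hB : LB (GG (LZ Z)) (om G))
    (Q : End ℂ (Fin G ⊕ Fin G → ℂ)) (hQ : Q * Q = Q)
    (hQC : ∀ T, ComE (GG (LZ Z)) T → T * Q = Q * T) (hQL : ∀ X ∈ GG (LZ Z), X * Q = Q * X)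
    (hQω : ∀ u v, om G (Q u) v = om G u (Q v))
    (hno : ∀ U, IrE (GG (LZ Z)) U → U ≤ LinearMap.range Q → ¬OrtE (GG (LZ Z)) U) :
    Supp (GG (LZ Z)) (fun κ _ => NQ Z 6 True κ) Q := by
  classical
  intro κ _ _ ψ hψ hsup
  have hSI : ∀ {U}, W522.U.SI (RZ Z) U ↔ IrS (LZ Z) U := fun {U} => si_iff h.genI
  have hinv : ∀ (g : Gam (GG (LZ Z))) (v : κ → Fin G ⊕ Fin G → ℂ),
      ψ (fun k => RZ Z g (v k)) = ψ v := fun g v => inv_gam ψ (fun D hD _ => hψ D hD) g v
  obtain ⟨s, W, st, hW, hWQ, hWW, hall, hst, hDu, hDu'⟩ := exists_repsQ h hQ hQC hQL hQω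
  rcases Nat.even_or_odd (Fintype.card κ) with he | ho
  · obtain ⟨m, hm⟩ := he
    have e : κ ≃ Fin m × Fin 2 := Fintype.equivOfCardEq (by
      rw [Fintype.card_prod, Fintype.card_fin, Fintype.card_fin, hm]
      ring)
    have h5' : ψ.domDomCongr e ∈ NQ Z 6 True (Fin m × Fin 2) := by
      refine h1 (Fin G ⊕ Fin G → ℂ) (Gam (GG (LZ Z))) (RZ Z) (fun Δ hΔ => fi_top Δ hΔ) (om G) om_nd
        (rz_om h) Q hQ ?_ hQω ?_ ?_ ?_ (rz_proj h) s W hW hWQ hWW hall st hst hDu hDu'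
        (fun κ _ => NQ Z 6 True κ) (clo_NQ Z 6 True) (pair_memq h) ?_ m _ ?_ ?_
      · intro g v
        exact (rz_equiv h stab_top Q).2 (fun X hX u _ =>
          (LinearMap.congr_fun (hQL (ph _ X) (mem_GG.2 hX)) u).symm) g v trivial
      · intro U hU hUQ hn
        exact rk1Q h2 h hB (hSI.1 hU) (hno U (irE_iff.2 (hSI.1 hU)) hUQ) hn
      · intro U hU _ hn
        exact rz_line h (hSI.1 hU) hn
      · intro U U' hU hU' hUQ _ hn _ χ hT
        exact twQ h3 h hB (hSI.1 hU) (hSI.1 hU') (hno U (irE_iff.2 (hSI.1 hU)) hUQ) hn χ hT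
      · intro a ha hdet ι _ _ f q hq' ψ hψ
        exact hQD G Z h h5 h10 s W (fun i => hSI.1 (hW i)) st hst hDu hDu' a ha hdet ι f q hq' ψ hψ
      · intro g v
        rw [MultilinearMap.domDomCongr_apply, MultilinearMap.domDomCongr_apply]
        exact hinv g _
      · intro v
        rw [MultilinearMap.domDomCongr_apply, MultilinearMap.domDomCongr_apply]
        exact hsup _
    exact (clo_NQ Z 6 True).reindex e.symm h5' ψ fun v => by
      rw [MultilinearMap.domDomCongr_apply]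
      congr 1
      funext k
      simp
  · have h0 : ψ = 0 := by
      refine MultilinearMap.ext fun v => ?_
      have h1 := hinv (gt (D := ph _ (DZ Z)) (by rw [← map_mul, DZ_sq h.det, map_one])
        (mem_GG.2 DZ_mem) (-1)) v
      have h2 : (fun k => RZ Z (gt (D := ph _ (DZ Z)) (by rw [← map_mul, DZ_sq h.det, map_one])
        (mem_GG.2 DZ_mem) (-1)) (v k)) = fun k => (-1 : ℂ) • v k := by
        funext k
        change torE (ph _ (DZ Z)) (-1) (v k) = _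
        rw [torE_apply]
        simp only [Units.val_neg, Units.val_one, inv_neg, inv_one]
        module
      rw [h2, MultilinearMap.map_smul_univ, Finset.prod_const, Finset.card_univ,
        Odd.neg_one_pow ho, neg_one_smul] at h1
      have h3 : ψ v = 0 := by linear_combination (-1 / 2 : ℂ) * h1
      rw [h3]
      rfl
    rw [h0]
    exact Submodule.zero_mem _

theorem supp_all5 (hQD : S_QD5) (hOr : S_OR5) (hDet : S_DET5) (h1 : S_FORMQ) (h2 : S_RK1)
    (h3' : S_TWI) (hOrt : S_ORT) (hO3 : S_O3) (h : PM Z) (h5 : F5 Z) (h10 : S10 Z)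
    (hB : LB (GG (LZ Z)) (om G)) (n : ℕ) :
    ∀ Q : End ℂ (Fin G ⊕ Fin G → ℂ), finrank ℂ (LinearMap.range Q) = n → Q * Q = Q →
      (∀ T, ComE (GG (LZ Z)) T → T * Q = Q * T) → (∀ X ∈ GG (LZ Z), X * Q = Q * X) →
      (∀ u v, om G (Q u) v = om G u (Q v)) → Supp (GG (LZ Z)) (fun κ _ => NQ Z 6 True κ) Q := by
  induction n using Nat.strong_induction_on with
  | _ n ih =>
    intro Q hn hQ hQC hQL hQω
    by_cases hex : ∃ U, IrE (GG (LZ Z)) U ∧ U ≤ LinearMap.range Q ∧ OrtE (GG (LZ Z)) U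
    · obtain ⟨U, hU, hUQ, hO⟩ := hex
      have hDm : ph (Fin G ⊕ Fin G) (DZ Z) ∈ GG (LZ Z) := mem_GG.2 DZ_mem
      have hD2 : ph (Fin G ⊕ Fin G) (DZ Z) * ph (Fin G ⊕ Fin G) (DZ Z) = 1 := by
        rw [← map_mul, DZ_sq h.det, map_one]
      have h3 := hO3 _ (GG (LZ Z)) U hU hO _ hDm hD2
      obtain ⟨p, pp, pC, pL, pω, pU, pX, pQ, pS⟩ := hOrt _ (GG (LZ Z)) (om G) hB U hU hO h3
        (fun κ _ => NQ Z 6 True κ) (clo_NQ Z 6 True)
        (fun b hb => bil_memq h b fun X hX u v => hb _ (mem_GG.2 hX) u v)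
        (fun m e q hq' ψ hψ => by
          obtain ⟨b, hb1, hb2, hb3⟩ := hO
          have hU' := irs_iff.1 hU
          have hb1' : ∀ X ∈ LZ Z, ∀ u ∈ U, ∀ v ∈ U, b (X *ᵥ u) v + b u (X *ᵥ v) = 0 :=
            fun X hX u hu v hv => hb1 _ (mem_GG.2 hX) u hu v hv
          obtain ⟨hPD, hle⟩ := hOr G Z h h5 U hU' b hb1' hb2 hb3 h3
          have hm : m ≤ 5 := by
            have h9 := finrank_eq_card_basis e
            rw [Fintype.card_fin] at h9
            omega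
          exact hDet G Z h U hU' hPD b hb1' hb2 hb3 m hm e q
              (fun i X hX v => hq' i _ (mem_GG.2 hX) v) ψ hψ)
      have hQU : ∀ u ∈ U, Q u = u := by
        intro u hu
        obtain ⟨w, rfl⟩ := hUQ hu
        exact LinearMap.congr_fun hQ w
      have hQp : Q * p = p := pQ Q hQC hQU
      have hpQ : p * Q = p := by rw [hQC p pL, hQp]
      have hS := ih (finrank ℂ (LinearMap.range (Q - p))) (by
        rw [← hn]
        refine Submodule.finrank_lt_finrank_of_lt (lt_of_le_of_ne ?_ ?_)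
        · rintro _ ⟨w, rfl⟩
          refine ⟨(Q - p) w, ?_⟩
          have h4 : Q * (Q - p) = Q - p := by rw [mul_sub, hQ, hQp]
          exact LinearMap.congr_fun h4 w
        · intro heq
          obtain ⟨u, hu, hu0⟩ := Submodule.exists_mem_ne_zero_of_ne_bot hU.1
          have h4 : u ∈ LinearMap.range (Q - p) := by
            rw [heq]
            exact hUQ hu
          obtain ⟨w, hw⟩ := h4
          have h5 : p * (Q - p) = 0 := by rw [mul_sub, hpQ, pp, sub_self]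
          apply hu0
          rw [← pU u hu, ← hw]
          exact LinearMap.congr_fun h5 w) (Q - p) rfl
        (by rw [mul_sub, sub_mul, sub_mul, hQ, hQp, hpQ, pp]; abel)
        (fun T hT => by rw [mul_sub, sub_mul, hQC T hT, pC T hT])
        (fun X hX => by rw [mul_sub, sub_mul, hQL X hX, pL X hX])
        (fun u v => by
          rw [LinearMap.sub_apply, LinearMap.sub_apply, map_sub, map_sub, LinearMap.sub_apply,
            hQω, pω])
      have h6 := Supp.add (P := p) (Q := Q - p) (clo_NQ Z 6 True) pp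
        (by rw [mul_sub, sub_mul, sub_mul, hQ, hQp, hpQ, pp]; abel)
        (by rw [mul_sub, hpQ, pp, sub_self]) (by rw [sub_mul, hQp, pp, sub_self]) pL
        (fun X hX => by rw [mul_sub, sub_mul, hQL X hX, pL X hX])
        (fun X hX => ⟨X * p, pX X hX, by rw [mul_assoc, mul_sub, hpQ, pp, sub_self, mul_zero],
          by rw [mul_assoc, pp]⟩) pS hS
      rwa [add_sub_cancel] at h6
    · exact non5 hQD h1 h2 h3' h h5 h10 hB Q hQ hQC hQL hQω fun U hU hUQ hO => hex ⟨U, hU, hUQ, hO⟩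

/-- The lemmas. -/
structure Lem5 : Prop where
  qd : S_QD5
  or5 : S_OR5
  det : S_DET5
  ns : S_NS
  goodn : S_GOODN
  formq : S_FORMQ
  rk1 : S_RK1
  twi : S_TWI
  ort : S_ORT
  o3 : S_O3
  lb : S_LB

/-- **All forms killed by the Lie algebra belong to the system.** -/
theorem Lem5.all (L : Lem5) (h : PM Z) (h5 : F5 Z) (h10 : S10 Z) (hb : BrH Z) : AllFq Z 6 True := by
  intro κ _ _ ψ hψ
  refine supp_all5 L.qd L.or5 L.det L.formq L.rk1 L.twi L.ort L.o3 h h5 h10 (L.lb G Z h hb) _ 1 rfl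
    (one_mul 1) (fun T _ => by rw [one_mul, mul_one]) (fun X _ => by rw [one_mul, mul_one])
    (fun _ _ => rfl) κ ψ (fun y hy => ?_) fun v => rfl
  obtain ⟨A, hA, rfl⟩ := exists_GG hy
  exact hψ A hA

/-- **Powers of period matrices.** -/
theorem Lem5.pow (L : Lem5) (h : PM Z) {G₀ : ℕ} {Z₀ : Matrix (Fin G₀) (Fin G₀) ℂ} (h₀ : PM Z₀)
    (hG : G₀ ≤ 5) (hF : FN Z Z₀) (hb : BrH Z) (n : ℕ) {κ : Type}
    [Finite κ] (f : (Fin n → (Fin G ⊕ Fin G → ℚ)) [⋀^κ]→ₗ[ℚ] ℚ)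
    (hf : IsHodge (powPer (perOne Z) n) f) : QR (powPer (perOne Z) n) 6 True κ f := by
  have hX : Pool.Agent.Y90.St.IsAV (perOne Z) := h.isAV
  have hXn : Pool.Agent.Y90.St.IsAV (powPer (perOne Z) n) := s_pav _ _ (perOne Z) hX n
  obtain ⟨G', Z', h', A', hC'⟩ := exists_ppav hXn
  have hF' : FN Z' Z₀ := by
    intro a Z₁ E F hf' h₁ hs ha
    obtain ⟨E', F', hf''⟩ := s_facp G Z h n G' Z' h' A' hC' a Z₁ E F hf' h₁ hs ha
    exact hF a Z₁ E' F' hf'' h₁ hs ha
  obtain ⟨h5', h10'⟩ := L.ns G' G₀ Z' Z₀ h' h₀ hG hF'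
  have hC0 : Cht ((perOne Z).comp
      (LinearEquiv.refl ℚ (Fin G ⊕ Fin G → ℚ)).symm.toLinearMap.toAddMonoidHom) (JR Z) := h.cht
  obtain ⟨t1, t2⟩ := s_tra _ _ (perOne Z) G Z h (LinearEquiv.refl ℚ _) hC0
  have hbr : ∀ x y : (Fin G ⊕ Fin G → ℚ) →ₗ[ℚ] (Fin G ⊕ Fin G → ℚ), InLef (perOne Z) x →
      InLef (perOne Z) y → InHdg (perOne Z) (x ∘ₗ y - y ∘ₗ x) := by
    intro x y hx hy
    refine (t2 _).2 ?_
    rw [matQ_br, qm_br]
    exact hb _ ((t1 x).1 hx) _ ((t1 y).1 hy)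
  have hb' := brh_of h' A' hC' (hbr_pow hX hbr n)
  exact hodge_abs h' A' hC' (fun g hg => hodge_altq h' (altFoq_of_all
    (L.all h' h5' h10' hb')) g hg) f hf

section abs

variable {H T : Type} [AddCommGroup H] [Module ℚ H] [AddCommGroup T] [Module ℂ T] {per : H →+ T}
  {H₀ T₀ : Type} [AddCommGroup H₀] [Module ℚ H₀] [AddCommGroup T₀] [Module ℂ T₀] {per₀ : H₀ →+ T₀}

/-- **Hodge classes on powers.** -/
theorem Lem5.hodge (L : Lem5) (hX : Pool.Agent.Y90.St.IsAV per)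
    (hX₀ : Pool.Agent.Y90.St.IsAV per₀) (h5 : finrank ℂ T₀ ≤ 5)
    (hs : ∀ U : Submodule ℚ H, Pool.Agent.Y90.St.IsSimpleSub per U → IsRealSub per U ∨
      ∃ r : H →ₗ[ℚ] H₀, Pool.Agent.Y90.St.IsHom per per₀ r ∧ ∀ u ∈ U, r u = 0 → u = 0)
    (hbr : ∀ x y : H →ₗ[ℚ] H, InLef per x → InLef per y → InHdg per (x ∘ₗ y - y ∘ₗ x)) (n : ℕ)
    {κ : Type} [Finite κ] (f : (Fin n → H) [⋀^κ]→ₗ[ℚ] ℚ) (hf : IsHodge (powPer per n) f) :
    QR (powPer per n) 6 True κ f := by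
  obtain ⟨G, Z, h, A, hC⟩ := exists_ppav hX
  obtain ⟨G₀, Z₀, h₀, A₀, hC₀⟩ := exists_ppav hX₀
  have hG₀ : G₀ ≤ 5 := by
    have h1 := A₀.finrank_eq
    rw [Module.finrank_fintype_fun_eq_card, Fintype.card_sum, Fintype.card_fin] at h1
    have h3 := hX₀.2.2.2.1
    omega
  have hF := L.goodn H T per H₀ T₀ per₀ G Z h A hC G₀ Z₀ h₀ A₀ hC₀ hs
  exact pow_transport h A hC n (fun g hg => L.pow h h₀ hG₀ hF (brh_of h A hC hbr) n g hg) f hf

end abs

end

end Pool.Agent.H841.HC5
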