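import Pool.Agent.H841.HC5.Comb

set_option linter.unusedSectionVars false

namespace Pool.Agent.H841.HC5

namespace Beta

/-- hypotheses for a sorted sequence -/
structure Hyp (n : ℕ) (b : Fin n → ℤ) : Prop where
  mono : Monotone b
  pos : ∀ i, 0 < b i
  h0 : ∃ ε : Fin n → ℤ, (∀ i, ε i = 1 ∨ ε i = -1) ∧ ∑ i, ε i * b i = 0
  h1 : ∀ k l, k ≠ l → ∃ ε : Fin n → ℤ, (∀ i, ε i = 1 ∨ ε i = -1) ∧ ε k = ε l ∧
    ∑ i, ε i * b i = 0
  h2 : ∀ k l, k ≠ l → ∃ ε : Fin n → ℤ, (∀ i, ε i = 1 ∨ ε i = -1) ∧ ε k = -ε l ∧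
    ∑ i, ε i * b i = 0

theorem case1 (b : Fin 1 → ℤ) (h : Hyp 1 b) : False := by
  obtain ⟨ε, hε, hs⟩ := h.h0
  have p0 := h.pos 0
  rw [Fin.sum_univ_one] at hs
  rcases hε 0 with e0 | e0 <;> simp only [e0] at hs <;> omega

theorem case2 (b : Fin 2 → ℤ) (h : Hyp 2 b) : False := by
  obtain ⟨ε, hε, hkl, hs⟩ := h.h1 0 1 (by decide)
  have p0 := h.pos 0
  have p1 := h.pos 1
  rw [Fin.sum_univ_two] at hs
  rcases hε 0 with e0 | e0 <;> rcases hε 1 with e1 | e1 <;> simp only [e0, e1] at hs hkl <;>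
    omega

theorem case3 (b : Fin 3 → ℤ) (h : Hyp 3 b) : False := by
  obtain ⟨ε, hε, hkl, hs⟩ := h.h1 1 2 (by decide)
  have p0 := h.pos 0
  have m0 : b 0 ≤ b 1 := h.mono (by decide)
  have m1 : b 1 ≤ b 2 := h.mono (by decide)
  rw [Fin.sum_univ_three] at hs
  rcases hε 0 with e0 | e0 <;> rcases hε 1 with e1 | e1 <;> rcases hε 2 with e2 | e2 <;>
    simp only [e0, e1, e2] at hs hkl <;> omega

theorem case4 (b : Fin 4 → ℤ) (h : Hyp 4 b) : b 0 = b 1 ∧ b 1 = b 2 ∧ b 2 = b 3 := by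
  obtain ⟨ε, hε, hkl, hs⟩ := h.h1 2 3 (by decide)
  have p0 := h.pos 0
  have m0 : b 0 ≤ b 1 := h.mono (by decide)
  have m1 : b 1 ≤ b 2 := h.mono (by decide)
  have m2 : b 2 ≤ b 3 := h.mono (by decide)
  rw [Fin.sum_univ_four] at hs
  rcases hε 0 with e0 | e0 <;> rcases hε 1 with e1 | e1 <;> rcases hε 2 with e2 | e2 <;>
    rcases hε 3 with e3 | e3 <;> simp only [e0, e1, e2, e3] at hs hkl <;> omega

theorem case5 (b : Fin 5 → ℤ) (h : Hyp 5 b) :
    b 0 = b 1 ∧ b 1 = b 2 ∧ b 2 = b 3 ∧ b 4 = 2 * b 0 := by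
  have p0 := h.pos 0
  have m0 : b 0 ≤ b 1 := h.mono (by decide)
  have m1 : b 1 ≤ b 2 := h.mono (by decide)
  have m2 : b 2 ≤ b 3 := h.mono (by decide)
  have m3 : b 3 ≤ b 4 := h.mono (by decide)
  have f1 : b 3 + b 4 = b 0 + b 1 + b 2 := by
    obtain ⟨ε, hε, hkl, hs⟩ := h.h1 3 4 (by decide)
    rw [Fin.sum_univ_five] at hs
    rcases hε 0 with e0 | e0 <;> rcases hε 1 with e1 | e1 <;> rcases hε 2 with e2 | e2 <;>
      rcases hε 3 with e3 | e3 <;> rcases hε 4 with e4 | e4 <;>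
      simp only [e0, e1, e2, e3, e4] at hs hkl <;> omega
  have f2 : b 2 = b 3 := by
    obtain ⟨ε, hε, hkl, hs⟩ := h.h1 2 4 (by decide)
    rw [Fin.sum_univ_five] at hs
    rcases hε 0 with e0 | e0 <;> rcases hε 1 with e1 | e1 <;> rcases hε 2 with e2 | e2 <;>
      rcases hε 3 with e3 | e3 <;> rcases hε 4 with e4 | e4 <;>
      simp only [e0, e1, e2, e3, e4] at hs hkl <;> omega
  have f3 : b 1 = b 3 ∨ b 4 = b 3 := by
    obtain ⟨ε, hε, hkl, hs⟩ := h.h1 1 4 (by decide)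
    rw [Fin.sum_univ_five] at hs
    rcases hε 0 with e0 | e0 <;> rcases hε 1 with e1 | e1 <;> rcases hε 2 with e2 | e2 <;>
      rcases hε 3 with e3 | e3 <;> rcases hε 4 with e4 | e4 <;>
      simp only [e0, e1, e2, e3, e4] at hs hkl <;> omega
  have f4 : b 1 = b 3 := by
    rcases f3 with f3 | f3
    · exact f3
    · exfalso
      obtain ⟨ε, hε, hkl, hs⟩ := h.h2 0 1 (by decide)
      rw [Fin.sum_univ_five] at hs
      rcases hε 0 with e0 | e0 <;> rcases hε 1 with e1 | e1 <;> rcases hε 2 with e2 | e2 <;>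
        rcases hε 3 with e3 | e3 <;> rcases hε 4 with e4 | e4 <;>
        simp only [e0, e1, e2, e3, e4] at hs hkl <;> omega
  have f5 : b 0 = b 3 := by
    obtain ⟨ε, hε, hkl, hs⟩ := h.h1 0 4 (by decide)
    rw [Fin.sum_univ_five] at hs
    rcases hε 0 with e0 | e0 <;> rcases hε 1 with e1 | e1 <;> rcases hε 2 with e2 | e2 <;>
      rcases hε 3 with e3 | e3 <;> rcases hε 4 with e4 | e4 <;>
      simp only [e0, e1, e2, e3, e4] at hs hkl <;> omega
  omega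

/-- the statement for sorted sequences -/
theorem sorted (n : ℕ) (hn : n ≤ 5) (hn0 : 0 < n) (b : Fin n → ℤ) (h : Hyp n b) :
    ∃ c : ℤ, 0 < c ∧ ((n = 4 ∧ ∀ i, b i = c) ∨
      (n = 5 ∧ ∃ i₀, b i₀ = 2 * c ∧ ∀ i, i ≠ i₀ → b i = c)) := by
  interval_cases n
  · exact (case1 b h).elim
  · exact (case2 b h).elim
  · exact (case3 b h).elim
  · obtain ⟨e1, e2, e3⟩ := case4 b h
    refine ⟨b 0, h.pos 0, Or.inl ⟨rfl, ?_⟩⟩
    intro i
    fin_cases i
    · rfl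
    · exact e1.symm
    · exact (e1.trans e2).symm
    · exact (e1.trans (e2.trans e3)).symm
  · obtain ⟨e1, e2, e3, e4⟩ := case5 b h
    refine ⟨b 0, h.pos 0, Or.inr ⟨rfl, 4, e4, ?_⟩⟩
    intro i hi
    fin_cases i
    · rfl
    · exact e1.symm
    · exact (e1.trans e2).symm
    · exact (e1.trans (e2.trans e3)).symm
    · exact (hi rfl).elim

end Beta

theorem s_beta : S_BETA := by
  intro S _ _ β h5 hβ h0 hne h1 h2
  obtain ⟨e, he⟩ : ∃ e : Fin (Fintype.card S) ≃ S, Monotone (fun i => β (e i)) := by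
    refine ⟨(Tuple.sort (fun i => β ((Fintype.equivFin S).symm i))).trans
      (Fintype.equivFin S).symm, ?_⟩
    exact Tuple.monotone_sort (fun i => β ((Fintype.equivFin S).symm i))
  have hsum : ∀ ε : S → ℤ, ∑ i, ε (e i) * β (e i) = ∑ i, ε i * β i := fun ε =>
    Equiv.sum_comp e (fun i => ε i * β i)
  have hyp : Beta.Hyp (Fintype.card S) (fun i => β (e i)) := by
    refine ⟨he, fun i => hβ _, ?_, ?_, ?_⟩
    · obtain ⟨ε, hε, hs⟩ := h0
      exact ⟨fun i => ε (e i), fun i => hε _, by rw [hsum]; exact hs⟩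
    · intro k l hkl
      obtain ⟨ε, hε, hk, hs⟩ := h1 (e k) (e l) (fun h => hkl (e.injective h))
      exact ⟨fun i => ε (e i), fun i => hε _, hk, by rw [hsum]; exact hs⟩
    · intro k l hkl
      obtain ⟨ε, hε, hk, hs⟩ := h2 (e k) (e l) (fun h => hkl (e.injective h))
      exact ⟨fun i => ε (e i), fun i => hε _, hk, by rw [hsum]; exact hs⟩
  obtain ⟨c, hc, h | h⟩ := Beta.sorted _ h5 (Fintype.card_pos_iff.2 hne) _ hyp
  · refine ⟨c, hc, Or.inl ⟨h.1, fun i => ?_⟩⟩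
    have := h.2 (e.symm i)
    rwa [Equiv.apply_symm_apply] at this
  · obtain ⟨hn, i₀, hi₀, hi⟩ := h
    refine ⟨c, hc, Or.inr ⟨hn, e i₀, hi₀, fun i hne' => ?_⟩⟩
    have := hi (e.symm i) (fun h => hne' (by rw [← h, Equiv.apply_symm_apply]))
    rwa [Equiv.apply_symm_apply] at this

end Pool.Agent.H841.HC5
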