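import Mathlib
import Pool.Agent.H841.HC5.Jobs

/-!
# S_CLS: the classification of the relations (helper389 for project HC5)
-/

set_option linter.unusedSectionVars false

namespace Pool.Agent.H841.HC5

open Matrix Module Pool.Agent.W437.HC Pool.Agent.W437.HD Pool.Agent.TH504.CB Pool.Agent.W522.U
open Pool.Agent.Y90 hiding mulA exists_lam mulA_altQ
open Pool.Agent.W548.Odd hiding cv
open Pool.Agent.W437.HP (cK cK_mul cK_one)
open Pool.Agent.H204R3.CM (IsHodge)
open Pool.Agent.H204R3.SP (Kills bil2 IsTate)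
open Pool.Agent.Y4.P (MaxM EigM cx)
open Pool.Agent.H926.A (NQ clo_NQ PDq AltE S_QWEIL)

noncomputable section

namespace Cls

variable {G : ℕ} {Z : Matrix (Fin G) (Fin G) ℂ}

/-- Irreducible submodules have positive dimension. -/
theorem finrank_pos_irr {U : Submodule ℂ (Fin G ⊕ Fin G → ℂ)} (hU : IrS (LZ Z) U) :
    0 < finrank ℂ U := by
  have h1 : (1 : ℕ) ≤ finrank ℂ U := Submodule.one_le_finrank_iff.2 hU.1
  omega

/-- Equivariant maps between irreducible submodules are isomorphisms. -/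
theorem eqv_of_ne {U U' : Submodule ℂ (Fin G ⊕ Fin G → ℂ)} (hU : IrS (LZ Z) U)
    (hU' : IrS (LZ Z) U') (T : (Fin G ⊕ Fin G → ℂ) →ₗ[ℂ] (Fin G ⊕ Fin G → ℂ))
    (hT : ∀ X ∈ LZ Z, ∀ u ∈ U, T (X *ᵥ u) = X *ᵥ T u) (hm : ∀ u ∈ U, T u ∈ U')
    (h0 : ∃ u ∈ U, T u ≠ 0) : Eqv (LZ Z) U U' := by
  obtain ⟨u₀, hu₀, hTu₀⟩ := h0
  refine ⟨T, hT, ?_, ?_⟩
  · have h1 : Stab (LZ Z) (U ⊓ LinearMap.ker T) := by
      intro X hX u hu
      have h3 : T (X *ᵥ u) = 0 := by
        rw [hT X hX u hu.1, LinearMap.mem_ker.1 hu.2, mulVec_zero]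
      exact ⟨hU.2.1 X hX u hu.1, LinearMap.mem_ker.2 h3⟩
    rcases hU.2.2 _ inf_le_left h1 with h2 | h2
    · intro u hu hTu
      have h3 : u ∈ U ⊓ LinearMap.ker T := ⟨hu, LinearMap.mem_ker.2 hTu⟩
      rw [h2] at h3
      exact (Submodule.mem_bot ℂ).1 h3
    · exfalso
      have h3 : u₀ ∈ U ⊓ LinearMap.ker T := by
        rw [h2]
        exact hu₀
      exact hTu₀ (LinearMap.mem_ker.1 h3.2)
  · have h1 : Stab (LZ Z) (U.map T) := by
      rintro X hX _ ⟨u, hu, rfl⟩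
      exact ⟨X *ᵥ u, hU.2.1 X hX u hu, hT X hX u hu⟩
    have h2 : U.map T ≤ U' := by
      rintro _ ⟨u, hu, rfl⟩
      exact hm u hu
    rcases hU'.2.2 _ h2 h1 with h3 | h3
    · exfalso
      have h4 : T u₀ ∈ U.map T := ⟨u₀, hu₀, rfl⟩
      rw [h3] at h4
      exact hTu₀ ((Submodule.mem_bot ℂ).1 h4)
    · exact h3

/-- Representatives of the isomorphism classes of irreducible submodules. -/
theorem exists_rep (h : PM Z) :
    ∃ (n : ℕ) (U : Fin n → Submodule ℂ (Fin G ⊕ Fin G → ℂ)), (∀ i, IrS (LZ Z) (U i)) ∧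
      (∀ i j, Eqv (LZ Z) (U i) (U j) → i = j) ∧
      ∀ V, IrS (LZ Z) V → ∃ i, Eqv (LZ Z) V (U i) := by
  have hSI : ∀ {U}, W522.U.SI (RZ Z) U ↔ IrS (LZ Z) U := fun {U} => si_iff h.genI
  obtain ⟨n, U, hU, hUU, hall⟩ := exists_reps (rz_proj h)
  refine ⟨n, U, fun i => hSI.1 (hU i), ?_, ?_⟩
  · intro i j hij
    apply hUU
    obtain ⟨T, hT, hT0, hTm⟩ := hij
    refine ⟨⊤, inferInstance, T, ?_, ?_, ?_⟩
    · intro u hu
      rw [← hTm]
      exact ⟨u, hu, rfl⟩
    · obtain ⟨u, hu, hu0⟩ := Submodule.exists_mem_ne_zero_of_ne_bot (hU i).1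
      exact ⟨u, hu, fun h1 => hu0 (hT0 u hu h1)⟩
    · intro g _ u hu
      rw [(rz_equiv h (hSI.1 (hU i)).2.1 T).2 hT g u hu, one_smul]
  · intro V hV
    obtain ⟨i, Δ, hΔ, T, hTm, hT0, hT⟩ := hall V (hSI.2 hV)
    obtain rfl := fi_top Δ hΔ
    refine ⟨i, eqv_of_ne hV (hSI.1 (hU i)) T ?_ hTm hT0⟩
    refine (rz_equiv h hV.2.1 T).1 fun g u hu => ?_
    rw [hT g (Subgroup.mem_top g) u hu, one_smul]

/-- Uniqueness of the representative. -/
theorem rep_uniq (he : EqvL) {n : ℕ} {U : Fin n → Submodule ℂ (Fin G ⊕ Fin G → ℂ)}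
    (hUU : ∀ i j, Eqv (LZ Z) (U i) (U j) → i = j) {V : Submodule ℂ (Fin G ⊕ Fin G → ℂ)}
    (hV : Stab (LZ Z) V) {i j : Fin n} (h1 : Eqv (LZ Z) V (U i)) (h2 : Eqv (LZ Z) V (U j)) :
    i = j :=
  hUU i j (he.trans (he.symm hV h1) h2)

theorem cjS_refl (U : Submodule ℂ (Fin G ⊕ Fin G → ℂ)) : cjS (RingEquiv.refl ℂ) U = U := by
  ext v
  rfl

theorem cjS_cc_cc (U : Submodule ℂ (Fin G ⊕ Fin G → ℂ)) : cjS cc (cjS cc U) = U := by
  have h : (cc : ℂ ≃+* ℂ).symm = cc := by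
    ext x
    rfl
  have h2 := cjS_symm cc U
  rw [h] at h2
  exact h2

end Cls

open Cls in
theorem s_cls (he : EqvL) (hp : PrgL) (ht : TriL) (hc : S_COMB) (hw : S_W) (hm : S_FM) :
    S_CLS := by
  intro G Z h h10 s W hW st hst hDu hDu' a ha htr h0
  obtain ⟨n, U, hU, hUU, hrep⟩ := exists_rep h
  have hcj : ∀ (τ : ℂ ≃+* ℂ) i, IrS (LZ Z) (cjS τ (U i)) := fun τ i => (hU i).cj gal_LZ τ
  choose π hπ using fun (τ : ℂ ≃+* ℂ) (i : Fin n) => hrep (cjS τ (U i)) (hcj τ i)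
  -- the index is unique
  have huq : ∀ (τ : ℂ ≃+* ℂ) (i j : Fin n), Eqv (LZ Z) (cjS τ (U i)) (U j) → j = π τ i :=
    fun τ i j hj => rep_uniq he hUU (hcj τ i).2.1 hj (hπ τ i)
  have hπtr : ∀ (σ τ : ℂ ≃+* ℂ) i, π (τ.trans σ) i = π σ (π τ i) := by
    intro σ τ i
    symm
    apply huq
    have h1 := he.cj σ (hπ τ i)
    rw [cjS_trans] at h1
    exact he.trans h1 (hπ σ (π τ i))
  have hπrefl : ∀ i, π (RingEquiv.refl ℂ) i = i := by
    intro i
    symm
    apply huq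
    rw [cjS_refl]
    exact he.refl
  have hst2 : ∀ i, π cc (π cc i) = i := by
    intro i
    symm
    apply rep_uniq he hUU (hU i).2.1 he.refl
    have h1 := he.cj cc (hπ cc i)
    rw [cjS_cc_cc] at h1
    exact he.trans h1 (hπ cc (π cc i))
  -- self-dual representatives
  have hsd : ∀ i, Prg (LZ Z) (U i) (U i) → π cc i = i := by
    intro i h1
    have h2 := hp.uniq (hU i) (hcj cc i) (hU i) (hp.cc h (hU i)) h1
    exact (huq cc i i h2).symm
  have hCD : CD (π cc) (fun i => finrank ℂ (U i)) (fun i (σ : ℂ ≃+* ℂ) => tr Z (cjS σ (U i))) := by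
    refine ⟨hst2, fun i => finrank_pos_irr (hU i), ?_, ?_, ?_, ?_, ?_, ?_, ?_⟩
    · intro i
      rw [he.fin (hπ cc i), finrank_cjS]
    · intro i σ
      exact he.pq h (hU i).2.1 σ
    · intro i σ
      rw [he.trc h (hcj cc i).2.1 (hπ cc i) σ]
      exact (hp.trc h (hU i) (hcj cc i) (hp.cc h (hU i))).2 σ
    · intro i j hi hj hij
      exact hUU i j (ht.one h (hU i) (hU j) hi hj fun σ => congrFun hij σ)
    · intro i hi
      exact ht.two h (hU i) hi
    · intro i hi hne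
      by_contra hcon
      push Not at hcon
      exact hne (hsd i (ht.zero h (hU i) hi hcon))
    · have h1 := h10 {i : Fin n // π cc i ≠ i} (fun i => U i.1) (fun i => hU i.1)
        (fun i j hij => Subtype.ext (hUU i.1 j.1 hij))
        (fun i hA => by
          obtain ⟨b, hb1, ⟨u, hu, v, hv, huv⟩, _⟩ := hA
          exact i.2 (hsd i.1 ⟨b, ⟨u, hu, v, hv, huv⟩, hb1⟩))
      have h2 : ∑ i ∈ Finset.univ.filter (fun i : Fin n => π cc i ≠ i), finrank ℂ (U i) =
          ∑ i : {i : Fin n // π cc i ≠ i}, finrank ℂ (U i.1) :=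
        Finset.sum_subtype _ (fun x => by simp) _
      rw [h2]
      exact h1
  -- the classes of the `W i`
  choose ρ hρ using fun i => hrep (W i) (hW i)
  have hρi : Function.Injective ρ := by
    intro i j hij
    have h1 : Eqv (LZ Z) (W i) (W j) := by
      refine he.trans (hρ i) ?_
      rw [hij]
      exact he.symm (hW j).2.1 (hρ j)
    have h2 := hp.eqv (hW i).2.1 h1 (hDu i)
    have h3 := hDu' j _ h2
    rw [← hst i, h3, hst j]
  have hρst : ∀ i, ρ (st i) = π cc (ρ i) := by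
    intro i
    have h1 := hp.eqv (hW i).2.1 (hρ i) (hDu i)
    have h2 := hp.uniq (hU (ρ i)) (hW (st i)) (hcj cc (ρ i)) h1 (hp.cc h (hU (ρ i)))
    exact rep_uniq he hUU (hW (st i)).2.1 (hρ (st i)) (he.trans h2 (hπ cc (ρ i)))
  -- the relation
  set a₀ : Fin n → ℤ := Function.extend ρ a 0 with ha₀
  have haρ : ∀ i, a₀ (ρ i) = a i := fun i => hρi.extend_apply a 0 i
  have haout : ∀ k, (¬∃ i, ρ i = k) → a₀ k = 0 := fun k hk => by
    rw [ha₀, Function.extend_apply' _ _ _ hk]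
    rfl
  have hrel : OddRel (π cc) (fun i (σ : ℂ ≃+* ℂ) => tr Z (cjS σ (U i))) a₀ := by
    refine ⟨?_, ?_, ?_⟩
    · intro k
      by_cases hk : ∃ i, ρ i = k
      · obtain ⟨i, rfl⟩ := hk
        rw [← hρst, haρ, haρ, ha]
      · have hk' : ¬∃ i, ρ i = π cc k := by
          rintro ⟨i, hi⟩
          apply hk
          refine ⟨st i, ?_⟩
          rw [hρst, hi, hst2]
        rw [haout _ hk, haout _ hk', neg_zero]
    · intro σ
      rw [← htr σ]
      symm
      refine Fintype.sum_of_injective ρ hρi _ _ ?_ ?_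
      · intro k hk
        have hk' : ¬∃ i, ρ i = k := fun ⟨i, hi⟩ => hk ⟨i, hi⟩
        rw [haout k hk', zero_mul]
      · intro i
        change a i * tr Z (cjS σ (W i)) = a₀ (ρ i) * tr Z (cjS σ (U (ρ i)))
        rw [haρ, he.trc h (hW i).2.1 (hρ i) σ]
    · intro h1
      apply h0
      funext i
      rw [← haρ i, h1]
      rfl
  obtain ⟨c, A₀, hc0, hcA, hN, hsg⟩ := hc (ℂ ≃+* ℂ) (Fin n) (π cc) (fun i => finrank ℂ (U i))
    (fun i (σ : ℂ ≃+* ℂ) => tr Z (cjS σ (U i))) hCD π (fun τ σ => τ.trans σ)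
    (by
      intro τ i j hij
      have h1 : π τ.symm (π τ i) = π τ.symm (π τ j) := by rw [hij]
      have h2 : τ.trans τ.symm = RingEquiv.refl ℂ := by
        ext x
        simp
      rw [← hπtr, ← hπtr, h2, hπrefl, hπrefl] at h1
      exact h1)
    (by
      intro τ i
      -- duals and conjugates commute
      have h1 : Prg (LZ Z) (U (π τ i)) (U (π τ (π cc i))) := by
        have e1 := hp.cc h (hU i)
        have e2 : Prg (LZ Z) (U i) (U (π cc i)) :=
          hp.symm (hp.eqv (hcj cc i).2.1 (hπ cc i) (hp.symm e1))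
        have e3 := hp.cj τ e2
        have e4 := hp.eqv (hcj τ i).2.1 (hπ τ i) e3
        exact hp.symm (hp.eqv (hcj τ (π cc i)).2.1 (hπ τ (π cc i)) (hp.symm e4))
      have h2 := hp.uniq (hU (π τ i)) (hU (π τ (π cc i))) (hcj cc (π τ i)) h1
        (hp.cc h (hU (π τ i)))
      exact rep_uniq he hUU (hU (π τ (π cc i))).2.1 he.refl (he.trans h2 (hπ cc (π τ i))))
    (by
      intro τ i σ
      rw [he.trc h (hcj τ i).2.1 (hπ τ i) σ, cjS_trans])
    (by
      intro τ σ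
      refine ⟨τ.symm.trans σ, ?_⟩
      ext x
      simp)
    a₀ hrel
  have hAout : ∀ k, (¬∃ i, ρ i = k) → A₀ k = 0 := by
    intro k hk
    have h1 := hcA k
    rw [haout k hk] at h1
    rcases mul_eq_zero.1 h1.symm with h2 | h2
    · omega
    · exact h2
  have hA0 : ∃ i, A₀ i ≠ 0 := by
    by_contra hcon
    push Not at hcon
    apply hrel.2.2
    funext i
    rw [hcA i, hcon i, mul_zero]
    rfl
  obtain ⟨i₁, hi₁⟩ := hA0
  -- the character
  classical
  set χ : (ℂ ≃+* ℂ) → ℤ := fun τ => if ∀ i, A₀ (π τ i) = A₀ i then 1 else -1 with hχd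
  have hχ : ∀ τ, χ τ = 1 ∨ χ τ = -1 := by
    intro τ
    simp only [hχd]
    split_ifs
    · exact Or.inl rfl
    · exact Or.inr rfl
  have hχA : ∀ τ i, A₀ (π τ i) = χ τ * A₀ i := by
    intro τ i
    simp only [hχd]
    split_ifs with h1
    · rw [h1 i, one_mul]
    · rcases hsg τ with h2 | h2
      · exact (h1 h2).elim
      · rw [h2 i, neg_one_mul]
  have hχcc : χ cc = -1 := by
    rcases hχ cc with h1 | h1
    · exfalso
      have h2 := hχA cc i₁
      rw [h1, one_mul] at h2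
      have h3 := hrel.1 i₁
      rw [hcA, hcA, h2] at h3
      have h4 : c * A₀ i₁ = 0 := by omega
      rcases mul_eq_zero.1 h4 with h5 | h5
      · omega
      · exact hi₁ h5
    · exact h1
  -- the model
  obtain ⟨b, Z', E, F, φ, z₀, hf, h', hs, hb, hφ, hM⟩ := hm G Z h (U i₁) (hU i₁)
  have hMuq : ∀ σ τ : ℂ ≃+* ℂ, σ z₀ = τ z₀ → π σ i₁ = π τ i₁ := by
    intro σ τ hστ
    apply huq
    have h1 := (hM τ).2
    have h2 := (hM σ).2
    rw [hστ] at h2
    refine he.trans h1 ?_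
    exact he.trans (he.symm (hcj σ i₁).2.1 h2) (hπ σ i₁)
  set nn : ℂ → ℤ := fun z => if hz : ∃ σ : ℂ ≃+* ℂ, σ z₀ = z then A₀ (π hz.choose i₁) else 0
    with hnn
  have hnσ : ∀ σ : ℂ ≃+* ℂ, nn (σ z₀) = A₀ (π σ i₁) := by
    intro σ
    have hz : ∃ τ : ℂ ≃+* ℂ, τ z₀ = σ z₀ := ⟨σ, rfl⟩
    simp only [hnn]
    rw [dif_pos hz]
    rw [hMuq _ _ hz.choose_spec]
  obtain ⟨w, D, hD, hwD, hwχ⟩ := hw
    (((minpoly ℚ φ).aroots ℂ).toFinset.filter fun z => ∃ σ : ℂ ≃+* ℂ, σ z₀ = z) nn χ hχ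
    (by
      intro σ z hz
      rw [Finset.mem_filter] at hz ⊢
      obtain ⟨_, τ, rfl⟩ := hz
      refine ⟨?_, τ.trans σ, rfl⟩
      rw [Multiset.mem_toFinset]
      exact (hM (τ.trans σ)).1)
    (by
      intro σ z hz
      rw [Finset.mem_filter] at hz
      obtain ⟨_, τ, rfl⟩ := hz
      have h1 := hnσ (τ.trans σ)
      rw [hπtr, hχA, ← hnσ τ] at h1
      exact h1)
    (by
      refine ⟨z₀, ?_, ?_⟩
      · rw [Finset.mem_filter]
        refine ⟨?_, RingEquiv.refl ℂ, rfl⟩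
        rw [Multiset.mem_toFinset]
        exact (hM (RingEquiv.refl ℂ)).1
      · have h1 := hnσ (RingEquiv.refl ℂ)
        rw [hπrefl] at h1
        change nn z₀ = A₀ i₁ at h1
        rw [h1]
        exact hi₁) hχcc
  have hw0 : w ≠ 0 := by
    rintro rfl
    have h1 : (D : ℂ) = 0 := by
      have h2 : (0 : ℂ) = -(D : ℂ) := by rw [← hwD]; ring
      have h3 : (D : ℂ) = -(0 : ℂ) := by rw [h2]; ring
      rw [h3]; ring
    have h2 : D = 0 := by exact_mod_cast h1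
    exact absurd h2 hD.ne'
  refine ⟨c, fun i => A₀ (ρ i), w, D, hc0, ?_, hD, hwD, ?_, ?_⟩
  · intro i
    rw [← haρ i]
    exact hcA (ρ i)
  · intro σ hσ i hi
    have hχσ : χ σ = 1 := by
      rcases hχ σ with h1 | h1
      · exact h1
      · exfalso
        have h2 := hwχ σ
        rw [hσ, h1] at h2
        push_cast at h2
        have h3 : w = 0 := by
          have h4 : (2 : ℂ) * w = 0 := by linear_combination h2
          rcases mul_eq_zero.1 h4 with h5 | h5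
          · norm_num at h5
          · exact h5
        exact hw0 h3
    have h1 := hχA σ (ρ i)
    rw [hχσ, one_mul] at h1
    have h2 : ∃ j, ρ j = π σ (ρ i) := by
      by_contra hcon
      have h3 := hAout _ hcon
      rw [h1] at h3
      exact hi h3
    obtain ⟨j, hj⟩ := h2
    refine ⟨j, ?_, ?_⟩
    · change A₀ (ρ j) = A₀ (ρ i)
      rw [hj, h1]
    · have h3 := he.cj σ (hρ i)
      have h4 := he.trans h3 (hπ σ (ρ i))
      rw [← hj] at h4
      exact he.trans h4 (he.symm (hW j).2.1 (hρ j))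
  · have hsum : ∑ i ∈ Finset.univ.filter (fun i : Fin s => A₀ (ρ i) = 1), finrank ℂ (W i) =
        ∑ i ∈ Finset.univ.filter (fun i : Fin n => A₀ i = 1), finrank ℂ (U i) := by
      rw [Finset.sum_filter, Finset.sum_filter]
      refine Fintype.sum_of_injective ρ hρi _ _ ?_ ?_
      · intro k hk
        have hk' : ¬∃ i, ρ i = k := fun ⟨i, hi⟩ => hk ⟨i, hi⟩
        rw [hAout k hk', if_neg (by norm_num)]
      · intro i
        rw [he.fin (hρ i)]
    rcases hN with ⟨hN1, hN2⟩ | ⟨i₀, hN1, hN2, hN3, hN4⟩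
    · left
      exact ⟨fun i => hN1 (ρ i), hsum.trans hN2⟩
    · right
      have h1 : ∃ j, ρ j = i₀ := by
        by_contra hcon
        have h3 := hAout _ hcon
        omega
      obtain ⟨j, rfl⟩ := h1
      refine ⟨j, ?_, hN2, ?_, hsum.trans hN4⟩
      · change finrank ℂ (W j) = 1
        rw [← he.fin (hρ j)]
        exact hN1
      · intro i hi hi'
        refine hN3 (ρ i) (fun h2 => hi (hρi h2)) (fun h2 => hi' ?_)
        rw [← hρst] at h2
        exact hρi h2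

end

end Pool.Agent.H841.HC5
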