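import Pool.Agent.H841.HC5.Comb

/-!
# Project HC5: the Galois action on the relation (S_COMB), by helper870
-/

set_option linter.unusedSectionVars false

namespace Pool.Agent.H841.HC5

theorem s_comb (h1 : S_REL) (h2 : S_RK) : S_COMB := by
  intro Γ I _ _ st m F h π tm hπ hπs hπF htm a ha
  obtain ⟨c, A, hc, hA, hN⟩ := h1 Γ I st m F h a ha
  have hAst : ∀ i, A (st i) = -A i := by
    intro i
    have e := ha.1 i
    rw [hA, hA] at e
    exact mul_left_cancel₀ hc.ne' (by rw [e, mul_neg])
  have hAF : ∀ σ, ∑ i, A i * F i σ = 0 := by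
    intro σ
    have e := ha.2.1 σ
    have e' : ∑ i, a i * F i σ = c * ∑ i, A i * F i σ := by
      rw [Finset.mul_sum]
      exact Finset.sum_congr rfl fun i _ => by rw [hA, mul_assoc]
    rw [e'] at e
    exact (mul_eq_zero.1 e).resolve_left hc.ne'
  have hA0 : A ≠ 0 := by
    intro h0
    apply ha.2.2
    funext i
    rw [hA, h0, Pi.zero_apply, mul_zero]
  refine ⟨c, A, hc, hA, hN, fun τ => ?_⟩
  have hbij : Function.Bijective (π τ) := Finite.injective_iff_bijective.1 (hπ τ)
  have hb : OddRel st F (fun i => A (π τ i)) := by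
    refine ⟨fun i => ?_, fun σ' => ?_, fun h0 => ?_⟩
    · show A (π τ (st i)) = -A (π τ i)
      rw [hπs, hAst]
    · obtain ⟨σ, rfl⟩ := htm τ σ'
      have e : ∑ i, A (π τ i) * F i (tm τ σ) = ∑ i, A (π τ i) * F (π τ i) σ :=
        Finset.sum_congr rfl fun i _ => by rw [hπF]
      show ∑ i, A (π τ i) * F i (tm τ σ) = 0
      rw [e, hbij.sum_comp fun j => A j * F j σ]
      exact hAF σ
    · apply hA0
      funext j
      obtain ⟨i, rfl⟩ := hbij.2 j
      exact congrFun h0 i
  obtain ⟨x, y, hx, hy, hxy⟩ := h2 Γ I st m F h A (fun i => A (π τ i)) ⟨hAst, hAF, hA0⟩ hb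
  have hs : |x| * ∑ i, |A i| = |y| * ∑ i, |A i| := by
    have e1 : |x| * ∑ i, |A i| = |y| * ∑ i, |A (π τ i)| := by
      rw [Finset.mul_sum, Finset.mul_sum]
      refine Finset.sum_congr rfl fun i _ => ?_
      rw [← abs_mul, ← abs_mul, hxy]
    rw [e1, hbij.sum_comp fun j => |A j|]
  have hpos : ∑ i, |A i| ≠ 0 := by
    intro h0
    apply hA0
    funext i
    have e := (Finset.sum_eq_zero_iff_of_nonneg (fun i _ => abs_nonneg (A i))).1 h0 i
      (Finset.mem_univ i)
    exact abs_eq_zero.1 e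
  have habs : |x| = |y| := mul_right_cancel₀ hpos hs
  rcases abs_eq_abs.1 habs with e | e
  · left
    intro i
    have e1 := hxy i
    rw [e] at e1
    exact (mul_left_cancel₀ hy e1).symm
  · right
    intro i
    have e1 := hxy i
    rw [e, neg_mul, ← mul_neg] at e1
    exact (mul_left_cancel₀ hy e1).symm

end Pool.Agent.H841.HC5
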