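import Mathlib
import Pool.Agent.H841.HC5.Jobs

/-!
# Determinants on orthogonal submodules
-/

set_option autoImplicit false
set_option linter.unusedSectionVars false

namespace Pool.Agent.H841.HC5

open Matrix Module Pool.Agent.W437.HC Pool.Agent.W437.HD Pool.Agent.TH504.CB Pool.Agent.W522.U
open Pool.Agent.Y90 hiding mulA exists_lam mulA_altQ
open Pool.Agent.W548.Odd hiding cv
open Pool.Agent.W437.HP (cK cK_mul cK_one)
open Pool.Agent.H204R3.CM (IsHodge)
open Pool.Agent.H204R3.SP (Kills bil2 IsTate)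
open Pool.Agent.Y4.P (MaxM EigM cx)
open Pool.Agent.H926.A (NQ clo_NQ PDq AltE S_QWEIL)

noncomputable section

/-- **S_DET5.** -/
theorem s_det5 (_he : EqvL) (hp : PrgL) (hl : S_ELEM) : S_DET5 := by
  intro G Z h U hU hPD b hb hb0 hbs n hn e q hq ψ hψ
  obtain ⟨w, D, ε, T, hD, hw, e1, e2, e3, e5, e6, e7⟩ := hPD
  have hfin : finrank ℂ U = n := by
    rw [finrank_eq_card_basis e, Fintype.card_fin]
  have hprg : Prg (LZ Z) U U := ⟨b, hb0, hb⟩
  have htr : ∀ σ : ℂ ≃+* ℂ, tr Z (cjS σ U) = 0 := by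
    intro σ
    have h1 := (hp.trc h hU hU hprg).2 σ
    omega
  have hI : ∀ x : Unit, IdJ (LZ Z) w (fun _ : {y : Unit // (fun _ : Unit => ()) y = x} => U) := by
    intro x
    let _ : Unique {y : Unit // (fun _ : Unit => ()) y = x} :=
      { default := ⟨(), rfl⟩
        uniq := fun _ => rfl }
    refine ⟨ε, fun _ => T, e1, e2, e3, fun _ => e5, fun _ => e6, ?_, ?_⟩
    · exact iSupIndep_subsingleton _
    · intro v
      rw [iSup_unique]
      exact e7 v
  let E : Fin n ≃ (Σ _ : Unit, Fin n) := (Equiv.uniqueSigma fun _ : Unit => Fin n).symm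
  have h1 := hl 6 G Z h w D hD hw Unit Unit (fun _ => ()) (fun _ => U) (fun _ => hU) hI
    (fun σ => by rw [Fintype.sum_unique]; exact htr σ)
    (by rw [Fintype.sum_unique, hfin]; omega) True
    (fun _ h6 => by
      exfalso
      rw [Fintype.sum_unique, hfin] at h6
      omega)
    (fun _ => Fin n) (fun _ => e) (fun _ => q) (fun _ y X hX v => hq y X hX v)
    (ψ.domDomCongr E) (fun v => by
      rw [MultilinearMap.domDomCongr_apply, hψ, Fintype.prod_unique]
      rfl)
  refine (clo_NQ Z 6 True).reindex E.symm h1 ψ fun v => ?_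
  rw [MultilinearMap.domDomCongr_apply]
  congr 1

end

end Pool.Agent.H841.HC5
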