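import Pool.Agent.H841.HC5.Jobs

/-!
# Products of determinants over blocks

`s_elem` reduces the case of blocks (the image of each idempotent is the direct sum of the modules in a
block) to `S_QWEIL`; the determinant of a block diagonal matrix is the product of the determinants.
-/

set_option autoImplicit false
set_option linter.unusedSectionVars false

namespace Pool.Agent.H841.HC5

open Matrix Module Pool.Agent.W437.HC Pool.Agent.W437.HD Pool.Agent.TH504.CB Pool.Agent.W522.U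
open Pool.Agent.Y90 hiding mulA exists_lam mulA_altQ
open Pool.Agent.W548.Odd hiding cv
open Pool.Agent.W437.HP (cK cK_mul cK_one)
open Pool.Agent.H204R3.CM (IsHodge)
open Pool.Agent.H204R3.SP (Kills bil2 IsTate)
open Pool.Agent.Y4.P (MaxM EigM cx cx_mul cx_one exists_PQ det_coord trace_all)
open Pool.Agent.H926.A (NQ clo_NQ PDq AltE S_QWEIL)

noncomputable section

namespace H685E

/-- The determinant of a block diagonal family. -/
theorem blockdet {J : Type} [Fintype J] [DecidableEq J] {ι : J → Type} [∀ j, Fintype (ι j)]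
    [∀ j, DecidableEq (ι j)] {M : J → Type} [∀ j, AddCommGroup (M j)] [∀ j, Module ℂ (M j)]
    (f : ∀ j, Basis (ι j) ℂ (M j)) (u : ∀ j, ι j → M j) :
    (Pi.basis f).det (fun p : Σ j, ι j => Pi.single p.1 (u p.1 p.2)) =
      ∏ j, (f j).det (u j) := by
  rw [Basis.det_apply]
  let _ : LinearOrder J := LinearOrder.lift' (Fintype.equivFin J) (Fintype.equivFin J).injective
  have hM : Matrix.BlockTriangular ((Pi.basis f).toMatrix
      (fun p : Σ j, ι j => (Pi.single p.1 (u p.1 p.2) : ∀ j, M j)))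
      (Sigma.fst : (Σ j, ι j) → J) := by
    intro i k hik
    have h1 : i.1 ≠ k.1 := ne_of_gt hik
    rw [Basis.toMatrix_apply, Pi.basis_repr, Pi.single_eq_of_ne h1, map_zero, Finsupp.zero_apply]
  rw [hM.det_fintype]
  refine Finset.prod_congr rfl fun j _ => ?_
  rw [Basis.det_apply, ← Matrix.det_reindex_self (Equiv.sigmaSubtype j).symm]
  congr 1
  ext a b
  obtain ⟨⟨a1, a2⟩, rfl⟩ := a
  obtain ⟨⟨b1, b2⟩, hb⟩ := b
  dsimp only at hb
  subst hb
  rw [Matrix.toSquareBlock_def, Matrix.of_apply, Matrix.reindex_apply, Matrix.submatrix_apply,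
    Basis.toMatrix_apply, Basis.toMatrix_apply, Pi.basis_repr, Pi.single_eq_same]
  rfl

/-- The coordinates on the direct sum of the submodules in a block. -/
theorem exists_A {B : Type} [Fintype B] [DecidableEq B] {J : Type} [Fintype J]
    (W : J → Submodule ℂ (B → ℂ)) (T : J → (B → ℂ) →ₗ[ℂ] (B → ℂ)) {d : ℕ}
    (P : Matrix B (Fin d) ℂ) (Q : Matrix (Fin d) B ℂ) (hQP : Q * P = 1)
    (hi : ∀ j, ∀ u ∈ W j, T j u = 0 → u = 0)
    (hind : iSupIndep (fun j => (W j).map (T j)))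
    (hT : ∀ v, v ∈ (⨆ j, (W j).map (T j)) ↔ (P * Q) *ᵥ v = v) :
    ∃ A : (∀ j, W j) ≃ₗ[ℂ] (Fin d → ℂ), (∀ u, A u = Q *ᵥ ∑ j, T j (u j : B → ℂ)) ∧
      ∀ u, P *ᵥ A u = ∑ j, T j (u j : B → ℂ) := by
  classical
  let L : (∀ j, W j) →ₗ[ℂ] (B → ℂ) :=
    { toFun := fun u => ∑ j, T j (u j : B → ℂ)
      map_add' := fun u v => by
        rw [← Finset.sum_add_distrib]
        refine Finset.sum_congr rfl fun j _ => ?_
        rw [Pi.add_apply, Submodule.coe_add, map_add]
      map_smul' := fun c u => by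
        rw [RingHom.id_apply, Finset.smul_sum]
        refine Finset.sum_congr rfl fun j _ => ?_
        rw [Pi.smul_apply, Submodule.coe_smul, map_smul] }
  have hL : ∀ u, L u = ∑ j, T j (u j : B → ℂ) := fun u => rfl
  have hm : ∀ (u : ∀ j, W j) (j : J), T j (u j : B → ℂ) ∈ (W j).map (T j) := fun u j =>
    ⟨u j, (u j).2, rfl⟩
  have hLm : ∀ u, L u ∈ ⨆ j, (W j).map (T j) := fun u => by
    rw [hL]
    exact Submodule.sum_mem _ fun j _ => Submodule.mem_iSup_of_mem j (hm u j)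
  have hPQL : ∀ u, P *ᵥ (Q *ᵥ L u) = L u := fun u => by
    rw [mulVec_mulVec]
    exact (hT _).1 (hLm u)
  let A : (∀ j, W j) ≃ₗ[ℂ] (Fin d → ℂ) := LinearEquiv.ofBijective ((Matrix.mulVecLin Q).comp L)
    (by
      constructor
      · rw [injective_iff_map_eq_zero]
        intro u hu
        have h1 : Q *ᵥ L u = 0 := hu
        have h2 := hPQL u
        rw [h1, mulVec_zero] at h2
        have h3 := (iSupIndep_iff_finsetSum_eq_zero_imp_eq_zero _).1 hind Finset.univ
          (fun j => T j (u j : B → ℂ)) (fun j _ => hm u j) h2.symm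
        funext j
        exact Subtype.ext (hi j _ (u j).2 (h3 j (Finset.mem_univ j)))
      · intro c
        have h1 : P *ᵥ c ∈ ⨆ j, (W j).map (T j) := (hT _).2 (by
          rw [mulVec_mulVec, Matrix.mul_assoc, hQP, Matrix.mul_one])
        rw [Submodule.mem_iSup_iff_exists_finsupp] at h1
        obtain ⟨g, hg, h2⟩ := h1
        choose u hu h3 using hg
        refine ⟨fun j => ⟨u j, hu j⟩, ?_⟩
        change Q *ᵥ (∑ j, T j (u j)) = c
        have h4 : ∑ j, T j (u j) = P *ᵥ c := by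
          rw [← h2, Finsupp.sum_fintype _ _ (fun _ => rfl)]
          exact Finset.sum_congr rfl fun j _ => h3 j
        rw [h4, mulVec_mulVec, hQP, one_mulVec])
  exact ⟨A, fun u => rfl, fun u => hPQL u⟩

end H685E

open H685E

theorem s_elem (hw : S_QWEIL) (hj : S_JTR) : S_ELEM := by
  classical
  intro B G Z h w D hD hww S₀ S _ _ _ _ bl W hW hI htr hB c hc ι _ _ f q hq ψ hψ
  choose ε T hIT using hI
  have e1 : ∀ x, ε x * ε x = ε x := fun x => (hIT x).1
  have e2 : ∀ x, ∀ X ∈ LZ Z, X * ε x = ε x * X := fun x => (hIT x).2.1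
  have e3 : ∀ x i j, ∃ y z : ℚ, ε x i j = y + z * w := fun x => (hIT x).2.2.1
  have e5 := fun x => (hIT x).2.2.2.1
  have e6 := fun x => (hIT x).2.2.2.2.1
  have eI := fun x => (hIT x).2.2.2.2.2.1
  have e7 := fun x => (hIT x).2.2.2.2.2.2
  have hwK : w ∈ IntermediateField.adjoin ℚ ({w} : Set ℂ) :=
    IntermediateField.subset_adjoin ℚ _ (Set.mem_singleton w)
  have hK3 : ∀ x i j, ε x i j ∈ IntermediateField.adjoin ℚ ({w} : Set ℂ) := by
    intro x i j
    obtain ⟨y, z, hyz⟩ := e3 x i j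
    rw [hyz]
    have hr : ∀ r : ℚ, (r : ℂ) ∈ IntermediateField.adjoin ℚ ({w} : Set ℂ) := fun r =>
      SubfieldClass.ratCast_mem _ r
    exact add_mem (hr y) (mul_mem (hr z) hwK)
  have hPd : ∀ x, ∃ (d : ℕ) (P : Matrix (Fin G ⊕ Fin G) (Fin d)
      (IntermediateField.adjoin ℚ ({w} : Set ℂ)))
      (Q : Matrix (Fin d) (Fin G ⊕ Fin G) (IntermediateField.adjoin ℚ ({w} : Set ℂ))),
      cx (P * Q) = ε x ∧ Q * P = 1 := fun x =>
    exists_PQ Pool.Agent.Y317.P.Idem.x (ε x) (e1 x) (hK3 x)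
  choose d P Q hPQ hQP using hPd
  have hQP' : ∀ x, cx (Q x) * cx (P x) = 1 := fun x => by rw [← cx_mul, hQP, cx_one]
  have hPQ' : ∀ x, cx (P x) * cx (Q x) = ε x := fun x => by rw [← cx_mul, hPQ]
  have hT7 : ∀ x v, v ∈ (⨆ y : {y : S₀ // bl y = x}, (W y.1).map (T x y)) ↔
      (cx (P x) * cx (Q x)) *ᵥ v = v := fun x v => by
    rw [hPQ']
    exact e7 x v
  -- the coordinates
  choose A hA hPA using fun x => exists_A (fun y : {y : S₀ // bl y = x} => W y.1) (T x) (cx (P x))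
    (cx (Q x)) (hQP' x) (e6 x) (eI x) (hT7 x)
  have hcard : ∀ x : S, Fintype.card (Σ y : {y : S₀ // bl y = x}, ι y.1) =
      Fintype.card (Fin (d x)) := by
    intro x
    rw [← finrank_eq_card_basis (Pi.basis fun y : {y : S₀ // bl y = x} => f y.1),
      (A x).finrank_eq, finrank_fintype_fun_eq_card]
  let eι : ∀ x : S, (Σ y : {y : S₀ // bl y = x}, ι y.1) ≃ Fin (d x) := fun x =>
    Fintype.equivOfCardEq (hcard x)
  choose cst hc0 hcst using fun x => det_coord (Pi.basis fun y : {y : S₀ // bl y = x} => f y.1)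
    (A x) (eι x)
  have hdW : ∀ x, d x = ∑ y : {y : S₀ // bl y = x}, finrank ℂ (W y.1) := by
    intro x
    have h9 := hcard x
    rw [Fintype.card_fin, Fintype.card_sigma] at h9
    rw [← h9]
    exact Finset.sum_congr rfl fun y _ => (finrank_eq_card_basis (f y.1)).symm
  have hsum : ∑ x, d x = ∑ y, finrank ℂ (W y) := by
    rw [Finset.sum_congr rfl fun x _ => hdW x]
    exact Fintype.sum_fiberwise bl (fun y => finrank ℂ (W y))
  have hdB : ∑ x, d x ≤ B := by
    rw [hsum]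
    exact hB
  have hsodd : c → ∑ x, d x = 6 → ∃ x, Odd (d x) := by
    intro k1 k2
    rw [hsum] at k2
    obtain ⟨x, hx⟩ := hc k1 k2
    refine ⟨x, ?_⟩
    rw [hdW]
    exact hx
  have hsingle : ∀ (x : S) (y₀ : {y : S₀ // bl y = x}) (u : W y₀.1),
      ∑ y, T x y ((Pi.single y₀ u : ∀ y : {y : S₀ // bl y = x}, W y.1) y : Fin G ⊕ Fin G → ℂ) =
        T x y₀ (u : Fin G ⊕ Fin G → ℂ) := by
    intro x y₀ u
    rw [Finset.sum_eq_single y₀]
    · rw [Pi.single_eq_same]
    · intro y _ hy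
      rw [Pi.single_eq_of_ne hy, Submodule.coe_zero, map_zero]
    · intro hy
      exact absurd (Finset.mem_univ _) hy
  -- the matrices of the equivariant maps
  let R : ∀ k : (Σ x, Fin (d x)), Matrix (Fin (d k.1)) (Fin G ⊕ Fin G) ℂ := fun k =>
    LinearMap.toMatrix' ((A k.1).toLinearMap.comp
      ((LinearMap.single ℂ (fun y : {y : S₀ // bl y = k.1} => W y.1)
        ((eι k.1).symm k.2).1).comp (q ((eι k.1).symm k.2).1.1 ((eι k.1).symm k.2).2)))
  have hRv : ∀ k v, R k *ᵥ v = A k.1 (Pi.single ((eι k.1).symm k.2).1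
      (q ((eι k.1).symm k.2).1.1 ((eι k.1).symm k.2).2 v)) := by
    intro k v
    change LinearMap.toMatrix' _ *ᵥ v = _
    rw [← Matrix.toLin'_apply, Matrix.toLin'_toMatrix']
    rfl
  have hR : ∀ k, ∀ X ∈ LZ Z, R k * X = (cx (Q k.1) * X * cx (P k.1)) * R k := by
    intro k X hX
    apply Matrix.toLin'.injective
    refine LinearMap.ext fun v => ?_
    rw [Matrix.toLin'_apply, Matrix.toLin'_apply, ← mulVec_mulVec, ← mulVec_mulVec, hRv, hRv,
      ← mulVec_mulVec, ← mulVec_mulVec, hPA, hA, hsingle, hsingle, hq _ _ X hX,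
      e5 k.1 _ X hX _ (SetLike.coe_mem _)]
  -- the traces
  have htr' : ∀ X ∈ LZ Z, ∑ x, Matrix.trace (X * cx (P x * Q x)) = 0 := by
    have h1 := trace_all (Z := Z) ε e2 (fun σ => by
      have h2 : ∀ x, Matrix.trace (DS Z σ * ε x) =
          ((∑ y : {y : S₀ // bl y = x}, tr Z (cjS σ.symm (W y.1)) : ℤ) : ℂ) :=
        fun x => hj G Z h w {y : S₀ // bl y = x} (fun y => W y.1) (fun y => hW y.1) (ε x) (T x)
          (hIT x) σ
      rw [Finset.sum_congr rfl fun x _ => h2 x, ← Int.cast_sum,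
        Fintype.sum_fiberwise bl (fun y => tr Z (cjS σ.symm (W y))), htr σ.symm, Int.cast_zero])
    intro X hX
    rw [← h1 X hX]
    refine Finset.sum_congr rfl fun x _ => ?_
    rw [hPQ]
  -- reindexing
  let E0 : (Σ x : S, Σ y : {y : S₀ // bl y = x}, ι y.1) ≃ (Σ y : S₀, ι y) :=
    { toFun := fun p => ⟨p.2.1.1, p.2.2⟩
      invFun := fun p => ⟨bl p.1, ⟨⟨p.1, rfl⟩, p.2⟩⟩
      left_inv := by
        rintro ⟨x, ⟨⟨y, rfl⟩, t⟩⟩
        rfl
      right_inv := fun p => rfl }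
  let E : (Σ y : S₀, ι y) ≃ (Σ x, Fin (d x)) := E0.symm.trans (Equiv.sigmaCongrRight eι)
  have hE : ∀ (x : S) (y : {y : S₀ // bl y = x}) (t : ι y.1), E ⟨y.1, t⟩ = ⟨x, eι x ⟨y, t⟩⟩ := by
    rintro x ⟨y, rfl⟩ t
    rfl
  have hmem := @hw B G Z h w D hD hww S inferInstance inferInstance d P Q hQP
    (fun x X hX => by rw [hPQ]; exact e2 x X hX) htr' R hR ((∏ x, cst x) • ψ.domDomCongr E)
    (fun v => by
      rw [_root_.smul_apply, MultilinearMap.domDomCongr_apply, hψ, smul_eq_mul,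
        ← Fintype.prod_fiberwise bl, ← Finset.prod_mul_distrib]
      refine Finset.prod_congr rfl fun x _ => ?_
      have h1 := hcst x (fun p => Pi.single p.1 (q p.1.1 p.2 (v ⟨x, eι x p⟩)))
      have h2 := blockdet (fun y : {y : S₀ // bl y = x} => f y.1)
        (fun y t => q y.1 t (v ⟨x, eι x ⟨y, t⟩⟩))
      have h3 : (∏ y : {y : S₀ // bl y = x}, (f y.1).det (fun t => q y.1 t (v (E ⟨y.1, t⟩)))) =
          ∏ y : {y : S₀ // bl y = x}, (f y.1).det (fun t => q y.1 t (v ⟨x, eι x ⟨y, t⟩⟩)) := by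
        refine Finset.prod_congr rfl fun y _ => ?_
        congr 1
        funext t
        rw [hE]
      rw [h3, ← h2]
      refine Eq.trans h1.symm ?_
      congr 1
      ext y j
      rw [Matrix.of_apply, Matrix.of_apply, hRv, Equiv.apply_symm_apply]) hdB c hsodd
  have hc' : (∏ x, cst x) ≠ 0 := Finset.prod_ne_zero_iff.2 fun x _ => hc0 x
  have h1 := Submodule.smul_mem _ (∏ x, cst x)⁻¹ hmem
  rw [smul_smul, inv_mul_cancel₀ hc', one_smul] at h1
  refine (clo_NQ Z B c).reindex E.symm h1 ψ fun v => ?_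
  rw [MultilinearMap.domDomCongr_apply]
  congr 1
  funext p
  rw [Equiv.symm_apply_apply]

end

end Pool.Agent.H841.HC5
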