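import Mathlib
import Pool.Agent.H841.HC5.Jobs

/-!
# Isomorphisms of submodules
-/

set_option linter.unusedSectionVars false

namespace Pool.Agent.H841.HC5

open Matrix Module Pool.Agent.W437.HC Pool.Agent.W437.HD Pool.Agent.TH504.CB Pool.Agent.W522.U
open Pool.Agent.Y90 hiding mulA exists_lam mulA_altQ
open Pool.Agent.W548.Odd hiding cv
open Pool.Agent.W437.HP (cK cK_mul cK_one)
open Pool.Agent.H204R3.CM (IsHodge)
open Pool.Agent.H204R3.SP (Kills bil2 IsTate)
open Pool.Agent.Y4.P (MaxM EigM cx)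
open Pool.Agent.H926.A (NQ clo_NQ PDq AltE S_QWEIL)

noncomputable section

namespace Eqv5

theorem cong_refl {B : Type} [Fintype B] [DecidableEq B] {L : Submodule ℂ (Matrix B B ℂ)}
    {U : Submodule ℂ (B → ℂ)} : Eqv L U U :=
  ⟨LinearMap.id, fun _ _ _ _ => rfl, fun _ _ h => h, Submodule.map_id U⟩

section

variable {B : Type} [Fintype B] [DecidableEq B] {L : Submodule ℂ (Matrix B B ℂ)}
  {U U' U'' : Submodule ℂ (B → ℂ)}

theorem eqv_symm (hU : Stab L U) (h : Eqv L U U') : Eqv L U' U := by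
  obtain ⟨T, h1, h2, h3⟩ := h
  have hinj : LinearMap.ker (T.domRestrict U) = ⊥ := by
    rw [LinearMap.ker_eq_bot']
    intro u hu
    exact Subtype.ext (h2 u u.2 hu)
  obtain ⟨S, hS⟩ := (T.domRestrict U).exists_leftInverse_of_injective hinj
  have hST : ∀ u (hu : u ∈ U), ((S (T u) : U) : B → ℂ) = u := by
    intro u hu
    have h4 := LinearMap.congr_fun hS ⟨u, hu⟩
    exact congrArg Subtype.val h4
  refine ⟨U.subtype.comp S, ?_, ?_, ?_⟩
  · intro X hX u' hu'
    rw [← h3] at hu'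
    obtain ⟨u, hu, rfl⟩ := hu'
    change ((S (X *ᵥ T u) : U) : B → ℂ) = X *ᵥ ((S (T u) : U) : B → ℂ)
    rw [hST u hu, ← h1 X hX u hu, hST _ (hU X hX u hu)]
  · intro u' hu' h0
    rw [← h3] at hu'
    obtain ⟨u, hu, rfl⟩ := hu'
    change ((S (T u) : U) : B → ℂ) = 0 at h0
    rw [hST u hu] at h0
    rw [h0, map_zero]
  · ext v
    constructor
    · rintro ⟨w, -, rfl⟩
      exact (S w).2
    · intro hv
      refine ⟨T v, ?_, hST v hv⟩
      rw [← h3]
      exact ⟨v, hv, rfl⟩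

theorem eqv_trans (h : Eqv L U U') (h' : Eqv L U' U'') : Eqv L U U'' := by
  obtain ⟨T, h1, h2, h3⟩ := h
  obtain ⟨T', h1', h2', h3'⟩ := h'
  have hm : ∀ u ∈ U, T u ∈ U' := fun u hu => by
    rw [← h3]
    exact ⟨u, hu, rfl⟩
  refine ⟨T'.comp T, fun X hX u hu => ?_, fun u hu h0 => ?_, ?_⟩
  · rw [LinearMap.comp_apply, LinearMap.comp_apply, h1 X hX u hu, h1' X hX _ (hm u hu)]
  · exact h2 u hu (h2' _ (hm u hu) h0)
  · rw [Submodule.map_comp, h3, h3']

/-- the conjugate of a linear map -/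
def cjT (σ : ℂ ≃+* ℂ) (T : (B → ℂ) →ₗ[ℂ] (B → ℂ)) : (B → ℂ) →ₗ[ℂ] (B → ℂ) where
  toFun v := fun i => σ (T (fun j => σ.symm (v j)) i)
  map_add' := by
    intro a b
    funext i
    have h1 : (fun j => σ.symm ((a + b) j)) = (fun j => σ.symm (a j)) + fun j => σ.symm (b j) := by
      funext j
      exact map_add σ.symm _ _
    rw [h1, map_add, Pi.add_apply, map_add]
    rfl
  map_smul' := by
    intro c a
    funext i
    have h1 : (fun j => σ.symm ((c • a) j)) = σ.symm c • fun j => σ.symm (a j) := by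
      funext j
      exact map_mul σ.symm _ _
    rw [h1, map_smul, Pi.smul_apply, smul_eq_mul, map_mul, RingEquiv.apply_symm_apply]
    rfl

theorem cjT_apply (σ : ℂ ≃+* ℂ) (T : (B → ℂ) →ₗ[ℂ] (B → ℂ)) (v : B → ℂ) :
    cjT σ T v = fun i => σ (T (fun j => σ.symm (v j)) i) := rfl

theorem eqv_cj (hL : Gal L) (σ : ℂ ≃+* ℂ) (h : Eqv L U U') : Eqv L (cjS σ U) (cjS σ U') := by
  obtain ⟨T, h1, h2, h3⟩ := h
  refine ⟨cjT σ T, fun X hX u hu => ?_, fun u hu h0 => ?_, ?_⟩
  · rw [mem_cjS] at hu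
    rw [cjT_apply, cjT_apply, map_mulVec_aut σ.symm, h1 _ (hL σ.symm X hX) _ hu,
      map_mulVec_aut σ]
    congr 1
    ext i j
    exact σ.apply_symm_apply _
  · rw [mem_cjS] at hu
    rw [cjT_apply] at h0
    have h4 : T (fun j => σ.symm (u j)) = 0 := by
      funext i
      have h5 := congrFun h0 i
      exact (map_eq_zero_iff σ σ.injective).1 h5
    have h6 := h2 _ hu h4
    funext i
    have h7 := congrFun h6 i
    exact (map_eq_zero_iff σ.symm σ.symm.injective).1 h7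
  · ext v
    rw [mem_cjS]
    constructor
    · rintro ⟨u, hu, rfl⟩
      have h4 : (fun i => σ.symm (cjT σ T u i)) = T (fun j => σ.symm (u j)) := by
        funext i
        exact σ.symm_apply_apply _
      rw [h4, ← h3]
      exact ⟨_, hu, rfl⟩
    · intro hv
      rw [← h3] at hv
      obtain ⟨w, hw, hwv⟩ := hv
      refine ⟨fun i => σ (w i), cj_mem_cjS hw, ?_⟩
      rw [cjT_apply]
      have h4 : (fun j => σ.symm (σ (w j))) = w := by
        funext j
        exact σ.symm_apply_apply _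
      rw [h4, hwv]
      funext i
      exact σ.apply_symm_apply _

theorem eqv_irr (hU : IrS L U) (h : Eqv L U U') : IrS L U' := by
  obtain ⟨T, h1, h2, h3⟩ := h
  refine ⟨fun h0 => hU.1 ?_, ?_, fun W hW hs => ?_⟩
  · rw [eq_bot_iff]
    intro u hu
    rw [Submodule.mem_bot]
    refine h2 u hu ?_
    have h4 : T u ∈ U' := by
      rw [← h3]
      exact ⟨u, hu, rfl⟩
    rwa [h0, Submodule.mem_bot] at h4
  · rw [← h3]
    exact stab_map hU.2.1 h1
  · have hs' : Stab L (U ⊓ W.comap T) := by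
      rintro X hX u ⟨hu, hu'⟩
      refine ⟨hU.2.1 X hX u hu, ?_⟩
      change T (X *ᵥ u) ∈ W
      rw [h1 X hX u hu]
      exact hs X hX _ hu'
    have hWm : W = (U ⊓ W.comap T).map T := by
      ext v
      constructor
      · intro hv
        have h4 := hW hv
        rw [← h3] at h4
        obtain ⟨u, hu, rfl⟩ := h4
        exact ⟨u, ⟨hu, hv⟩, rfl⟩
      · rintro ⟨u, ⟨-, hu⟩, rfl⟩
        exact hu
    rcases hU.2.2 _ inf_le_left hs' with h4 | h4
    · left
      rw [hWm, h4, Submodule.map_bot]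
    · right
      rw [hWm, h4, h3]

theorem eqv_fin (h : Eqv L U U') : finrank ℂ U' = finrank ℂ U := by
  obtain ⟨T, -, h2, h3⟩ := h
  rw [← h3, finrank_map_of_inj h2]

end

theorem eqv_tr {G : ℕ} {Z : Matrix (Fin G) (Fin G) ℂ} (h : PM Z)
    {U U' : Submodule ℂ (Fin G ⊕ Fin G → ℂ)} (hU : Stab (LZ Z) U) (he : Eqv (LZ Z) U U') :
    tr Z U' = tr Z U := by
  have h1 := eqv_fin he
  obtain ⟨T, h2, h3, h4⟩ := he
  have hU' : Stab (LZ Z) U' := by
    rw [← h4]
    exact stab_map hU h2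
  have h5 : pd Z U' = pd Z U := pd_iso h2 h3 hU h4
  have h6 := pd_add_qd h hU
  have h7 := pd_add_qd h hU'
  unfold tr
  omega

end Eqv5

theorem eqvL : EqvL where
  refl := Eqv5.cong_refl
  symm := fun hU h => Eqv5.eqv_symm hU h
  trans := fun h h' => Eqv5.eqv_trans h h'
  cj := fun σ h => Eqv5.eqv_cj gal_LZ σ h
  irr := fun hU h => Eqv5.eqv_irr hU h
  fin := fun h => Eqv5.eqv_fin h
  trc := fun hZ _ _ hU h σ => Eqv5.eqv_tr hZ (hU.cj gal_LZ σ) (Eqv5.eqv_cj gal_LZ σ h)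
  pq := fun {_ Z} hZ {U} hU σ => ⟨pd Z (cjS σ U), qd Z (cjS σ U), by
    rw [pd_add_qd hZ (hU.cj gal_LZ σ), finrank_cjS], rfl⟩

end

end Pool.Agent.H841.HC5
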