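import Mathlib
import Pool.Agent.H841.HC5.Jobs

/-!
# Numbers fixed by `Aut(ℂ / ℚ(w))` (task S_FIX of project HC5, by helper720)
-/

set_option linter.unusedSectionVars false

namespace Pool.Agent.H841.HC5

open Matrix Module Pool.Agent.W437.HC Pool.Agent.W437.HD Pool.Agent.TH504.CB Pool.Agent.W522.U
open Pool.Agent.Y90 hiding mulA exists_lam mulA_altQ
open Pool.Agent.W548.Odd hiding cv
open Pool.Agent.W437.HP (cK cK_mul cK_one)
open Pool.Agent.H204R3.CM (IsHodge)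
open Pool.Agent.H204R3.SP (Kills bil2 IsTate)
open Pool.Agent.Y4.P (MaxM EigM cx)
open Pool.Agent.H926.A (NQ clo_NQ PDq AltE S_QWEIL)

noncomputable section

namespace Fix

theorem cc_cc (z : ℂ) : Pool.Agent.Y90.cc (Pool.Agent.Y90.cc z) = z := star_star z

theorem re_eq_zero {w : ℂ} {D : ℚ} (hD : 0 < D) (hw : w * w = -(D : ℂ)) : w.re = 0 := by
  have h1 := congrArg Complex.re hw
  have h2 := congrArg Complex.im hw
  rw [Complex.mul_re, Complex.neg_re, Complex.ratCast_re] at h1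
  rw [Complex.mul_im, Complex.neg_im, Complex.ratCast_im, neg_zero] at h2
  have h3 : (0 : ℝ) < D := by exact_mod_cast hD
  by_contra h0
  have h4 : w.re * w.im = 0 := by linarith
  have h5 : w.im = 0 := (mul_eq_zero.1 h4).resolve_left h0
  rw [h5, mul_zero, sub_zero] at h1
  have h6 := mul_self_nonneg w.re
  linarith

theorem cc_w {w : ℂ} {D : ℚ} (hD : 0 < D) (hw : w * w = -(D : ℂ)) : Pool.Agent.Y90.cc w = -w := by
  have h1 : Pool.Agent.Y90.cc w = (starRingEnd ℂ) w := rfl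
  rw [h1]
  apply Complex.ext
  · rw [Complex.conj_re, Complex.neg_re, re_eq_zero hD hw, neg_zero]
  · rw [Complex.conj_im, Complex.neg_im]

theorem ne_zero {w : ℂ} {D : ℚ} (hD : 0 < D) (hw : w * w = -(D : ℂ)) : w ≠ 0 := by
  rintro rfl
  rw [mul_zero] at hw
  have h1 : (D : ℂ) = 0 := neg_eq_zero.1 hw.symm
  have h2 : D = 0 := by exact_mod_cast h1
  exact hD.ne' h2

theorem sg {w : ℂ} {D : ℚ} (hw : w * w = -(D : ℂ)) (σ : ℂ ≃+* ℂ) : σ w = w ∨ σ w = -w := by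
  apply mul_self_eq_mul_self_iff.1
  rw [← map_mul, hw, map_neg, map_ratCast]

end Fix

theorem s_fix : S_FIX := by
  intro w D hD hw x hx
  have hw0 := Fix.ne_zero hD hw
  have hcw := Fix.cc_w hD hw
  have hcw' : Pool.Agent.Y90.cc (-w) = w := by rw [map_neg, hcw, neg_neg]
  have hA : ∀ σ : ℂ ≃+* ℂ, σ w = w → σ (Pool.Agent.Y90.cc x) = Pool.Agent.Y90.cc x := by
    intro σ hσ
    have h1 : Pool.Agent.Y90.cc (σ (Pool.Agent.Y90.cc x)) = x := by
      refine hx ((Pool.Agent.Y90.cc.trans σ).trans Pool.Agent.Y90.cc) ?_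
      change Pool.Agent.Y90.cc (σ (Pool.Agent.Y90.cc w)) = w
      rw [hcw, map_neg, hσ, hcw']
    rw [← Fix.cc_cc (σ (Pool.Agent.Y90.cc x)), h1]
  have hB : ∀ σ : ℂ ≃+* ℂ, σ w = -w → σ x = Pool.Agent.Y90.cc x := by
    intro σ hσ
    have h1 : Pool.Agent.Y90.cc (σ x) = x := by
      refine hx (σ.trans Pool.Agent.Y90.cc) ?_
      change Pool.Agent.Y90.cc (σ w) = w
      rw [hσ, hcw']
    rw [← Fix.cc_cc (σ x), h1]
  have hC : ∀ σ : ℂ ≃+* ℂ, σ w = -w → σ (Pool.Agent.Y90.cc x) = x := by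
    intro σ hσ
    refine hx (Pool.Agent.Y90.cc.trans σ) ?_
    change σ (Pool.Agent.Y90.cc w) = w
    rw [hcw, map_neg, hσ, neg_neg]
  obtain ⟨y, hy⟩ := Pool.Agent.Y90.exists_rat (z := x + Pool.Agent.Y90.cc x) (fun σ => by
    rw [map_add]
    rcases Fix.sg hw σ with h | h
    · rw [hx σ h, hA σ h]
    · rw [hB σ h, hC σ h, add_comm])
  obtain ⟨z, hz⟩ := Pool.Agent.Y90.exists_rat (z := (x - Pool.Agent.Y90.cc x) / w) (fun σ => by
    rw [map_div₀, map_sub]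
    rcases Fix.sg hw σ with h | h
    · rw [hx σ h, hA σ h, h]
    · rw [hB σ h, hC σ h, h, div_neg, ← neg_div, neg_sub])
  refine ⟨y / 2, z / 2, ?_⟩
  rw [Rat.cast_div, Rat.cast_div, Rat.cast_ofNat, ← hy, ← hz]
  field_simp
  ring

end

end Pool.Agent.H841.HC5
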