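import Mathlib
import Pool.Agent.H841.HC5.Jobs
import Pool.Graph.R_pool_sql_team_seeded_1acbe0a2.Y484.MC.CM

/-!
# The model of an irreducible submodule in a simple factor (S_FM; by helper323)
-/

set_option autoImplicit false
set_option linter.unusedSectionVars false

namespace Pool.Agent.H841.HC5

open Matrix Module Pool.Agent.W437.HC Pool.Agent.W437.HD Pool.Agent.TH504.CB Pool.Agent.W522.U
open Pool.Agent.Y90 hiding mulA exists_lam mulA_altQ
open Pool.Agent.W548.Odd hiding cv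
open Pool.Agent.W437.HP (cK cK_mul cK_one)
open Pool.Agent.H204R3.CM (IsHodge)
open Pool.Agent.H204R3.SP (Kills bil2 IsTate)
open Pool.Agent.Y4.P (MaxM EigM cx)
open Pool.Agent.H926.A (NQ clo_NQ PDq AltE S_QWEIL)

noncomputable section

namespace FmL

/-- the conjugate of the image of a subspace -/
theorem cjS_map {A B : Type} [Fintype A] [DecidableEq A] [Fintype B] [DecidableEq B]
    (σ : ℂ ≃+* ℂ) (M : Matrix A B ℂ) (U : Submodule ℂ (B → ℂ)) :
    cjS σ (U.map (mulVecLin M)) = (cjS σ U).map (mulVecLin (M.map σ)) := by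
  ext v
  rw [mem_cjS]
  constructor
  · rintro ⟨u, hu, huv⟩
    refine ⟨fun i => σ (u i), cj_mem_cjS hu, ?_⟩
    rw [mulVecLin_apply, ← map_mulVec_aut]
    funext i
    have h1 := congrFun huv i
    rw [mulVecLin_apply] at h1
    rw [h1, RingEquiv.apply_symm_apply]
  · rintro ⟨u, hu, rfl⟩
    refine ⟨fun i => σ.symm (u i), hu, ?_⟩
    rw [mulVecLin_apply, mulVecLin_apply, map_mulVec_aut]
    have h1 : (M.map σ).map σ.symm = M := by
      ext i j
      simp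
    rw [h1]

/-- conjugation of isomorphisms -/
theorem eqv_cj {G : ℕ} {Z : Matrix (Fin G) (Fin G) ℂ} {U U' : Submodule ℂ (Fin G ⊕ Fin G → ℂ)}
    (σ : ℂ ≃+* ℂ) (h : Eqv (LZ Z) U U') : Eqv (LZ Z) (cjS σ U) (cjS σ U') := by
  obtain ⟨T, h1, h2, h3⟩ := h
  obtain ⟨M, hM⟩ : ∃ M : Matrix (Fin G ⊕ Fin G) (Fin G ⊕ Fin G) ℂ, mulVecLin M = T :=
    ⟨LinearMap.toMatrix' T, by rw [← Matrix.toLin'_apply', Matrix.toLin'_toMatrix']⟩
  subst hM
  have key : ∀ v : Fin G ⊕ Fin G → ℂ, (fun i => σ.symm ((M.map σ *ᵥ v) i)) =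
      M *ᵥ fun i => σ.symm (v i) := by
    intro v
    rw [map_mulVec_aut]
    have h1 : (M.map σ).map σ.symm = M := by
      ext i j
      simp
    rw [h1]
  have inj : ∀ v w : Fin G ⊕ Fin G → ℂ, (fun i => σ.symm (v i)) = (fun i => σ.symm (w i)) →
      v = w := by
    intro v w hvw
    funext i
    exact σ.symm.injective (congrFun hvw i)
  refine ⟨mulVecLin (M.map σ), ?_, ?_, ?_⟩
  · intro X hX u hu
    rw [mulVecLin_apply, mulVecLin_apply]
    apply inj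
    rw [key, map_mulVec_aut, map_mulVec_aut, key]
    exact h1 _ (gal_LZ σ.symm X hX) _ hu
  · intro u hu h0
    rw [mulVecLin_apply] at h0
    apply inj
    have h4 := key u
    rw [h0] at h4
    have h5 : (fun i => σ.symm ((0 : Fin G ⊕ Fin G → ℂ) i)) = 0 := by
      funext i
      exact map_zero σ.symm
    rw [h5] at h4 ⊢
    exact h2 _ hu h4.symm
  · rw [← h3, cjS_map]

/-- the conjugate of an eigenspace -/
theorem cjS_eigM {a : ℕ} (σ : ℂ ≃+* ℂ) (φ : Matrix (Fin a ⊕ Fin a) (Fin a ⊕ Fin a) ℚ) (z : ℂ) :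
    cjS σ (EigM φ z) = EigM φ (σ z) := by
  ext v
  rw [mem_cjS, Pool.Agent.Y4.P.mem_eigM, Pool.Agent.Y4.P.mem_eigM]
  have h1 := map_mulVec_aut σ.symm (qm φ) v
  rw [Pool.Agent.Y4.P.qm_aut] at h1
  rw [← h1]
  constructor
  · intro h2
    funext i
    have h3 := congrArg σ (congrFun h2 i)
    simpa using h3
  · intro h2
    rw [h2]
    funext i
    simp

end FmL

/-- **S_FM.** -/
theorem s_fm : S_FM := by
  intro G Z h U hU
  obtain ⟨a, Z', E, F, hf, h', hs, ha, h0⟩ := exists_fac h hU.1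
  have hi := hf.inj hU h0
  have hU' := hf.irr hU h0
  obtain ⟨φ, hφ, -⟩ := Pool.Agent.Y484.MC.maxcm a Z' h' hs ha
  obtain ⟨-, hiso, -⟩ := Pool.Agent.Y261.P.jspec a Z' h' hs ha φ hφ
  obtain ⟨z, hz, T, hT1, hT2, hT3⟩ := hiso _ hU'
  have hE : Eqv (LZ Z) U ((EigM φ z).map (ml E)) := by
    refine ⟨(ml E).comp (T.comp (ml F)), ?_, ?_, ?_⟩
    · intro X hX u _
      obtain ⟨c1, c2, c3⟩ := hf.comp hX
      change ml E (T (ml F (X *ᵥ u))) = X *ᵥ ml E (T (ml F u))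
      rw [hf.act hX, hT1 _ c1, ml_apply E, ml_apply E, mulVec_mulVec, mulVec_mulVec, ← c2]
    · intro u hu h6
      refine hi u hu (hT2 _ ⟨u, hu, rfl⟩ ?_)
      have h7 := congrArg (fun v => cK ℂ F *ᵥ v) h6
      change cK ℂ F *ᵥ (cK ℂ E *ᵥ (T (ml F u))) = cK ℂ F *ᵥ 0 at h7
      rwa [mulVec_mulVec, hf.fe', one_mulVec, mulVec_zero] at h7
    · rw [Submodule.map_comp, Submodule.map_comp, hT3]
  refine ⟨a, Z', E, F, φ, z, hf, h', hs, ha, hφ, fun σ => ⟨?_, ?_⟩⟩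
  · exact Pool.Agent.Y261.P.mem_Rt.1
      (Pool.Agent.Y261.P.Rt_aut (Pool.Agent.Y261.P.mem_Rt.2 hz) σ)
  · have h1 := FmL.eqv_cj σ hE
    have h2 : cjS σ ((EigM φ z).map (ml E)) = (EigM φ (σ z)).map (ml E) := by
      unfold ml
      rw [FmL.cjS_map, cK_aut, FmL.cjS_eigM]
    rwa [h2] at h1

end

end Pool.Agent.H841.HC5
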