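import Mathlib
import Pool.Agent.H841.HC5.Jobs

/-!
# S_FT: transfer between a factor and the whole space (by helper353)
-/

set_option linter.unusedSectionVars false

namespace Pool.Agent.H841.HC5

open Matrix Module Pool.Agent.W437.HC Pool.Agent.W437.HD Pool.Agent.TH504.CB Pool.Agent.W522.U
open Pool.Agent.Y90 hiding mulA exists_lam mulA_altQ
open Pool.Agent.W548.Odd hiding cv
open Pool.Agent.W437.HP (cK cK_mul cK_one)
open Pool.Agent.H204R3.CM (IsHodge)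
open Pool.Agent.H204R3.SP (Kills bil2 IsTate)
open Pool.Agent.Y4.P (MaxM EigM cx)
open Pool.Agent.H926.A (NQ clo_NQ PDq AltE S_QWEIL)

noncomputable section

namespace H353

variable {G a : ℕ} {Z : Matrix (Fin G) (Fin G) ℂ} {Z' : Matrix (Fin a) (Fin a) ℂ}
  {E : Matrix (Fin G ⊕ Fin G) (Fin a ⊕ Fin a) ℚ} {F : Matrix (Fin a ⊕ Fin a) (Fin G ⊕ Fin G) ℚ}

theorem ml_FE (h : Fac Z Z' E F) (v : Fin a ⊕ Fin a → ℂ) : ml F (ml E v) = v := by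
  rw [ml_apply, ml_apply, mulVec_mulVec, h.fe', one_mulVec]

theorem actE (h : Fac Z Z' E F) {X : Matrix (Fin G ⊕ Fin G) (Fin G ⊕ Fin G) ℂ} (hX : X ∈ LZ Z)
    (v : Fin a ⊕ Fin a → ℂ) : X *ᵥ ml E v = ml E ((cK ℂ F * X * cK ℂ E) *ᵥ v) := by
  rw [ml_apply, ml_apply, mulVec_mulVec, mulVec_mulVec, ← (h.comp hX).2.1]

theorem eqv_down (h : Fac Z Z' E F) {U₁ U₂ : Submodule ℂ (Fin a ⊕ Fin a → ℂ)}
    (he : Eqv (LZ Z) (U₁.map (ml E)) (U₂.map (ml E))) : Eqv (LZ Z') U₁ U₂ := by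
  obtain ⟨T, h1, h2, h3⟩ := he
  refine ⟨ml F ∘ₗ T ∘ₗ ml E, ?_, ?_, ?_⟩
  · intro Y hY u hu
    obtain ⟨X, hX, rfl⟩ := h.lift hY
    show ml F (T (ml E ((cK ℂ F * X * cK ℂ E) *ᵥ u))) =
      (cK ℂ F * X * cK ℂ E) *ᵥ ml F (T (ml E u))
    rw [← actE h hX, h1 X hX _ (Submodule.mem_map_of_mem hu), h.act hX]
  · intro u hu h0
    have h4 : T (ml E u) ∈ U₂.map (ml E) := by
      rw [← h3]
      exact Submodule.mem_map_of_mem (Submodule.mem_map_of_mem hu)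
    obtain ⟨w, hw, hw'⟩ := h4
    have h5 : ml F (T (ml E u)) = 0 := h0
    rw [← hw', ml_FE h] at h5
    rw [h5, map_zero] at hw'
    have h6 := h2 _ (Submodule.mem_map_of_mem hu) hw'.symm
    rw [← ml_FE h u, h6, map_zero]
  · rw [Submodule.map_comp, Submodule.map_comp, h3, ← Submodule.map_comp]
    have h4 : ml F ∘ₗ ml E = LinearMap.id := LinearMap.ext fun v => ml_FE h v
    rw [h4, Submodule.map_id]

theorem prg_up (h : Fac Z Z' E F) {U₁ U₂ : Submodule ℂ (Fin a ⊕ Fin a → ℂ)}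
    (hp : Prg (LZ Z') U₁ U₂) : Prg (LZ Z) (U₁.map (ml E)) (U₂.map (ml E)) := by
  obtain ⟨b, ⟨u, hu, v, hv, h0⟩, h1⟩ := hp
  refine ⟨b.compl₁₂ (ml F) (ml F), ⟨ml E u, Submodule.mem_map_of_mem hu, ml E v,
    Submodule.mem_map_of_mem hv, ?_⟩, ?_⟩
  · show b (ml F (ml E u)) (ml F (ml E v)) ≠ 0
    rwa [ml_FE h, ml_FE h]
  · rintro X hX _ ⟨x, hx, rfl⟩ _ ⟨y, hy, rfl⟩
    show b (ml F (X *ᵥ ml E x)) (ml F (ml E y)) + b (ml F (ml E x)) (ml F (X *ᵥ ml E y)) = 0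
    rw [h.act hX, h.act hX, ml_FE h, ml_FE h]
    exact h1 _ (h.comp hX).1 x hx y hy

end H353

theorem s_ft : S_FT := fun _ _ _ _ _ _ hf _ _ _ _ =>
  ⟨fun he => H353.eqv_down hf he, fun hp => H353.prg_up hf hp⟩

end

end Pool.Agent.H841.HC5
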