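import Mathlib
import Pool.Agent.H841.HC5.Jobs
import Pool.Agent.H926.T.Facp
import Pool.Graph.R_pool_sql_team_seeded_1acbe0a2.Y4.P.Goo4

/-!
# S_GOODN: from abstract abelian varieties to period matrices
-/

set_option autoImplicit false
set_option linter.unusedSectionVars false

namespace Pool.Agent.H841.HC5

open Matrix Module Pool.Agent.W437.HC Pool.Agent.W437.HD Pool.Agent.TH504.CB Pool.Agent.W522.U
open Pool.Agent.Y90 hiding mulA exists_lam mulA_altQ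
open Pool.Agent.W548.Odd hiding cv
open Pool.Agent.W437.HP (cK cK_mul cK_one)
open Pool.Agent.H204R3.CM (IsHodge)
open Pool.Agent.H204R3.SP (Kills bil2 IsTate)
open Pool.Agent.Y4.P (MaxM EigM cx)
open Pool.Agent.H926.A (NQ clo_NQ PDq AltE S_QWEIL)
open Pool.Agent.Y4.P.G3.Sd (Φ)

noncomputable section

namespace GoodnL

variable {H T : Type} [AddCommGroup H] [Module ℚ H] [AddCommGroup T] [Module ℂ T] {per : H →+ T}
  {H₀ T₀ : Type} [AddCommGroup H₀] [Module ℚ H₀] [AddCommGroup T₀] [Module ℂ T₀] {per₀ : H₀ →+ T₀}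

/-- a homomorphism which is injective on a simple abelian subvariety isogenous to `Z'` gives a
factor -/
theorem fac_of_sd {G₀ : ℕ} {Z₀ : Matrix (Fin G₀) (Fin G₀) ℂ} (h₀ : PM Z₀)
    (A₀ : H₀ ≃ₗ[ℚ] (Fin G₀ ⊕ Fin G₀ → ℚ))
    (hC₀ : Cht (per₀.comp A₀.symm.toLinearMap.toAddMonoidHom) (JR Z₀)) {a : ℕ}
    {Z' : Matrix (Fin a) (Fin a) ℂ} (h' : PM Z') (hsim : IsSimpleAV Z') (ha : 0 < a)
    {U : Submodule ℚ H} {e : (Fin a ⊕ Fin a → ℚ) ≃ₗ[ℚ] U} {Ψ₁ : (Fin a → ℂ) →ₗ[ℂ] T}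
    {Ψ₂ : T →ₗ[ℂ] (Fin a → ℂ)} (s : Pool.Agent.Y4.P.G3.Sd per Z' U e Ψ₁ Ψ₂) (r : H →ₗ[ℚ] H₀)
    (hr : St.IsHom per per₀ r) (hi : ∀ u ∈ U, r u = 0 → u = 0) :
    ∃ (E' : Matrix (Fin G₀ ⊕ Fin G₀) (Fin a ⊕ Fin a) ℚ)
      (F' : Matrix (Fin a ⊕ Fin a) (Fin G₀ ⊕ Fin G₀) ℚ), Fac Z₀ Z' E' F' := by
  obtain ⟨Ψ, hΨ⟩ := hr
  obtain ⟨M, hM⟩ : ∃ M : Matrix (Fin G₀ ⊕ Fin G₀) (Fin a ⊕ Fin a) ℚ,
      ∀ v, M *ᵥ v = A₀ (r (e v : H)) := by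
    refine ⟨LinearMap.toMatrix' (A₀.toLinearMap ∘ₗ r ∘ₗ U.subtype ∘ₗ e.toLinearMap),
      fun v => ?_⟩
    rw [LinearMap.toMatrix'_mulVec]
    rfl
  have h1 : cK ℝ M * JR Z' = JR Z₀ * cK ℝ M := by
    refine Pool.Agent.H926.T.FacL.mat_of_hom h'.cht hC₀ (Ψ ∘ₗ Ψ₁) (fun v => ?_)
    have h2 : (per₀.comp A₀.symm.toLinearMap.toAddMonoidHom) (M *ᵥ v) = per₀ (r (e v : H)) := by
      rw [hM]
      change per₀ (A₀.symm (A₀ (r (e v : H)))) = _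
      rw [LinearEquiv.symm_apply_apply]
    rw [h2, LinearMap.comp_apply, s.g₁, hΨ]
  have h2 : DZ Z₀ * cK ℂ M = cK ℂ M * DZ Z' :=
    (Pool.Agent.H926.T.FacL.cplx_of_real h1).symm
  have h0 : M ≠ 0 := by
    intro h3
    have h4 : (Pi.single (Sum.inl ⟨0, ha⟩) 1 : Fin a ⊕ Fin a → ℚ) = 0 := by
      apply e.injective
      apply Subtype.ext
      rw [map_zero, Submodule.coe_zero]
      apply hi _ (Subtype.property _)
      apply A₀.injective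
      rw [← hM, h3, zero_mulVec, map_zero]
    have h5 := congrFun h4 (Sum.inl ⟨0, ha⟩)
    rw [Pi.single_eq_same] at h5
    exact one_ne_zero h5
  obtain ⟨F', hF'⟩ := Pool.Agent.H926.T.FacL.fac_of_hom h₀ h' hsim h2 h0
  exact ⟨M, F', hF'⟩

end GoodnL

theorem s_goodn : S_GOODN := by
  intro H T _ _ _ _ per H₀ T₀ _ _ _ _ per₀ G Z h A hC G₀ Z₀ h₀ A₀ hC₀ hs a Z' E F hfac h' hsim ha
  obtain ⟨U, e, Ψ₁, Ψ₂, s⟩ := Pool.Agent.Y4.P.G3.exists_sd A hC hfac h' hsim ha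
  rcases hs U s.sim with ⟨b, hb, h1⟩ | ⟨r, hr, hi⟩
  · left
    refine ⟨(Φ e).symm b, s.maxM h' hb, ?_⟩
    rw [minpoly.algEquiv_eq (Φ e).symm b]
    exact h1
  · right
    exact GoodnL.fac_of_sd h₀ A₀ hC₀ h' hsim ha s r hr hi

end

end Pool.Agent.H841.HC5
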