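import Pool.Agent.H841.HC5.Jobs

/-!
# S_IND: pairwise non-isomorphic irreducible submodules are independent
-/

set_option linter.unusedSectionVars false

namespace Pool.Agent.H841.HC5

open Matrix Module Pool.Agent.W437.HC Pool.Agent.W437.HD Pool.Agent.TH504.CB Pool.Agent.W522.U
open Pool.Agent.Y90 hiding mulA exists_lam mulA_altQ
open Pool.Agent.W548.Odd hiding cv
open Pool.Agent.W437.HP (cK cK_mul cK_one)
open Pool.Agent.H204R3.CM (IsHodge)
open Pool.Agent.H204R3.SP (Kills bil2 IsTate)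
open Pool.Agent.Y4.P (MaxM EigM cx)
open Pool.Agent.H926.A (NQ clo_NQ PDq AltE S_QWEIL)

noncomputable section

namespace Ind

variable {B : Type} [Fintype B] [DecidableEq B]

theorem aux {L : Submodule ℂ (Matrix B B ℂ)} {I : Type} [DecidableEq I]
    (W : I → Submodule ℂ (B → ℂ)) (hW : ∀ i, IrS L (W i))
    (hWW : ∀ i j, Eqv L (W i) (W j) → i = j) (s : Finset I) :
    ∀ v : I → B → ℂ, (∀ i ∈ s, v i ∈ W i) → ∑ i ∈ s, v i = 0 → ∀ i ∈ s, v i = 0 := by
  induction s using Finset.induction_on with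
  | empty => exact fun v _ _ i hi => absurd hi (Finset.notMem_empty i)
  | insert j s hj ih =>
    intro v hv hsum
    rw [Finset.sum_insert hj] at hsum
    by_cases h0 : v j = 0
    · rw [h0, zero_add] at hsum
      intro i hi
      rcases Finset.mem_insert.1 hi with rfl | hi
      · exact h0
      · exact ih v (fun i hi => hv i (Finset.mem_insert_of_mem hi)) hsum i hi
    exfalso
    obtain ⟨S, hS⟩ : ∃ S : (∀ i : s, W i) →ₗ[ℂ] (B → ℂ), ∀ w, S w = ∑ i : s, (w i : B → ℂ) :=
      ⟨∑ i : s, (W i).subtype ∘ₗ LinearMap.proj i, fun w => by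
        rw [LinearMap.sum_apply]
        rfl⟩
    have hker : LinearMap.ker S = ⊥ := by
      rw [LinearMap.ker_eq_bot']
      intro w hw
      rw [hS] at hw
      have h1 := ih (fun i => if h : i ∈ s then (w ⟨i, h⟩ : B → ℂ) else 0) (fun i hi => by
        simp only [dif_pos hi]
        exact (w ⟨i, hi⟩).2) (by
        rw [← Finset.sum_coe_sort s, ← hw]
        refine Finset.sum_congr rfl fun i _ => ?_
        rw [dif_pos i.2])
      funext i
      have h2 := h1 i i.2
      rw [dif_pos i.2] at h2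
      exact Subtype.ext h2
    have hXS : ∀ X ∈ L, ∀ w : (∀ i : s, W i), ∃ w' : (∀ i : s, W i),
        (∀ i, (w' i : B → ℂ) = X *ᵥ (w i : B → ℂ)) ∧ S w' = X *ᵥ S w := by
      intro X hX w
      refine ⟨fun i => ⟨X *ᵥ (w i : B → ℂ), (hW i).2.1 X hX _ (w i).2⟩, fun i => rfl, ?_⟩
      rw [hS, hS, Matrix.mulVec_sum]
    obtain ⟨g, hg⟩ := S.exists_leftInverse_of_injective hker
    have hgS : ∀ w, g (S w) = w := fun w => LinearMap.congr_fun hg w
    -- the vector `v j`
    have hvj := hv j (Finset.mem_insert_self j s)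
    obtain ⟨w₀, hw₀⟩ : ∃ w₀ : (∀ i : s, W i), S w₀ = v j := by
      refine ⟨fun i => ⟨-(v i), (W i).neg_mem (hv i (Finset.mem_insert_of_mem i.2))⟩, ?_⟩
      rw [hS]
      show ∑ i : s, -(v i) = v j
      rw [Finset.sum_neg_distrib, Finset.sum_coe_sort s v]
      exact (eq_neg_of_add_eq_zero_left hsum).symm
    obtain ⟨i₀, hi₀⟩ : ∃ i₀, w₀ i₀ ≠ 0 := by
      by_contra h
      push Not at h
      apply h0
      rw [← hw₀, funext h, ← Pi.zero_def, map_zero]
    -- `W j` is in the range of `S`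
    have hle : W j ≤ LinearMap.range S := by
      have hst : Stab L (W j ⊓ LinearMap.range S) := by
        rintro X hX u ⟨hu1, w, rfl⟩
        obtain ⟨w', -, hw'⟩ := hXS X hX w
        exact ⟨(hW j).2.1 X hX _ hu1, w', hw'⟩
      rcases (hW j).2.2 _ inf_le_left hst with h1 | h1
      · exfalso
        have h2 : v j ∈ W j ⊓ LinearMap.range S := ⟨hvj, w₀, hw₀⟩
        rw [h1] at h2
        exact h0 ((Submodule.mem_bot ℂ).1 h2)
      · exact h1 ▸ inf_le_right
    obtain ⟨T, hT⟩ : ∃ T : (B → ℂ) →ₗ[ℂ] (B → ℂ), ∀ w, T (S w) = w i₀ :=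
      ⟨(W i₀).subtype ∘ₗ LinearMap.proj i₀ ∘ₗ g, fun w => by
        show ((g (S w) i₀ : W i₀) : B → ℂ) = w i₀
        rw [hgS]⟩
    have hTX : ∀ X ∈ L, ∀ u ∈ W j, T (X *ᵥ u) = X *ᵥ T u := by
      intro X hX u hu
      obtain ⟨w, rfl⟩ := hle hu
      obtain ⟨w', h1, h2⟩ := hXS X hX w
      rw [← h2, hT, hT, h1]
    have hTv : T (v j) ≠ 0 := by
      rw [← hw₀, hT]
      intro h
      exact hi₀ (Subtype.ext h)
    have hinj : ∀ u ∈ W j, T u = 0 → u = 0 := by
      have hst : Stab L (W j ⊓ LinearMap.ker T) := by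
        rintro X hX u ⟨hu1, hu2⟩
        refine ⟨(hW j).2.1 X hX _ hu1, ?_⟩
        show T (X *ᵥ u) = 0
        have hu2' : T u = 0 := hu2
        rw [hTX X hX u hu1, hu2', Matrix.mulVec_zero]
      rcases (hW j).2.2 _ inf_le_left hst with h1 | h1
      · intro u hu hu2
        have h2 : u ∈ W j ⊓ LinearMap.ker T := ⟨hu, hu2⟩
        rw [h1] at h2
        exact (Submodule.mem_bot ℂ).1 h2
      · exfalso
        have h2 : v j ∈ W j ⊓ LinearMap.ker T := by
          rw [h1]
          exact hvj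
        exact hTv h2.2
    have hmap : (W j).map T = W i₀ := by
      have hst : Stab L ((W j).map T) := by
        rintro X hX _ ⟨u, hu, rfl⟩
        exact ⟨X *ᵥ u, (hW j).2.1 X hX u hu, hTX X hX u hu⟩
      have hle2 : (W j).map T ≤ W i₀ := by
        rintro _ ⟨u, hu, rfl⟩
        obtain ⟨w, rfl⟩ := hle hu
        rw [hT]
        exact (w i₀).2
      rcases (hW i₀).2.2 _ hle2 hst with h1 | h1
      · exfalso
        have h2 : T (v j) ∈ (W j).map T := ⟨v j, hvj, rfl⟩
        rw [h1] at h2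
        exact hTv ((Submodule.mem_bot ℂ).1 h2)
      · exact h1
    have h3 := hWW j i₀ ⟨T, hTX, hinj, hmap⟩
    exact hj (h3 ▸ i₀.2)

theorem ind {L : Submodule ℂ (Matrix B B ℂ)} {I : Type} [Fintype I]
    (W : I → Submodule ℂ (B → ℂ)) (hW : ∀ i, IrS L (W i))
    (hWW : ∀ i j, Eqv L (W i) (W j) → i = j) : iSupIndep W := by
  classical
  rw [iSupIndep_iff_finsetSum_eq_zero_imp_eq_zero]
  intro s v hv h0 i hi
  exact aux W hW hWW s v hv h0 i hi

end Ind

/-- **S_IND** -/
theorem s_ind (_he : EqvL) : S_IND := by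
  intro G Z _ I _ W hW hWW
  exact Ind.ind W hW hWW

end

end Pool.Agent.H841.HC5
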