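import Mathlib
import Pool.Agent.H841.HC5.Jobs
import Pool.Graph.R_pool_sql_team_seeded_1acbe0a2.Y977.P.Tr

/-!
# Traces on the image of an idempotent (S_JTR; by helper323)
-/

set_option autoImplicit false
set_option linter.unusedSectionVars false

namespace Pool.Agent.H841.HC5

open Matrix Module Pool.Agent.W437.HC Pool.Agent.W437.HD Pool.Agent.TH504.CB Pool.Agent.W522.U
open Pool.Agent.Y90 hiding mulA exists_lam mulA_altQ
open Pool.Agent.W548.Odd hiding cv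
open Pool.Agent.W437.HP (cK cK_mul cK_one)
open Pool.Agent.H204R3.CM (IsHodge)
open Pool.Agent.H204R3.SP (Kills bil2 IsTate)
open Pool.Agent.Y4.P (MaxM EigM cx)
open Pool.Agent.H926.A (NQ clo_NQ PDq AltE S_QWEIL)

noncomputable section

namespace JtrL

variable {G : ℕ} {Z : Matrix (Fin G) (Fin G) ℂ}

/-- the trace on one summand -/
theorem one (h : PM Z) {U : Submodule ℂ (Fin G ⊕ Fin G → ℂ)} (hU : IrS (LZ Z) U)
    (T : (Fin G ⊕ Fin G → ℂ) →ₗ[ℂ] (Fin G ⊕ Fin G → ℂ)) (h4 : ∀ u ∈ U, T u = 0 → u = 0)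
    (σ : ℂ ≃+* ℂ) (f : End ℂ (Fin G ⊕ Fin G → ℂ)) (hD : ∀ u ∈ U, f (T u) = T (DS Z σ *ᵥ u))
    (hm : ∀ u ∈ U.map T, f u ∈ U.map T) :
    LinearMap.trace ℂ (U.map T) (f.restrict hm) = (tr Z (cjS σ.symm U) : ℂ) := by
  have hU' : Stab (LZ Z) (cjS σ.symm U) := hU.2.1.cj gal_LZ σ.symm
  obtain ⟨s1, s2⟩ := split_eig h hU'
  have s3 := congrArg (cjS σ) s1
  have s4 := congrArg (cjS σ) s2
  rw [cjS_inf, cjS_bot] at s3
  rw [cjS_sup, cjS_symm'] at s4
  set P := cjS σ (cjS σ.symm U ⊓ eig Z 1) with hP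
  set Q := cjS σ (cjS σ.symm U ⊓ eig Z (-1)) with hQ
  have hPU : P ≤ U := s4 ▸ le_sup_left
  have hQU : Q ≤ U := s4 ▸ le_sup_right
  have hx : ∀ u ∈ P.map T, f u = (1 : ℂ) • u := by
    rintro _ ⟨p, hp, rfl⟩
    rw [hD p (hPU hp)]
    have h6 : p ∈ cjS σ (eig Z 1) := by
      rw [hP, cjS_inf] at hp
      exact hp.2
    rw [mem_cj_eig (map_one σ) h6, map_smul]
  have hy : ∀ u ∈ Q.map T, f u = (-1 : ℂ) • u := by
    rintro _ ⟨p, hp, rfl⟩
    rw [hD p (hQU hp)]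
    have h6 : p ∈ cjS σ (eig Z (-1)) := by
      rw [hQ, cjS_inf] at hp
      exact hp.2
    rw [mem_cj_eig (by rw [map_neg, map_one]) h6, map_smul]
  have s5 : P.map T ⊓ Q.map T = ⊥ := by
    rw [eq_bot_iff]
    rintro u ⟨hu, hu'⟩
    have h6 := hx u hu
    rw [hy u hu', one_smul, neg_one_smul] at h6
    rw [Submodule.mem_bot]
    exact self_eq_neg.1 h6.symm
  have s6 : P.map T ⊔ Q.map T = U.map T := by rw [← Submodule.map_sup, s4]
  have e3 := Pool.Agent.Y977.P.tr_eig s5 s6 f hm 1 (-1) hx hy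
  rw [e3, Pool.Agent.Y977.P.finrank_inj T (fun u hu => h4 u (hPU hu)),
    Pool.Agent.Y977.P.finrank_inj T (fun u hu => h4 u (hQU hu)), hP, hQ, finrank_cjS, finrank_cjS]
  change (1 : ℂ) * (pd Z (cjS σ.symm U) : ℂ) + (-1 : ℂ) * (qd Z (cjS σ.symm U) : ℂ) = _
  rw [tr]
  push_cast
  ring

end JtrL

/-- **S_JTR.** -/
theorem s_jtr : S_JTR := by
  intro G Z h w J _ W hW ε T hT σ
  obtain ⟨h1, h2, -, h3, h4, hind, h5⟩ := hT
  have hc : DS Z σ * ε = ε * DS Z σ := h2 _ (DS_mem σ)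
  have hmem : ∀ v, mulVecLin (DS Z σ * ε) v ∈ ⨆ j, (W j).map (T j) := by
    intro v
    rw [mulVecLin_apply, hc, ← mulVec_mulVec]
    exact (h5 _).2 (by rw [mulVec_mulVec, h1])
  have e1 : Matrix.trace (DS Z σ * ε) = LinearMap.trace ℂ _ (mulVecLin (DS Z σ * ε)) := by
    rw [← Matrix.toLin'_apply', Matrix.trace_toLin'_eq]
  have e2 := LinearMap.trace_restrict_eq_of_forall_mem (⨆ j, (W j).map (T j))
    (mulVecLin (DS Z σ * ε)) hmem
  have hD : ∀ j, ∀ u ∈ W j, mulVecLin (DS Z σ * ε) (T j u) = T j (DS Z σ *ᵥ u) := by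
    intro j u hu
    have h6 : ε *ᵥ T j u = T j u :=
      (h5 _).1 (Submodule.mem_iSup_of_mem j ⟨u, hu, rfl⟩)
    rw [mulVecLin_apply, ← mulVec_mulVec, h6, h3 j _ (DS_mem σ) u hu]
  have hf : ∀ j, ∀ u ∈ (W j).map (T j), mulVecLin (DS Z σ * ε) u ∈ (W j).map (T j) := by
    rintro j _ ⟨u, hu, rfl⟩
    rw [hD j u hu]
    exact ⟨_, (hW j).2.1 _ (DS_mem σ) u hu, rfl⟩
  have hp : (⨆ j, (W j).map (T j)) = ⨆ j ∈ (Finset.univ : Finset J), (W j).map (T j) := by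
    simp only [Finset.mem_univ, iSup_pos]
  have hind' : iSupIndep fun j : (Finset.univ : Finset J) => (W j).map (T j) :=
    hind.comp Subtype.val_injective
  have e3 := LinearMap.trace_eq_sum_trace_restrict_of_eq_biSup (Finset.univ : Finset J) hind'
    (f := mulVecLin (DS Z σ * ε)) (fun j => fun u hu => hf j u hu) _ hp (fun u _ => hmem u)
  rw [e1, ← e2, e3]
  push_cast
  refine Finset.sum_congr rfl fun j _ => ?_
  exact JtrL.one h (hW j) (T j) (h4 j) σ (mulVecLin (DS Z σ * ε)) (hD j) (hf j)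

end

end Pool.Agent.H841.HC5
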