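import Mathlib
import Pool.Agent.H841.HC5.Jobs
import Pool.Agent.H926.T.Facp

/-!
# Factors of a variety of dimension at most five (S_NS; by helper323)
-/

set_option autoImplicit false
set_option linter.unusedSectionVars false

namespace Pool.Agent.H841.HC5

open Matrix Module Pool.Agent.W437.HC Pool.Agent.W437.HD Pool.Agent.TH504.CB Pool.Agent.W522.U
open Pool.Agent.Y90 hiding mulA exists_lam mulA_altQ
open Pool.Agent.W548.Odd hiding cv
open Pool.Agent.W437.HP (cK cK_mul cK_one)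
open Pool.Agent.H204R3.CM (IsHodge)
open Pool.Agent.H204R3.SP (Kills bil2 IsTate)
open Pool.Agent.Y4.P (MaxM EigM cx)
open Pool.Agent.H926.A (NQ clo_NQ PDq AltE S_QWEIL)

noncomputable section

namespace Sm5L

/-- the dimension of a sum of independent subspaces -/
theorem sum_le {n : ℕ} {I : Type} [Fintype I] {V : Type} [AddCommGroup V] [Module ℂ V]
    [FiniteDimensional ℂ V] (hn : finrank ℂ V ≤ n) (U : I → Submodule ℂ V) (h : iSupIndep U) :
    ∑ i, finrank ℂ (U i) ≤ n := by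
  classical
  have key : ∀ s : Finset I, finrank ℂ ↥(⨆ i ∈ s, U i) = ∑ i ∈ s, finrank ℂ (U i) := by
    intro s
    induction s using Finset.induction_on with
    | empty => simp
    | insert i s hi ih =>
      rw [Finset.sum_insert hi, Finset.iSup_insert]
      have h1 := Submodule.finrank_sup_add_finrank_inf_eq (U i) (⨆ j ∈ s, U j)
      have h2 : U i ⊓ (⨆ j ∈ s, U j) = ⊥ := by
        refine disjoint_iff.1 ((h i).mono_right (iSup₂_mono' fun j hj => ⟨j, ?_, le_rfl⟩))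
        rintro rfl
        exact hi hj
      rw [h2, finrank_bot, add_zero, ih] at h1
      exact h1
  have h1 := key Finset.univ
  rw [← h1]
  exact (Submodule.finrank_le _).trans hn

section gen

variable {G G' : ℕ} {Z : Matrix (Fin G) (Fin G) ℂ} {Z' : Matrix (Fin G') (Fin G') ℂ} {I : Type}
  {C : I → Matrix (Fin G ⊕ Fin G) (Fin G' ⊕ Fin G') ℂ}

/-- elements of one Lie algebra correspond to elements of the other one -/
theorem liftB (hC : ∀ i (σ : ℂ ≃+* ℂ), C i * DS Z' σ = DS Z σ * C i)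
    {Y : Matrix (Fin G' ⊕ Fin G') (Fin G' ⊕ Fin G') ℂ} (hY : Y ∈ LZ Z') :
    ∃ X ∈ LZ Z, ∀ i, C i * Y = X * C i := by
  let L : Submodule ℂ (Matrix (Fin G' ⊕ Fin G') (Fin G' ⊕ Fin G') ℂ) :=
    { carrier := {Y | ∃ X ∈ LZ Z, ∀ i, C i * Y = X * C i}
      add_mem' := by
        rintro Y Y' ⟨X, hX, h1⟩ ⟨X', hX', h2⟩
        exact ⟨X + X', Submodule.add_mem _ hX hX', fun i => by
          rw [Matrix.mul_add, Matrix.add_mul, h1, h2]⟩
      zero_mem' := ⟨0, Submodule.zero_mem _, fun i => by rw [Matrix.mul_zero, Matrix.zero_mul]⟩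
      smul_mem' := by
        rintro c Y ⟨X, hX, h1⟩
        exact ⟨c • X, Submodule.smul_mem _ c hX, fun i => by
          rw [Matrix.mul_smul, Matrix.smul_mul, h1]⟩ }
  have hL : LZ Z' ≤ L := by
    refine LZ_le (fun σ => ⟨DS Z σ, DS_mem σ, fun i => hC i σ⟩) ?_
    rintro A ⟨X, hX, h1⟩ B ⟨X', hX', h2⟩
    refine ⟨X * X' - X' * X, LZ_br hX hX', fun i => ?_⟩
    rw [Matrix.mul_sub, Matrix.sub_mul, ← Matrix.mul_assoc, ← Matrix.mul_assoc, h1, h2,
      Matrix.mul_assoc, Matrix.mul_assoc, h1, h2, Matrix.mul_assoc, Matrix.mul_assoc]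
  exact hL hY

/-- the other direction -/
theorem liftA (hC : ∀ i (σ : ℂ ≃+* ℂ), C i * DS Z' σ = DS Z σ * C i)
    {X : Matrix (Fin G ⊕ Fin G) (Fin G ⊕ Fin G) ℂ} (hX : X ∈ LZ Z) :
    ∃ Y ∈ LZ Z', ∀ i, C i * Y = X * C i := by
  let L : Submodule ℂ (Matrix (Fin G ⊕ Fin G) (Fin G ⊕ Fin G) ℂ) :=
    { carrier := {X | ∃ Y ∈ LZ Z', ∀ i, C i * Y = X * C i}
      add_mem' := by
        rintro Y Y' ⟨X, hX, h1⟩ ⟨X', hX', h2⟩
        exact ⟨X + X', Submodule.add_mem _ hX hX', fun i => by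
          rw [Matrix.mul_add, Matrix.add_mul, h1, h2]⟩
      zero_mem' := ⟨0, Submodule.zero_mem _, fun i => by rw [Matrix.mul_zero, Matrix.zero_mul]⟩
      smul_mem' := by
        rintro c Y ⟨X, hX, h1⟩
        exact ⟨c • X, Submodule.smul_mem _ c hX, fun i => by
          rw [Matrix.mul_smul, Matrix.smul_mul, h1]⟩ }
  have hL : LZ Z ≤ L := by
    refine LZ_le (fun σ => ⟨DS Z' σ, DS_mem σ, fun i => hC i σ⟩) ?_
    rintro A ⟨X, hX, h1⟩ B ⟨X', hX', h2⟩
    refine ⟨X * X' - X' * X, LZ_br hX hX', fun i => ?_⟩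
    rw [Matrix.mul_sub, Matrix.sub_mul, ← Matrix.mul_assoc, ← Matrix.mul_assoc, h1, h2,
      Matrix.mul_assoc, Matrix.mul_assoc, h1, h2, Matrix.mul_assoc, Matrix.mul_assoc]
  exact hL hX

/-- images of irreducible submodules -/
theorem irr (hC : ∀ i (σ : ℂ ≃+* ℂ), C i * DS Z' σ = DS Z σ * C i) (i : I)
    {W : Submodule ℂ (Fin G' ⊕ Fin G' → ℂ)} (hW : IrS (LZ Z') W)
    (hi : ∀ w ∈ W, C i *ᵥ w = 0 → w = 0) : IrS (LZ Z) (W.map (mulVecLin (C i))) := by
  refine ⟨?_, ?_, ?_⟩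
  · intro h0
    apply hW.1
    rw [eq_bot_iff]
    intro w hw
    have h1 : mulVecLin (C i) w ∈ W.map (mulVecLin (C i)) := ⟨w, hw, rfl⟩
    rw [h0, Submodule.mem_bot] at h1
    rw [Submodule.mem_bot]
    exact hi w hw h1
  · rintro X hX _ ⟨w, hw, rfl⟩
    obtain ⟨Y, hY, hXY⟩ := liftA hC hX
    refine ⟨Y *ᵥ w, hW.2.1 Y hY w hw, ?_⟩
    rw [mulVecLin_apply, mulVecLin_apply, mulVec_mulVec, mulVec_mulVec, hXY]
  · intro N hN hs
    have h1 : Stab (LZ Z') (W ⊓ N.comap (mulVecLin (C i))) := by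
      rintro Y hY w ⟨hw, hw'⟩
      obtain ⟨X, hX, hXY⟩ := liftB hC hY
      refine ⟨hW.2.1 Y hY w hw, ?_⟩
      change C i *ᵥ (Y *ᵥ w) ∈ N
      rw [mulVec_mulVec, hXY, ← mulVec_mulVec]
      exact hs X hX _ hw'
    rcases hW.2.2 _ inf_le_left h1 with h2 | h2
    · left
      rw [eq_bot_iff]
      intro v hv
      obtain ⟨w, hw, rfl⟩ := hN hv
      have h3 : w ∈ W ⊓ N.comap (mulVecLin (C i)) := ⟨hw, hv⟩
      rw [h2, Submodule.mem_bot] at h3
      rw [h3, map_zero]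
      exact Submodule.zero_mem _
    · right
      apply le_antisymm hN
      rintro _ ⟨w, hw, rfl⟩
      have h3 : w ∈ W ⊓ N.comap (mulVecLin (C i)) := by rw [h2]; exact hw
      exact h3.2

/-- isomorphisms of the images come from isomorphisms -/
theorem eqv (hC : ∀ i (σ : ℂ ≃+* ℂ), C i * DS Z' σ = DS Z σ * C i) (i j : I)
    {W W' : Submodule ℂ (Fin G' ⊕ Fin G' → ℂ)} (hW' : Stab (LZ Z') W')
    (hi : ∀ w ∈ W, C i *ᵥ w = 0 → w = 0) (hj : ∀ w ∈ W', C j *ᵥ w = 0 → w = 0)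
    (hE : Eqv (LZ Z) (W.map (mulVecLin (C i))) (W'.map (mulVecLin (C j)))) :
    Eqv (LZ Z') W W' := by
  obtain ⟨T, h1, h2, h3⟩ := hE
  obtain ⟨g, hg⟩ := LinearMap.exists_leftInverse_of_injective
    ((mulVecLin (C j)).domRestrict W') (by
      rw [LinearMap.ker_eq_bot']
      intro w hw
      exact Subtype.ext (hj w w.2 hw))
  have hgw : ∀ w (hw : w ∈ W'), (g (C j *ᵥ w) : Fin G' ⊕ Fin G' → ℂ) = w := by
    intro w hw
    have h4 := LinearMap.congr_fun hg ⟨w, hw⟩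
    exact congrArg Subtype.val h4
  have hex : ∀ w ∈ W, ∃ w' ∈ W', C j *ᵥ w' = T (C i *ᵥ w) := by
    intro w hw
    have h4 : T (C i *ᵥ w) ∈ W'.map (mulVecLin (C j)) := by
      rw [← h3]
      exact ⟨_, ⟨w, hw, rfl⟩, rfl⟩
    obtain ⟨w', hw', h5⟩ := h4
    exact ⟨w', hw', h5⟩
  have hval : ∀ w ∈ W, ∀ w' ∈ W', C j *ᵥ w' = T (C i *ᵥ w) →
      (W'.subtype.comp (g.comp (T.comp (mulVecLin (C i))))) w = w' := by
    intro w hw w' hw' h4
    change (g (T (C i *ᵥ w)) : Fin G' ⊕ Fin G' → ℂ) = w'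
    rw [← h4]
    exact hgw w' hw'
  refine ⟨W'.subtype.comp (g.comp (T.comp (mulVecLin (C i)))), ?_, ?_, ?_⟩
  · intro Y hY w hw
    obtain ⟨X, hX, hXY⟩ := liftB hC hY
    obtain ⟨w', hw', h4⟩ := hex w hw
    rw [hval w hw w' hw' h4]
    change (g (T (C i *ᵥ (Y *ᵥ w))) : Fin G' ⊕ Fin G' → ℂ) = Y *ᵥ w'
    rw [mulVec_mulVec, hXY, ← mulVec_mulVec, h1 X hX (C i *ᵥ w) ⟨w, hw, rfl⟩, ← h4, mulVec_mulVec, ← hXY,
      ← mulVec_mulVec]
    exact hgw _ (hW' Y hY w' hw')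
  · intro w hw h0
    obtain ⟨w', hw', h4⟩ := hex w hw
    rw [hval w hw w' hw' h4] at h0
    rw [h0, mulVec_zero] at h4
    exact hi w hw (h2 _ ⟨w, hw, rfl⟩ h4.symm)
  · apply le_antisymm
    · rintro _ ⟨w, hw, rfl⟩
      obtain ⟨w', hw', h4⟩ := hex w hw
      rw [hval w hw w' hw' h4]
      exact hw'
    · intro w' hw'
      have h4 : C j *ᵥ w' ∈ (W.map (mulVecLin (C i))).map T := by
        rw [h3]
        exact ⟨w', hw', rfl⟩
      obtain ⟨_, ⟨w, hw, rfl⟩, h5⟩ := h4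
      exact ⟨w, hw, hval w hw w' hw' h5.symm⟩

end gen

end Sm5L

/-- **S_NS.** -/
theorem s_ns (hi : S_IND) (_he : EqvL) (hr : S_RL) : S_NS := by
  intro G' G Z' Z h' h hG hF
  constructor
  · intro a Z₁ E F hf h₁ hs ha
    rcases hF a Z₁ E F hf h₁ hs ha with hR | ⟨E', F', hf'⟩
    · exact Or.inl hR
    right
    have hinj : Function.Injective (ml E') := by
      intro u v huv
      have h1 := congrArg (fun w => cK ℂ F' *ᵥ w) huv
      change cK ℂ F' *ᵥ (cK ℂ E' *ᵥ u) = cK ℂ F' *ᵥ (cK ℂ E' *ᵥ v) at h1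
      rwa [mulVec_mulVec, mulVec_mulVec, hf'.fe', one_mulVec, one_mulVec] at h1
    have h1 := LinearMap.finrank_le_finrank_of_injective hinj
    rw [Module.finrank_fintype_fun_eq_card, Module.finrank_fintype_fun_eq_card, Fintype.card_sum,
      Fintype.card_sum, Fintype.card_fin, Fintype.card_fin] at h1
    omega
  · intro I _ W hW hWW hA
    have hex : ∀ i, ∃ R : Matrix (Fin G ⊕ Fin G) (Fin G' ⊕ Fin G') ℂ,
        (∀ σ : ℂ ≃+* ℂ, R * DS Z' σ = DS Z σ * R) ∧ ∀ w ∈ W i, R *ᵥ w = 0 → w = 0 := by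
      intro i
      obtain ⟨a, Z₁, E, F, hf, h₁, hs, ha, h0⟩ := exists_fac h' (hW i).1
      have hinj := hf.inj (hW i) h0
      rcases hF a Z₁ E F hf h₁ hs ha with hR | ⟨E', F', hf'⟩
      · exfalso
        apply hA i
        obtain ⟨⟨b', b1, ⟨u, hu, v, hv, huv⟩, b3⟩, -⟩ :=
          hr a Z₁ h₁ hs ha hR _ (hf.irr (hW i) h0)
        refine ⟨b'.compl₁₂ (ml F) (ml F), ?_, ?_, ?_⟩
        · intro X hX u hu v hv
          change b' (ml F (X *ᵥ u)) (ml F v) + b' (ml F u) (ml F (X *ᵥ v)) = 0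
          rw [hf.act hX, hf.act hX]
          exact b1 _ (hf.comp hX).1 _ ⟨u, hu, rfl⟩ _ ⟨v, hv, rfl⟩
        · obtain ⟨u0, hu0, rfl⟩ := hu
          obtain ⟨v0, hv0, rfl⟩ := hv
          exact ⟨u0, hu0, v0, hv0, huv⟩
        · intro u hu v hv
          exact b3 _ ⟨u, hu, rfl⟩ _ ⟨v, hv, rfl⟩
      refine ⟨cK ℂ E' * cK ℂ F, fun σ => ?_, fun w hw h1 => hinj w hw ?_⟩
      · rw [Matrix.mul_assoc, hf.fds, ← Matrix.mul_assoc, ← Matrix.mul_assoc, hf'.des]
      · have h2 := congrArg (fun w => cK ℂ F' *ᵥ w) h1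
        change cK ℂ F' *ᵥ ((cK ℂ E' * cK ℂ F) *ᵥ w) = cK ℂ F' *ᵥ 0 at h2
        rwa [mulVec_mulVec, ← Matrix.mul_assoc, hf'.fe', Matrix.one_mul, mulVec_zero] at h2
    choose R hR hRi using hex
    have hind := hi G Z h I (fun i => (W i).map (mulVecLin (R i)))
      (fun i => Sm5L.irr hR i (hW i) (hRi i))
      (fun i j hij => hWW i j (Sm5L.eqv hR i j (hW j).2.1 (hRi i) (hRi j) hij))
    have h1 := Sm5L.sum_le (n := 10) (by
      rw [Module.finrank_fintype_fun_eq_card, Fintype.card_sum, Fintype.card_fin]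
      omega) _ hind
    have h2 : ∀ i, finrank ℂ ((W i).map (mulVecLin (R i))) = finrank ℂ (W i) := by
      intro i
      have h3 := LinearMap.finrank_range_of_inj (f := (mulVecLin (R i)).domRestrict (W i)) (by
        rw [injective_iff_map_eq_zero]
        intro u hu
        exact Subtype.ext (hRi i u u.2 hu))
      rw [← h3, LinearMap.range_domRestrict]
    simp only [h2] at h1
    exact h1

end

end Pool.Agent.H841.HC5
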