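import Mathlib
import Pool.Agent.H841.HC5.Jobs
import Pool.Graph.R_pool_sql_team_seeded_1acbe0a2.Y484.MC.CM
import Pool.Graph.R_pool_sql_team_seeded_1acbe0a2.Y4.P.Cls5

/-!
# Orthogonal submodules (project HC5, S_OR5; helper139)
-/

set_option autoImplicit false
set_option linter.unusedSectionVars false

namespace Pool.Agent.H841.HC5

open Matrix Module Pool.Agent.W437.HC Pool.Agent.W437.HD Pool.Agent.TH504.CB Pool.Agent.W522.U
open Pool.Agent.Y90 hiding mulA exists_lam mulA_altQ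
open Pool.Agent.W548.Odd hiding cv
open Pool.Agent.W437.HP (cK cK_mul cK_one)
open Pool.Agent.H204R3.CM (IsHodge)
open Pool.Agent.H204R3.SP (Kills bil2 IsTate)
open Pool.Agent.Y4.P (MaxM EigM cx)
open Pool.Agent.H926.A (NQ clo_NQ PDq AltE S_QWEIL)

noncomputable section

namespace H139O

theorem fr_map {V W : Type} [AddCommGroup V] [Module ℂ V] [AddCommGroup W] [Module ℂ W]
    {U : Submodule ℂ V} (f : V →ₗ[ℂ] W) (h : ∀ u ∈ U, f u = 0 → u = 0) :
    finrank ℂ (U.map f) = finrank ℂ U := by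
  have h1 : Function.Injective (f.domRestrict U) := by
    rw [← LinearMap.ker_eq_bot, LinearMap.ker_eq_bot']
    rintro ⟨u, hu⟩ h2
    exact Subtype.ext (h u hu h2)
  rw [← LinearMap.range_domRestrict]
  exact LinearMap.finrank_range_of_inj h1

/-- The roots of the minimal polynomial are not real, hence their number is even. -/
theorem even_deg {a : ℕ} {φ : Matrix (Fin a ⊕ Fin a) (Fin a ⊕ Fin a) ℚ}
    (hirr : Irreducible (minpoly ℚ φ)) (hcm : Pool.Agent.Y4.Q.CMM φ) {z : ℂ}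
    (hz : z ∈ (minpoly ℚ φ).aroots ℂ) (hzi : z.im ≠ 0) : Even (minpoly ℚ φ).natDegree := by
  classical
  have hsep : (minpoly ℚ φ).Separable := hirr.separable
  have hre : ∀ x ∈ (minpoly ℚ φ).aroots ℂ, cc x ≠ x := by
    intro x hx h1
    obtain ⟨σ, hσ⟩ := Pool.Agent.Y4.Q.exists_aut_root hirr hx hz
    have h2 := hcm x hx σ
    rw [h1, hσ] at h2
    exact hzi (Complex.conj_eq_iff_im.1 h2)
  have h1 : (minpoly ℚ φ).natDegree = (Pool.Agent.Y261.P.Rt φ).card := by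
    have h2 := congrArg Polynomial.natDegree (Pool.Agent.Y261.P.prod_eq hsep)
    rw [Polynomial.natDegree_map, Polynomial.natDegree_prod_of_monic _ _
      fun w _ => Polynomial.monic_X_sub_C w] at h2
    simpa using h2
  have h3 : ∑ x ∈ Pool.Agent.Y261.P.Rt φ, (1 : ZMod 2) = 0 := by
    refine Finset.sum_involution (fun x _ => cc x) ?_ ?_ ?_ ?_
    · intro x _
      decide
    · intro x hx _
      exact hre x (Pool.Agent.Y261.P.mem_Rt.1 hx)
    · intro x hx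
      exact Pool.Agent.Y261.P.Rt_aut hx cc
    · intro x _
      exact Complex.conj_conj x
  rw [Finset.sum_const, nsmul_eq_mul, mul_one, ← h1] at h3
  exact (ZMod.natCast_eq_zero_iff_even).1 h3

end H139O

/-- **S_OR5.** -/
theorem s_or5 (hr : S_RL) : S_OR5 := by
  intro G Z h h5 U hU b hb hb0 hbs h3
  obtain ⟨a, Z', E, F, hf, h', hs, ha, h0⟩ := exists_fac h hU.1
  have hi := hf.inj hU h0
  have hU' := hf.irr hU h0
  have ha5 : a ≤ 5 := by
    refine (h5 a Z' E F hf h' hs ha).resolve_left fun hR => ?_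
    obtain ⟨⟨b', b1, ⟨u, hu, v, hv, huv⟩, b3⟩, -⟩ := hr a Z' h' hs ha hR _ hU'
    refine Pool.Agent.H926.A.not_alt_of_sym hU hb hb0 hbs
      ⟨b'.compl₁₂ (ml F) (ml F), ?_, ?_, ?_⟩
    · intro X hX u hu v hv
      change b' (ml F (X *ᵥ u)) (ml F v) + b' (ml F u) (ml F (X *ᵥ v)) = 0
      rw [hf.act hX, hf.act hX]
      exact b1 _ (hf.comp hX).1 _ ⟨u, hu, rfl⟩ _ ⟨v, hv, rfl⟩
    · obtain ⟨u0, hu0, rfl⟩ := hu
      obtain ⟨v0, hv0, rfl⟩ := hv
      exact ⟨u0, hu0, v0, hv0, huv⟩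
    · intro u hu v hv
      exact b3 _ ⟨u, hu, rfl⟩ _ ⟨v, hv, rfl⟩
  obtain ⟨φ, hφ, hcm⟩ := Pool.Agent.Y484.MC.maxcm a Z' h' hs ha
  obtain ⟨hsp, hiso, -⟩ := Pool.Agent.Y261.P.jspec a Z' h' hs ha φ hφ
  obtain ⟨z, hz, T, hT1, hT2, hT3⟩ := hiso _ hU'
  have hirr := Pool.Agent.Y261.P.minpoly_irr h' hs ha hφ.1
  have hfr : finrank ℂ (EigM φ z) = finrank ℂ U := by
    rw [← hT3, H139O.fr_map T hT2, H139O.fr_map (ml F) hi]
  have hdeg := (hsp z hz).2
  rw [hfr] at hdeg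
  have hzi : z.im ≠ 0 := by
    intro hzi
    refine Pool.Agent.H926.A.not_alt_of_sym hU hb hb0 hbs ?_
    obtain ⟨u, hu, v, hv, huv⟩ := Pool.Agent.Y4.P.om_real h' hzi (hsp z hz).1
    refine ⟨(om a).compl₁₂ (T.comp (ml F)) (T.comp (ml F)), ?_, ?_, ?_⟩
    · intro X hX u _ v _
      change om a (T (ml F (X *ᵥ u))) (T (ml F v)) + om a (T (ml F u)) (T (ml F (X *ᵥ v))) = 0
      have hX' := (hf.comp hX).1
      rw [hf.act hX, hf.act hX, hT1 _ hX', hT1 _ hX']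
      exact h'.om_sp hX' _ _
    · rw [← hT3] at hu hv
      obtain ⟨_, ⟨u0, hu0, rfl⟩, rfl⟩ := hu
      obtain ⟨_, ⟨v0, hv0, rfl⟩, rfl⟩ := hv
      exact ⟨u0, hu0, v0, hv0, huv⟩
    · intro u _ v _
      exact om_anti _ _
  have hev := H139O.even_deg hirr hcm hz hzi
  have hpos : 0 < (minpoly ℚ φ).natDegree := hirr.natDegree_pos
  have hd : (minpoly ℚ φ).natDegree = 2 := by
    obtain ⟨k, hk⟩ := hev
    have h6 : (minpoly ℚ φ).natDegree ≤ 3 := by
      by_contra hcon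
      push Not at hcon
      have h7 : 3 * 4 ≤ finrank ℂ U * (minpoly ℚ φ).natDegree := Nat.mul_le_mul h3 hcon
      omega
    omega
  refine ⟨?_, ?_⟩
  · obtain ⟨w, D, ε, hD, hw, e1, e2, e3, e4⟩ := Pool.Agent.H926.A.H297.quad hφ.1 hd hz hzi
    refine Pool.Agent.H926.A.H297.transfer_q hf hi ⟨w, D, ε, T, hD, hw, e1, e2, e3,
      fun X hX u _ => hT1 X hX u, hT2, fun v => ?_⟩
    rw [hT3]
    exact e4 v
  · rw [hd] at hdeg
    omega

end

end Pool.Agent.H841.HC5
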