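import Pool.Agent.H841.HC5.Jobs

/-!
# Project HC5: orbits of irreducible submodules (S_ORB)
-/

set_option linter.unusedSectionVars false

namespace Pool.Agent.H841.HC5

open Matrix Module Pool.Agent.W437.HC Pool.Agent.W437.HD Pool.Agent.TH504.CB Pool.Agent.W522.U
open Pool.Agent.Y90 hiding mulA exists_lam mulA_altQ
open Pool.Agent.W548.Odd hiding cv
open Pool.Agent.W437.HP (cK cK_mul cK_one)
open Pool.Agent.H204R3.CM (IsHodge)
open Pool.Agent.H204R3.SP (Kills bil2 IsTate)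
open Pool.Agent.Y4.P (MaxM EigM cx)
open Pool.Agent.H926.A (NQ clo_NQ PDq AltE S_QWEIL)

noncomputable section

/-- **S_ORB.** Orbits of irreducible submodules under the automorphisms which fix `w`. -/
theorem s_orb (he : EqvL) (hp : PrgL) (h1 : S_Q1) (hm : S_FM) (ht : S_FT) (hf : S_ORBF)
    (hr : S_RL) : S_ORB := by
  intro G Z h h5 w D hD hw J _ W hW hWW j₀ hst htr hn
  obtain ⟨a, Z', E, F, φ, z, hF, hZ', hs, ha, hφ, hz⟩ := hm G Z h (W j₀) (hW j₀)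
  choose σ hσw hσ using htr
  have hcj : ∀ τ : ℂ ≃+* ℂ, IrS (LZ Z) (cjS τ (W j₀)) := fun τ => (hW j₀).cj gal_LZ τ
  have hSt : ∀ x : ℂ, Stab (LZ Z') (EigM φ x) := fun x =>
    Pool.Agent.Y261.P.EigM_stab hφ.1 x
  have hWz : ∀ j, Eqv (LZ Z) (W j) ((EigM φ (σ j z)).map (ml E)) := fun j =>
    he.trans (he.symm (hcj (σ j)).2.1 (hσ j)) (hz (σ j)).2
  have hnP : ∀ τ : ℂ ≃+* ℂ, ¬Prg (LZ Z') (EigM φ (τ z)) (EigM φ (τ z)) := by
    intro τ hP
    have e3 := he.symm (hcj τ).2.1 (hz τ).2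
    have p1 := (ht G a Z Z' E F hF _ _ (hSt _) (hSt _)).2 hP
    have hM : Stab (LZ Z) ((EigM φ (τ z)).map (ml E)) := (he.irr (hcj _) (hz τ).2).2.1
    have p2 := hp.eqv hM e3 p1
    have p3 := hp.eqv hM e3 (hp.symm p2)
    have p4 := hp.cj τ.symm p3
    rw [cjS_symm] at p4
    exact hn p4
  have h5' : a ≤ 5 := by
    refine (h5 a Z' E F hF hZ' hs ha).resolve_left fun hR => ?_
    obtain ⟨hsp, -, -⟩ := Pool.Agent.Y261.P.jspec a Z' hZ' hs ha φ hφ
    exact hnP (RingEquiv.refl ℂ) (hr a Z' hZ' hs ha hR _ (hsp _ (hz (RingEquiv.refl ℂ)).1).1).2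
  refine hf G a Z Z' E F hF h hZ' hs ha φ hφ w D hD hw J (fun j => σ j z)
    (fun j => (hz (σ j)).1) ?_ ?_ W hW hWz
  · intro i j hij
    have hij' : σ i z = σ j z := hij
    apply hWW
    have h2 := hWz i
    rw [hij'] at h2
    exact he.trans h2 (he.symm (hW j).2.1 (hWz j))
  · intro τ hτ j
    have hσ' : ((σ j).trans τ) w = w := by
      rw [RingEquiv.trans_apply, hσw j, hτ]
    obtain ⟨k, hk⟩ := hst ((σ j).trans τ) hσ'
    refine ⟨k, ?_⟩
    have hz' := hz ((σ j).trans τ)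
    have e3 := he.symm (hcj _).2.1 hz'.2
    have e1 : Eqv (LZ Z) ((EigM φ (((σ j).trans τ) z)).map (ml E))
        ((EigM φ (σ k z)).map (ml E)) := he.trans e3 (he.trans hk (hWz k))
    have e2 := (ht G a Z Z' E F hF _ _ (hSt _) (hSt _)).1 e1
    exact h1 a Z' hZ' hs ha h5' φ hφ (((σ j).trans τ) z) (σ k z) hz'.1 (hz (σ k)).1
      (hnP _) e2

end

end Pool.Agent.H841.HC5
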