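import Mathlib
import Pool.Agent.H841.HC5.Jobs
import Pool.Graph.R_seed8.Y90.Bal2
import Pool.Graph.R_seed8.Y90.Wei3

/-!
# Invariant pairings of irreducible submodules
-/

set_option linter.unusedSectionVars false

namespace Pool.Agent.H841.HC5

open Matrix Module Pool.Agent.W437.HC Pool.Agent.W437.HD Pool.Agent.TH504.CB Pool.Agent.W522.U
open Pool.Agent.Y90 hiding mulA exists_lam mulA_altQ
open Pool.Agent.W548.Odd hiding cv

noncomputable section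

namespace PrgX

variable {G : ℕ} {Z : Matrix (Fin G) (Fin G) ℂ} {U U' V' V'' : Submodule ℂ (Fin G ⊕ Fin G → ℂ)}

theorem symm (h : Prg (LZ Z) U U') : Prg (LZ Z) U' U := by
  obtain ⟨b, ⟨u, hu, v, hv, huv⟩, hb⟩ := h
  refine ⟨b.flip, ⟨v, hv, u, hu, huv⟩, fun X hX v hv u hu => ?_⟩
  rw [LinearMap.flip_apply, LinearMap.flip_apply, add_comm]
  exact hb X hX u hu v hv

theorem cj (σ : ℂ ≃+* ℂ) (h : Prg (LZ Z) U U') : Prg (LZ Z) (cjS σ U) (cjS σ U') := by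
  obtain ⟨b, ⟨u, hu, v, hv, huv⟩, hb⟩ := h
  refine ⟨cjB σ b, ⟨_, cj_mem_cjS hu, _, cj_mem_cjS hv, ?_⟩, ?_⟩
  · rw [cjB_apply]
    simp only [RingEquiv.symm_apply_apply]
    rw [ne_eq, map_eq_zero_iff σ σ.injective]
    exact huv
  · intro X hX u hu v hv
    rw [cjB_apply, cjB_apply, map_mulVec_aut σ.symm, map_mulVec_aut σ.symm, ← map_add,
      hb _ (gal_LZ σ.symm X hX) _ hu _ hv, map_zero]

/-- A linear left inverse of a map which is injective on a subspace. -/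
theorem exists_inv {V : Type*} [AddCommGroup V] [Module ℂ V] (U : Submodule ℂ V) (T : V →ₗ[ℂ] V)
    (hT : ∀ u ∈ U, T u = 0 → u = 0) :
    ∃ S : V →ₗ[ℂ] V, (∀ v, S v ∈ U) ∧ ∀ u ∈ U, S (T u) = u := by
  have hi : LinearMap.ker (T.domRestrict U) = ⊥ := by
    rw [LinearMap.ker_eq_bot, injective_iff_map_eq_zero]
    intro u hu
    exact Subtype.ext (hT u u.2 hu)
  obtain ⟨S, hS⟩ := (T.domRestrict U).exists_leftInverse_of_injective hi
  refine ⟨U.subtype ∘ₗ S, fun v => (S v).2, fun u hu => ?_⟩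
  have h1 := congrArg (fun f : U →ₗ[ℂ] U => f ⟨u, hu⟩) hS
  exact congrArg Subtype.val h1

theorem eqv (hU : Stab (LZ Z) U) (he : Eqv (LZ Z) U U') (h : Prg (LZ Z) U V') :
    Prg (LZ Z) U' V' := by
  obtain ⟨T, hT, hi, rfl⟩ := he
  obtain ⟨b, ⟨u, hu, v, hv, huv⟩, hb⟩ := h
  obtain ⟨S, -, hS⟩ := exists_inv U T hi
  refine ⟨b ∘ₗ S, ⟨T u, ⟨u, hu, rfl⟩, v, hv, ?_⟩, ?_⟩
  · rw [LinearMap.comp_apply, hS u hu]
    exact huv
  · rintro X hX _ ⟨u, hu, rfl⟩ v hv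
    rw [← hT X hX u hu, LinearMap.comp_apply, LinearMap.comp_apply, hS u hu,
      hS _ (hU X hX u hu)]
    exact hb X hX u hu v hv

/-- The map to the dual space. -/
theorem exists_equiv (hU : IrS (LZ Z) U) (hV : IrS (LZ Z) V')
    {b : (Fin G ⊕ Fin G → ℂ) →ₗ[ℂ] (Fin G ⊕ Fin G → ℂ) →ₗ[ℂ] ℂ}
    (h0 : ∃ u ∈ U, ∃ v ∈ V', b u v ≠ 0)
    (hb : ∀ X ∈ LZ Z, ∀ u ∈ U, ∀ v ∈ V', b (X *ᵥ u) v + b u (X *ᵥ v) = 0) :
    finrank ℂ V' = finrank ℂ U ∧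
      ∃ e : V' ≃ₗ[ℂ] Dual ℂ U, ∀ (v : V') (u : U), e v u = b u v := by
  have h0' : ∃ u ∈ V', ∃ v ∈ U, b.flip u v ≠ 0 := by
    obtain ⟨u, hu, v, hv, huv⟩ := h0
    exact ⟨v, hv, u, hu, huv⟩
  have hb' : ∀ X ∈ LZ Z, ∀ u ∈ V', ∀ v ∈ U, b.flip (X *ᵥ u) v + b.flip u (X *ᵥ v) = 0 := by
    intro X hX u hu v hv
    rw [LinearMap.flip_apply, LinearMap.flip_apply, add_comm]
    exact hb X hX v hv u hu
  let f : U →ₗ[ℂ] Dual ℂ V' := (b.domRestrict U).compl₂ V'.subtype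
  let g : V' →ₗ[ℂ] Dual ℂ U := (b.flip.domRestrict V').compl₂ U.subtype
  have hf : Function.Injective f := by
    rw [injective_iff_map_eq_zero]
    intro u hu
    refine Subtype.ext (nd_left hU hV.2.1 h0 hb u u.2 fun v hv => ?_)
    exact congrArg (fun F : Dual ℂ V' => F ⟨v, hv⟩) hu
  have hg : Function.Injective g := by
    rw [injective_iff_map_eq_zero]
    intro u hu
    refine Subtype.ext (nd_left hV hU.2.1 h0' hb' u u.2 fun v hv => ?_)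
    exact congrArg (fun F : Dual ℂ U => F ⟨v, hv⟩) hu
  have e1 := LinearMap.finrank_le_finrank_of_injective hf
  have e2 := LinearMap.finrank_le_finrank_of_injective hg
  rw [Subspace.dual_finrank_eq] at e1 e2
  have e3 : finrank ℂ V' = finrank ℂ U := le_antisymm e2 e1
  refine ⟨e3, LinearEquiv.ofInjectiveOfFinrankEq g hg (by
    rw [Subspace.dual_finrank_eq]
    exact e3), fun v u => rfl⟩

theorem uniq (hU : IrS (LZ Z) U) (hV' : IrS (LZ Z) V') (hV'' : IrS (LZ Z) V'')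
    (h' : Prg (LZ Z) U V') (h'' : Prg (LZ Z) U V'') : Eqv (LZ Z) V' V'' := by
  obtain ⟨b', h0', hb'⟩ := h'
  obtain ⟨b'', h0'', hb''⟩ := h''
  obtain ⟨-, e', he'⟩ := exists_equiv hU hV' h0' hb'
  obtain ⟨-, e'', he''⟩ := exists_equiv hU hV'' h0'' hb''
  obtain ⟨π, hπ, hπ'⟩ := exists_inv V' LinearMap.id (fun u _ hu => hu)
  let T : V' ≃ₗ[ℂ] V'' := e'.trans e''.symm
  have hT : ∀ (v : V') (u : U), b'' u (T v) = b' u v := by
    intro v u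
    rw [← he'', ← he']
    exact congrArg (fun F : Dual ℂ U => F u) (e''.apply_symm_apply (e' v))
  let S : (Fin G ⊕ Fin G → ℂ) →ₗ[ℂ] (Fin G ⊕ Fin G → ℂ) :=
    V''.subtype ∘ₗ (T : V' →ₗ[ℂ] V'') ∘ₗ (π.codRestrict V' hπ)
  have hS : ∀ v : V', S v = T v := by
    intro v
    have h1 : π.codRestrict V' hπ v = v := Subtype.ext (hπ' v v.2)
    change ((T (π.codRestrict V' hπ v) : V'') : Fin G ⊕ Fin G → ℂ) = T v
    rw [h1]
  refine ⟨S, ?_, ?_, ?_⟩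
  · intro X hX v hv
    have h1 := hS ⟨v, hv⟩
    have h2 := hS ⟨X *ᵥ v, hV'.2.1 X hX v hv⟩
    change S v = _ at h1
    change S (X *ᵥ v) = _ at h2
    rw [h1, h2]
    have h3 : e'' (T ⟨X *ᵥ v, hV'.2.1 X hX v hv⟩) =
        e'' ⟨X *ᵥ (T ⟨v, hv⟩ : Fin G ⊕ Fin G → ℂ), hV''.2.1 X hX _ (T ⟨v, hv⟩).2⟩ := by
      refine LinearMap.ext fun u => ?_
      rw [he'', he'', hT]
      have e1 := hb' X hX u u.2 v hv
      have e2 := hb'' X hX u u.2 _ (T ⟨v, hv⟩).2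
      have e3 := hT ⟨v, hv⟩ ⟨X *ᵥ u, hU.2.1 X hX u u.2⟩
      change b'' (X *ᵥ u) (T ⟨v, hv⟩) = b' (X *ᵥ u) v at e3
      change b' u (X *ᵥ v) = b'' u (X *ᵥ (T ⟨v, hv⟩ : Fin G ⊕ Fin G → ℂ))
      linear_combination e1 - e2 + e3
    exact congrArg Subtype.val (e''.injective h3)
  · intro v hv h1
    have h2 := hS ⟨v, hv⟩
    change S v = _ at h2
    rw [h1] at h2
    have h3 : T ⟨v, hv⟩ = 0 := Subtype.ext h2.symm
    rw [LinearEquiv.map_eq_zero_iff] at h3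
    exact congrArg Subtype.val h3
  · ext w
    constructor
    · rintro ⟨v, hv, rfl⟩
      have h2 := hS ⟨v, hv⟩
      change S v = _ at h2
      rw [h2]
      exact (T ⟨v, hv⟩).2
    · intro hw
      refine ⟨T.symm ⟨w, hw⟩, (T.symm ⟨w, hw⟩).2, ?_⟩
      rw [hS, LinearEquiv.apply_symm_apply]

open scoped ComplexOrder in
theorem cc' (h : PM Z) (hU : IrS (LZ Z) U) : Prg (LZ Z) U (cjS cc U) := by
  obtain ⟨w, hw, hw0⟩ := U.ne_bot_iff.1 hU.1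
  refine symm ⟨om G, ⟨fun i => cc (w i), cj_mem_cjS hw, DZ Z *ᵥ w, hU.2.1 _ DZ_mem w hw, ?_⟩,
    fun X hX u _ v _ => h.om_sp hX u v⟩
  intro h1
  have h2 := h.herm_pos hw0
  have h3 : om G (cnj w) (DZ Z *ᵥ w) = 0 := h1
  rw [h3, mul_zero] at h2
  exact lt_irrefl _ h2

theorem trc (h : PM Z) (hU : IrS (LZ Z) U) (hU' : IrS (LZ Z) U') (hp : Prg (LZ Z) U U') :
    finrank ℂ U' = finrank ℂ U ∧ ∀ σ : ℂ ≃+* ℂ, tr Z (cjS σ U') = -tr Z (cjS σ U) := by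
  refine ⟨?_, fun σ => ?_⟩
  · obtain ⟨b, h0, hb⟩ := hp
    exact (exists_equiv hU hU' h0 hb).1
  · obtain ⟨b, h0, hb⟩ := cj σ hp
    exact tr_dual h (hU.cj gal_LZ σ) (hU'.cj gal_LZ σ) h0 hb

end PrgX

/-- **S_PRG (pairings).** -/
theorem prgL : PrgL where
  symm := fun h => PrgX.symm h
  cj := fun σ h => PrgX.cj σ h
  eqv := fun hU he h => PrgX.eqv hU he h
  uniq := fun hU hV' hV'' h' h'' => PrgX.uniq hU hV' hV'' h' h''
  cc := fun h _ hU => PrgX.cc' h hU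
  trc := fun h _ _ hU hU' hp => PrgX.trc h hU hU' hp

end

end Pool.Agent.H841.HC5
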