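import Mathlib
import Pool.Agent.H841.HC5.Jobs
import Pool.Graph.R_pool_sql_team_seeded_1acbe0a2.Y4.P.Sml

/-!
# HC5: multiplicity one in dimension at most five
-/

set_option linter.unusedSectionVars false

namespace Pool.Agent.H841.HC5

open Matrix Module Pool.Agent.W437.HC Pool.Agent.W437.HD Pool.Agent.TH504.CB Pool.Agent.W522.U
open Pool.Agent.Y90 hiding mulA exists_lam mulA_altQ
open Pool.Agent.W548.Odd hiding cv
open Pool.Agent.W437.HP (cK cK_mul cK_one)
open Pool.Agent.H204R3.CM (IsHodge)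
open Pool.Agent.H204R3.SP (Kills bil2 IsTate)
open Pool.Agent.Y4.P (MaxM EigM cx)
open Pool.Agent.H926.A (NQ clo_NQ PDq AltE S_QWEIL)

noncomputable section

namespace Q1A

open Pool.Agent.Y4.P (cjS_eigM root_aut)

variable {a : ℕ} {Z' : Matrix (Fin a) (Fin a) ℂ} {φ : Matrix (Fin a ⊕ Fin a) (Fin a ⊕ Fin a) ℚ}

theorem irr (h : PM Z') (hs : IsSimpleAV Z') (ha : 0 < a) (hφ : MaxM Z' φ) {x : ℂ}
    (hx : x ∈ (minpoly ℚ φ).aroots ℂ) : IrS (LZ Z') (EigM φ x) :=
  Pool.Agent.Y261.P.EigM_irr h hφ (Pool.Agent.Y261.P.minpoly_irr h hs ha hφ.1).separable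
    (Pool.Agent.Y261.P.mem_Rt.2 hx)

theorem dimx (h : PM Z') (hs : IsSimpleAV Z') (ha : 0 < a) (hφ : MaxM Z' φ) {x : ℂ}
    (hx : x ∈ (minpoly ℚ φ).aroots ℂ) :
    finrank ℂ (EigM φ x) * (minpoly ℚ φ).natDegree = 2 * a :=
  Pool.Agent.Y261.P.finrank_EigM h hs ha hφ (Pool.Agent.Y261.P.minpoly_irr h hs ha hφ.1).separable
    (Pool.Agent.Y261.P.mem_Rt.2 hx)

theorem prg_cc (hp : PrgL) (h : PM Z') (hs : IsSimpleAV Z') (ha : 0 < a) (hφ : MaxM Z' φ) {x : ℂ}
    (hx : x ∈ (minpoly ℚ φ).aroots ℂ) : Prg (LZ Z') (EigM φ x) (EigM φ (cc x)) := by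
  have h3 := hp.cc h (irr h hs ha hφ hx)
  rw [cjS_eigM] at h3
  exact h3

/-- No root is real. -/
theorem real (hp : PrgL) (h : PM Z') (hs : IsSimpleAV Z') (ha : 0 < a) (hφ : MaxM Z' φ) {z : ℂ}
    (hz : z ∈ (minpoly ℚ φ).aroots ℂ) (hn : ¬Prg (LZ Z') (EigM φ z) (EigM φ z)) {x : ℂ}
    (hx : x ∈ (minpoly ℚ φ).aroots ℂ) : cc x ≠ x := by
  intro h2
  obtain ⟨σ, hσ⟩ := Pool.Agent.Y4.Q.exists_aut_root
    (Pool.Agent.Y261.P.minpoly_irr h hs ha hφ.1) hx hz
  have h3 := prg_cc hp h hs ha hφ hx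
  rw [h2] at h3
  have h4 := hp.cj σ h3
  rw [cjS_eigM, hσ] at h4
  exact hn h4

theorem cc_cc (x : ℂ) : cc (cc x) = x := Complex.conj_conj x

/-- Traces of conjugate eigenspaces. -/
theorem tr_cc (hp : PrgL) (h : PM Z') (hs : IsSimpleAV Z') (ha : 0 < a) (hφ : MaxM Z' φ) {x : ℂ}
    (hx : x ∈ (minpoly ℚ φ).aroots ℂ) : tr Z' (EigM φ (cc x)) = -tr Z' (EigM φ x) := by
  have h1 := (hp.trc h (irr h hs ha hφ hx) (irr h hs ha hφ (root_aut hx cc))
    (prg_cc hp h hs ha hφ hx)).2 (RingEquiv.refl ℂ)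
  rw [cjS_eigM, cjS_eigM] at h1
  exact h1

end Q1A

open Q1A in
theorem s_q1 (he : EqvL) (hp : PrgL) (ht : TriL) (h1 : S_Q11) : S_Q1 := by
  classical
  intro a Z' h hs ha h5 φ hφ z z' hz hz' hn hE
  by_contra hne
  have hirr := Pool.Agent.Y261.P.minpoly_irr h hs ha hφ.1
  have hsep := hirr.separable
  have hU := irr h hs ha hφ hz
  have hU' := irr h hs ha hφ hz'
  have hreal : ∀ x ∈ (minpoly ℚ φ).aroots ℂ, cc x ≠ x := fun x hx =>
    real hp h hs ha hφ hz hn hx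
  have hcr : ∀ x ∈ (minpoly ℚ φ).aroots ℂ, cc x ∈ (minpoly ℚ φ).aroots ℂ := fun x hx =>
    Pool.Agent.Y4.P.root_aut hx cc
  have hzz' : cc z ≠ z' := by
    intro h0
    have h3 := hp.symm (prg_cc hp h hs ha hφ hz)
    have h4 : Eqv (LZ Z') (EigM φ z') (EigM φ z) := he.symm hU.2.1 hE
    rw [← h0] at h4
    exact hn (hp.eqv (irr h hs ha hφ (hcr z hz)).2.1 h4 h3)
  have hzz'' : cc z' ≠ z := by
    intro h0
    apply hzz'
    rw [← h0, cc_cc]
  have hev : Even (minpoly ℚ φ).natDegree :=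
    Pool.Agent.Y4.Q.even_deg h hs ha hφ.1 fun x hx h0 =>
      hreal x hx (Complex.conj_eq_iff_im.2 h0)
  have hcard := Pool.Agent.Y261.P.card_Rt hsep
  have hinj : cc z ≠ cc z' := fun h0 => hne (by
    have h2 := congrArg cc h0
    rwa [cc_cc, cc_cc] at h2)
  let Q : Finset ℂ := {z, z', cc z, cc z'}
  have hQc : Q.card = 4 := by
    have n1 : z ∉ ({z', cc z, cc z'} : Finset ℂ) := by
      simp only [Finset.mem_insert, Finset.mem_singleton, not_or]
      exact ⟨hne, fun h => hreal z hz h.symm, fun h => hzz'' h.symm⟩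
    have n2 : z' ∉ ({cc z, cc z'} : Finset ℂ) := by
      simp only [Finset.mem_insert, Finset.mem_singleton, not_or]
      exact ⟨fun h => hzz' h.symm, fun h => hreal z' hz' h.symm⟩
    have n3 : cc z ∉ ({cc z'} : Finset ℂ) := by
      simp only [Finset.mem_singleton]
      exact hinj
    rw [Finset.card_insert_of_notMem n1, Finset.card_insert_of_notMem n2,
      Finset.card_insert_of_notMem n3, Finset.card_singleton]
  have hQ : Q ⊆ Pool.Agent.Y261.P.Rt φ := by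
    intro x hx
    simp only [Q, Finset.mem_insert, Finset.mem_singleton] at hx
    rw [Pool.Agent.Y261.P.mem_Rt]
    rcases hx with rfl | rfl | rfl | rfl
    · exact hz
    · exact hz'
    · exact hcr _ hz
    · exact hcr _ hz'
  have h4 : 4 ≤ (minpoly ℚ φ).natDegree := by
    rw [← hcard, ← hQc]
    exact Finset.card_le_card hQ
  have hdim := dimx h hs ha hφ hz
  have hm0 : 0 < finrank ℂ (EigM φ z) := by
    rcases Nat.eq_zero_or_pos (finrank ℂ (EigM φ z)) with h0 | h0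
    · rw [h0, zero_mul] at hdim
      omega
    · exact h0
  have hm2 : finrank ℂ (EigM φ z) ≤ 2 := by
    by_contra h0
    have h6 : 3 * 4 ≤ finrank ℂ (EigM φ z) * (minpoly ℚ φ).natDegree :=
      Nat.mul_le_mul (by omega) h4
    omega
  have hcase : finrank ℂ (EigM φ z) = 1 ∨ finrank ℂ (EigM φ z) = 2 := by omega
  rcases hcase with hm1 | hm1
  · rw [hm1, one_mul] at hdim
    exact hne (h1 a Z' h hs ha φ hφ hdim z z' hz hz' hE)
  · rw [hm1] at hdim
    have hr4 : (minpoly ℚ φ).natDegree = 4 := by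
      obtain ⟨k, hk⟩ := hev
      omega
    have hQeq : Q = Pool.Agent.Y261.P.Rt φ :=
      Finset.eq_of_subset_of_card_le hQ (by rw [hcard, hQc, hr4])
    have T1 : tr Z' (EigM φ z') = tr Z' (EigM φ z) := by
      have h6 := he.trc h hU.2.1 hE (RingEquiv.refl ℂ)
      rw [Pool.Agent.Y4.P.cjS_eigM, Pool.Agent.Y4.P.cjS_eigM] at h6
      exact h6
    have T2 := tr_cc hp h hs ha hφ hz
    have T3 := tr_cc hp h hs ha hφ hz'
    have hall : ∀ σ : ℂ ≃+* ℂ, tr Z' (EigM φ (σ z)) = tr Z' (EigM φ z) ∨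
        tr Z' (EigM φ (σ z)) = -tr Z' (EigM φ z) := by
      intro σ
      have h6 : σ z ∈ Q := by
        rw [hQeq]
        exact Pool.Agent.Y261.P.mem_Rt.2 (Pool.Agent.Y4.P.root_aut hz σ)
      simp only [Q, Finset.mem_insert, Finset.mem_singleton] at h6
      rcases h6 with h7 | h7 | h7 | h7
      · left
        rw [h7]
      · left
        rw [h7, T1]
      · right
        rw [h7, T2]
      · right
        rw [h7, T3, T1]
    obtain ⟨p, q, hpq, ht0⟩ := he.pq h hU.2.1 (RingEquiv.refl ℂ)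
    rw [Pool.Agent.Y4.P.cjS_eigM] at ht0
    change tr Z' (EigM φ z) = p - q at ht0
    rw [hm1] at hpq
    by_cases h0 : tr Z' (EigM φ z) = 0
    · refine hn (ht.zero h hU hm1 fun σ => ?_)
      rw [Pool.Agent.Y4.P.cjS_eigM]
      rcases hall σ with h6 | h6
      · rw [h6, h0]
      · rw [h6, h0, neg_zero]
    · obtain ⟨σ, s1, s2⟩ := ht.two h hU (by omega)
      rw [Pool.Agent.Y4.P.cjS_eigM, hm1] at s1 s2
      push_cast at s1 s2
      rcases hall σ with h6 | h6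
      · rw [h6] at s1 s2
        omega
      · rw [h6] at s1 s2
        omega

end

end Pool.Agent.H841.HC5
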