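import Mathlib
import Pool.Agent.H841.HC5.Jobs

/-!
# Multiplicity one, dimension one
-/

set_option linter.unusedSectionVars false

namespace Pool.Agent.H841.HC5

open Matrix Module Pool.Agent.W437.HC Pool.Agent.W437.HD Pool.Agent.TH504.CB Pool.Agent.W522.U
open Pool.Agent.Y90 hiding mulA exists_lam mulA_altQ
open Pool.Agent.W548.Odd hiding cv
open Pool.Agent.W437.HP (cK cK_mul cK_one)
open Pool.Agent.H204R3.CM (IsHodge)
open Pool.Agent.H204R3.SP (Kills bil2 IsTate)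
open Pool.Agent.Y4.P (MaxM EigM cx)
open Pool.Agent.H926.A (NQ clo_NQ PDq AltE S_QWEIL)

noncomputable section

namespace H287

open Pool.Agent.Y261.P (div_of_comm mem_EigM qm_inj poly_comm Pz Pz_mem Pz_self Pz_comm mem_Rt
  EigM_ne minpoly_irr)

variable {a : ℕ} {Z' : Matrix (Fin a) (Fin a) ℂ}
  {φ : Matrix (Fin a ⊕ Fin a) (Fin a ⊕ Fin a) ℚ}

/-- A rational endomorphism which kills a nonzero rational vector is zero. -/
theorem zero_of_kill (h : PM Z') (hs : IsSimpleAV Z')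
    {ψ : Matrix (Fin a ⊕ Fin a) (Fin a ⊕ Fin a) ℚ} (hψ : qm ψ * DZ Z' = DZ Z' * qm ψ)
    {w : Fin a ⊕ Fin a → ℚ} (hw : w ≠ 0) (hk : ψ *ᵥ w = 0) : ψ = 0 := by
  rcases div_of_comm h hs hψ with h1 | h1
  · exact h1
  · exfalso
    apply hw
    have h2 : qm ψ *ᵥ (fun i => ((w i : ℚ) : ℂ)) = 0 := by
      rw [Pool.Agent.Y261.P.qm_cast, hk]
      funext i
      simp
    have h3 := (Matrix.mulVec_injective_iff_isUnit.2 h1) (h2.trans (mulVec_zero _).symm)
    funext i
    have h4 := congrFun h3 i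
    simpa using h4

/-- The endomorphisms are polynomials in `φ` if the degree is `2 a`. -/
theorem comm_phi (h : PM Z') (hs : IsSimpleAV Z') (ha : 0 < a) (hφ : MaxM Z' φ)
    (hd : (minpoly ℚ φ).natDegree = 2 * a)
    {ψ : Matrix (Fin a ⊕ Fin a) (Fin a ⊕ Fin a) ℚ} (hψ : qm ψ * DZ Z' = DZ Z' * qm ψ) :
    ψ * φ = φ * ψ := by
  let w : Fin a ⊕ Fin a → ℚ := Pi.single (Sum.inl ⟨0, ha⟩) 1
  have hw : w ≠ 0 := by
    intro h0
    have h1 := congrFun h0 (Sum.inl ⟨0, ha⟩)
    simp [w] at h1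
  let ev : Matrix (Fin a ⊕ Fin a) (Fin a ⊕ Fin a) ℚ →ₗ[ℚ] (Fin a ⊕ Fin a → ℚ) :=
    { toFun := fun M => M *ᵥ w
      map_add' := fun M N => add_mulVec M N w
      map_smul' := fun c M => smul_mulVec c M w }
  let L : Polynomial.degreeLT ℚ (2 * a) →ₗ[ℚ] (Fin a ⊕ Fin a → ℚ) :=
    (ev.comp (Polynomial.aeval φ).toLinearMap).comp (Polynomial.degreeLT ℚ (2 * a)).subtype
  have hinj : Function.Injective L := by
    rw [injective_iff_map_eq_zero]
    intro p hp
    have h1 : Polynomial.aeval φ (p : Polynomial ℚ) = 0 :=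
      zero_of_kill h hs (poly_comm hφ.1 _) hw hp
    have h2 : minpoly ℚ φ ∣ (p : Polynomial ℚ) := minpoly.dvd ℚ φ h1
    apply Subtype.ext
    by_contra hne
    have h3 := Polynomial.natDegree_le_of_dvd h2 hne
    have h4 : (p : Polynomial ℚ).degree < (2 * a : ℕ) := Polynomial.mem_degreeLT.1 p.2
    rw [Polynomial.degree_eq_natDegree hne] at h4
    have h5 : (p : Polynomial ℚ).natDegree < 2 * a := by exact_mod_cast h4
    omega
  have hfin : finrank ℚ (Polynomial.degreeLT ℚ (2 * a)) = finrank ℚ (Fin a ⊕ Fin a → ℚ) := by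
    rw [(Polynomial.degreeLTEquiv ℚ (2 * a)).finrank_eq]
    simp
    ring
  have : FiniteDimensional ℚ (Polynomial.degreeLT ℚ (2 * a)) :=
    Module.Finite.equiv (Polynomial.degreeLTEquiv ℚ (2 * a)).symm
  have hsur : Function.Surjective L :=
    (LinearMap.injective_iff_surjective_of_finrank_eq_finrank hfin).1 hinj
  obtain ⟨p, hp⟩ := hsur (ψ *ᵥ w)
  have h1 : ψ - Polynomial.aeval φ (p : Polynomial ℚ) = 0 := by
    refine zero_of_kill h hs ?_ hw ?_
    · have e1 : qm (ψ - Polynomial.aeval φ (p : Polynomial ℚ)) =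
          qm ψ - qm (Polynomial.aeval φ (p : Polynomial ℚ)) := by
        ext i j
        simp [qm]
      rw [e1, sub_mul, mul_sub, hψ, poly_comm hφ.1]
    · rw [sub_mulVec, sub_eq_zero]
      exact hp.symm
  rw [sub_eq_zero] at h1
  rw [h1]
  have h2 : Polynomial.aeval φ ((p : Polynomial ℚ) * Polynomial.X) =
      Polynomial.aeval φ (Polynomial.X * (p : Polynomial ℚ)) := by rw [mul_comm]
  rw [map_mul, map_mul, Polynomial.aeval_X] at h2
  exact h2

/-- Complex matrices which commute with the Lie algebra commute with `φ`. -/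
theorem comm_all (h : PM Z') (hs : IsSimpleAV Z') (ha : 0 < a) (hφ : MaxM Z' φ)
    (hd : (minpoly ℚ φ).natDegree = 2 * a) {M : Matrix (Fin a ⊕ Fin a) (Fin a ⊕ Fin a) ℂ}
    (hM : ∀ X ∈ LZ Z', M * X = X * M) : M * qm φ = qm φ * M := by
  let C : Submodule ℂ (Matrix (Fin a ⊕ Fin a) (Fin a ⊕ Fin a) ℂ) :=
    { carrier := {X | InCm {DZ Z'} X}
      zero_mem' := fun X _ => by rw [zero_mul, mul_zero]
      add_mem' := fun {x y} hx hy X hX => by rw [add_mul, mul_add, hx X hX, hy X hX]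
      smul_mem' := fun r x hx X hX => by rw [smul_mul_assoc, mul_smul_comm, hx X hX] }
  refine rational_induction (p := fun X => X * qm φ = qm φ * X) C ?_ ?_ ?_ ?_ ?_ M hM
  · intro σ X hX
    exact InCm.aut hX σ
  · intro u hu
    have h1 : qm u * DZ Z' = DZ Z' * qm u := hu _ DZ_mem
    have h2 := comm_phi h hs ha hφ hd h1
    change qm u * qm φ = qm φ * qm u
    rw [← qm_mul, ← qm_mul, h2]
  · rw [zero_mul, mul_zero]
  · intro X Y hX hY
    rw [add_mul, mul_add, hX, hY]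
  · intro c X hX
    rw [smul_mul_assoc, mul_smul_comm, hX]

end H287

open Pool.Agent.Y261.P in
theorem s_q11 : S_Q11 := by
  intro a Z' h hs ha φ hφ hd z z' hz hz' he
  obtain ⟨T, t1, t2, t3⟩ := he
  have hirr := minpoly_irr h hs ha hφ.1
  have hsep : (minpoly ℚ φ).Separable := hirr.separable
  have hzR : z ∈ Rt φ := mem_Rt.2 hz
  have hTv : ∀ v, (LinearMap.toMatrix' T) *ᵥ v = T v := by
    intro v
    rw [← Matrix.toLin'_apply, Matrix.toLin'_toMatrix']
  have hM : ∀ X ∈ LZ Z', (LinearMap.toMatrix' T * Pz φ z) * X =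
      X * (LinearMap.toMatrix' T * Pz φ z) := by
    intro X hX
    refine mat_ext fun v => ?_
    rw [mul_assoc, ← Pz_comm hφ.1 z X hX, ← mulVec_mulVec, ← mulVec_mulVec, hTv,
      t1 X hX _ (Pz_mem hsep hzR v), ← mulVec_mulVec, ← mulVec_mulVec, hTv]
  have hc := H287.comm_all h hs ha hφ hd hM
  obtain ⟨v, hv, hv0⟩ := Submodule.exists_mem_ne_zero_of_ne_bot (EigM_ne hzR)
  have hv1 : (LinearMap.toMatrix' T * Pz φ z) *ᵥ v = T v := by
    rw [← mulVec_mulVec, Pz_self hzR hv, hTv]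
  have h1 : (LinearMap.toMatrix' T * Pz φ z * qm φ) *ᵥ v =
      (qm φ * (LinearMap.toMatrix' T * Pz φ z)) *ᵥ v := by rw [hc]
  have h2 : T v ∈ EigM φ z' := by
    rw [← t3]
    exact Submodule.mem_map_of_mem hv
  generalize LinearMap.toMatrix' T * Pz φ z = M at hv1 h1
  rw [← mulVec_mulVec, mem_EigM.1 hv, mulVec_smul, ← mulVec_mulVec, hv1, mem_EigM.1 h2] at h1
  have h3 : T v ≠ 0 := fun h0 => hv0 (t2 v hv h0)
  have h4 : (z - z') • T v = 0 := by rw [sub_smul, h1, sub_self]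
  exact sub_eq_zero.1 ((smul_eq_zero.1 h4).resolve_right h3)

end

end Pool.Agent.H841.HC5
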