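import Mathlib
import Pool.Agent.H841.HC5.Jobs

/-!
# Products of determinants (dimension at most five)
-/

set_option linter.unusedSectionVars false

namespace Pool.Agent.H841.HC5

open Matrix Module Pool.Agent.W437.HC Pool.Agent.W437.HD Pool.Agent.TH504.CB Pool.Agent.W522.U
open Pool.Agent.Y90 hiding mulA exists_lam mulA_altQ
open Pool.Agent.W548.Odd hiding cv
open Pool.Agent.W437.HP (cK cK_mul cK_one)
open Pool.Agent.H204R3.CM (IsHodge)
open Pool.Agent.H204R3.SP (Kills bil2 IsTate)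
open Pool.Agent.Y4.P (MaxM EigM cx)
open Pool.Agent.H926.A (NQ clo_NQ PDq AltE S_QWEIL)

noncomputable section

namespace Q764

theorem count_mod (c m n : ℕ) (hn : n < c) :
    ((Finset.range (c * m)).filter (fun k => k % c = n)).card = m := by
  have hc : 0 < c := by omega
  have h1 := Nat.count_modEq_card (r := c) (c * m) hc n
  rw [Nat.count_eq_card_filter_range] at h1
  have h2 : (Finset.range (c * m)).filter (fun k => k ≡ n [MOD c]) =
      (Finset.range (c * m)).filter (fun k => k % c = n) := by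
    apply Finset.filter_congr
    intro k _
    unfold Nat.ModEq
    rw [Nat.mod_eq_of_lt hn]
  rw [h2] at h1
  rw [h1, Nat.mul_div_cancel_left m hc, Nat.mul_mod_right]
  simp

theorem toNat_mul' (c x : ℤ) (hc : 0 < c) : (c * x).toNat = c.toNat * x.toNat := by
  rcases le_total 0 x with h | h
  · exact Int.toNat_mul hc.le h
  · rw [Int.toNat_of_nonpos h, Nat.mul_zero,
      Int.toNat_of_nonpos (mul_nonpos_of_nonneg_of_nonpos hc.le h)]

theorem class_sum {M : Type} [AddCommMonoid M] {s : ℕ} (a A : Fin s → ℤ) (c : ℤ) (hc : 0 < c)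
    (haA : ∀ i, a i = c * A i) (n : ℕ) (hn : n < c.toNat) (t : Fin s → M)
    (F : Finset (Σ i, Fin (a i).toNat)) (hF : ∀ x, x ∈ F ↔ x.2.val % c.toNat = n) :
    ∑ x : {x // x ∈ F}, t x.1.1 = ∑ i, (A i).toNat • t i := by
  classical
  have hFF : F = Finset.univ.filter (fun x : (Σ i, Fin (a i).toNat) => x.2.val % c.toNat = n) := by
    ext x
    rw [hF, Finset.mem_filter]
    simp
  rw [Finset.sum_coe_sort F (fun x => t x.1), hFF, Finset.sum_filter, Fintype.sum_sigma]
  refine Finset.sum_congr rfl fun i _ => ?_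
  have h1 : (a i).toNat = c.toNat * (A i).toNat := by
    rw [haA]
    exact toNat_mul' c (A i) hc
  have h2 : ∑ k : Fin (a i).toNat, (if k.val % c.toNat = n then t i else 0) =
      ∑ k ∈ Finset.range (a i).toNat, (if k % c.toNat = n then t i else 0) :=
    Fin.sum_univ_eq_sum_range (fun k => if k % c.toNat = n then t i else 0) (a i).toNat
  refine h2.trans ?_
  rw [← Finset.sum_filter, Finset.sum_const, h1, count_mod _ _ _ hn]

theorem tot_sum {M : Type} [AddCommMonoid M] {s : ℕ} (a : Fin s → ℤ) (t : Fin s → M) :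
    ∑ x : (Σ i, Fin (a i).toNat), t x.1 = ∑ i, (a i).toNat • t i := by
  rw [Fintype.sum_sigma]
  refine Finset.sum_congr rfl fun i _ => ?_
  have h1 : ∑ y : Fin (a i).toNat, t i = (a i).toNat • t i := by
    rw [Finset.sum_const, Finset.card_univ, Fintype.card_fin]
  exact h1

theorem nf_sum {s : ℕ} (st : Fin s → Fin s) (m : Fin s → ℕ) (A : Fin s → ℤ)
    (hst : ∀ i, A (st i) = -A i) (h : NForm st m A) :
    ∑ i, (A i).toNat • m i = 4 ∨
      (∑ i, (A i).toNat • m i = 6 ∧ ∃ i₀, m i₀ = 1 ∧ A i₀ = 2 ∧ ∀ i, A i = 2 → i = i₀) := by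
  rcases h with ⟨h1, h2⟩ | ⟨i₀, h1, h2, h3, h4⟩
  · left
    rw [← h2, Finset.sum_filter]
    refine Finset.sum_congr rfl fun i _ => ?_
    have h5 := abs_le.1 (h1 i)
    by_cases h6 : A i = 1
    · rw [if_pos h6, h6]
      simp
    · rw [if_neg h6]
      have h7 : (A i).toNat = 0 := by omega
      rw [h7, zero_smul]
  · right
    have h8 : ∀ i, A i = 2 → i = i₀ := by
      intro i hi
      by_contra hne
      by_cases h9 : i = st i₀
      · rw [h9, hst, h2] at hi
        omega
      · have h10 := abs_le.1 (h3 i hne h9)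
        omega
    refine ⟨?_, i₀, h1, h2, h8⟩
    have h11 : ∀ i, (A i).toNat • m i =
        (if A i = 1 then m i else 0) + (if i = i₀ then 2 else 0) := by
      intro i
      by_cases h9 : i = i₀
      · subst h9
        rw [h2, h1]
        simp
      · rw [if_neg h9, add_zero]
        by_cases h6 : A i = 1
        · rw [if_pos h6, h6]
          simp
        · rw [if_neg h6]
          have h7 : (A i).toNat = 0 := by
            by_cases h12 : i = st i₀
            · rw [h12, hst, h2]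
              rfl
            · have h10 := abs_le.1 (h3 i h9 h12)
              omega
          rw [h7, zero_smul]
    rw [Finset.sum_congr rfl fun i _ => h11 i, Finset.sum_add_distrib, ← Finset.sum_filter, h4,
      Finset.sum_ite_eq' Finset.univ i₀ (fun _ => 2), if_pos (Finset.mem_univ _)]

theorem sig_ext {s : ℕ} {b : Fin s → ℕ} (x y : (Σ i, Fin (b i))) (h1 : x.1 = y.1)
    (h2 : x.2.val = y.2.val) : x = y := by
  obtain ⟨i, k⟩ := x
  obtain ⟨j, l⟩ := y
  change i = j at h1
  subst h1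
  have h3 : k = l := Fin.ext h2
  rw [h3]

theorem cjS_refl {B : Type} [Fintype B] [DecidableEq B] (U : Submodule ℂ (B → ℂ)) :
    cjS (RingEquiv.refl ℂ) U = U := by
  ext v
  rfl

end Q764

open Q764 Pool.Agent.H926.A.Q643 in
/-- **Products of determinants.** -/
theorem s_qd5 (he : EqvL) (hp : PrgL) (hc : S_CLS) (ho : S_ORB) (hl : S_ELEM) : S_QD5 := by
  intro G Z h h5 h10 s W hW st hst hDu hDu' a ha hdet ι _ _ f q hq ψ hψ
  classical
  let gm : ∀ x : (Σ i, Fin (a i).toNat),
      MultilinearMap ℂ (fun _ : ι x.1 => Fin G ⊕ Fin G → ℂ) ℂ := fun x =>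
    (f x.1).det.toMultilinearMap.compLinearMap (fun y => q x y)
  by_cases h0 : a = 0
  · have hemp : IsEmpty (Σ i, Fin (a i).toNat) := by
      refine ⟨fun x => ?_⟩
      have h1 := x.2.2
      have h2 : ∀ i, (a i).toNat = 0 := fun i => by rw [h0]; rfl
      have h2 := h2 x.1
      exact absurd (lt_of_lt_of_eq h1 h2) (Nat.not_lt_zero _)
    refine of_PA_univ (clo_NQ Z 6 True) gm ?_ ψ hψ
    rw [Finset.univ_eq_empty]
    exact PA_empty (clo_NQ Z 6 True) gm
  have hP : ∀ i, Prg (LZ Z) (W i) (W (st i)) := fun i =>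
    (rz_du h (hW i).2.1 (hW (st i)).2.1).1 (hDu i)
  have hP' : ∀ i j, Prg (LZ Z) (W i) (W j) → j = st i := fun i j hij =>
    hDu' i j ((rz_du h (hW i).2.1 (hW j).2.1).2 hij)
  obtain ⟨c, A, w, D, hc0, haA, hD, hw, hcl, hNF⟩ := hc G Z h h10 s W hW st hst hP hP' a ha
    (fun σ => Pool.Agent.Y4.P.tr_rel h W hW a hdet σ) h0
  have hpos : ∀ x : (Σ i, Fin (a i).toNat), 0 < a x.1 := by
    intro x
    have h1 := x.2.2
    by_contra h0
    push Not at h0
    have h2 : (a x.1).toNat = 0 := Int.toNat_eq_zero.2 h0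
    exact absurd (lt_of_lt_of_eq h1 h2) (Nat.not_lt_zero _)
  have hApos : ∀ x : (Σ i, Fin (a i).toNat), 0 < A x.1 := by
    intro x
    have h1 := hpos x
    rw [haA] at h1
    exact (mul_pos_iff_of_pos_left hc0).1 h1
  have hAst : ∀ i, A (st i) = -A i := by
    intro i
    have h1 := ha i
    rw [haA, haA i] at h1
    have h2 : c * A (st i) = c * (-A i) := by rw [h1]; ring
    exact mul_left_cancel₀ hc0.ne' h2
  have hqX : ∀ x y, ∀ X ∈ LZ Z, ∀ v, (q x y (X *ᵥ v) : Fin G ⊕ Fin G → ℂ) =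
      X *ᵥ (q x y v : Fin G ⊕ Fin G → ℂ) := by
    intro x y X hX v
    exact (rz_equiv h stab_top ((W x.1).subtype.comp (q x y))).1 (fun g u _ => hq x y g u) X hX v
      trivial
  have hWW : ∀ i j, Eqv (LZ Z) (W i) (W j) → i = j := by
    intro i j hij
    have h1 : Prg (LZ Z) (W j) (W (st i)) := hp.eqv (hW i).2.1 hij (hP i)
    have h2 := hP' _ _ h1
    rw [← hst i, h2, hst]
  -- the dimensions
  have hdim := nf_sum st (fun i => finrank ℂ (W i)) A hAst hNF
  -- the classes
  let χ : (Σ i, Fin (a i).toNat) → ℕ := fun x => x.2.val % c.toNat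
  have hclass : ∀ n, PA (NQ Z 6 True) gm (Finset.univ.filter fun x => χ x = n) := by
    intro n
    rcases (Finset.univ.filter fun x => χ x = n).eq_empty_or_nonempty with hE | ⟨x₀, hx₀⟩
    · rw [hE]
      exact PA_empty (clo_NQ Z 6 True) gm
    have hcn : 0 < c.toNat := by omega
    have hn : n < c.toNat := by
      rw [← (Finset.mem_filter.1 hx₀).2]
      exact Nat.mod_lt _ hcn
    obtain ⟨F, hFd⟩ : ∃ F, F = Finset.univ.filter fun x => χ x = n := ⟨_, rfl⟩
    have hF : ∀ x, x ∈ F ↔ x.2.val % c.toNat = n := by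
      intro x
      rw [hFd, Finset.mem_filter]
      exact ⟨fun h => h.2, fun h => ⟨Finset.mem_univ _, h⟩⟩
    rw [← hFd]
    let R : {x // x ∈ F} → {x // x ∈ F} → Prop := fun x y =>
      x.1.2.val = y.1.2.val ∧ ∃ σ : ℂ ≃+* ℂ, σ w = w ∧ Eqv (LZ Z) (cjS σ (W x.1.1)) (W y.1.1)
    have hR1 : ∀ x, R x x := fun x => ⟨rfl, RingEquiv.refl ℂ, rfl, by
      rw [cjS_refl]
      exact he.refl⟩
    have hR2 : ∀ {x y}, R x y → R y x := by
      rintro x y ⟨e1, σ, hσ, e2⟩
      refine ⟨e1.symm, σ.symm, ?_, ?_⟩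
      · rw [RingEquiv.symm_apply_eq, hσ]
      · have h1 := he.cj σ.symm e2
        rw [cjS_symm] at h1
        exact he.symm (hW _).2.1 h1
    have hR3 : ∀ {x y z}, R x y → R y z → R x z := by
      rintro x y z ⟨e1, σ, hσ, e2⟩ ⟨e3, τ, hτ, e4⟩
      refine ⟨e1.trans e3, σ.trans τ, ?_, ?_⟩
      · rw [RingEquiv.trans_apply, hσ, hτ]
      · have h1 := he.cj τ e2
        rw [cjS_trans] at h1
        exact he.trans h1 e4
    let sR : Setoid {x // x ∈ F} := ⟨R, hR1, hR2, hR3⟩
    let _ : Fintype (Quotient sR) := Fintype.ofFinite _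
    obtain ⟨bl, hbl⟩ : ∃ bl : {x // x ∈ F} → Quotient sR, bl = Quotient.mk sR := ⟨_, rfl⟩
    have hbl1 : ∀ x y, bl x = bl y → R x y := by
      intro x y hxy
      rw [hbl] at hxy
      exact Quotient.exact hxy
    have hbl2 : ∀ x y, R x y → bl x = bl y := by
      intro x y hxy
      rw [hbl]
      exact Quotient.sound hxy
    have hbl3 : ∀ z, ∃ x, bl x = z := by
      intro z
      rw [hbl]
      exact Quotient.exists_rep z
    -- the traces
    have htr : ∀ σ : ℂ ≃+* ℂ, ∑ y : {x // x ∈ F}, tr Z (cjS σ (W y.1.1)) = 0 := by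
      intro σ
      rw [class_sum a A c hc0 haA n hn (fun i => tr Z (cjS σ (W i))) F hF]
      have h1 := Pool.Agent.Y4.P.tr_pos h W hW st hst hDu a ha hdet σ
      rw [tot_sum a (fun i => tr Z (cjS σ (W i)))] at h1
      have h2 : ∀ i, (a i).toNat • tr Z (cjS σ (W i)) =
          (c.toNat : ℤ) * ((A i).toNat • tr Z (cjS σ (W i))) := by
        intro i
        rw [haA, toNat_mul' c (A i) hc0]
        simp only [nsmul_eq_mul]
        push_cast
        ring
      rw [Finset.sum_congr rfl fun i _ => h2 i, ← Finset.mul_sum] at h1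
      exact (mul_eq_zero.1 h1).resolve_left (by exact_mod_cast hcn.ne')
    have hdS := class_sum a A c hc0 haA n hn (fun i => finrank ℂ (W i)) F hF
    -- the idempotents
    have hI : ∀ x, IdJ (LZ Z) w (fun y : {y : {x // x ∈ F} // bl y = x} => W y.1.1.1) := by
      intro x
      obtain ⟨y0, rfl⟩ := hbl3 x
      refine ho G Z h h5 w D hD hw {y : {x // x ∈ F} // bl y = bl y0} (fun y => W y.1.1.1)
        (fun y => hW _) ?_ ⟨y0, rfl⟩ ?_ ?_ ?_
      · intro i j hij
        have e1 := hWW _ _ hij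
        have e2 := (hbl1 _ _ (i.2.trans j.2.symm)).1
        exact Subtype.ext (Subtype.ext (sig_ext _ _ e1 e2))
      · intro σ hσ
        obtain ⟨j, hj1, hj2⟩ := hcl σ hσ y0.1.1 (hApos _).ne'
        have haj : a j = a y0.1.1 := by rw [haA, haA y0.1.1, hj1]
        let x1 : (Σ i, Fin (a i).toNat) := ⟨j, ⟨y0.1.2.val, by rw [haj]; exact y0.1.2.2⟩⟩
        have hx1 : x1 ∈ F := (hF x1).2 ((hF y0.1).1 y0.2)
        exact ⟨⟨⟨x1, hx1⟩, hbl2 _ _ (hR2 ⟨rfl, σ, hσ, hj2⟩)⟩, hj2⟩
      · intro j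
        exact (hbl1 _ _ j.2.symm).2
      · intro hP0
        have h1 := hP' _ _ hP0
        have h2 := ha y0.1.1
        change y0.1.1 = st y0.1.1 at h1
        rw [← h1] at h2
        have h3 := hpos y0.1
        omega
    refine hl 6 G Z h w D hD hw {x // x ∈ F} (Quotient sR) bl (fun x => W x.1.1)
      (fun x => hW _) hI htr ?_ True ?_ (fun x => ι x.1.1) (fun x => f x.1.1) (fun x => q x.1)
      (fun x => hqX x.1) _ (fun v => ?_)
    · rw [hdS]
      rcases hdim with h1 | ⟨h1, -⟩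
      · rw [h1]; norm_num
      · rw [h1]
    · intro _ h6
      rw [hdS] at h6
      rcases hdim with h1 | ⟨-, i₀, h2, h3, h4⟩
      · rw [h1] at h6
        norm_num at h6
      · have hai : n < (a i₀).toNat := by
          rw [haA, h3]
          omega
        let x1 : (Σ i, Fin (a i).toNat) := ⟨i₀, ⟨n, hai⟩⟩
        have hx1 : x1 ∈ F := (hF x1).2 (Nat.mod_eq_of_lt hn)
        refine ⟨bl ⟨x1, hx1⟩, ?_⟩
        have h5 : ∀ y : {y : {x // x ∈ F} // bl y = bl ⟨x1, hx1⟩}, y = ⟨⟨x1, hx1⟩, rfl⟩ := by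
          intro y
          obtain ⟨e1, σ, hσ, e2⟩ := hbl1 _ _ y.2.symm
          obtain ⟨j, hj1, hj2⟩ := hcl σ hσ i₀ (by rw [h3]; norm_num)
          have e3 : Eqv (LZ Z) (W j) (W y.1.1.1) :=
            he.trans (he.symm ((hW _).2.1.cj gal_LZ σ) hj2) e2
          have e4 := hWW _ _ e3
          have e5 : y.1.1.1 = i₀ := h4 _ (by rw [← e4, hj1, h3])
          exact Subtype.ext (Subtype.ext (sig_ext _ _ e5 e1.symm))
        rw [Fintype.sum_eq_single ⟨⟨x1, hx1⟩, rfl⟩ (fun y hy => absurd (h5 y) hy)]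
        change Odd (finrank ℂ (W i₀))
        rw [h2]
        exact odd_one
    · rfl
  exact of_PA_univ (clo_NQ Z 6 True) gm (PA_classes (clo_NQ Z 6 True) gm χ hclass) ψ hψ

end

end Pool.Agent.H841.HC5
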