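import Pool.Agent.H841.HC5.Comb

set_option linter.unusedSectionVars false

namespace Pool.Agent.H841.HC5

namespace Rel

open Finset

/-- sign vectors with prescribed values -/
theorem sgv (M p q : ℕ) (hpq : p + q = M) (A B : Finset (Fin M)) (hAB : Disjoint A B)
    (hA : A.card ≤ p) (hB : B.card ≤ q) :
    ∃ v : Fin M → ℤ, (∀ k, v k = 1 ∨ v k = -1) ∧ (∀ k ∈ A, v k = 1) ∧ (∀ k ∈ B, v k = -1) ∧
      ∑ k, v k = p - q := by
  have h1 : A ⊆ univ \ B := by
    intro x hx
    rw [mem_sdiff]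
    exact ⟨mem_univ x, Finset.disjoint_left.1 hAB hx⟩
  have h2 : p ≤ (univ \ B).card := by
    rw [Finset.card_sdiff_of_subset (subset_univ B), card_univ, Fintype.card_fin]
    omega
  obtain ⟨T, hAT, hTB, hT⟩ := Finset.exists_subsuperset_card_eq h1 hA h2
  refine ⟨fun k => if k ∈ T then 1 else -1, ?_, ?_, ?_, ?_⟩
  · intro k
    by_cases hk : k ∈ T <;> simp [hk]
  · intro k hk
    simp [hAT hk]
  · intro k hk
    have : k ∉ T := fun h => (mem_sdiff.1 (hTB h)).2 hk
    simp [this]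
  · have e : ∀ k : Fin M, (if k ∈ T then (1 : ℤ) else -1) = 2 * (if k ∈ T then 1 else 0) - 1 := by
      intro k
      by_cases hk : k ∈ T <;> simp [hk]
    rw [Finset.sum_congr rfl fun k _ => e k, Finset.sum_sub_distrib, ← Finset.mul_sum,
      Finset.sum_ite_mem, univ_inter, Finset.sum_const, Finset.sum_const, hT, card_univ,
      Fintype.card_fin]
    simp only [nsmul_eq_mul, mul_one]
    rw [← hpq]
    push_cast
    ring

/-- one value -/
theorem v1 (M p q : ℕ) (hpq : p + q = M) (k : Fin M) (x : ℤ)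
    (hx : (x = 1 ∧ 1 ≤ p) ∨ (x = -1 ∧ 1 ≤ q)) :
    ∃ v : Fin M → ℤ, (∀ k, v k = 1 ∨ v k = -1) ∧ v k = x ∧ ∑ k, v k = p - q := by
  rcases hx with ⟨rfl, h⟩ | ⟨rfl, h⟩
  · obtain ⟨v, h1, h2, -, h4⟩ := sgv M p q hpq {k} ∅ (by simp) (by simpa using h) (by simp)
    exact ⟨v, h1, h2 k (by simp), h4⟩
  · obtain ⟨v, h1, -, h3, h4⟩ := sgv M p q hpq ∅ {k} (by simp) (by simp) (by simpa using h)
    exact ⟨v, h1, h3 k (by simp), h4⟩

/-- no value -/
theorem v0 (M p q : ℕ) (hpq : p + q = M) :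
    ∃ v : Fin M → ℤ, (∀ k, v k = 1 ∨ v k = -1) ∧ ∑ k, v k = p - q := by
  obtain ⟨v, h1, -, -, h4⟩ := sgv M p q hpq ∅ ∅ (by simp) (by simp) (by simp)
  exact ⟨v, h1, h4⟩

/-- two equal values -/
theorem v2s (M p q : ℕ) (hpq : p + q = M) (k l : Fin M) (hkl : k ≠ l) (h : 2 ≤ p ∨ 2 ≤ q) :
    ∃ v : Fin M → ℤ, (∀ k, v k = 1 ∨ v k = -1) ∧ v k = v l ∧ ∑ k, v k = p - q := by
  rcases h with h | h
  · obtain ⟨v, h1, h2, -, h4⟩ := sgv M p q hpq {k, l} ∅ (by simp)
      (by rw [card_pair hkl]; exact h) (by simp)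
    exact ⟨v, h1, by rw [h2 k (by simp), h2 l (by simp)], h4⟩
  · obtain ⟨v, h1, -, h3, h4⟩ := sgv M p q hpq ∅ {k, l} (by simp) (by simp)
      (by rw [card_pair hkl]; exact h)
    exact ⟨v, h1, by rw [h3 k (by simp), h3 l (by simp)], h4⟩

/-- two opposite values -/
theorem v2o (M p q : ℕ) (hpq : p + q = M) (k l : Fin M) (hkl : k ≠ l) (hp : 1 ≤ p) (hq : 1 ≤ q) :
    ∃ v : Fin M → ℤ, (∀ k, v k = 1 ∨ v k = -1) ∧ v k = -v l ∧ ∑ k, v k = p - q := by
  obtain ⟨v, h1, h2, h3, h4⟩ := sgv M p q hpq {k} {l} (by simpa using hkl) (by simpa using hp)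
    (by simpa using hq)
  exact ⟨v, h1, by rw [h2 k (by simp), h3 l (by simp)]; norm_num, h4⟩

variable {Γ I : Type} [Fintype I] [DecidableEq I] {st : I → I} {m : I → ℕ} {F : I → Γ → ℤ}
  {a : I → ℤ}

/-- the equivalence given by `st` -/
def stE (h : CD st m F) : I ≃ I := ⟨st, st, h.st2, h.st2⟩

/-- The sum over the positive indices. -/
theorem half (h : CD st m F) (ha : OddRel st F a) (σ : Γ) :
    ∑ i ∈ univ.filter (fun i => 0 < a i), a i * F i σ = 0 := by
  have h1 : ∑ i, (if 0 < a i then a i * F i σ else 0) = ∑ i, (if a i < 0 then a i * F i σ else 0) := by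
    rw [← Equiv.sum_comp (stE h) (fun i => if a i < 0 then a i * F i σ else 0)]
    refine Finset.sum_congr rfl fun i _ => ?_
    change _ = if a (st i) < 0 then a (st i) * F (st i) σ else 0
    rw [ha.1, h.Fst]
    by_cases h0 : 0 < a i
    · rw [if_pos h0, if_pos (by linarith)]
      ring
    · rw [if_neg h0, if_neg (by linarith)]
  have h2 : ∑ i, a i * F i σ = ∑ i, (if 0 < a i then a i * F i σ else 0) +
      ∑ i, (if a i < 0 then a i * F i σ else 0) := by
    rw [← Finset.sum_add_distrib]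
    refine Finset.sum_congr rfl fun i _ => ?_
    rcases lt_trichotomy (a i) 0 with h0 | h0 | h0
    · rw [if_neg (by linarith), if_pos h0, zero_add]
    · rw [h0]
      simp
    · rw [if_pos h0, if_neg (by linarith), add_zero]
  rw [ha.2.1 σ, ← h1] at h2
  rw [Finset.sum_filter]
  linarith

/-- The number of slots. -/
theorem five (h : CD st m F) (ha : OddRel st F a) :
    ∑ i ∈ univ.filter (fun i => 0 < a i), m i ≤ 5 := by
  have h1 : ∑ i, (if 0 < a i then m i else 0) = ∑ i, (if a i < 0 then m i else 0) := by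
    rw [← Equiv.sum_comp (stE h) (fun i => if a i < 0 then m i else 0)]
    refine Finset.sum_congr rfl fun i _ => ?_
    change _ = if a (st i) < 0 then m (st i) else 0
    rw [ha.1, h.mst]
    by_cases h0 : 0 < a i
    · rw [if_pos h0, if_pos (by linarith)]
    · rw [if_neg h0, if_neg (by linarith)]
  have hne : ∀ i, a i ≠ 0 → st i ≠ i := by
    intro i h0 h4
    have h5 := ha.1 i
    rw [h4] at h5
    apply h0
    linarith
  have h2 : ∑ i, (if 0 < a i then m i else 0) + ∑ i, (if a i < 0 then m i else 0) ≤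
      ∑ i, (if st i ≠ i then m i else 0) := by
    rw [← Finset.sum_add_distrib]
    refine Finset.sum_le_sum fun i _ => ?_
    rcases lt_trichotomy (a i) 0 with h0 | h0 | h0
    · rw [if_neg (by linarith), if_pos h0, zero_add, if_pos (hne i h0.ne)]
    · rw [h0]
      simp
    · rw [if_pos h0, if_neg (by linarith), add_zero, if_pos (hne i h0.ne')]
  have h3 := h.ten
  rw [Finset.sum_filter] at h3
  rw [Finset.sum_filter]
  omega

/-- The slots. -/
abbrev Sl (m : I → ℕ) (a : I → ℤ) : Type := Σ i : {i : I // 0 < a i}, Fin (m i)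

theorem card_Sl : Fintype.card (Sl m a) = ∑ i ∈ univ.filter (fun i => 0 < a i), m i := by
  rw [Fintype.card_sigma, Finset.sum_subtype (p := fun i => 0 < a i) _ (by simp) m]
  exact Finset.sum_congr rfl fun i _ => Fintype.card_fin _

/-- Signs with the right sums in the classes give a solution. -/
theorem sol (h : CD st m F) (ha : OddRel st F a) (σ : Γ) (e : ∀ i : I, Fin (m i) → ℤ)
    (hs : ∀ i, ∑ k, e i k = F i σ) : ∑ s : Sl m a, e s.1 s.2 * a s.1 = 0 := by
  rw [Fintype.sum_sigma]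
  have h1 : ∀ i : {i : I // 0 < a i}, ∑ k : Fin (m i), e i k * a i = a i * F i σ := by
    intro i
    rw [← Finset.sum_mul, hs, mul_comm]
  have h2 : ∑ i ∈ univ.filter (fun i => 0 < a i), a i * F i σ =
      ∑ i : {i : I // 0 < a i}, a i * F i σ := Finset.sum_subtype _ (by simp) _
  rw [Finset.sum_congr rfl fun i _ => h1 i, ← h2, half h ha σ]

/-- Default signs. -/
theorem base (h : CD st m F) (σ : Γ) : ∃ e : ∀ i : I, Fin (m i) → ℤ,
    (∀ i k, e i k = 1 ∨ e i k = -1) ∧ ∀ i, ∑ k, e i k = F i σ := by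
  have h1 : ∀ i, ∃ v : Fin (m i) → ℤ, (∀ k, v k = 1 ∨ v k = -1) ∧ ∑ k, v k = F i σ := by
    intro i
    obtain ⟨p, q, hpq, hF⟩ := h.pq i σ
    obtain ⟨v, hv, hs⟩ := v0 (m i) p q hpq
    exact ⟨v, hv, by rw [hs, hF]⟩
  choose e he hs using h1
  exact ⟨e, he, hs⟩

/-- Signs with a prescribed vector in one class. -/
theorem upd1 (h : CD st m F) (ha : OddRel st F a) (σ : Γ) (i : I) (v : Fin (m i) → ℤ)
    (hv : ∀ k, v k = 1 ∨ v k = -1) (hs : ∑ k, v k = F i σ) :
    ∃ e : ∀ i : I, Fin (m i) → ℤ, (∀ i k, e i k = 1 ∨ e i k = -1) ∧ (∀ k, e i k = v k) ∧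
      ∑ s : Sl m a, e s.1 s.2 * a s.1 = 0 := by
  obtain ⟨e, he, hes⟩ := base h σ
  refine ⟨Function.update e i v, ?_, ?_, sol h ha σ _ ?_⟩
  · intro j k
    by_cases hj : j = i
    · subst hj
      rw [Function.update_self]
      exact hv k
    · rw [Function.update_of_ne hj]
      exact he j k
  · intro k
    rw [Function.update_self]
  · intro j
    by_cases hj : j = i
    · subst hj
      rw [Function.update_self]
      exact hs
    · rw [Function.update_of_ne hj]
      exact hes j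

/-- Signs with prescribed vectors in two classes. -/
theorem upd2 (h : CD st m F) (ha : OddRel st F a) (σ : Γ) (i j : I) (hij : i ≠ j)
    (v : Fin (m i) → ℤ) (w : Fin (m j) → ℤ)
    (hv : ∀ k, v k = 1 ∨ v k = -1) (hs : ∑ k, v k = F i σ)
    (hw : ∀ k, w k = 1 ∨ w k = -1) (ht : ∑ k, w k = F j σ) :
    ∃ e : ∀ i : I, Fin (m i) → ℤ, (∀ i k, e i k = 1 ∨ e i k = -1) ∧ (∀ k, e i k = v k) ∧
      (∀ k, e j k = w k) ∧ ∑ s : Sl m a, e s.1 s.2 * a s.1 = 0 := by
  obtain ⟨e, he, hes⟩ := base h σ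
  refine ⟨Function.update (Function.update e i v) j w, ?_, ?_, ?_, sol h ha σ _ ?_⟩
  · intro l k
    by_cases hj : l = j
    · subst hj
      rw [Function.update_self]
      exact hw k
    · rw [Function.update_of_ne hj]
      by_cases hi : l = i
      · subst hi
        rw [Function.update_self]
        exact hv k
      · rw [Function.update_of_ne hi]
        exact he l k
  · intro k
    rw [Function.update_of_ne hij, Function.update_self]
  · intro k
    rw [Function.update_self]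
  · intro l
    by_cases hj : l = j
    · subst hj
      rw [Function.update_self]
      exact ht
    · rw [Function.update_of_ne hj]
      by_cases hi : l = i
      · subst hi
        rw [Function.update_self]
        exact hs
      · rw [Function.update_of_ne hi]
        exact hes l

/-- `two` in terms of `p`, `q`. -/
theorem two' (h : CD st m F) {i : I} (hi : 2 ≤ m i) : ∃ (σ : Γ) (p q : ℕ), p + q = m i ∧
    F i σ = p - q ∧ 1 ≤ p ∧ 1 ≤ q := by
  obtain ⟨σ, h1, h2⟩ := h.two i hi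
  obtain ⟨p, q, hpq, hF⟩ := h.pq i σ
  refine ⟨σ, p, q, hpq, hF, ?_, ?_⟩ <;> omega

/-- a choice of the sign of a slot -/
theorem some1 (h : CD st m F) (i : I) (σ : Γ) : ∃ v : Fin (m i) → ℤ,
    (∀ k, v k = 1 ∨ v k = -1) ∧ ∑ k, v k = F i σ := by
  obtain ⟨p, q, hpq, hF⟩ := h.pq i σ
  obtain ⟨v, hv, hs⟩ := v0 (m i) p q hpq
  exact ⟨v, hv, by rw [hs, hF]⟩

/-- The two slots in different classes, the first one of dimension at least two. -/
theorem diff2 (h : CD st m F) (ha : OddRel st F a) (i j : I) (hij : i ≠ j) (k : Fin (m i))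
    (l : Fin (m j)) (hi : 2 ≤ m i) (x : ℤ) (hx : x = 1 ∨ x = -1) :
    ∃ e : ∀ i : I, Fin (m i) → ℤ, (∀ i k, e i k = 1 ∨ e i k = -1) ∧ e i k = x * e j l ∧
      ∑ s : Sl m a, e s.1 s.2 * a s.1 = 0 := by
  obtain ⟨σ, p, q, hpq, hF, hp, hq⟩ := two' h hi
  obtain ⟨w, hw, ht⟩ := some1 h j σ
  obtain ⟨v, hv, hvk, hs⟩ := v1 (m i) p q hpq k (x * w l) (by
    rcases hx with hx | hx <;> rcases hw l with hl | hl <;> rw [hx, hl] <;> simp [hp, hq])
  obtain ⟨e, he, h1, h2, h3⟩ := upd2 h ha σ i j hij v w hv (by rw [hs, hF]) hw ht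
  exact ⟨e, he, by rw [h1, h2, hvk], h3⟩

/-- The two slots in different classes of dimension one. -/
theorem diff1 (h : CD st m F) (ha : OddRel st F a) (i j : I) (hij : i ≠ j) (hi0 : 0 < a i)
    (hj0 : 0 < a j) (k : Fin (m i)) (l : Fin (m j)) (hi : m i = 1) (hj : m j = 1) (x : ℤ)
    (hx : x = 1 ∨ x = -1) :
    ∃ e : ∀ i : I, Fin (m i) → ℤ, (∀ i k, e i k = 1 ∨ e i k = -1) ∧ e i k = x * e j l ∧
      ∑ s : Sl m a, e s.1 s.2 * a s.1 = 0 := by
  have hσ : ∃ σ, F i σ = x * F j σ := by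
    have hpm : ∀ i, m i = 1 → ∀ σ, F i σ = 1 ∨ F i σ = -1 := by
      intro i hi σ
      obtain ⟨p, q, hpq, hF⟩ := h.pq i σ
      omega
    rcases hx with hx | hx
    · have h1 : i ≠ st j := by
        intro h1
        rw [h1, ha.1] at hi0
        linarith
      have h2 : F i ≠ F (st j) := fun h2 => h1 (h.one i (st j) hi ((h.mst j).trans hj) h2)
      obtain ⟨σ, hσ⟩ := Function.ne_iff.1 h2
      refine ⟨σ, ?_⟩
      rw [h.Fst] at hσ
      rcases hpm i hi σ with h3 | h3 <;> rcases hpm j hj σ with h4 | h4 <;>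
        rw [h3, h4, hx] <;> rw [h3, h4] at hσ <;> omega
    · have h2 : F i ≠ F j := fun h2 => hij (h.one i j hi hj h2)
      obtain ⟨σ, hσ⟩ := Function.ne_iff.1 h2
      refine ⟨σ, ?_⟩
      rcases hpm i hi σ with h3 | h3 <;> rcases hpm j hj σ with h4 | h4 <;>
        rw [h3, h4, hx] <;> rw [h3, h4] at hσ <;> omega
  obtain ⟨σ, hσ⟩ := hσ
  obtain ⟨v, hv, hs⟩ := some1 h i σ
  obtain ⟨w, hw, ht⟩ := some1 h j σ
  obtain ⟨e, he, h1, h2, h3⟩ := upd2 h ha σ i j hij v w hv hs hw ht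
  refine ⟨e, he, ?_, h3⟩
  have h4 : ∀ (M : ℕ) (hM : M = 1) (v : Fin M → ℤ) (k : Fin M), ∑ k, v k = v k := by
    intro M hM v k
    subst hM
    rw [Fin.sum_univ_one]
    congr 1
    exact Subsingleton.elim _ _
  rw [h1, h2, ← h4 _ hi v k, ← h4 _ hj w l, hs, ht, hσ]

/-- The two slots in different classes. -/
theorem diff (h : CD st m F) (ha : OddRel st F a) (i j : I) (hij : i ≠ j) (hi0 : 0 < a i)
    (hj0 : 0 < a j) (k : Fin (m i)) (l : Fin (m j)) (x : ℤ) (hx : x = 1 ∨ x = -1) :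
    ∃ e : ∀ i : I, Fin (m i) → ℤ, (∀ i k, e i k = 1 ∨ e i k = -1) ∧ e i k = x * e j l ∧
      ∑ s : Sl m a, e s.1 s.2 * a s.1 = 0 := by
  by_cases hi : 2 ≤ m i
  · exact diff2 h ha i j hij k l hi x hx
  by_cases hj : 2 ≤ m j
  · obtain ⟨e, he, h1, h2⟩ := diff2 h ha j i hij.symm l k hj x hx
    refine ⟨e, he, ?_, h2⟩
    rw [h1]
    rcases hx with hx | hx <;> rw [hx] <;> ring
  · have pi := h.pos i
    have pj := h.pos j
    exact diff1 h ha i j hij hi0 hj0 k l (by omega) (by omega) x hx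

/-- Two slots in the same class, opposite signs. -/
theorem same_o (h : CD st m F) (ha : OddRel st F a) (i : I) (k l : Fin (m i)) (hkl : k ≠ l) :
    ∃ e : ∀ i : I, Fin (m i) → ℤ, (∀ i k, e i k = 1 ∨ e i k = -1) ∧ e i k = -e i l ∧
      ∑ s : Sl m a, e s.1 s.2 * a s.1 = 0 := by
  have hi : 2 ≤ m i := by
    have h1 := k.2
    have h2 := l.2
    have h3 : (k : ℕ) ≠ l := fun h => hkl (Fin.ext h)
    omega
  obtain ⟨σ, p, q, hpq, hF, hp, hq⟩ := two' h hi
  obtain ⟨v, hv, hvk, hs⟩ := v2o (m i) p q hpq k l hkl hp hq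
  obtain ⟨e, he, h1, h2⟩ := upd1 h ha σ i v hv (by rw [hs, hF])
  exact ⟨e, he, by rw [h1, h1, hvk], h2⟩

/-- Two slots in the same class, same sign. -/
theorem same_s (h : CD st m F) (ha : OddRel st F a) (i : I) (hi0 : 0 < a i) (k l : Fin (m i))
    (hkl : k ≠ l) :
    ∃ e : ∀ i : I, Fin (m i) → ℤ, (∀ i k, e i k = 1 ∨ e i k = -1) ∧ e i k = e i l ∧
      ∑ s : Sl m a, e s.1 s.2 * a s.1 = 0 := by
  have hi : 2 ≤ m i := by
    have h1 := k.2
    have h2 := l.2
    have h3 : (k : ℕ) ≠ l := fun h => hkl (Fin.ext h)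
    omega
  have hex : ∃ (σ : Γ) (p q : ℕ), p + q = m i ∧ F i σ = p - q ∧ (2 ≤ p ∨ 2 ≤ q) := by
    rcases hi.lt_or_eq with h3 | h3
    · obtain ⟨σ, p, q, hpq, hF, hp, hq⟩ := two' h hi
      exact ⟨σ, p, q, hpq, hF, by omega⟩
    · have h4 : st i ≠ i := by
        intro h4
        have h5 := ha.1 i
        rw [h4] at h5
        linarith
      obtain ⟨σ, hσ⟩ := h.zero i h3.symm h4
      obtain ⟨p, q, hpq, hF⟩ := h.pq i σ
      exact ⟨σ, p, q, hpq, hF, by omega⟩
  obtain ⟨σ, p, q, hpq, hF, hor⟩ := hex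
  obtain ⟨v, hv, hvk, hs⟩ := v2s (m i) p q hpq k l hkl hor
  obtain ⟨e, he, h1, h2⟩ := upd1 h ha σ i v hv (by rw [hs, hF])
  exact ⟨e, he, by rw [h1, h1, hvk], h2⟩

/-- The application of S_BETA. -/
theorem app (hB : S_BETA) (h : CD st m F) (ha : OddRel st F a) :
    ∃ c : ℤ, 0 < c ∧ ((Fintype.card (Sl m a) = 4 ∧ ∀ s : Sl m a, a s.1 = c) ∨
      (Fintype.card (Sl m a) = 5 ∧ ∃ s₀ : Sl m a, a s₀.1 = 2 * c ∧ ∀ s : Sl m a, s ≠ s₀ →
        a s.1 = c)) := by
  have hne : Nonempty (Sl m a) := by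
    obtain ⟨i, hi⟩ := Function.ne_iff.1 ha.2.2
    rcases lt_or_gt_of_ne hi with h0 | h0
    · have h1 : 0 < a (st i) := by
        rw [ha.1]
        simpa using h0
      exact ⟨⟨⟨st i, h1⟩, ⟨0, h.pos _⟩⟩⟩
    · exact ⟨⟨⟨i, h0⟩, ⟨0, h.pos _⟩⟩⟩
  have hΓ : Nonempty Γ := by
    by_contra hG
    rw [not_nonempty_iff] at hG
    have h1 : ∀ i, m i = 1 := by
      intro i
      by_contra h1
      have h2 := h.pos i
      exact hG.elim (h.two i (by omega)).choose
    obtain ⟨i, hi⟩ := Function.ne_iff.1 ha.2.2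
    have h2 : i = st i := h.one i (st i) (h1 _) (h1 _) (funext fun σ => hG.elim σ)
    have h3 := ha.1 i
    rw [← h2] at h3
    apply hi
    change a i = 0
    linarith
  obtain ⟨σ₀⟩ := hΓ
  refine hB (Sl m a) (fun s => a s.1) ?_ (fun s => s.1.2) ?_ hne ?_ ?_
  · rw [card_Sl]
    exact five h ha
  · obtain ⟨e, he, hs⟩ := base h σ₀
    exact ⟨fun s => e s.1 s.2, fun s => he _ _, sol h ha σ₀ e hs⟩
  · rintro ⟨⟨i, hi0⟩, k⟩ ⟨⟨j, hj0⟩, l⟩ hst
    by_cases hij : i = j
    · subst hij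
      have hkl : k ≠ l := fun h => hst (by rw [h])
      obtain ⟨e, he, h1, h2⟩ := same_s h ha i hi0 k l hkl
      exact ⟨fun s => e s.1 s.2, fun s => he _ _, h1, h2⟩
    · obtain ⟨e, he, h1, h2⟩ := diff h ha i j hij hi0 hj0 k l 1 (Or.inl rfl)
      rw [one_mul] at h1
      exact ⟨fun s => e s.1 s.2, fun s => he _ _, h1, h2⟩
  · rintro ⟨⟨i, hi0⟩, k⟩ ⟨⟨j, hj0⟩, l⟩ hst
    by_cases hij : i = j
    · subst hij
      have hkl : k ≠ l := fun h => hst (by rw [h])
      obtain ⟨e, he, h1, h2⟩ := same_o h ha i k l hkl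
      exact ⟨fun s => e s.1 s.2, fun s => he _ _, h1, h2⟩
    · obtain ⟨e, he, h1, h2⟩ := diff h ha i j hij hi0 hj0 k l (-1) (Or.inr rfl)
      rw [neg_one_mul] at h1
      exact ⟨fun s => e s.1 s.2, fun s => he _ _, h1, h2⟩

end Rel

open Pool.Agent.H841.HC5.Rel Finset in
theorem s_rel (hB : S_BETA) : S_REL := by
  intro Γ I _ _ st m F h a ha
  obtain ⟨c, hc, ⟨hcard, hs⟩ | ⟨hcard, s₀, hs₀, hs⟩⟩ := app hB h ha
  · have hpos : ∀ i, 0 < a i → a i = c := fun i hi => hs ⟨⟨i, hi⟩, ⟨0, h.pos i⟩⟩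
    have hdv : ∀ i, ∃ z : ℤ, a i = c * z := by
      intro i
      rcases lt_trichotomy (a i) 0 with h0 | h0 | h0
      · have h1 : 0 < a (st i) := by rw [ha.1]; linarith
        have h2 := hpos _ h1
        rw [ha.1] at h2
        exact ⟨-1, by linarith⟩
      · exact ⟨0, by rw [h0, mul_zero]⟩
      · exact ⟨1, by rw [hpos i h0, mul_one]⟩
    choose A hA using hdv
    have hval : ∀ i, A i = 1 ∨ A i = 0 ∨ A i = -1 := by
      intro i
      rcases lt_trichotomy (a i) 0 with h0 | h0 | h0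
      · have h1 : 0 < a (st i) := by rw [ha.1]; linarith
        have h2 := hpos _ h1
        rw [ha.1, hA i] at h2
        right; right
        have h3 : c * (A i + 1) = 0 := by linarith
        rcases mul_eq_zero.1 h3 with h4 | h4 <;> omega
      · rw [hA i] at h0
        right; left
        rcases mul_eq_zero.1 h0 with h4 | h4
        · omega
        · exact h4
      · have h2 := hpos _ h0
        rw [hA i] at h2
        left
        have h3 : c * (A i - 1) = 0 := by linarith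
        rcases mul_eq_zero.1 h3 with h4 | h4 <;> omega
    refine ⟨c, A, hc, hA, Or.inl ⟨?_, ?_⟩⟩
    · intro i
      rcases hval i with h1 | h1 | h1 <;> rw [h1] <;> simp
    · rw [← hcard, card_Sl]
      refine Finset.sum_congr ?_ fun _ _ => rfl
      ext i
      rw [mem_filter, mem_filter, hA i]
      refine and_congr_right fun _ => ?_
      rcases hval i with h1 | h1 | h1 <;> rw [h1] <;> constructor <;> intro h2 <;>
        first | omega | nlinarith
  · obtain ⟨⟨i₀, hi₀⟩, k₀⟩ := s₀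
    simp only at hs₀
    have hm0 : m i₀ = 1 := by
      by_contra hm
      have h1 := h.pos i₀
      have h2 : ∃ k : Fin (m i₀), k ≠ k₀ := by
        haveI : Nontrivial (Fin (m i₀)) := Fin.nontrivial_iff_two_le.2 (by omega)
        exact exists_ne k₀
      obtain ⟨k, hk⟩ := h2
      have h3 := hs ⟨⟨i₀, hi₀⟩, k⟩ (fun h4 => hk (by
        have h5 := (Sigma.mk.inj_iff.1 h4).2
        exact eq_of_heq h5))
      simp only at h3
      linarith
    have hpos : ∀ i, 0 < a i → i ≠ i₀ → a i = c := fun i hi hne =>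
      hs ⟨⟨i, hi⟩, ⟨0, h.pos i⟩⟩ (fun h4 => hne (by
        have h5 := (Sigma.mk.inj_iff.1 h4).1
        exact congrArg Subtype.val h5))
    have hneg : ∀ i, a i < 0 → i ≠ st i₀ → a i = -c := by
      intro i hi hne
      have h1 := hpos (st i) (by rw [ha.1]; linarith) (fun h2 => hne (by rw [← h2, h.st2]))
      rw [ha.1] at h1
      linarith
    have hst0 : a (st i₀) = -(2 * c) := by rw [ha.1, hs₀]
    have hdv : ∀ i, ∃ z : ℤ, a i = c * z := by
      intro i
      by_cases h1 : i = i₀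
      · exact ⟨2, by rw [h1, hs₀]; ring⟩
      by_cases h2 : i = st i₀
      · exact ⟨-2, by rw [h2, hst0]; ring⟩
      rcases lt_trichotomy (a i) 0 with h0 | h0 | h0
      · exact ⟨-1, by rw [hneg i h0 h2]; ring⟩
      · exact ⟨0, by rw [h0, mul_zero]⟩
      · exact ⟨1, by rw [hpos i h0 h1, mul_one]⟩
    choose A hA using hdv
    have hcan : ∀ x y : ℤ, c * x = c * y → x = y := fun x y hxy => mul_left_cancel₀ hc.ne' hxy
    have hA0 : A i₀ = 2 := hcan _ _ (by rw [← hA, hs₀]; ring)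
    have hA1 : A (st i₀) = -2 := hcan _ _ (by rw [← hA, hst0]; ring)
    have hval : ∀ i, i ≠ i₀ → i ≠ st i₀ → A i = 1 ∨ A i = 0 ∨ A i = -1 := by
      intro i h1 h2
      rcases lt_trichotomy (a i) 0 with h0 | h0 | h0
      · exact Or.inr (Or.inr (hcan _ _ (by rw [← hA, hneg i h0 h2]; ring)))
      · exact Or.inr (Or.inl (hcan _ _ (by rw [← hA, h0, mul_zero])))
      · exact Or.inl (hcan _ _ (by rw [← hA, hpos i h0 h1, mul_one]))
    refine ⟨c, A, hc, hA, Or.inr ⟨i₀, hm0, hA0, ?_, ?_⟩⟩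
    · intro i h1 h2
      rcases hval i h1 h2 with h3 | h3 | h3 <;> rw [h3] <;> simp
    · have hset : univ.filter (fun i => 0 < a i) = insert i₀ (univ.filter (fun i => A i = 1)) := by
        ext i
        rw [mem_filter, mem_insert, mem_filter]
        constructor
        · rintro ⟨-, h1⟩
          by_cases h2 : i = i₀
          · exact Or.inl h2
          · exact Or.inr ⟨mem_univ _, hcan _ _ (by rw [← hA, hpos i h1 h2, mul_one])⟩
        · rintro (h1 | ⟨-, h1⟩)
          · rw [h1]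
            exact ⟨mem_univ _, hi₀⟩
          · refine ⟨mem_univ _, ?_⟩
            rw [hA i, h1]
            linarith
      have hnot : i₀ ∉ univ.filter (fun i => A i = 1) := by
        rw [mem_filter, hA0]
        rintro ⟨-, h1⟩
        norm_num at h1
      have h5 := card_Sl (m := m) (a := a)
      rw [hcard, hset, Finset.sum_insert hnot, hm0] at h5
      omega

end Pool.Agent.H841.HC5
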