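import Pool.Agent.H841.HC5.Comb

set_option linter.unusedSectionVars false

namespace Pool.Agent.H841.HC5

namespace Rk

open Finset

variable {Γ I : Type} [Fintype I] [DecidableEq I] {st : I → I} {m : I → ℕ} {F : I → Γ → ℤ}

/-- the equivalence given by `st` -/
def stE (h : CD st m F) : I ≃ I := ⟨st, st, h.st2, h.st2⟩

/-- An odd relation which vanishes at a class `i` that is not self-dual. -/
theorem key (hR : S_REL) (h : CD st m F) (r : I → ℤ) (hr : OddRel st F r) (i : I) (hi : r i = 0)
    (hii : st i ≠ i) : ∃ (c : ℤ) (A : I → ℤ), 0 < c ∧ (∀ j, r j = c * A j) ∧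
      (∀ k, st k ≠ k → k ≠ i → k ≠ st i → A k = 1 ∨ A k = -1) ∧ m i = 1 ∧
      ∑ j ∈ univ.filter (fun j => A j = 1), m j = 4 := by
  obtain ⟨c, A, hc, hA, hN⟩ := hR Γ I st m F h r hr
  have hs : ∑ j ∈ univ.filter (fun j => A j = 1), m j = 4 := by
    rcases hN with h1 | ⟨_, _, _, _, h1⟩
    · exact h1.2
    · exact h1
  have hcan : ∀ x y : ℤ, c * x = c * y → x = y := fun x y hxy => mul_left_cancel₀ hc.ne' hxy
  have hst : ∀ j, A (st j) = -A j := by
    intro j
    apply hcan
    rw [← hA, hr.1, hA]
    ring
  have hi0 : A i = 0 := hcan _ _ (by rw [← hA, hi, mul_zero])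
  have hsi0 : A (st i) = 0 := by rw [hst, hi0, neg_zero]
  have s1 : ∑ j, (if A j = 1 then m j else 0) = 4 := by
    rw [← Finset.sum_filter]
    exact hs
  have s2 : ∑ j, (if A j = -1 then m j else 0) = 4 := by
    rw [← s1, ← Equiv.sum_comp (stE h) (fun j => if A j = -1 then m j else 0)]
    refine Finset.sum_congr rfl fun j _ => ?_
    change (if A (st j) = -1 then m (st j) else 0) = _
    rw [hst, h.mst]
    by_cases h1 : A j = 1
    · rw [if_pos h1, if_pos (by rw [h1])]
    · rw [if_neg h1, if_neg (fun h2 => h1 (neg_injective h2))]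
  have s3 : ∀ k : I, ∑ j, (if j = k then m k else 0) = m k := by
    intro k
    rw [Finset.sum_ite_eq' univ k (fun _ => m k), if_pos (mem_univ k)]
  have hpi := h.pos i
  have hfx : ∀ j, A j ≠ 0 → st j ≠ j := by
    intro j h0 h4
    have h5 := hst j
    rw [h4] at h5
    apply h0
    linarith
  have hten := h.ten
  rw [Finset.sum_filter] at hten
  have hsi : st (st i) ≠ st i := fun h4 => hii (by rw [h.st2] at h4; exact h4.symm)
  have hmi : m i = 1 := by
    have h1 : ∑ j, ((if A j = 1 then m j else 0) + (if A j = -1 then m j else 0) +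
        (if j = i then m i else 0) + (if j = st i then m (st i) else 0)) ≤
        ∑ j, (if st j ≠ j then m j else 0) := by
      refine Finset.sum_le_sum fun j _ => ?_
      by_cases h1 : j = i
      · subst h1
        rw [hi0, if_pos rfl, if_neg (Ne.symm hii), if_pos hii]
        simp
      · by_cases h2 : j = st i
        · subst h2
          rw [hsi0, if_pos rfl, if_neg h1, if_pos hsi]
          simp
        · rw [if_neg h1, if_neg h2]
          by_cases h3 : A j = 1
          · rw [if_pos (hfx j (by rw [h3]; norm_num)), h3]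
            simp
          · by_cases h4 : A j = -1
            · rw [if_pos (hfx j (by rw [h4]; norm_num)), h4]
              simp
            · rw [if_neg h3, if_neg h4]
              simp
    rw [Finset.sum_add_distrib, Finset.sum_add_distrib, Finset.sum_add_distrib, s1, s2, s3, s3,
      h.mst] at h1
    omega
  refine ⟨c, A, hc, hA, ?_, hmi, hs⟩
  intro k hk0 hk1 hk2
  by_contra hcon
  push Not at hcon
  have h1 : ∑ j, ((if A j = 1 then m j else 0) + (if A j = -1 then m j else 0) +
      (if j = i then m i else 0) + (if j = st i then m (st i) else 0) +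
      (if j = k then m k else 0)) ≤ ∑ j, (if st j ≠ j then m j else 0) := by
    refine Finset.sum_le_sum fun j _ => ?_
    by_cases h1 : j = i
    · subst h1
      rw [hi0, if_pos rfl, if_neg (Ne.symm hii), if_neg (Ne.symm hk1), if_pos hii]
      simp
    · by_cases h2 : j = st i
      · subst h2
        rw [hsi0, if_pos rfl, if_neg h1, if_neg (Ne.symm hk2), if_pos hsi]
        simp
      · rw [if_neg h1, if_neg h2]
        by_cases h5 : j = k
        · subst h5
          rw [if_neg hcon.1, if_neg hcon.2, if_pos rfl, if_pos hk0]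
          simp
        · rw [if_neg h5]
          by_cases h3 : A j = 1
          · rw [if_pos (hfx j (by rw [h3]; norm_num)), h3]
            simp
          · by_cases h4 : A j = -1
            · rw [if_pos (hfx j (by rw [h4]; norm_num)), h4]
              simp
            · rw [if_neg h3, if_neg h4]
              simp
  rw [Finset.sum_add_distrib, Finset.sum_add_distrib, Finset.sum_add_distrib,
    Finset.sum_add_distrib, s1, s2, s3, s3, s3, h.mst] at h1
  have h3 := h.pos k
  omega

end Rk

open Pool.Agent.H841.HC5.Rk Finset in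
theorem s_rk (hR : S_REL) : S_RK := by
  intro Γ I _ _ st m F h a b ha hb
  by_contra hcon
  push Not at hcon
  set W : I → I → ℤ := fun i j => b i * a j - a i * b j with hW
  have hfix : ∀ i, (a i ≠ 0 ∨ b i ≠ 0) → st i ≠ i := by
    intro i hi h1
    have h2 := ha.1 i
    have h3 := hb.1 i
    rw [h1] at h2 h3
    rcases hi with hi | hi
    · apply hi
      linarith
    · apply hi
      linarith
  have hodd : ∀ i, (a i ≠ 0 ∨ b i ≠ 0) → OddRel st F (W i) := by
    intro i hi
    refine ⟨fun j => ?_, fun σ => ?_, fun h0 => ?_⟩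
    · simp only [hW]
      rw [ha.1, hb.1]
      ring
    · have h1 := ha.2.1 σ
      have h2 := hb.2.1 σ
      have h3 : ∑ j, W i j * F j σ = b i * ∑ j, a j * F j σ - a i * ∑ j, b j * F j σ := by
        rw [Finset.mul_sum, Finset.mul_sum, ← Finset.sum_sub_distrib]
        refine Finset.sum_congr rfl fun j _ => ?_
        simp only [hW]
        ring
      rw [h3, h1, h2]
      ring
    · have h1 : ∀ j, b i * a j = a i * b j := by
        intro j
        have h2 : W i j = 0 := congrFun h0 j
        simp only [hW] at h2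
        linarith
      by_cases ha0 : a i = 0
      · have hb0 : b i ≠ 0 := hi.resolve_left (fun h => h ha0)
        apply ha.2.2
        funext j
        have h2 := h1 j
        rw [ha0, zero_mul] at h2
        exact (mul_eq_zero.1 h2).resolve_left hb0
      · by_cases hb0 : b i = 0
        · apply hb.2.2
          funext j
          have h2 := h1 j
          rw [hb0, zero_mul] at h2
          exact (mul_eq_zero.1 h2.symm).resolve_left ha0
        · obtain ⟨j, hj⟩ := hcon (b i) (a i) hb0 ha0
          exact hj (h1 j)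
  have hWii : ∀ i, W i i = 0 := by
    intro i
    simp only [hW]
    ring
  have hnz : ∀ i j, W i j ≠ 0 → (a j ≠ 0 ∨ b j ≠ 0) := by
    intro i j hij
    by_contra h1
    push Not at h1
    apply hij
    simp only [hW]
    rw [h1.1, h1.2]
    ring
  have habs : ∀ i, (a i ≠ 0 ∨ b i ≠ 0) → ∃ c : ℤ, 0 < c ∧
      ∀ k, st k ≠ k → k ≠ i → k ≠ st i → W i k = c ∨ W i k = -c := by
    intro i hi
    obtain ⟨c, A, hc, hA, hA1, -, -⟩ := key hR h (W i) (hodd i hi) i (hWii i) (hfix i hi)
    refine ⟨c, hc, fun k hk0 hk1 hk2 => ?_⟩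
    rcases hA1 k hk0 hk1 hk2 with h1 | h1
    · left
      rw [hA, h1, mul_one]
    · right
      rw [hA, h1]
      ring
  obtain ⟨i, hi⟩ := Function.ne_iff.1 ha.2.2
  have hi' : a i ≠ 0 ∨ b i ≠ 0 := Or.inl hi
  obtain ⟨c, A, hc, hA, hA1, -, hs⟩ := key hR h (W i) (hodd i hi') i (hWii i) (hfix i hi')
  have hone : ∀ j, A j = 1 → W i j = c := by
    intro j hj
    rw [hA, hj, mul_one]
  have hone' : ∀ j, A j = 1 → (a j ≠ 0 ∨ b j ≠ 0) := fun j hj =>
    hnz i j (by rw [hone j hj]; exact hc.ne')
  have hcard : (univ.filter (fun j => A j = 1)).card = 4 := by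
    rw [Finset.card_eq_sum_ones, ← hs]
    refine Finset.sum_congr rfl fun j hj => ?_
    rw [mem_filter] at hj
    obtain ⟨_, _, _, _, _, h1, _⟩ := key hR h (W j) (hodd j (hone' j hj.2)) j (hWii j)
      (hfix j (hone' j hj.2))
    exact h1.symm
  obtain ⟨j, hj, k, hk, l, hl, hjk, hjl, hkl⟩ := Finset.two_lt_card.1
    (by rw [hcard]; norm_num : 2 < (univ.filter (fun j => A j = 1)).card)
  rw [mem_filter] at hj hk hl
  have hAst : ∀ j, A (st j) = -A j := by
    intro j
    have h1 := (hodd i hi').1 j
    rw [hA, hA] at h1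
    have h2 : c * A (st j) = c * (-A j) := by linarith
    exact mul_left_cancel₀ hc.ne' h2
  have hAi : A i = 0 := by
    have h1 := hWii i
    rw [hA] at h1
    exact (mul_eq_zero.1 h1).resolve_left hc.ne'
  -- the value of the constant of another class
  have hval : ∀ x y, A x = 1 → A y = 1 → x ≠ y → W x y = c ∨ W x y = -c := by
    intro x y hx hy hxy
    obtain ⟨c', hc', h1⟩ := habs x (hone' x hx)
    have h2 : i ≠ x := by
      intro h2
      rw [← h2, hAi] at hx
      norm_num at hx
    have h3 : i ≠ st x := by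
      intro h3
      have h4 := hAst x
      rw [← h3, hAi, hx] at h4
      norm_num at h4
    have h4 : W x i = -c := by
      have h5 := hone x hx
      simp only [hW] at h5 ⊢
      linarith
    have h5 : c' = c := by
      rcases h1 i (hfix i hi') h2 h3 with h5 | h5
      · rw [h4] at h5
        linarith
      · rw [h4] at h5
        linarith
    have h6 : y ≠ st x := by
      intro h6
      have h7 := hAst x
      rw [← h6, hx, hy] at h7
      norm_num at h7
    rw [← h5]
    exact h1 y (hfix y (hone' y hy)) (Ne.symm hxy) h6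
  have p1 := hval k l hk.2 hl.2 hkl
  have p2 := hval j l hj.2 hl.2 hjl
  have p3 := hval j k hj.2 hk.2 hjk
  have q1 := hone j hj.2
  have q2 := hone k hk.2
  have q3 := hone l hl.2
  have pl : W i j * W k l - W i k * W j l + W i l * W j k = 0 := by
    simp only [hW]
    ring
  rw [q1, q2, q3] at pl
  have pl2 : c * (W k l - W j l + W j k) = 0 := by linarith
  have pl3 := (mul_eq_zero.1 pl2).resolve_left hc.ne'
  rcases p1 with p1 | p1 <;> rcases p2 with p2 | p2 <;> rcases p3 with p3 | p3 <;>
    rw [p1, p2, p3] at pl3 <;> omega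

end Pool.Agent.H841.HC5
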