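import Pool.Agent.H841.HC5.Jobs

/-!
# Totally real maximal subfields give symplectic submodules
-/

set_option autoImplicit false
set_option linter.unusedSectionVars false

namespace Pool.Agent.H841.HC5

open Matrix Module Pool.Agent.W437.HC Pool.Agent.W437.HD Pool.Agent.TH504.CB Pool.Agent.W522.U
open Pool.Agent.Y90 hiding mulA exists_lam mulA_altQ
open Pool.Agent.W548.Odd hiding cv
open Pool.Agent.W437.HP (cK cK_mul cK_one)
open Pool.Agent.H204R3.CM (IsHodge)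
open Pool.Agent.H204R3.SP (Kills bil2 IsTate)
open Pool.Agent.Y4.P (MaxM EigM cx)
open Pool.Agent.H926.A (NQ clo_NQ PDq AltE S_QWEIL)

noncomputable section

/-- **S_RL.** -/
theorem s_rl : S_RL := by
  intro a Z' h hs ha hr U' hU
  obtain ⟨φ, hφ, hall⟩ := hr
  obtain ⟨hsp, hiso, -⟩ := Pool.Agent.Y261.P.jspec a Z' h hs ha φ hφ
  obtain ⟨z, hz, T, hT1, hT2, hT3⟩ := hiso _ hU
  obtain ⟨u, hu, v, hv, huv⟩ := Pool.Agent.Y4.P.om_real h (hall z hz) (hsp z hz).1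
  have inv : ∀ X ∈ LZ Z', ∀ u ∈ U', ∀ v ∈ U',
      (om a).compl₁₂ T T (X *ᵥ u) v + (om a).compl₁₂ T T u (X *ᵥ v) = 0 := by
    intro X hX u _ v _
    change om a (T (X *ᵥ u)) (T v) + om a (T u) (T (X *ᵥ v)) = 0
    rw [hT1 _ hX, hT1 _ hX]
    exact h.om_sp hX _ _
  rw [← hT3] at hu hv
  obtain ⟨u0, hu0, rfl⟩ := hu
  obtain ⟨v0, hv0, rfl⟩ := hv
  exact ⟨⟨(om a).compl₁₂ T T, inv, ⟨u0, hu0, v0, hv0, huv⟩, fun u _ v _ => om_anti _ _⟩,
    ⟨(om a).compl₁₂ T T, ⟨u0, hu0, v0, hv0, huv⟩, inv⟩⟩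

end

end Pool.Agent.H841.HC5
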