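import Mathlib
import Pool.Agent.H841.HC5.Jobs

/-!
# Small dimensions and traces
-/

set_option autoImplicit false
set_option linter.unusedSectionVars false

namespace Pool.Agent.H841.HC5

open Matrix Module Pool.Agent.W437.HC Pool.Agent.W437.HD Pool.Agent.TH504.CB Pool.Agent.W522.U
open Pool.Agent.Y90 hiding mulA exists_lam mulA_altQ
open Pool.Agent.W548.Odd hiding cv
open Pool.Agent.W437.HP (cK cK_mul cK_one)
open Pool.Agent.H204R3.CM (IsHodge)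
open Pool.Agent.H204R3.SP (Kills bil2 IsTate)
open Pool.Agent.Y4.P (MaxM EigM cx)
open Pool.Agent.H926.A (NQ clo_NQ PDq AltE S_QWEIL)

noncomputable section

namespace H34Tri

variable {G : ℕ} {Z : Matrix (Fin G) (Fin G) ℂ}

/-- The eigenspaces of `DS Z σ` on a stable submodule. -/
theorem dec (h : PM Z) {U : Submodule ℂ (Fin G ⊕ Fin G → ℂ)} (hU : Stab (LZ Z) U)
    (σ : ℂ ≃+* ℂ) : ∃ A C : Submodule ℂ (Fin G ⊕ Fin G → ℂ), A ⊔ C = U ∧
      finrank ℂ A = pd Z (cjS σ.symm U) ∧ finrank ℂ C = qd Z (cjS σ.symm U) ∧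
      (∀ v ∈ A, DS Z σ *ᵥ v = v) ∧ ∀ v ∈ C, DS Z σ *ᵥ v = -v := by
  have hU' : Stab (LZ Z) (cjS σ.symm U) := hU.cj gal_LZ σ.symm
  obtain ⟨-, h2⟩ := split_eig h hU'
  have h4 := congrArg (cjS σ) h2
  rw [cjS_sup, cjS_symm'] at h4
  refine ⟨_, _, h4, finrank_cjS _ _, finrank_cjS _ _, fun v hv => ?_, fun v hv => ?_⟩
  · rw [cjS_inf] at hv
    have h6 := mem_cj_eig (map_one σ) hv.2
    rw [h6, one_smul]
  · rw [cjS_inf] at hv
    have h6 := mem_cj_eig (c := -1) (by rw [map_neg, map_one]) hv.2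
    rw [h6, neg_one_smul]

/-- If the trace is maximal then `DS Z σ` acts as a scalar. -/
theorem scal (h : PM Z) {U : Submodule ℂ (Fin G ⊕ Fin G → ℂ)} (hU : Stab (LZ Z) U)
    (σ : ℂ ≃+* ℂ) :
    (tr Z (cjS σ.symm U) = finrank ℂ U → ∀ v ∈ U, DS Z σ *ᵥ v = v) ∧
    (tr Z (cjS σ.symm U) = -(finrank ℂ U : ℤ) → ∀ v ∈ U, DS Z σ *ᵥ v = -v) := by
  obtain ⟨A, C, h1, h2, h3, h4, h5⟩ := dec h hU σ
  have h6 := pd_add_qd h (hU.cj gal_LZ σ.symm)
  rw [finrank_cjS] at h6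
  constructor
  · intro ht v hv
    unfold tr at ht
    have h7 : finrank ℂ C = 0 := by omega
    rw [Submodule.finrank_eq_zero.1 h7, sup_bot_eq] at h1
    rw [← h1] at hv
    exact h4 v hv
  · intro ht v hv
    unfold tr at ht
    have h7 : finrank ℂ A = 0 := by omega
    rw [Submodule.finrank_eq_zero.1 h7, bot_sup_eq] at h1
    rw [← h1] at hv
    exact h5 v hv

/-- The matrices which act on `U` and `U'` as the same scalar. -/
def SC (U U' : Submodule ℂ (Fin G ⊕ Fin G → ℂ)) :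
    Submodule ℂ (Matrix (Fin G ⊕ Fin G) (Fin G ⊕ Fin G) ℂ) where
  carrier := {X | ∃ c : ℂ, (∀ u ∈ U, X *ᵥ u = c • u) ∧ ∀ u ∈ U', X *ᵥ u = c • u}
  add_mem' := by
    rintro X Y ⟨c, h1, h2⟩ ⟨d, h3, h4⟩
    refine ⟨c + d, fun u hu => ?_, fun u hu => ?_⟩
    · rw [add_mulVec, h1 u hu, h3 u hu, add_smul]
    · rw [add_mulVec, h2 u hu, h4 u hu, add_smul]
  zero_mem' := ⟨0, fun u _ => by rw [zero_mulVec, zero_smul],
    fun u _ => by rw [zero_mulVec, zero_smul]⟩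
  smul_mem' := by
    rintro a X ⟨c, h1, h2⟩
    refine ⟨a * c, fun u hu => ?_, fun u hu => ?_⟩
    · rw [smul_mulVec, h1 u hu, mul_smul]
    · rw [smul_mulVec, h2 u hu, mul_smul]

theorem mem_SC {U U' : Submodule ℂ (Fin G ⊕ Fin G → ℂ)}
    {X : Matrix (Fin G ⊕ Fin G) (Fin G ⊕ Fin G) ℂ} : X ∈ SC U U' ↔
      ∃ c : ℂ, (∀ u ∈ U, X *ᵥ u = c • u) ∧ ∀ u ∈ U', X *ᵥ u = c • u := Iff.rfl

/-- If all `DS Z σ` act on `U` and `U'` as the same scalar then all `X ∈ LZ Z` do. -/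
theorem le_SC {U U' : Submodule ℂ (Fin G ⊕ Fin G → ℂ)} (h : ∀ σ, DS Z σ ∈ SC U U') :
    LZ Z ≤ SC U U' := by
  refine LZ_le h fun X hX Y hY => ?_
  obtain ⟨c, h1, h2⟩ := hX
  obtain ⟨d, h3, h4⟩ := hY
  refine ⟨0, fun u hu => ?_, fun u hu => ?_⟩
  · rw [sub_mulVec, ← mulVec_mulVec, ← mulVec_mulVec, h3 u hu, h1 u hu, mulVec_smul,
      mulVec_smul, h1 u hu, h3 u hu, smul_comm, sub_self, zero_smul]
  · rw [sub_mulVec, ← mulVec_mulVec, ← mulVec_mulVec, h4 u hu, h2 u hu, mulVec_smul,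
      mulVec_smul, h2 u hu, h4 u hu, smul_comm, sub_self, zero_smul]

/-- the form given by the determinant in dimension two -/
def dfm (F : (Fin G ⊕ Fin G → ℂ) →ₗ[ℂ] (Fin 2 → ℂ)) :
    (Fin G ⊕ Fin G → ℂ) →ₗ[ℂ] (Fin G ⊕ Fin G → ℂ) →ₗ[ℂ] ℂ :=
  LinearMap.mk₂ ℂ (fun u v => F u 0 * F v 1 - F u 1 * F v 0)
    (by intro u u' v; simp only [map_add, Pi.add_apply]; ring)
    (by intro c u v; simp only [map_smul, Pi.smul_apply, smul_eq_mul]; ring)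
    (by intro u v v'; simp only [map_add, Pi.add_apply]; ring)
    (by intro c u v; simp only [map_smul, Pi.smul_apply, smul_eq_mul]; ring)

theorem dfm_apply (F : (Fin G ⊕ Fin G → ℂ) →ₗ[ℂ] (Fin 2 → ℂ)) (u v : Fin G ⊕ Fin G → ℂ) :
    dfm F u v = F u 0 * F v 1 - F u 1 * F v 0 := rfl

theorem dfm_self (F : (Fin G ⊕ Fin G → ℂ) →ₗ[ℂ] (Fin 2 → ℂ)) (u : Fin G ⊕ Fin G → ℂ) :
    dfm F u u = 0 := by rw [dfm_apply]; ring

/-- The determinant form vanishes on a line. -/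
theorem dfm_line (F : (Fin G ⊕ Fin G → ℂ) →ₗ[ℂ] (Fin 2 → ℂ))
    {A : Submodule ℂ (Fin G ⊕ Fin G → ℂ)} (hA : finrank ℂ A = 1) {u v : Fin G ⊕ Fin G → ℂ}
    (hu : u ∈ A) (hv : v ∈ A) : dfm F u v = 0 := by
  obtain ⟨w, -, hw⟩ := finrank_eq_one_iff'.1 hA
  obtain ⟨c, hc⟩ := hw ⟨u, hu⟩
  obtain ⟨d, hd⟩ := hw ⟨v, hv⟩
  have h1 : u = c • (w : Fin G ⊕ Fin G → ℂ) := (congrArg Subtype.val hc).symm
  have h2 : v = d • (w : Fin G ⊕ Fin G → ℂ) := (congrArg Subtype.val hd).symm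
  rw [h1, h2, map_smul, map_smul, LinearMap.smul_apply, dfm_self, smul_zero, smul_zero]

/-- The matrices of `LZ Z` for which the form `b` is invariant on `U`. -/
def IV (Z : Matrix (Fin G) (Fin G) ℂ) (U : Submodule ℂ (Fin G ⊕ Fin G → ℂ))
    (b : (Fin G ⊕ Fin G → ℂ) →ₗ[ℂ] (Fin G ⊕ Fin G → ℂ) →ₗ[ℂ] ℂ) :
    Submodule ℂ (Matrix (Fin G ⊕ Fin G) (Fin G ⊕ Fin G) ℂ) where
  carrier := {X | X ∈ LZ Z ∧ ∀ u ∈ U, ∀ v ∈ U, b (X *ᵥ u) v + b u (X *ᵥ v) = 0}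
  add_mem' := by
    rintro X Y ⟨h1, h2⟩ ⟨h3, h4⟩
    refine ⟨Submodule.add_mem _ h1 h3, fun u hu v hv => ?_⟩
    rw [add_mulVec, add_mulVec, map_add, map_add, LinearMap.add_apply]
    linear_combination h2 u hu v hv + h4 u hu v hv
  zero_mem' := by
    refine ⟨Submodule.zero_mem _, fun u _ v _ => ?_⟩
    rw [zero_mulVec, zero_mulVec, map_zero, map_zero, LinearMap.zero_apply, add_zero]
  smul_mem' := by
    rintro a X ⟨h1, h2⟩
    refine ⟨Submodule.smul_mem _ a h1, fun u hu v hv => ?_⟩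
    rw [smul_mulVec, smul_mulVec, map_smul, map_smul, LinearMap.smul_apply, smul_eq_mul,
      smul_eq_mul]
    linear_combination a * h2 u hu v hv

theorem le_IV {U : Submodule ℂ (Fin G ⊕ Fin G → ℂ)} (hU : Stab (LZ Z) U)
    (b : (Fin G ⊕ Fin G → ℂ) →ₗ[ℂ] (Fin G ⊕ Fin G → ℂ) →ₗ[ℂ] ℂ)
    (h : ∀ σ : ℂ ≃+* ℂ, ∀ u ∈ U, ∀ v ∈ U, b (DS Z σ *ᵥ u) v + b u (DS Z σ *ᵥ v) = 0) :
    LZ Z ≤ IV Z U b := by
  refine LZ_le (fun σ => ⟨DS_mem σ, h σ⟩) fun X hX Y hY => ?_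
  obtain ⟨h1, h2⟩ := hX
  obtain ⟨h3, h4⟩ := hY
  refine ⟨LZ_br h1 h3, fun u hu v hv => ?_⟩
  have e1 := h2 _ (hU Y h3 u hu) v hv
  have e2 := h4 u hu _ (hU X h1 v hv)
  have e3 := h4 _ (hU X h1 u hu) v hv
  have e4 := h2 u hu _ (hU Y h3 v hv)
  rw [sub_mulVec, sub_mulVec, ← mulVec_mulVec, ← mulVec_mulVec, ← mulVec_mulVec,
    ← mulVec_mulVec, map_sub, map_sub, LinearMap.sub_apply]
  linear_combination e1 - e2 - e3 + e4

end H34Tri

open H34Tri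

/-- **S_TRI (small dimensions and traces).** -/
theorem triL : TriL where
  one := by
    intro G Z h U U' hU hU' h1 h1' ht
    have hsc : ∀ σ : ℂ ≃+* ℂ, DS Z σ ∈ SC U U' := by
      intro σ
      have h2 := pd_add_qd h (hU.2.1.cj gal_LZ σ.symm)
      rw [finrank_cjS, h1] at h2
      have h3 := scal h hU.2.1 σ
      have h4 := scal h hU'.2.1 σ
      rw [h1] at h3
      rw [h1', ← ht σ.symm] at h4
      have h5 : tr Z (cjS σ.symm U) = ((1 : ℕ) : ℤ) ∨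
          tr Z (cjS σ.symm U) = -((1 : ℕ) : ℤ) := by
        unfold tr
        omega
      rcases h5 with h5 | h5
      · exact ⟨1, fun u hu => by rw [h3.1 h5 u hu, one_smul],
          fun u hu => by rw [h4.1 h5 u hu, one_smul]⟩
      · exact ⟨-1, fun u hu => by rw [h3.2 h5 u hu, neg_one_smul],
          fun u hu => by rw [h4.2 h5 u hu, neg_one_smul]⟩
    have hL := le_SC hsc
    obtain ⟨f⟩ : Nonempty (U ≃ₗ[ℂ] U') := ⟨LinearEquiv.ofFinrankEq _ _ (by rw [h1, h1'])⟩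
    obtain ⟨T, hT⟩ := LinearMap.exists_extend (U'.subtype ∘ₗ (f : U →ₗ[ℂ] U'))
    have hTu : ∀ u (hu : u ∈ U), T u = (f ⟨u, hu⟩ : Fin G ⊕ Fin G → ℂ) := fun u hu =>
      congrArg (fun F : U →ₗ[ℂ] (Fin G ⊕ Fin G → ℂ) => F ⟨u, hu⟩) hT
    refine ⟨T, fun X hX u hu => ?_, fun u hu h0 => ?_, ?_⟩
    · obtain ⟨c, hc, hc'⟩ := hL hX
      rw [hc u hu, map_smul, hTu u hu, hc' _ (f ⟨u, hu⟩).2]
    · rw [hTu u hu] at h0
      have h2 : f ⟨u, hu⟩ = 0 := Subtype.ext h0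
      have h3 := f.map_eq_zero_iff.1 h2
      exact congrArg Subtype.val h3
    · apply le_antisymm
      · rintro _ ⟨u, hu, rfl⟩
        rw [hTu u hu]
        exact (f ⟨u, hu⟩).2
      · intro v hv
        refine ⟨f.symm ⟨v, hv⟩, (f.symm ⟨v, hv⟩).2, ?_⟩
        rw [hTu _ (f.symm ⟨v, hv⟩).2, Subtype.coe_eta, f.apply_symm_apply]
  two := by
    intro G Z h U hU h2
    by_contra hcon
    push Not at hcon
    have hsc : ∀ σ : ℂ ≃+* ℂ, DS Z σ ∈ SC U U := by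
      intro σ
      have h3 := scal h hU.2.1 σ
      by_cases h5 : tr Z (cjS σ.symm U) = finrank ℂ U
      · exact ⟨1, fun u hu => by rw [h3.1 h5 u hu, one_smul],
          fun u hu => by rw [h3.1 h5 u hu, one_smul]⟩
      · have h6 := hcon σ.symm h5
        exact ⟨-1, fun u hu => by rw [h3.2 h6 u hu, neg_one_smul],
          fun u hu => by rw [h3.2 h6 u hu, neg_one_smul]⟩
    have hL := le_SC hsc
    obtain ⟨u, hu, hu0⟩ := (Submodule.ne_bot_iff U).1 hU.1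
    have hst : Stab (LZ Z) (Submodule.span ℂ {u}) := by
      intro X hX v hv
      obtain ⟨a, rfl⟩ := Submodule.mem_span_singleton.1 hv
      obtain ⟨c, hc, -⟩ := hL hX
      rw [mulVec_smul, hc u hu]
      exact Submodule.smul_mem _ _ (Submodule.smul_mem _ _ (Submodule.mem_span_singleton_self u))
    rcases hU.2.2 _ ((Submodule.span_singleton_le_iff_mem u U).2 hu) hst with h1 | h1
    · exact hu0 (Submodule.span_singleton_eq_bot.1 h1)
    · have h3 := finrank_span_singleton (K := ℂ) hu0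
      rw [h1] at h3
      omega
  zero := by
    intro G Z h U hU h2 ht
    obtain ⟨f⟩ : Nonempty (U ≃ₗ[ℂ] (Fin 2 → ℂ)) :=
      ⟨LinearEquiv.ofFinrankEq _ _ (by rw [h2, finrank_fintype_fun_eq_card, Fintype.card_fin])⟩
    obtain ⟨F, hF⟩ := LinearMap.exists_extend (f : U →ₗ[ℂ] (Fin 2 → ℂ))
    have hFu : ∀ u : U, F u = f u := fun u =>
      congrArg (fun F : U →ₗ[ℂ] (Fin 2 → ℂ) => F u) hF
    have hds : ∀ σ : ℂ ≃+* ℂ, ∀ u ∈ U, ∀ v ∈ U,
        dfm F (DS Z σ *ᵥ u) v + dfm F u (DS Z σ *ᵥ v) = 0 := by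
      intro σ u hu v hv
      obtain ⟨A, C, e1, e2, e3, e4, e5⟩ := dec h hU.2.1 σ
      have e6 := pd_add_qd h (hU.2.1.cj gal_LZ σ.symm)
      rw [finrank_cjS, h2] at e6
      have e7 := ht σ.symm
      unfold tr at e7
      have hA : finrank ℂ A = 1 := by omega
      have hC : finrank ℂ C = 1 := by omega
      rw [← e1] at hu hv
      obtain ⟨a, ha, c, hc, rfl⟩ := Submodule.mem_sup.1 hu
      obtain ⟨a', ha', c', hc', rfl⟩ := Submodule.mem_sup.1 hv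
      rw [mulVec_add, mulVec_add, e4 a ha, e4 a' ha', e5 c hc, e5 c' hc']
      have g1 := dfm_line F hA ha ha'
      have g2 := dfm_line F hC hc hc'
      simp only [map_add, map_neg, LinearMap.add_apply, LinearMap.neg_apply]
      linear_combination 2 * g1 - 2 * g2
    refine ⟨dfm F, ⟨f.symm ![1, 0], (f.symm ![1, 0]).2, f.symm ![0, 1], (f.symm ![0, 1]).2, ?_⟩,
      fun X hX u hu v hv => (le_IV hU.2.1 (dfm F) hds hX).2 u hu v hv⟩
    rw [dfm_apply, hFu, hFu, f.apply_symm_apply, f.apply_symm_apply]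
    simp

end

end Pool.Agent.H841.HC5
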