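import Mathlib
import Pool.Agent.H841.HC5.Jobs

/-!
# S_W: quadratic irrationality from a character
-/

set_option autoImplicit false
set_option linter.unusedSectionVars false

namespace Pool.Agent.H841.HC5

open Matrix Module Pool.Agent.W437.HC Pool.Agent.W437.HD Pool.Agent.TH504.CB Pool.Agent.W522.U
open Pool.Agent.Y90 hiding mulA exists_lam mulA_altQ
open Pool.Agent.W548.Odd hiding cv
open Pool.Agent.W437.HP (cK cK_mul cK_one)
open Pool.Agent.H204R3.CM (IsHodge)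
open Pool.Agent.H204R3.SP (Kills bil2 IsTate)
open Pool.Agent.Y4.P (MaxM EigM cx)
open Pool.Agent.H926.A (NQ clo_NQ PDq AltE S_QWEIL)

noncomputable section

namespace WchAux

/-- power sums -/
def pw (Ω : Finset ℂ) (n : ℂ → ℤ) (k : ℕ) : ℂ := ∑ z ∈ Ω, (n z : ℂ) * z ^ k

lemma pw_eval {Ω : Finset ℂ} {n : ℂ → ℤ} (h : ∀ k, pw Ω n k = 0) (p : Polynomial ℂ) :
    ∑ z ∈ Ω, (n z : ℂ) * p.eval z = 0 := by
  have e : ∀ z, p.eval z = ∑ i ∈ Finset.range (p.natDegree + 1), p.coeff i * z ^ i := fun z =>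
    Polynomial.eval_eq_sum_range z
  simp_rw [e, Finset.mul_sum]
  rw [Finset.sum_comm]
  refine Finset.sum_eq_zero fun i _ => ?_
  have h1 := h i
  unfold pw at h1
  have h2 : ∀ z ∈ Ω, (n z : ℂ) * (p.coeff i * z ^ i) = p.coeff i * ((n z : ℂ) * z ^ i) := fun z _ => by ring
  rw [Finset.sum_congr rfl h2, ← Finset.mul_sum, h1, mul_zero]

lemma pw_ne {Ω : Finset ℂ} {n : ℂ → ℤ} (h0 : ∃ z ∈ Ω, n z ≠ 0) : ∃ k, pw Ω n k ≠ 0 := by
  by_contra hn
  push Not at hn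
  obtain ⟨z0, hz0, hn0⟩ := h0
  have h1 := pw_eval hn (∏ y ∈ Ω.erase z0, (Polynomial.X - Polynomial.C y))
  have h2 : ∀ z : ℂ, (∏ y ∈ Ω.erase z0, (Polynomial.X - Polynomial.C y)).eval z =
      ∏ y ∈ Ω.erase z0, (z - y) := by
    intro z
    rw [Polynomial.eval_prod]
    refine Finset.prod_congr rfl fun y _ => ?_
    rw [Polynomial.eval_sub, Polynomial.eval_X, Polynomial.eval_C]
  simp_rw [h2] at h1
  rw [Finset.sum_eq_single z0] at h1
  · rcases mul_eq_zero.mp h1 with h3 | h3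
    · exact hn0 (by exact_mod_cast h3)
    · obtain ⟨y, hy, hy2⟩ := Finset.prod_eq_zero_iff.mp h3
      exact (Finset.mem_erase.mp hy).1 (sub_eq_zero.mp hy2).symm
  · intro z hz hzz
    have : ∏ y ∈ Ω.erase z0, (z - y) = 0 :=
      Finset.prod_eq_zero (Finset.mem_erase.mpr ⟨hzz, hz⟩) (sub_self z)
    rw [this, mul_zero]
  · intro h
    exact absurd hz0 h

lemma pw_gal {Ω : Finset ℂ} {n : ℂ → ℤ} (σ : ℂ ≃+* ℂ) {c : ℤ} (hc : c = 1 ∨ c = -1)
    (hΩ : ∀ z ∈ Ω, σ z ∈ Ω) (hn : ∀ z ∈ Ω, n (σ z) = c * n z) (k : ℕ) :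
    σ (pw Ω n k) = c * pw Ω n k := by
  classical
  have hc2 : (c : ℂ) * c = 1 := by
    rcases hc with h | h <;> rw [h] <;> norm_num
  have himg : Ω.image σ = Ω := by
    apply Finset.eq_of_subset_of_card_le
    · intro y hy
      obtain ⟨z, hz, rfl⟩ := Finset.mem_image.mp hy
      exact hΩ z hz
    · rw [Finset.card_image_of_injective _ σ.injective]
  have h1 : pw Ω n k = ∑ z ∈ Ω, (n (σ z) : ℂ) * (σ z) ^ k := by
    unfold pw
    conv_lhs => rw [← himg]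
    rw [Finset.sum_image fun a _ b _ hab => σ.injective hab]
  have h2 : σ (pw Ω n k) = ∑ z ∈ Ω, (n z : ℂ) * (σ z) ^ k := by
    unfold pw
    rw [map_sum]
    refine Finset.sum_congr rfl fun z _ => ?_
    rw [map_mul, map_pow, map_intCast]
  rw [h2, h1, Finset.mul_sum]
  refine Finset.sum_congr rfl fun z hz => ?_
  rw [hn z hz]
  push_cast
  linear_combination (-(n z : ℂ) * (σ z) ^ k) * hc2

theorem main (hrat : ∀ z : ℂ, (∀ σ : ℂ ≃+* ℂ, σ z = z) → ∃ q : ℚ, z = q)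
    (Ω : Finset ℂ) (n : ℂ → ℤ) (χ : (ℂ ≃+* ℂ) → ℤ) (hχ : ∀ σ, χ σ = 1 ∨ χ σ = -1)
    (hΩ : ∀ (σ : ℂ ≃+* ℂ), ∀ z ∈ Ω, σ z ∈ Ω) (hn : ∀ (σ : ℂ ≃+* ℂ), ∀ z ∈ Ω, n (σ z) = χ σ * n z)
    (h0 : ∃ z ∈ Ω, n z ≠ 0) (hcc : χ starRingAut = -1) :
    ∃ (w : ℂ) (D : ℚ), 0 < D ∧ w * w = -(D : ℂ) ∧ ∀ σ : ℂ ≃+* ℂ, σ w = χ σ * w := by
  obtain ⟨k, hk⟩ := pw_ne h0
  have hg : ∀ σ : ℂ ≃+* ℂ, σ (pw Ω n k) = χ σ * pw Ω n k := fun σ =>
    pw_gal σ (hχ σ) (hΩ σ) (hn σ) k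
  set w := pw Ω n k with hw
  obtain ⟨q, hq⟩ := hrat (w * w) (fun σ => by
    rw [map_mul, hg σ]
    rcases hχ σ with h | h <;> rw [h] <;> push_cast <;> ring)
  have h1 : (starRingEnd ℂ) w = -w := by
    have := hg starRingAut
    rw [hcc] at this
    have h2 : starRingAut w = (starRingEnd ℂ) w := rfl
    rw [← h2, this]
    push_cast
    ring
  have hre : w.re = 0 := by
    have := congrArg Complex.re h1
    rw [Complex.conj_re, Complex.neg_re] at this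
    linarith
  have him : w.im ≠ 0 := by
    intro h
    apply hk
    exact Complex.ext hre h
  have hq2 : (q : ℝ) = -(w.im ^ 2) := by
    have := congrArg Complex.re hq
    rw [Complex.mul_re, hre] at this
    have h3 : ((q : ℂ)).re = (q : ℝ) := by
      have : (q : ℂ) = ((q : ℝ) : ℂ) := by push_cast; rfl
      rw [this, Complex.ofReal_re]
    rw [h3] at this
    rw [← this]
    ring
  have hq3 : q < 0 := by
    have h4 : 0 < w.im ^ 2 := by positivity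
    have h5 : (q : ℝ) < 0 := by linarith
    exact_mod_cast h5
  refine ⟨w, -q, by linarith, ?_, hg⟩
  rw [hq]
  push_cast
  ring

end WchAux

theorem s_w : S_W := by
  intro Ω n χ hχ hΩ hn h0 hcc
  exact WchAux.main (fun z hz => exists_rat hz) Ω n χ hχ hΩ hn h0 hcc

end

end Pool.Agent.H841.HC5
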