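import Mathlib
import Pool.Agent.H841.HC5.Asm
import Pool.Agent.H841.HC5.Beta
import Pool.Agent.H841.HC5.Rel
import Pool.Agent.H841.HC5.Rk
import Pool.Agent.H841.HC5.Cmb
import Pool.Agent.H841.HC5.Fix
import Pool.Agent.H841.HC5.Wch
import Pool.Agent.H841.HC5.Eqv
import Pool.Agent.H841.HC5.Prg
import Pool.Agent.H841.HC5.Tri
import Pool.Agent.H841.HC5.Ind
import Pool.Agent.H841.HC5.Q11
import Pool.Agent.H841.HC5.Q1
import Pool.Agent.H841.HC5.Fm
import Pool.Agent.H841.HC5.Ft
import Pool.Agent.H841.HC5.Orbf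
import Pool.Agent.H841.HC5.Orb
import Pool.Agent.H841.HC5.Jtr
import Pool.Agent.H841.HC5.Elem
import Pool.Agent.H841.HC5.Cls
import Pool.Agent.H841.HC5.Qd5
import Pool.Agent.H841.HC5.Or5
import Pool.Agent.H841.HC5.Det5
import Pool.Agent.H841.HC5.Rl
import Pool.Agent.H841.HC5.Ns
import Pool.Agent.H841.HC5.Goodn
import Pool.Agent.H926.A.Last

/-!
# All lemmas
-/

set_option linter.unusedSectionVars false

namespace Pool.Agent.H841.HC5

open Pool.Agent.H926.T
open Pool.Agent.H926.A

theorem lem5 : Lem5 := by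
  have hRel := s_rel s_beta
  have hComb := s_comb hRel (s_rk hRel)
  have hQW : S_QWEIL := s_qweil s_dpos s_disc
  have hEl := s_elem hQW s_jtr
  have hCls := s_cls eqvL prgL triL hComb s_w s_fm
  have hOrb := s_orb eqvL prgL (s_q1 eqvL prgL triL s_q11) s_fm s_ft (s_orbf s_fix) s_rl
  have hTh := s_th s_dual
  exact { qd := s_qd5 eqvL prgL hCls hOrb hEl
          or5 := s_or5 s_rl
          det := s_det5 eqvL prgL hEl
          ns := s_ns (s_ind eqvL) eqvL s_rl
          goodn := s_goodn
          formq := lem.formq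
          rk1 := lem.rk1
          twi := lem.twi
          ort := lem.ort
          o3 := lem.o3
          lb := lem.lb }

end Pool.Agent.H841.HC5
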