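import Mathlib
import Pool.Agent.H841.HC5.Last
import Pool.Agent.H926.A.Inc

/-!
# Powers of abelian varieties of dimension at most five
-/

set_option linter.unusedSectionVars false

namespace Pool.Agent.H841.HC5

open Module
open Pool.Agent.Y90
open Pool.Agent.H204R3.CM (IsHodge)
open Pool.Agent.H926.T
open Pool.Agent.H926.A

noncomputable section

variable {H T : Type} [AddCommGroup H] [Module ℚ H] [AddCommGroup T] [Module ℂ T] {per : H →+ T}

/-- Homomorphisms from a power to a simple variety of larger dimension are zero. -/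
theorem zero_of_small (hX : St.IsAV per) {n : ℕ} {H' T' : Type} [AddCommGroup H'] [Module ℚ H']
    [AddCommGroup T'] [Module ℂ T'] {per' : H' →+ T'} (hd : finrank ℚ H < finrank ℚ H')
    (hs : St.IsSimpleSub per' ⊤) {h : (Fin n → H) →ₗ[ℚ] H'}
    (hh : St.IsHom (powPer per n) per' h) : h = 0 := by
  have := hX.1
  obtain ⟨Ψ, hΨ⟩ := hh
  refine LinearMap.pi_ext' fun i => ?_
  have hi : St.IsHom per per' (h ∘ₗ LinearMap.single ℚ (fun _ => H) i) := by
    refine ⟨Ψ ∘ₗ LinearMap.single ℂ (fun _ => T) i, fun v => ?_⟩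
    rw [LinearMap.comp_apply, LinearMap.comp_apply, ← hΨ]
    refine congrArg Ψ ?_
    funext j
    change (Pi.single i (per v) : Fin n → T) j = per ((Pi.single i v : Fin n → H) j)
    by_cases hij : j = i
    · subst hij
      rw [Pi.single_eq_same, Pi.single_eq_same]
    · rw [Pi.single_eq_of_ne hij, Pi.single_eq_of_ne hij, map_zero]
  rcases zero_or_surj hX hi hs with h2 | h2
  · rw [h2, LinearMap.zero_comp]
  · have h3 := LinearMap.finrank_le_finrank_of_surjective (f := h ∘ₗ LinearMap.single ℚ (fun _ => H) i) h2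
    omega

/-- The ring for the powers of a variety of dimension at most five. -/
theorem wr_of_qr (hX : St.IsAV per) (h5 : finrank ℂ T ≤ 5) {n : ℕ} {κ : Type}
    {f : (Fin n → H) [⋀^κ]→ₗ[ℚ] ℚ} (hf : QR (powPer per n) 6 True κ f) :
    St.WeilRing (powPer per n) κ f := by
  induction hf with
  | unit f => exact St.WeilRing.unit f
  | divisor hκ f hf => exact St.WeilRing.divisor hκ f hf
  | @weil H' T' _ _ _ _ per' hY n hn f hf h hh =>
    have key : Odd n → St.WeilRing (powPer per _) (Fin n) (f.compLinearMap h) := fun ho => by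
      have h0 : f = 0 := hodge_odd ho hf.1
      have h1 : f.compLinearMap h = 0 := by
        rw [h0]
        rfl
      rw [h1]
      exact St.WeilRing.zero _
    obtain ⟨hf1, D, j, hD, hj, hjj, hdim, hmv, h6⟩ := hf
    interval_cases n
    · exact St.WeilRing.unit _
    · exact key (by decide)
    · obtain ⟨Ψ, hΨ⟩ := hh
      exact St.WeilRing.divisor (Nat.card_fin 2) _
        (Pool.Agent.TH504.CB.isHodge_comp h Ψ hΨ hf1)
    · exact key (by decide)
    · exact St.WeilRing.weil hY (Or.inl rfl) f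
        ⟨hdim, hf1, D, j, hD, hj, hjj, hmv, fun h => absurd h (by decide)⟩ h hh
    · exact key (by decide)
    · rcases h6 trivial rfl with h7 | h7
      · exact St.WeilRing.weil hY (Or.inr rfl) f ⟨hdim, hf1, D, j, hD, hj, hjj, hmv, fun _ => h7⟩ h hh
      · have h8 : h = 0 := zero_of_small hX (by
          have := hX.2.2.2.1
          omega) h7 hh
        have h1 : f.compLinearMap h = 0 := by
          ext v
          rw [AlternatingMap.compLinearMap_apply, h8, AlternatingMap.zero_apply]
          exact f.map_coord_zero (0 : Fin 6) rfl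
        rw [h1]
        exact St.WeilRing.zero _
  | zero κ => exact St.WeilRing.zero κ
  | add f g _ _ hf hg => exact St.WeilRing.add _ _ hf hg
  | smul a f _ hf => exact St.WeilRing.smul a _ hf
  | reindex e f _ hf => exact St.WeilRing.reindex e _ hf
  | cup f g _ _ h hh hf hg => exact St.WeilRing.cup _ _ hf hg _ hh

/-- The converse inclusion. -/
theorem qr_of_wr {κ : Type} {f : H [⋀^κ]→ₗ[ℚ] ℚ} (hf : St.WeilRing per κ f) :
    QR per 6 False κ f := by
  induction hf with
  | unit f => exact QR.unit f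
  | divisor hκ f hf => exact QR.divisor hκ f hf
  | weil hY hn f hf h hh =>
    obtain ⟨hdim, hf1, D, j, hD, hj, hjj, hmv, -⟩ := hf
    exact QR.weil hY (by omega) f ⟨hf1, D, j, hD, hj, hjj, hdim, hmv, fun h => h.elim⟩ h hh
  | zero κ => exact QR.zero κ
  | add f g _ _ hf hg => exact QR.add _ _ hf hg
  | smul a f _ hf => exact QR.smul a _ hf
  | reindex e f _ hf => exact QR.reindex e _ hf
  | cup f g _ _ h hh hf hg => exact QR.cup _ _ hf hg _ hh

theorem y4_of_wr {κ : Type} {f : H [⋀^κ]→ₗ[ℚ] ℚ} (hf : St.WeilRing per κ f) :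
    Pool.Agent.Y4.P.WeilRing per κ f := s_inc _ _ _ _ _ _ _ (qr_of_wr hf)

/-- The commutators. -/
theorem hbr_of (hX : St.IsAV per) (h7 : finrank ℂ T ≤ 7)
    (hno : ∀ (H' T' : Type) [AddCommGroup H'] [Module ℚ H'] [AddCommGroup T'] [Module ℂ T']
      (per' : H' →+ T') (q : H →ₗ[ℚ] H'), St.IsHom per per' q → Function.Surjective q →
        ¬IsMumfordType per') (x y : H →ₗ[ℚ] H) (hx : InLef per x) (hy : InLef per y) :
    InHdg per (x ∘ₗ y - y ∘ₗ x) :=
  (tstar hX).1 (fun n κ _ f hf => (r5 H T per hX h7 n).2 (Or.inr hno) κ f hf) x y hx hy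

/-- **All powers in dimension at most five.** -/
theorem main5 (hX : St.IsAV per) (h5 : finrank ℂ T ≤ 5)
    (hno : ∀ (H' T' : Type) [AddCommGroup H'] [Module ℚ H'] [AddCommGroup T'] [Module ℂ T']
      (per' : H' →+ T') (q : H →ₗ[ℚ] H'), St.IsHom per per' q → Function.Surjective q →
        ¬IsMumfordType per') (n : ℕ) {κ : Type} [Finite κ]
    (f : (Fin n → H) [⋀^κ]→ₗ[ℚ] ℚ) (hf : IsHodge (powPer per n) f) :
    St.WeilRing (powPer per n) κ f :=
  wr_of_qr hX h5 (lem5.hodge hX hX h5 (fun U _ => Or.inr ⟨LinearMap.id,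
    ⟨LinearMap.id, fun _ => rfl⟩, fun _ _ h => h⟩) (hbr_of hX (by omega) hno) n f hf)

/-- **The criterion.** -/
theorem main5_iff (hX : St.IsAV per) (h5 : finrank ℂ T ≤ 5) (n : ℕ) (hn : 2 ≤ n) :
    (∀ (κ : Type) [Finite κ] (f : (Fin n → H) [⋀^κ]→ₗ[ℚ] ℚ),
      IsHodge (powPer per n) f ↔ St.WeilRing (powPer per n) κ f) ↔
    ∀ (H' T' : Type) [AddCommGroup H'] [Module ℚ H'] [AddCommGroup T'] [Module ℂ T']
      (per' : H' →+ T') (q : H →ₗ[ℚ] H'), St.IsHom per per' q → Function.Surjective q →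
        ¬IsMumfordType per' := by
  constructor
  · intro hW
    rcases (r5 H T per hX (by omega) n).1 fun κ _ f hf => y4_of_wr ((hW κ f).1 hf) with h1 | h1
    · omega
    · exact h1
  · intro hno κ _ f
    exact ⟨fun hf => main5 hX h5 hno n f hf, fun hf => qr_isHodge (qr_of_wr hf)⟩

end

end Pool.Agent.H841.HC5
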