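import Mathlib
import Pool.Agent.H841.HC5.Main
import Pool.Agent.H926.T.Main4

/-!
# The Hodge conjecture in dimension at most five
-/

set_option linter.unusedSectionVars false

namespace Pool.Agent.H841.HC5

open Matrix Module Pool.Agent.Y90 Pool.Agent.W437.HC Pool.Agent.W437.HD
  Pool.Agent.TH504.CB
open Pool.Agent.W548.Odd hiding cv
open Pool.Agent.W437.HP (cK cK_mul cK_one)
open Pool.Agent.H204R3.CM (IsHodge)
open Pool.Agent.R915 (Sys IsFactor BQ cQ perQ AVQ)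
open Pool.Agent.H841.MS (Ivt TA IsMS0 Tn TA_of_hodge)
open Pool.Agent.N178.HW (prodAV)
open Pool.Agent.H926
open Pool.Agent.H926.T

noncomputable section

/-- The ring is contained in each system. -/
theorem sys_of_wr (𝒜 : Sys) (X : AV) (κ : Type) (f : X.H [⋀^κ]→ₗ[ℚ] ℚ)
    (hf : St.WeilRing X.per κ f) : 𝒜.A X κ f := by
  generalize hper : X.per = per at hf
  subst hper
  induction hf with
  | unit f => exact 𝒜.unit f
  | divisor hκ f hf => exact 𝒜.divisor hκ f hf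
  | weil hY hn f hf h hh =>
    exact 𝒜.pull (X := X) (Y := WtH935.mkAV hY) h hh f (𝒜.weil (X := WtH935.mkAV hY) hn f hf)
  | zero κ => exact 𝒜.zero X κ
  | add f g _ _ hf hg => exact 𝒜.add f g hf hg
  | smul a f _ hf => exact 𝒜.smul a f hf
  | reindex e f _ hf => exact 𝒜.reindex e f hf
  | cup f g _ _ h hh hf hg => exact 𝒜.cup f g hf hg h hh

/-- Period matrices all of whose powers have good Hodge rings. -/
theorem pt5 (𝒜 : Sys) {G : ℕ} {Z : Matrix (Fin G) (Fin G) ℂ} (h : PM Z)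
    (hp : ∀ (n : ℕ) (κ : Type) [Finite κ] (f : (Fin n → (Fin G ⊕ Fin G → ℚ)) [⋀^κ]→ₗ[ℚ] ℚ),
      IsHodge (powPer (perOne Z) n) f → St.WeilRing (powPer (perOne Z) n) κ f)
    (κ : Type) [Fintype κ] [DecidableEq κ] : Ivt (DZ Z) κ ≤ TA 𝒜 h κ := by
  refine TA_of_hodge 𝒜 h κ fun r hr => ?_
  let n := Fintype.card κ
  let e : κ ≃ Fin n := Fintype.equivFin κ
  have h1 := hp n κ (r.compLinearMap (WtH935.eqv G e).toLinearMap)
    (isHodge_comp _ (WtH935.tan G e) (WtH935.tan_per e Z) hr)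
  have hXn : St.IsAV (powPer (perOne Z) n) := s_pav _ _ (perOne Z) h.isAV n
  have h2 := sys_of_wr 𝒜 (WtH935.mkAV hXn) κ _ h1
  have h4 := 𝒜.pull (X := AVQ fun _ : κ => h) (Y := WtH935.mkAV hXn)
    (WtH935.eqv G e).symm.toLinearMap ⟨WtH935.tani G e, WtH935.tani_per e Z⟩ _ h2
  have h3 : (r.compLinearMap (WtH935.eqv G e).toLinearMap).compLinearMap
      (WtH935.eqv G e).symm.toLinearMap = r := by
    ext v
    rw [AlternatingMap.compLinearMap_apply, AlternatingMap.compLinearMap_apply]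
    congr 1
    funext k
    exact (WtH935.eqv G e).apply_symm_apply (v k)
  have h5 : 𝒜.A (AVQ fun _ : κ => h) κ ((r.compLinearMap (WtH935.eqv G e).toLinearMap).compLinearMap
      (WtH935.eqv G e).symm.toLinearMap) := h4
  rwa [h3] at h5

/-- Period matrices of size at most five with the commutators of the Lefschetz Lie algebra. -/
theorem ivt5 (𝒜 : Sys) {G : ℕ} {Z : Matrix (Fin G) (Fin G) ℂ} (h : PM Z) (hG : G ≤ 5)
    (hb : BrH Z) (κ : Type) [Fintype κ] [DecidableEq κ] : Ivt (DZ Z) κ ≤ TA 𝒜 h κ := by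
  refine pt5 𝒜 h (fun n κ _ f hf => ?_) κ
  refine wr_of_qr h.isAV ?_ (lem5.pow h h hG (fun _ _ E F hf _ _ _ => Or.inr ⟨E, F, hf⟩) hb n f hf)
  rw [Module.finrank_fintype_fun_eq_card, Fintype.card_fin]
  exact hG

/-- **The Hodge conjecture for the varieties whose simple factors are factors of a variety of
dimension at most five.** -/
theorem sys5 (A : AV) (h5 : finrank ℂ A.T ≤ 5) (𝒜 : Sys) :
    (∀ X : AV, (∀ Y, IsFactor Y X → IsFactor Y A) → 𝒜.AllHodge X) ↔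
      ∀ M : AV, IsFactor M A → IsMumfordType M.per → ∀ f : (prodAV M M).H [⋀^Fin 4]→ₗ[ℚ] ℚ,
        IsHodge (prodAV M M).per f → 𝒜.A (prodAV M M) (Fin 4) f := by
  constructor
  · intro hA M hM _ f hf
    refine hA (prodAV M M) (fun Y hY => ?_) (Fin 4) f hf
    have h1 : IsFactor Y M := (Pool.Agent.N178.HW.factor_prod hY).elim id id
    obtain ⟨hs, i, ⟨Φ, hΦ⟩, hi'⟩ := h1
    obtain ⟨-, j, ⟨Ψ, hΨ⟩, hj'⟩ := hM
    exact ⟨hs, j.comp i, ⟨Ψ.comp Φ, fun v => by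
      rw [LinearMap.comp_apply, hΦ, hΨ]
      rfl⟩, hj'.comp hi'⟩
  · intro hsq X hX
    have hAV : St.IsAV A.per := ⟨A.finH, A.finT, A.span, A.rank, A.pol⟩
    have h10 := A.rank
    obtain ⟨G, Z, h, e, hC⟩ := exists_ppav hAV
    obtain ⟨z1, z2⟩ := s_fz A G Z h e hC
    have hG : G ≤ 5 := by
      have h1 := e.finrank_eq
      rw [Module.finrank_fintype_fun_eq_card, Fintype.card_sum, Fintype.card_fin] at h1
      omega
    refine Pool.Agent.H841.MS.allHodge_of 𝒜 h (fun κ _ _ => ?_) X fun Y hY => (z1 Y).1 (hX Y hY)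
    have hGB := s_gbr s_facp
    by_cases hm : ∃ (a : ℕ) (Z' : Matrix (Fin a) (Fin a) ℂ)
        (E : Matrix (Fin G ⊕ Fin G) (Fin a ⊕ Fin a) ℚ)
        (F : Matrix (Fin a ⊕ Fin a) (Fin G ⊕ Fin G) ℚ), Fac Z Z' E F ∧ PM Z' ∧ MumM Z'
    · obtain ⟨a, Z₁, E₁, F₁, hf, h₁, hM⟩ := hm
      obtain ⟨b, Z₂, E₂, F₂, h₂, D, hab⟩ := exists_compl h hf
      have ha4 := hM.four
      have hs₁ := s_msi a Z₁ h₁ hM
      have hfac := z2 a Z₁ E₁ F₁ hf h₁ hs₁ (by omega)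
      obtain ⟨q, -, -, hMT⟩ := s_mq _ _ A.per G Z h e hC a Z₁ E₁ F₁ hf h₁ hM
      obtain ⟨ρ, hρ⟩ := s_ms a Z₁ h₁ hM
      refine s_kt G a b Z Z₁ Z₂ E₁ F₁ E₂ F₂ h h₁ h₂ D
        (mum_hsp h₁ hM (by omega) D h h₂) 𝒜 (fun κ _ _ => ?_)
        (fun κ _ _ => ivt5 𝒜 h₂ (by omega) (hGB b Z₂ h₂ (good_three (by omega))) κ) κ
      exact Pool.Agent.H841.MS.inv_mem_anti hρ (Pool.Agent.H841.MS.PM.sp' h₁) (Om_sq ℂ)
        (Om_transpose ℂ) (Pool.Agent.H841.MS.famTA 𝒜 h₁) (Pool.Agent.H841.MS.TA_two 𝒜 h₁)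
        (fun t ht h1 h2 => Pool.Agent.H841.MS.TA_anti 𝒜 h₁
          (Pool.Agent.H841.MS.square_of 𝒜 h₁ (hsq (AVZ h₁) hfac hMT)) t ht h1 h2) κ
    · push Not at hm
      exact ivt5 𝒜 h hG (brh_seven hGB s_t3l s_brd h (by omega) fun a Z' E F hf h' =>
        hm a Z' E F hf h') κ

end

end Pool.Agent.H841.HC5
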