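import Mathlib
import Pool.Agent.H841.HC5.Jobs2
import Pool.Agent.H841.HC5.Last

/-!
# Totally real maximal subfields: the Hodge ring is generated by divisors
-/

set_option linter.unusedSectionVars false

namespace Pool.Agent.H841.HC5

open Matrix Module Pool.Agent.W437.HC Pool.Agent.W437.HD Pool.Agent.TH504.CB Pool.Agent.W522.U
open Pool.Agent.Y90 hiding mulA exists_lam mulA_altQ
open Pool.Agent.W548.Odd hiding cv
open Pool.Agent.W437.HP (cK cK_mul cK_one)
open Pool.Agent.H204R3.CM (IsHodge)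
open Pool.Agent.H204R3.SP (Kills bil2 IsTate)
open Pool.Agent.H926.T
open Pool.Agent.H926.A

noncomputable section

variable {G : ℕ} {Z : Matrix (Fin G) (Fin G) ℂ}

/-- If all irreducible submodules are symplectic then all invariant forms come from divisors. -/
theorem real0 (L : Lem5) (h : PM Z) (hA : ∀ U, IrS (LZ Z) U → AltE (LZ Z) U)
    (hB : LB (GG (LZ Z)) (om G)) (c : Prop) : AllFq Z 0 c := by
  classical
  intro κ _ _ ψ hψ'
  have hψ : ∀ y ∈ GG (LZ Z), Kills y ψ := by
    intro y hy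
    obtain ⟨A, hA, rfl⟩ := exists_GG hy
    exact hψ' A hA
  have hno : ∀ U, IrE (GG (LZ Z)) U → ¬OrtE (GG (LZ Z)) U := by
    intro U hU hO
    obtain ⟨b, hb1, hb2, hb3⟩ := hO
    have hU' := irs_iff.1 hU
    exact not_alt_of_sym hU' (fun X hX u hu v hv => hb1 _ (mem_GG.2 hX) u hu v hv) hb2 hb3 (hA U hU')
  have hSI : ∀ {U}, W522.U.SI (RZ Z) U ↔ IrS (LZ Z) U := fun {U} => si_iff h.genI
  have hinv : ∀ (g : Gam (GG (LZ Z))) (v : κ → Fin G ⊕ Fin G → ℂ),
      ψ (fun k => RZ Z g (v k)) = ψ v := fun g v => inv_gam ψ (fun D hD _ => hψ D hD) g v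
  obtain ⟨s, W, st, hW, hWQ, hWW, hall, hst, hDu, hDu'⟩ := exists_repsQ (Q := 1) h (one_mul 1)
    (fun T _ => by rw [one_mul, mul_one]) (fun X _ => by rw [one_mul, mul_one]) (fun _ _ => rfl)
  rcases Nat.even_or_odd (Fintype.card κ) with he | ho
  · obtain ⟨m, hm⟩ := he
    have e : κ ≃ Fin m × Fin 2 := Fintype.equivOfCardEq (by
      rw [Fintype.card_prod, Fintype.card_fin, Fintype.card_fin, hm]
      ring)
    have h5 : ψ.domDomCongr e ∈ NQ Z 0 c (Fin m × Fin 2) := by
      refine L.formq (Fin G ⊕ Fin G → ℂ) (Gam (GG (LZ Z))) (RZ Z) (fun Δ hΔ => fi_top Δ hΔ) (om G)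
        om_nd (rz_om h) 1 (one_mul 1) (fun g v => rfl) (fun _ _ => rfl) ?_ ?_ ?_ (rz_proj h) s W hW
        hWQ hWW hall st hst hDu hDu' (fun κ _ => NQ Z 0 c κ) (clo_NQ Z 0 c) (pair_memq h) ?_ m _
        ?_ ?_
      · intro U hU hUQ hn
        exact rk1Q L.rk1 h hB (hSI.1 hU) (hno U (irE_iff.2 (hSI.1 hU))) hn
      · intro U hU _ hn
        exact rz_line h (hSI.1 hU) hn
      · intro U U' hU hU' hUQ _ hn _ χ hT
        exact twQ L.twi h hB (hSI.1 hU) (hSI.1 hU') (hno U (irE_iff.2 (hSI.1 hU))) hn χ hT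
      · intro a ha hdet ι _ _ f q hq' ψ hψ
        have h0 : ∀ i, a i = 0 := by
          intro i
          obtain ⟨b, b1, b2, -⟩ := hA (W i) (hSI.1 (hW i))
          have h6 := hDu' i i ((rz_du h (hSI.1 (hW i)).2.1 (hSI.1 (hW i)).2.1).2 ⟨b, b2, b1⟩)
          have h7 := ha i
          rw [← h6] at h7
          omega
        have hE : IsEmpty (Σ x : (Σ i, Fin (a i).toNat), ι x.1) := by
          refine ⟨fun x => ?_⟩
          obtain ⟨⟨i, k⟩, -⟩ := x
          rw [h0 i] at k
          exact k.elim0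
        exact (clo_NQ Z 0 c).unit _ ψ
      · intro g v
        rw [MultilinearMap.domDomCongr_apply, MultilinearMap.domDomCongr_apply]
        exact hinv g _
      · intro v
        rfl
    exact (clo_NQ Z 0 c).reindex e.symm h5 ψ fun v => by
      rw [MultilinearMap.domDomCongr_apply]
      congr 1
      funext k
      simp
  · have h0 : ψ = 0 := by
      refine MultilinearMap.ext fun v => ?_
      have h1 := hinv (gt (D := ph _ (DZ Z)) (by rw [← map_mul, DZ_sq h.det, map_one])
        (mem_GG.2 DZ_mem) (-1)) v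
      have h2 : (fun k => RZ Z (gt (D := ph _ (DZ Z)) (by rw [← map_mul, DZ_sq h.det, map_one])
        (mem_GG.2 DZ_mem) (-1)) (v k)) = fun k => (-1 : ℂ) • v k := by
        funext k
        change torE (ph _ (DZ Z)) (-1) (v k) = _
        rw [torE_apply]
        simp only [Units.val_neg, Units.val_one, inv_neg, inv_one]
        module
      rw [h2, MultilinearMap.map_smul_univ, Finset.prod_const, Finset.card_univ,
        Odd.neg_one_pow ho, neg_one_smul] at h1
      have h3 : ψ v = 0 := by linear_combination (-1 / 2 : ℂ) * h1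
      rw [h3]
      rfl
    rw [h0]
    exact Submodule.zero_mem _

theorem s_real0 : S_REAL0 := fun G _ h hs hG hr hB =>
  real0 lem5 h (fun U hU => (s_rl G _ h hs hG hr U hU).1) hB True

end

end Pool.Agent.H841.HC5
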