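import Mathlib
import Pool.Agent.H841.HC5.Main2
import Pool.Agent.H841.HC5.Real0

/-!
# The ring and the systems, with factors of real multiplication
-/

set_option linter.unusedSectionVars false

namespace Pool.Agent.H841.HC5

open Matrix Module Pool.Agent.Y90 Pool.Agent.W437.HC Pool.Agent.W437.HD
  Pool.Agent.TH504.CB
open Pool.Agent.W548.Odd hiding cv
open Pool.Agent.W437.HP (cK cK_mul cK_one)
open Pool.Agent.H204R3.CM (IsHodge)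
open Pool.Agent.R915 (Sys IsFactor BQ cQ perQ AVQ)
open Pool.Agent.H841.MS (Ivt TA IsMS0 Tn TA_of_hodge)
open Pool.Agent.N178.HW (prodAV)
open Pool.Agent.H926
open Pool.Agent.H926.T
open Pool.Agent.H926.A

noncomputable section

section ring

variable {H T : Type} [AddCommGroup H] [Module ℚ H] [AddCommGroup T] [Module ℂ T] {per : H →+ T}

/-- The divisor ring is contained in the ring. -/
theorem wr_of_qr0 {c : Prop} {κ : Type} {f : H [⋀^κ]→ₗ[ℚ] ℚ} (hf : QR per 0 c κ f) :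
    St.WeilRing per κ f := by
  induction hf with
  | unit f => exact St.WeilRing.unit f
  | divisor hκ f hf => exact St.WeilRing.divisor hκ f hf
  | @weil H' T' _ _ _ _ per' hY n hn f hf h hh =>
    obtain rfl : n = 0 := by omega
    exact St.WeilRing.unit _
  | zero κ => exact St.WeilRing.zero κ
  | add f g _ _ hf hg => exact St.WeilRing.add _ _ hf hg
  | smul a f _ hf => exact St.WeilRing.smul a _ hf
  | reindex e f _ hf => exact St.WeilRing.reindex e _ hf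
  | cup f g _ _ h hh hf hg => exact St.WeilRing.cup _ _ hf hg _ hh

/-- The ring is stable under pull-backs. -/
theorem wr_pull {H' T' : Type} [AddCommGroup H'] [Module ℚ H'] [AddCommGroup T'] [Module ℂ T']
    {per' : H' →+ T'} {κ : Type} {f : H [⋀^κ]→ₗ[ℚ] ℚ} (hf : St.WeilRing per κ f) {q : H' →ₗ[ℚ] H}
    (hq : St.IsHom per' per q) : St.WeilRing per' κ (f.compLinearMap q) := by
  obtain ⟨Θ, hΘ⟩ := hq
  induction hf with
  | unit f => exact St.WeilRing.unit _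
  | divisor hκ f hf => exact St.WeilRing.divisor hκ _ (isHodge_comp q Θ hΘ hf)
  | weil hY hn f hf h hh =>
    obtain ⟨Ψ, hΨ⟩ := hh
    exact St.WeilRing.weil hY hn f hf (h ∘ₗ q) ⟨Ψ ∘ₗ Θ, fun v => by
      rw [LinearMap.comp_apply, hΘ, hΨ]
      rfl⟩
  | zero κ => exact St.WeilRing.zero κ
  | add f g _ _ hf hg => exact St.WeilRing.add _ _ hf hg
  | smul a f _ hf => exact St.WeilRing.smul a _ hf
  | reindex e f _ hf => exact St.WeilRing.reindex e _ hf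
  | cup f g _ _ h hh hf hg =>
    exact St.WeilRing.cup _ _ hf hg _ fun v => by
      rw [AlternatingMap.compLinearMap_apply, hh]
      rfl

/-- All Hodge classes on the simple quotients of dimension six belong to the ring. -/
def SixOK (per : H →+ T) : Prop :=
  ∀ (H' T' : Type) [AddCommGroup H'] [Module ℚ H'] [AddCommGroup T'] [Module ℂ T']
    (per' : H' →+ T') (_hY : St.IsAV per') (_hsi : St.IsSimpleSub per' ⊤) (_hd : finrank ℚ H' = 12)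
    (q : H →ₗ[ℚ] H') (_hq : St.IsHom per per' q) (_hqs : Function.Surjective q)
    (f : H' [⋀^Fin 6]→ₗ[ℚ] ℚ) (_hf : IsHodge per' f), St.WeilRing per' (Fin 6) f

/-- The rings. -/
theorem wr_conv (hX : St.IsAV per) (hS : SixOK per) {κ : Type} {f : H [⋀^κ]→ₗ[ℚ] ℚ}
    (hf : QR per 6 True κ f) : St.WeilRing per κ f := by
  induction hf with
  | unit f => exact St.WeilRing.unit f
  | divisor hκ f hf => exact St.WeilRing.divisor hκ f hf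
  | @weil H' T' _ _ _ _ per' hY m hn f hf q hh =>
    have key : Odd m → St.WeilRing per (Fin m) (f.compLinearMap q) := fun ho => by
      have h0 : f = 0 := hodge_odd ho hf.1
      have h1 : f.compLinearMap q = 0 := by
        rw [h0]
        rfl
      rw [h1]
      exact St.WeilRing.zero _
    obtain ⟨hf1, D, j, hD, hj, hjj, hdim, hmv, h6⟩ := hf
    interval_cases m
    · exact St.WeilRing.unit _
    · exact key (by decide)
    · obtain ⟨Ψ, hΨ⟩ := hh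
      exact St.WeilRing.divisor (Nat.card_fin 2) _
        (Pool.Agent.TH504.CB.isHodge_comp q Ψ hΨ hf1)
    · exact key (by decide)
    · exact St.WeilRing.weil hY (Or.inl rfl) f
        ⟨hdim, hf1, D, j, hD, hj, hjj, hmv, fun h => absurd h (by decide)⟩ q hh
    · exact key (by decide)
    · rcases h6 trivial rfl with h7 | h7
      · exact St.WeilRing.weil hY (Or.inr rfl) f ⟨hdim, hf1, D, j, hD, hj, hjj, hmv, fun _ => h7⟩ q hh
      · rcases zero_or_surj hX hh h7 with h8 | h8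
        · have h1 : f.compLinearMap q = 0 := by
            ext v
            rw [AlternatingMap.compLinearMap_apply, h8, AlternatingMap.zero_apply]
            exact f.map_coord_zero (0 : Fin 6) rfl
          rw [h1]
          exact St.WeilRing.zero _
        · exact wr_pull (hS H' T' per' hY h7 hdim q hh h8 f hf1) hh
  | zero κ => exact St.WeilRing.zero κ
  | add f g _ _ hf hg => exact St.WeilRing.add _ _ hf hg
  | smul a f _ hf => exact St.WeilRing.smul a _ hf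
  | reindex e f _ hf => exact St.WeilRing.reindex e _ hf
  | cup f g _ _ h hh hf hg => exact St.WeilRing.cup _ _ hf hg _ hh

/-- Powers. -/
theorem SixOK.pow (hX : St.IsAV per) (hS : SixOK per) (n : ℕ) : SixOK (powPer per n) := by
  intro H' T' _ _ _ _ per' hY hsi hd q hh hqs f hf
  have hq : ∃ i, q ∘ₗ LinearMap.single ℚ (fun _ => H) i ≠ 0 := by
    by_contra hq
    push Not at hq
    have h8 : q = 0 := LinearMap.pi_ext' fun i => by rw [hq i, LinearMap.zero_comp]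
    apply hsi.2.1
    rw [Submodule.eq_bot_iff]
    intro x _
    obtain ⟨y, rfl⟩ := hqs x
    rw [h8]
    rfl
  obtain ⟨i, hi⟩ := hq
  have hiH : St.IsHom per per' (q ∘ₗ LinearMap.single ℚ (fun _ => H) i) := by
    obtain ⟨Ψ, hΨ⟩ := hh
    refine ⟨Ψ ∘ₗ LinearMap.single ℂ (fun _ => T) i, fun v => ?_⟩
    rw [LinearMap.comp_apply, LinearMap.comp_apply, ← hΨ]
    refine congrArg Ψ ?_
    funext j
    change (Pi.single i (per v) : Fin n → T) j = per ((Pi.single i v : Fin n → H) j)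
    by_cases hij : j = i
    · subst hij
      rw [Pi.single_eq_same, Pi.single_eq_same]
    · rw [Pi.single_eq_of_ne hij, Pi.single_eq_of_ne hij, map_zero]
  exact hS H' T' per' hY hsi hd _ hiH ((zero_or_surj hX hiH hsi).resolve_left hi) f hf

/-- The case of the commutators. -/
theorem sixOK_of (hsix : S_SIXM) {G : ℕ} {Z : Matrix (Fin G) (Fin G) ℂ} (h : PM Z) (hb : BrH Z)
    (h5 : F5 Z) : SixOK (perOne Z) :=
  fun H' T' _ _ _ _ per' hY hsi hd q hq hqs f hf =>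
    wr_of_qr0 (hsix G Z h hb h5 H' T' per' hY hsi hd q hq hqs (Fin 6) f hf)

/-- The case of a small decomposition. -/
theorem sixOK_dec {G a b : ℕ} {Z : Matrix (Fin G) (Fin G) ℂ} {Z₁ : Matrix (Fin a) (Fin a) ℂ}
    {Z₂ : Matrix (Fin b) (Fin b) ℂ} {E₁ : Matrix (Fin G ⊕ Fin G) (Fin a ⊕ Fin a) ℚ}
    {F₁ : Matrix (Fin a ⊕ Fin a) (Fin G ⊕ Fin G) ℚ}
    {E₂ : Matrix (Fin G ⊕ Fin G) (Fin b ⊕ Fin b) ℚ}
    {F₂ : Matrix (Fin b ⊕ Fin b) (Fin G ⊕ Fin G) ℚ} (h : PM Z) (h₁ : PM Z₁) (h₂ : PM Z₂)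
    (D : Dec Z Z₁ Z₂ E₁ F₁ E₂ F₂) (ha : a < 6) (hb : b < 6) : SixOK (perOne Z) := by
  intro H' T' _ _ _ _ per' hY hsi hd q hq hqs f hf
  exfalso
  have key : ∀ {c : ℕ} {Z' : Matrix (Fin c) (Fin c) ℂ} (h' : PM Z')
      {E : Matrix (Fin G ⊕ Fin G) (Fin c ⊕ Fin c) ℚ} {F : Matrix (Fin c ⊕ Fin c) (Fin G ⊕ Fin G) ℚ},
      Fac Z Z' E F → c < 6 → q ∘ₗ Matrix.mulVecLin E = 0 := by
    intro c Z' h' E F hf' hc
    obtain ⟨Θ, hΘ⟩ := h'.cht.hom h.cht (R := E) hf'.de.symm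
    obtain ⟨Ψ, hΨ⟩ := hq
    have h2 : St.IsHom (perOne Z') per' (q ∘ₗ Matrix.mulVecLin E) :=
      ⟨Ψ ∘ₗ Θ, fun v => by
        rw [LinearMap.comp_apply, LinearMap.comp_apply, hΘ, hΨ]
        rfl⟩
    rcases zero_or_surj h'.isAV h2 hsi with h3 | h3
    · exact h3
    · have h4 := LinearMap.finrank_le_finrank_of_surjective (f := q ∘ₗ Matrix.mulVecLin E) h3
      rw [Module.finrank_fintype_fun_eq_card, Fintype.card_sum, Fintype.card_fin] at h4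
      omega
  have e1 := key h₁ D.f₁ ha
  have e2 := key h₂ D.f₂ hb
  have h8 : q = 0 := by
    refine LinearMap.ext fun v => ?_
    have h3 : v = E₁ *ᵥ (F₁ *ᵥ v) + E₂ *ᵥ (F₂ *ᵥ v) := by
      rw [mulVec_mulVec, mulVec_mulVec, ← add_mulVec, D.sum, one_mulVec]
    have h4 : q (E₁ *ᵥ (F₁ *ᵥ v)) = 0 := LinearMap.congr_fun e1 (F₁ *ᵥ v)
    have h5 : q (E₂ *ᵥ (F₂ *ᵥ v)) = 0 := LinearMap.congr_fun e2 (F₂ *ᵥ v)
    rw [h3, map_add, h4, h5, add_zero, LinearMap.zero_apply]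
  apply hsi.2.1
  rw [Submodule.eq_bot_iff]
  intro x _
  obtain ⟨y, rfl⟩ := hqs x
  rw [h8]
  rfl

/-- **Powers of period matrices.** -/
theorem pow_wr (hsix : S_SIXM) {G : ℕ} {Z : Matrix (Fin G) (Fin G) ℂ} (h : PM Z) {G₀ : ℕ}
    {Z₀ : Matrix (Fin G₀) (Fin G₀) ℂ} (h₀ : PM Z₀) (hG : G₀ ≤ 5) (hF : FN Z Z₀) (hb : BrH Z) (n : ℕ)
    {κ : Type} [Finite κ] (f : (Fin n → (Fin G ⊕ Fin G → ℚ)) [⋀^κ]→ₗ[ℚ] ℚ)
    (hf : IsHodge (powPer (perOne Z) n) f) : St.WeilRing (powPer (perOne Z) n) κ f :=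
  wr_conv (s_pav _ _ (perOne Z) h.isAV n)
    ((sixOK_of hsix h hb (lem5.ns G G₀ Z Z₀ h h₀ hG hF).1).pow h.isAV n)
    (lem5.pow h h₀ hG hF hb n f hf)

/-- **Hodge classes on powers, in any dimension.** -/
theorem mainG (hsix : S_SIXM) {H₀ T₀ : Type} [AddCommGroup H₀] [Module ℚ H₀] [AddCommGroup T₀]
    [Module ℂ T₀] {per₀ : H₀ →+ T₀} (hX : St.IsAV per) (hX₀ : St.IsAV per₀)
    (h5 : finrank ℂ T₀ ≤ 5)
    (hs : ∀ U : Submodule ℚ H, St.IsSimpleSub per U → IsRealSub per U ∨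
      ∃ r : H →ₗ[ℚ] H₀, St.IsHom per per₀ r ∧ ∀ u ∈ U, r u = 0 → u = 0)
    (hbr : ∀ x y : H →ₗ[ℚ] H, InLef per x → InLef per y → InHdg per (x ∘ₗ y - y ∘ₗ x)) (n : ℕ)
    {κ : Type} [Finite κ] (f : (Fin n → H) [⋀^κ]→ₗ[ℚ] ℚ) (hf : IsHodge (powPer per n) f) :
    St.WeilRing (powPer per n) κ f := by
  obtain ⟨G, Z, h, A, hC⟩ := exists_ppav hX
  obtain ⟨G₀, Z₀, h₀, A₀, hC₀⟩ := exists_ppav hX₀
  have hG₀ : G₀ ≤ 5 := by
    have h1 := A₀.finrank_eq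
    rw [Module.finrank_fintype_fun_eq_card, Fintype.card_sum, Fintype.card_fin] at h1
    have h3 := hX₀.2.2.2.1
    omega
  have hF := lem5.goodn H T per H₀ T₀ per₀ G Z h A hC G₀ Z₀ h₀ A₀ hC₀ hs
  obtain ⟨⟨Ψ₁, e₁⟩, ⟨Ψ₂, e₂⟩⟩ := iso_maps h A hC
  let Φ₁ : (Fin n → (Fin G ⊕ Fin G → ℚ)) →ₗ[ℚ] (Fin n → H) :=
    LinearMap.pi fun i => A.symm.toLinearMap ∘ₗ LinearMap.proj i
  let Φ₂ : (Fin n → H) →ₗ[ℚ] (Fin n → (Fin G ⊕ Fin G → ℚ)) :=
    LinearMap.pi fun i => A.toLinearMap ∘ₗ LinearMap.proj i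
  let Θ₁ : (Fin n → (Fin G → ℂ)) →ₗ[ℂ] (Fin n → T) :=
    LinearMap.pi fun i => Ψ₁ ∘ₗ LinearMap.proj i
  let Θ₂ : (Fin n → T) →ₗ[ℂ] (Fin n → (Fin G → ℂ)) :=
    LinearMap.pi fun i => Ψ₂ ∘ₗ LinearMap.proj i
  have g₁ : ∀ w, Θ₁ (powPer (perOne Z) n w) = powPer per n (Φ₁ w) := fun w => by
    funext i
    exact e₁ (w i)
  have g₂ : ∀ w, Θ₂ (powPer per n w) = powPer (perOne Z) n (Φ₂ w) := fun w => by
    funext i
    exact e₂ (w i)
  have h5' : IsHodge (powPer (perOne Z) n) (f.compLinearMap Φ₁) :=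
    Pool.Agent.TH504.CB.isHodge_comp Φ₁ Θ₁ g₁ hf
  have h7 := wr_pull (per' := powPer per n)
    (pow_wr hsix h h₀ hG₀ hF (brh_of h A hC hbr) n _ h5') (q := Φ₂) ⟨Θ₂, g₂⟩
  have h8 : (f.compLinearMap Φ₁).compLinearMap Φ₂ = f := by
    ext v
    rw [AlternatingMap.compLinearMap_apply, AlternatingMap.compLinearMap_apply]
    congr 1
    funext k i
    exact A.symm_apply_apply (v k i)
  rw [h8] at h7
  exact h7

end ring

section sys

theorem fac_trans {G b c : ℕ} {Z : Matrix (Fin G) (Fin G) ℂ} {Z₂ : Matrix (Fin b) (Fin b) ℂ}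
    {Z' : Matrix (Fin c) (Fin c) ℂ} {E₂ : Matrix (Fin G ⊕ Fin G) (Fin b ⊕ Fin b) ℚ}
    {F₂ : Matrix (Fin b ⊕ Fin b) (Fin G ⊕ Fin G) ℚ} {E : Matrix (Fin b ⊕ Fin b) (Fin c ⊕ Fin c) ℚ}
    {F : Matrix (Fin c ⊕ Fin c) (Fin b ⊕ Fin b) ℚ} (h₂ : Fac Z Z₂ E₂ F₂) (h : Fac Z₂ Z' E F) :
    Fac Z Z' (E₂ * E) (F * F₂) := by
  refine ⟨?_, ?_, ?_⟩
  · rw [Matrix.mul_assoc, ← Matrix.mul_assoc F₂, h₂.fe, Matrix.one_mul, h.fe]
  · rw [cK_mul, ← Matrix.mul_assoc, h₂.de, Matrix.mul_assoc, h.de, Matrix.mul_assoc]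
  · rw [cK_mul, Matrix.mul_assoc, h₂.fd, ← Matrix.mul_assoc, h.fd, Matrix.mul_assoc]

/-- The endomorphism algebra of the simple abelian variety `Y` has a maximal commutative subfield which
is totally real. -/
def HasRealMaxField (Y : AV) : Prop :=
  ∃ a : Y.H →ₗ[ℚ] Y.H, IsHom Y Y a ∧
    (∀ b : Y.H →ₗ[ℚ] Y.H, IsHom Y Y b → b ∘ₗ a = a ∘ₗ b →
      b ∈ Algebra.adjoin ℚ ({a} : Set (Module.End ℚ Y.H))) ∧
    ∀ z ∈ (minpoly ℚ a).aroots ℂ, z.im = 0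

theorem rm_of_real {a : ℕ} {Z' : Matrix (Fin a) (Fin a) ℂ} (h' : PM Z')
    (hr : HasRealMaxField (AVZ h')) : RM Z' := by
  obtain ⟨b, hb, hmax, hre⟩ := hr
  let e : Module.End ℚ (Fin a ⊕ Fin a → ℚ) ≃ₐ[ℚ] Matrix (Fin a ⊕ Fin a) (Fin a ⊕ Fin a) ℚ :=
    LinearMap.toMatrixAlgEquiv'
  have hC : Cht ((perOne Z').comp
      (LinearEquiv.refl ℚ (Fin a ⊕ Fin a → ℚ)).symm.toLinearMap.toAddMonoidHom) (JR Z') := h'.cht
  have key : ∀ c : Module.End ℚ (Fin a ⊕ Fin a → ℚ), IsHom (AVZ h') (AVZ h') c ↔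
      qm (e c) * DZ Z' = DZ Z' * qm (e c) := fun c => Pool.Agent.H926.T.TraL.hom_iff hC c
  refine ⟨e b, ⟨(key b).1 hb, fun ψ hψ hc => ?_⟩, ?_⟩
  · have h1 := hmax (e.symm ψ) ((key _).2 (by rwa [e.apply_symm_apply])) (by
      apply e.injective
      change e (e.symm ψ * b) = e (b * e.symm ψ)
      rw [map_mul, map_mul, e.apply_symm_apply, hc])
    have h6 : e (e.symm ψ) ∈ (Algebra.adjoin ℚ ({b} : Set (Module.End ℚ _))).map
        (e : Module.End ℚ _ →ₐ[ℚ] _) := ⟨_, h1, rfl⟩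
    rw [AlgHom.map_adjoin, e.apply_symm_apply, Set.image_singleton] at h6
    exact h6
  · rw [minpoly.algEquiv_eq e b]
    exact hre

theorem fac_of_factor {a : ℕ} {Z' : Matrix (Fin a) (Fin a) ℂ} (h' : PM Z') (hsim : IsSimpleAV Z')
    (ha : 0 < a) {G₀ : ℕ} {Z₀ : Matrix (Fin G₀) (Fin G₀) ℂ} (h₀ : PM Z₀)
    (hf : IsFactor (AVZ h') (AVZ h₀)) :
    ∃ (E' : Matrix (Fin G₀ ⊕ Fin G₀) (Fin a ⊕ Fin a) ℚ)
      (F' : Matrix (Fin a ⊕ Fin a) (Fin G₀ ⊕ Fin G₀) ℚ), Fac Z₀ Z' E' F' := by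
  obtain ⟨-, i, ⟨Ψ, hΨ⟩, hi⟩ := hf
  let M : Matrix (Fin G₀ ⊕ Fin G₀) (Fin a ⊕ Fin a) ℚ := LinearMap.toMatrix' i
  have hM : ∀ v, M *ᵥ v = i v := fun v => LinearMap.toMatrix'_mulVec i v
  have h1 : cK ℝ M * JR Z' = JR Z₀ * cK ℝ M :=
    Pool.Agent.H926.T.FacL.mat_of_hom h'.cht h₀.cht Ψ (fun v => by
      rw [hM]
      exact hΨ v)
  have h2 : DZ Z₀ * cK ℂ M = cK ℂ M * DZ Z' := (Pool.Agent.H926.T.FacL.cplx_of_real h1).symm
  have h0 : M ≠ 0 := by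
    intro h3
    have h4 : (Pi.single (Sum.inl ⟨0, ha⟩) 1 : Fin a ⊕ Fin a → ℚ) = 0 := by
      apply hi
      rw [map_zero]
      have h5 := hM (Pi.single (Sum.inl ⟨0, ha⟩) 1)
      rw [h3, zero_mulVec] at h5
      exact h5.symm
    have h5 := congrFun h4 (Sum.inl ⟨0, ha⟩)
    rw [Pi.single_eq_same] at h5
    exact one_ne_zero h5
  obtain ⟨F', hF'⟩ := Pool.Agent.H926.T.FacL.fac_of_hom h₀ h' hsim h2 h0
  exact ⟨M, F', hF'⟩

theorem fn_of (A A₀ : AV) (hs : ∀ Y, IsFactor Y A → IsFactor Y A₀ ∨ HasRealMaxField Y) {G : ℕ}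
    {Z : Matrix (Fin G) (Fin G) ℂ} (h : PM Z) (e : A.H ≃ₗ[ℚ] (Fin G ⊕ Fin G → ℚ))
    (hC : Cht (A.per.comp e.symm.toLinearMap.toAddMonoidHom) (JR Z)) {G₀ : ℕ}
    {Z₀ : Matrix (Fin G₀) (Fin G₀) ℂ} (h₀ : PM Z₀) (e₀ : A₀.H ≃ₗ[ℚ] (Fin G₀ ⊕ Fin G₀ → ℚ))
    (hC₀ : Cht (A₀.per.comp e₀.symm.toLinearMap.toAddMonoidHom) (JR Z₀)) : FN Z Z₀ := by
  intro a Z' E F hf h' hsim ha
  obtain ⟨-, z2⟩ := s_fz A G Z h e hC
  obtain ⟨w1, -⟩ := s_fz A₀ G₀ Z₀ h₀ e₀ hC₀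
  rcases hs (AVZ h') (z2 a Z' E F hf h' hsim ha) with h1 | h1
  · exact Or.inr (fac_of_factor h' hsim ha h₀ ((w1 _).1 h1))
  · exact Or.inl (rm_of_real h' h1)

/-- Period matrices with the commutators of the Lefschetz Lie algebra. -/
theorem ivtG (hsix : S_SIXM) (𝒜 : Sys) {G : ℕ} {Z : Matrix (Fin G) (Fin G) ℂ} (h : PM Z) {G₀ : ℕ}
    {Z₀ : Matrix (Fin G₀) (Fin G₀) ℂ} (h₀ : PM Z₀) (hG : G₀ ≤ 5) (hF : FN Z Z₀)
    (hb : BrH Z) (κ : Type) [Fintype κ] [DecidableEq κ] : Ivt (DZ Z) κ ≤ TA 𝒜 h κ :=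
  pt5 𝒜 h (fun n _ _ f hf => pow_wr hsix h h₀ hG hF hb n f hf) κ

/-- **The Hodge conjecture for the varieties whose simple factors are factors of `A`.** -/
theorem sysG (hsix : S_SIXM) (A A₀ : AV) (h7 : finrank ℂ A.T ≤ 7) (h5 : finrank ℂ A₀.T ≤ 5)
    (hs : ∀ Y, IsFactor Y A → IsFactor Y A₀ ∨ HasRealMaxField Y) (𝒜 : Sys)
    (hsq : ∀ M : AV, IsFactor M A → IsMumfordType M.per →
      ∀ f : (prodAV M M).H [⋀^Fin 4]→ₗ[ℚ] ℚ,
        IsHodge (prodAV M M).per f → 𝒜.A (prodAV M M) (Fin 4) f)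
    (X : AV) (hX : ∀ Y, IsFactor Y X → IsFactor Y A) : 𝒜.AllHodge X := by
  have hAV : St.IsAV A.per := ⟨A.finH, A.finT, A.span, A.rank, A.pol⟩
  have hAV₀ : St.IsAV A₀.per := ⟨A₀.finH, A₀.finT, A₀.span, A₀.rank, A₀.pol⟩
  have h10 := A.rank
  have h11 := A₀.rank
  obtain ⟨G, Z, h, e, hC⟩ := exists_ppav hAV
  obtain ⟨G₀, Z₀, h₀, e₀, hC₀⟩ := exists_ppav hAV₀
  obtain ⟨z1, z2⟩ := s_fz A G Z h e hC
  have hG : G ≤ 7 := by
    have h1 := e.finrank_eq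
    rw [Module.finrank_fintype_fun_eq_card, Fintype.card_sum, Fintype.card_fin] at h1
    omega
  have hG₀ : G₀ ≤ 5 := by
    have h1 := e₀.finrank_eq
    rw [Module.finrank_fintype_fun_eq_card, Fintype.card_sum, Fintype.card_fin] at h1
    omega
  have hF := fn_of A A₀ hs h e hC h₀ e₀ hC₀
  refine Pool.Agent.H841.MS.allHodge_of 𝒜 h (fun κ _ _ => ?_) X fun Y hY => (z1 Y).1 (hX Y hY)
  have hGB := s_gbr s_facp
  by_cases hm : ∃ (a : ℕ) (Z' : Matrix (Fin a) (Fin a) ℂ)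
      (E : Matrix (Fin G ⊕ Fin G) (Fin a ⊕ Fin a) ℚ)
      (F : Matrix (Fin a ⊕ Fin a) (Fin G ⊕ Fin G) ℚ), Fac Z Z' E F ∧ PM Z' ∧ MumM Z'
  · obtain ⟨a, Z₁, E₁, F₁, hf, h₁, hM⟩ := hm
    obtain ⟨b, Z₂, E₂, F₂, h₂, D, hab⟩ := exists_compl h hf
    have ha4 := hM.four
    have hs₁ := s_msi a Z₁ h₁ hM
    have hfac := z2 a Z₁ E₁ F₁ hf h₁ hs₁ (by omega)
    obtain ⟨q, -, -, hMT⟩ := s_mq _ _ A.per G Z h e hC a Z₁ E₁ F₁ hf h₁ hM
    obtain ⟨ρ, hρ⟩ := s_ms a Z₁ h₁ hM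
    have hF₂ : FN Z₂ Z₀ := fun c Z' E F hf' h' hsim hc =>
      hF c Z' (E₂ * E) (F * F₂) (fac_trans D.f₂ hf') h' hsim hc
    refine s_kt G a b Z Z₁ Z₂ E₁ F₁ E₂ F₂ h h₁ h₂ D
      (mum_hsp h₁ hM (by omega) D h h₂) 𝒜 (fun κ _ _ => ?_)
      (fun κ _ _ => ivtG hsix 𝒜 h₂ h₀ hG₀ hF₂ (hGB b Z₂ h₂ (good_three (by omega))) κ) κ
    exact Pool.Agent.H841.MS.inv_mem_anti hρ (Pool.Agent.H841.MS.PM.sp' h₁) (Om_sq ℂ)
      (Om_transpose ℂ) (Pool.Agent.H841.MS.famTA 𝒜 h₁) (Pool.Agent.H841.MS.TA_two 𝒜 h₁)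
      (fun t ht h1 h2 => Pool.Agent.H841.MS.TA_anti 𝒜 h₁
        (Pool.Agent.H841.MS.square_of 𝒜 h₁ (hsq (AVZ h₁) hfac hMT)) t ht h1 h2) κ
  · push Not at hm
    exact ivtG hsix 𝒜 h h₀ hG₀ hF (brh_seven hGB s_t3l s_brd h hG fun a Z' E F hf h' =>
      hm a Z' E F hf h') κ

end sys

end

end Pool.Agent.H841.HC5
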