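import Mathlib
import Pool.Agent.H841.HC5.Jobs2
import Pool.Agent.H926.T.Facp
import Pool.Agent.H926.T.D0
import Pool.Agent.H926.T.Conv
import Pool.Agent.H926.A.Qtop
import Pool.Graph.R_pool_sql_team_seeded_1acbe0a2.Y90.NSub

/-!
# S_SIX: simple quotients of dimension six
-/

set_option autoImplicit false
set_option linter.unusedSectionVars false

namespace Pool.Agent.H841.HC5

open Matrix Module Pool.Agent.W437.HC Pool.Agent.W437.HD Pool.Agent.TH504.CB Pool.Agent.W522.U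
open Pool.Agent.Y90 hiding mulA exists_lam mulA_altQ
open Pool.Agent.W548.Odd hiding cv
open Pool.Agent.W437.HP (cK cK_mul cK_one)
open Pool.Agent.H204R3.CM (IsHodge)
open Pool.Agent.H204R3.SP (Kills bil2 IsTate)
open Pool.Agent.Y4.P (MaxM EigM cx)
open Pool.Agent.H926.T
open Pool.Agent.H926.A

noncomputable section

namespace SixL

variable {H T : Type} [AddCommGroup H] [Module ℚ H] [AddCommGroup T] [Module ℂ T] {per : H →+ T}
  {H' T' : Type} [AddCommGroup H'] [Module ℚ H'] [AddCommGroup T'] [Module ℂ T'] {per' : H' →+ T'}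

/-- the period matrix of a simple abelian variety is simple -/
theorem simple_of {a : ℕ} {Z' : Matrix (Fin a) (Fin a) ℂ} (h' : PM Z')
    (A' : H' ≃ₗ[ℚ] (Fin a ⊕ Fin a → ℚ))
    (hC' : Cht (per'.comp A'.symm.toLinearMap.toAddMonoidHom) (JR Z'))
    (hsi : St.IsSimpleSub per' ⊤) : IsSimpleAV Z' := by
  obtain ⟨⟨Ψ₁, e₁⟩, -⟩ := Pool.Agent.H926.A.iso_maps h' A' hC'
  intro U hU
  have h1 : St.IsSub (perOne Z') U := hU
  have h3 := Pool.Agent.Y90.sub_map (per := perOne Z')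
    (per' := per'.comp A'.symm.toLinearMap.toAddMonoidHom) h1 (π := LinearMap.id) (Ψ := Ψ₁)
    (fun v => e₁ v)
  have hset : (per'.comp A'.symm.toLinearMap.toAddMonoidHom) ''
      (U.map (LinearMap.id : (Fin a ⊕ Fin a → ℚ) →ₗ[ℚ] (Fin a ⊕ Fin a → ℚ)) :
        Set (Fin a ⊕ Fin a → ℚ)) = per' '' (U.map A'.symm.toLinearMap : Submodule ℚ H') := by
    ext x
    constructor
    · rintro ⟨y, ⟨u, hu, rfl⟩, rfl⟩
      exact ⟨A'.symm u, ⟨u, hu, rfl⟩, rfl⟩
    · rintro ⟨y, ⟨u, hu, rfl⟩, rfl⟩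
      exact ⟨u, ⟨u, hu, rfl⟩, rfl⟩
  rw [hset] at h3
  rcases hsi.2.2 (U.map A'.symm.toLinearMap) le_top h3 with h4 | h4
  · left
    rw [Submodule.eq_bot_iff]
    intro u hu
    have h5 : A'.symm u ∈ (U.map A'.symm.toLinearMap : Submodule ℚ H') := ⟨u, hu, rfl⟩
    rw [h4, Submodule.mem_bot] at h5
    exact A'.symm.map_eq_zero_iff.1 h5
  · right
    rw [Submodule.eq_top_iff']
    intro w
    have h5 : A'.symm w ∈ (U.map A'.symm.toLinearMap : Submodule ℚ H') := by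
      rw [h4]
      trivial
    obtain ⟨u, hu, h6⟩ := h5
    have h7 : u = w := A'.symm.injective h6
    rw [← h7]
    exact hu

/-- a simple abelian variety with a nonzero homomorphism to `X` is a factor of `X` -/
theorem fac_of_section {G : ℕ} {Z : Matrix (Fin G) (Fin G) ℂ} (h : PM Z)
    (A : H ≃ₗ[ℚ] (Fin G ⊕ Fin G → ℚ))
    (hC : Cht (per.comp A.symm.toLinearMap.toAddMonoidHom) (JR Z)) {a : ℕ}
    {Z' : Matrix (Fin a) (Fin a) ℂ} (h' : PM Z') (A' : H' ≃ₗ[ℚ] (Fin a ⊕ Fin a → ℚ))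
    (hC' : Cht (per'.comp A'.symm.toLinearMap.toAddMonoidHom) (JR Z'))
    (hsim : IsSimpleAV Z') (ha : 0 < a) (s : H' →ₗ[ℚ] H) (hs : St.IsHom per' per s)
    (hi : ∀ w, s w = 0 → w = 0) :
    ∃ (E : Matrix (Fin G ⊕ Fin G) (Fin a ⊕ Fin a) ℚ)
      (F : Matrix (Fin a ⊕ Fin a) (Fin G ⊕ Fin G) ℚ), Fac Z Z' E F := by
  obtain ⟨⟨Ψ₁, e₁⟩, -⟩ := Pool.Agent.H926.A.iso_maps h' A' hC'
  obtain ⟨Ψ, hΨ⟩ := hs
  obtain ⟨M, hM⟩ : ∃ M : Matrix (Fin G ⊕ Fin G) (Fin a ⊕ Fin a) ℚ,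
      ∀ v, M *ᵥ v = A (s (A'.symm v)) := by
    refine ⟨LinearMap.toMatrix' (A.toLinearMap ∘ₗ s ∘ₗ A'.symm.toLinearMap), fun v => ?_⟩
    rw [LinearMap.toMatrix'_mulVec]
    rfl
  have h1 : cK ℝ M * JR Z' = JR Z * cK ℝ M := by
    refine Pool.Agent.H926.T.FacL.mat_of_hom h'.cht hC (Ψ ∘ₗ Ψ₁) (fun v => ?_)
    have h2 : (per.comp A.symm.toLinearMap.toAddMonoidHom) (M *ᵥ v) = per (s (A'.symm v)) := by
      rw [hM]
      change per (A.symm (A (s (A'.symm v)))) = _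
      rw [LinearEquiv.symm_apply_apply]
    rw [h2, LinearMap.comp_apply, e₁, hΨ]
  have h2 : DZ Z * cK ℂ M = cK ℂ M * DZ Z' :=
    (Pool.Agent.H926.T.FacL.cplx_of_real h1).symm
  have h0 : M ≠ 0 := by
    intro h3
    have h4 : (Pi.single (Sum.inl ⟨0, ha⟩) 1 : Fin a ⊕ Fin a → ℚ) = 0 := by
      apply A'.symm.injective
      rw [map_zero]
      apply hi
      apply A.injective
      rw [← hM, h3, zero_mulVec, map_zero]
    have h5 := congrFun h4 (Sum.inl ⟨0, ha⟩)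
    rw [Pi.single_eq_same] at h5
    exact one_ne_zero h5
  obtain ⟨F', hF'⟩ := Pool.Agent.H926.T.FacL.fac_of_hom h h' hsim h2 h0
  exact ⟨M, F', hF'⟩

/-- the dimension of a factor -/
theorem fac_le {G a : ℕ} {Z : Matrix (Fin G) (Fin G) ℂ} {Z' : Matrix (Fin a) (Fin a) ℂ}
    {E : Matrix (Fin G ⊕ Fin G) (Fin a ⊕ Fin a) ℚ} {F : Matrix (Fin a ⊕ Fin a) (Fin G ⊕ Fin G) ℚ}
    (hf : Fac Z Z' E F) : a ≤ G := by
  have hinj : Function.Injective (Matrix.mulVecLin E) := by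
    intro x y hxy
    have h1 : E *ᵥ x = E *ᵥ y := hxy
    have h2 := congrArg (fun z => F *ᵥ z) h1
    simp only [mulVec_mulVec, hf.fe, one_mulVec] at h2
    exact h2
  have h3 := LinearMap.finrank_le_finrank_of_injective hinj
  rw [Module.finrank_fintype_fun_eq_card, Module.finrank_fintype_fun_eq_card, Fintype.card_sum,
    Fintype.card_sum, Fintype.card_fin, Fintype.card_fin] at h3
  omega

end SixL

theorem s_sixm (hr0 : S_REAL0) (hb : S_BRQ) : S_SIXM := by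
  intro G Z h hbZ h5 H' T' _ _ _ _ per' hY hsi hd q hq hqs κ _ f hf
  have hC : Cht ((perOne Z).comp
      (LinearEquiv.refl ℚ (Fin G ⊕ Fin G → ℚ)).symm.toLinearMap.toAddMonoidHom) (JR Z) := h.cht
  obtain ⟨t1, t2⟩ := s_tra _ _ (perOne Z) G Z h (LinearEquiv.refl ℚ _) hC
  have hbr : ∀ x y : (Fin G ⊕ Fin G → ℚ) →ₗ[ℚ] (Fin G ⊕ Fin G → ℚ), InLef (perOne Z) x →
      InLef (perOne Z) y → InHdg (perOne Z) (x ∘ₗ y - y ∘ₗ x) := by
    intro x y hx hy
    refine (t2 _).2 ?_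
    rw [matQ_br, qm_br]
    exact hbZ _ ((t1 x).1 hx) _ ((t1 y).1 hy)
  obtain ⟨G', Z', h', A', hC'⟩ := exists_ppav hY
  have hG' : G' = 6 := by
    have h1 := A'.finrank_eq
    rw [Module.finrank_fintype_fun_eq_card, Fintype.card_sum, Fintype.card_fin] at h1
    omega
  have hsim : IsSimpleAV Z' := SixL.simple_of h' A' hC' hsi
  have ha : 0 < G' := by omega
  obtain ⟨s, hsh, hqs'⟩ := Pool.Agent.H926.T.DzL.exists_section h.isAV hY q hq hqs
  obtain ⟨E, F, hfac⟩ := SixL.fac_of_section h (LinearEquiv.refl ℚ _) hC h' A' hC' hsim ha s hsh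
    (fun w hw => by rw [← hqs' w, hw, map_zero])
  have hRM : RM Z' := by
    rcases h5 G' Z' E F hfac h' hsim ha with h6 | h6
    · exact h6
    · omega
  have hbr' := hb _ _ H' T' (perOne Z) per' h.isAV hY q hq hqs hbr
  have hBZ : BrH Z' := brh_of h' A' hC' hbr'
  have hLB : LB (GG (LZ Z')) (om G') := s_lb G' Z' h' hBZ
  have hall : AllFq Z' 0 True := hr0 G' Z' h' hsim ha hRM hLB
  exact hodge_abs h' A' hC' (fun g hg => hodge_altq h' (altFoq_of_all hall) g hg) f hf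

end

end Pool.Agent.H841.HC5
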