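import Mathlib
import Pool.Agent.H841.HC5.Gen
import Pool.Agent.H841.HC5.Six
import Pool.Agent.H841.HC5.Brq
import Pool.Agent.H841.HC5.Exc
import Pool.Agent.H841.HC5.Exc2

/-!
# The final theorems
-/

set_option linter.unusedSectionVars false

namespace Pool.Agent.H841.HC5

open Matrix Module Pool.Agent.Y90 Pool.Agent.W437.HC Pool.Agent.W437.HD
  Pool.Agent.TH504.CB
open Pool.Agent.W548.Odd hiding cv
open Pool.Agent.W437.HP (cK cK_mul cK_one)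
open Pool.Agent.H204R3.CM (IsHodge)
open Pool.Agent.R915 (Sys IsFactor BQ cQ perQ AVQ)
open Pool.Agent.N178.HW (prodAV)
open Pool.Agent.H926
open Pool.Agent.H926.T
open Pool.Agent.H926.A

noncomputable section

theorem sixm : S_SIXM := s_sixm s_real0 s_brq

/-- **Dimension at most seven, period matrices.** -/
theorem one_wr {G : ℕ} {Z : Matrix (Fin G) (Fin G) ℂ} (h : PM Z) (h7 : G ≤ 7) {G₀ : ℕ}
    {Z₀ : Matrix (Fin G₀) (Fin G₀) ℂ} (h₀ : PM Z₀) (hG₀ : G₀ ≤ 5) (hF : FN Z Z₀) {κ : Type}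
    [Finite κ] (f : (Fin G ⊕ Fin G → ℚ) [⋀^κ]→ₗ[ℚ] ℚ) (hf : IsHodge (perOne Z) f) :
    St.WeilRing (perOne Z) κ f := by
  have hGB := s_gbr s_facp
  by_cases hm : ∃ (a : ℕ) (Z' : Matrix (Fin a) (Fin a) ℂ)
      (E : Matrix (Fin G ⊕ Fin G) (Fin a ⊕ Fin a) ℚ)
      (F : Matrix (Fin a ⊕ Fin a) (Fin G ⊕ Fin G) ℚ), Fac Z Z' E F ∧ PM Z' ∧ MumM Z'
  · obtain ⟨a, Z₁, E₁, F₁, hf₁, h₁, hM⟩ := hm
    obtain ⟨b, Z₂, E₂, F₂, h₂, D, hab⟩ := exists_compl h hf₁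
    have ha := hM.four
    have hF₂ : FN Z₂ Z₀ := fun c Z' E F hf' h' hsim hc =>
      hF c Z' (E₂ * E) (F * F₂) (fac_trans D.f₂ hf') h' hsim hc
    obtain ⟨n5, n10⟩ := lem5.ns b G₀ Z₂ Z₀ h₂ h₀ hG₀ hF₂
    have hA : AltFoq Z 6 True := kunnethq D h h₁ h₂ (mum_hsp h₁ hM (by omega) D h h₂)
      (mum_altFoq h₁ hM) (lem5.all h₂ n5 n10 (hGB b Z₂ h₂ (good_three (by omega))))
    exact wr_conv h.isAV (sixOK_dec h h₁ h₂ D (by omega) (by omega)) (hodge_altq h hA f hf)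
  · push Not at hm
    have hb := brh_seven hGB s_t3l s_brd h h7 fun a Z' E F hf h' => hm a Z' E F hf h'
    obtain ⟨n5, n10⟩ := lem5.ns G G₀ Z Z₀ h h₀ hG₀ hF
    exact wr_conv h.isAV (sixOK_of sixm h hb n5)
      (hodge_altq h (altFoq_of_all (lem5.all h n5 n10 hb)) f hf)

section abs

variable {H T : Type} [AddCommGroup H] [Module ℚ H] [AddCommGroup T] [Module ℂ T] {per : H →+ T}
  {H₀ T₀ : Type} [AddCommGroup H₀] [Module ℚ H₀] [AddCommGroup T₀] [Module ℂ T₀] {per₀ : H₀ →+ T₀}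

/-- Powers with exponent at most one, in dimension at most seven. -/
theorem main_one (hX : St.IsAV per) (hX₀ : St.IsAV per₀) (h5 : finrank ℂ T₀ ≤ 5)
    (hs : ∀ U : Submodule ℚ H, St.IsSimpleSub per U → IsRealSub per U ∨
      ∃ r : H →ₗ[ℚ] H₀, St.IsHom per per₀ r ∧ ∀ u ∈ U, r u = 0 → u = 0) (h7 : finrank ℂ T ≤ 7)
    (n : ℕ) (hn : n ≤ 1) {κ : Type} [Finite κ] (f : (Fin n → H) [⋀^κ]→ₗ[ℚ] ℚ)
    (hf : IsHodge (powPer per n) f) : St.WeilRing (powPer per n) κ f := by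
  obtain ⟨G, Z, h, A, hC⟩ := exists_ppav hX
  obtain ⟨G₀, Z₀, h₀, A₀, hC₀⟩ := exists_ppav hX₀
  have hG₀ : G₀ ≤ 5 := by
    have h1 := A₀.finrank_eq
    rw [Module.finrank_fintype_fun_eq_card, Fintype.card_sum, Fintype.card_fin] at h1
    have h3 := hX₀.2.2.2.1
    omega
  have hG : G ≤ 7 := by
    have h1 := A.finrank_eq
    rw [Module.finrank_fintype_fun_eq_card, Fintype.card_sum, Fintype.card_fin] at h1
    have h3 := hX.2.2.2.1
    omega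
  have hF := lem5.goodn H T per H₀ T₀ per₀ G Z h A hC G₀ Z₀ h₀ A₀ hC₀ hs
  -- the period matrix of the power
  have hXn : St.IsAV (powPer (perOne Z) n) := s_pav _ _ (perOne Z) h.isAV n
  obtain ⟨G', Z', h', A', hC'⟩ := exists_ppav hXn
  have hG' : G' = n * G := by
    have h1 := A'.finrank_eq
    rw [Module.finrank_fintype_fun_eq_card, Module.finrank_pi_fintype] at h1
    simp only [Module.finrank_fintype_fun_eq_card, Fintype.card_sum, Fintype.card_fin,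
      Finset.sum_const, Finset.card_univ, smul_eq_mul] at h1
    have h2 : n * (G + G) = 2 * (n * G) := by ring
    omega
  have hF' : FN Z' Z₀ := by
    intro a Z₁ E F hf' h₁ hs ha
    obtain ⟨E', F', hf''⟩ := s_facp G Z h n G' Z' h' A' hC' a Z₁ E F hf' h₁ hs ha
    exact hF a Z₁ E' F' hf'' h₁ hs ha
  have h7' : n * G ≤ 7 := (Nat.mul_le_mul_right G hn).trans (by omega)
  have key : ∀ g : (Fin n → (Fin G ⊕ Fin G → ℚ)) [⋀^κ]→ₗ[ℚ] ℚ, IsHodge (powPer (perOne Z) n) g →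
      St.WeilRing (powPer (perOne Z) n) κ g := by
    intro g hg
    obtain ⟨⟨Ψ₁, e₁⟩, ⟨Ψ₂, e₂⟩⟩ := iso_maps h' A' hC'
    have h5 : IsHodge (perOne Z') (g.compLinearMap A'.symm.toLinearMap) :=
      Pool.Agent.TH504.CB.isHodge_comp A'.symm.toLinearMap Ψ₁ e₁ hg
    have h7 := wr_pull (per' := powPer (perOne Z) n)
      (one_wr h' (by omega) h₀ hG₀ hF' _ h5) (q := A'.toLinearMap) ⟨Ψ₂, e₂⟩
    have h8 : (g.compLinearMap A'.symm.toLinearMap).compLinearMap A'.toLinearMap = g := by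
      ext v
      rw [AlternatingMap.compLinearMap_apply, AlternatingMap.compLinearMap_apply]
      congr 1
      funext k
      exact A'.symm_apply_apply (v k)
    rwa [h8] at h7
  obtain ⟨⟨Ψ₁, e₁⟩, ⟨Ψ₂, e₂⟩⟩ := iso_maps h A hC
  let Φ₁ : (Fin n → (Fin G ⊕ Fin G → ℚ)) →ₗ[ℚ] (Fin n → H) :=
    LinearMap.pi fun i => A.symm.toLinearMap ∘ₗ LinearMap.proj i
  let Φ₂ : (Fin n → H) →ₗ[ℚ] (Fin n → (Fin G ⊕ Fin G → ℚ)) :=
    LinearMap.pi fun i => A.toLinearMap ∘ₗ LinearMap.proj i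
  let Θ₁ : (Fin n → (Fin G → ℂ)) →ₗ[ℂ] (Fin n → T) :=
    LinearMap.pi fun i => Ψ₁ ∘ₗ LinearMap.proj i
  let Θ₂ : (Fin n → T) →ₗ[ℂ] (Fin n → (Fin G → ℂ)) :=
    LinearMap.pi fun i => Ψ₂ ∘ₗ LinearMap.proj i
  have g₁ : ∀ w, Θ₁ (powPer (perOne Z) n w) = powPer per n (Φ₁ w) := fun w => by
    funext i
    exact e₁ (w i)
  have g₂ : ∀ w, Θ₂ (powPer per n w) = powPer (perOne Z) n (Φ₂ w) := fun w => by
    funext i
    exact e₂ (w i)
  have h9 := wr_pull (per' := powPer per n) (key _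
    (Pool.Agent.TH504.CB.isHodge_comp Φ₁ Θ₁ g₁ hf)) (q := Φ₂) ⟨Θ₂, g₂⟩
  have h8 : (f.compLinearMap Φ₁).compLinearMap Φ₂ = f := by
    ext v
    rw [AlternatingMap.compLinearMap_apply, AlternatingMap.compLinearMap_apply]
    congr 1
    funext k i
    exact A.symm_apply_apply (v k i)
  rwa [h8] at h9

/-- **The ring: the final theorem.** -/
theorem final_ring (hX : St.IsAV per) (hX₀ : St.IsAV per₀) (h5 : finrank ℂ T₀ ≤ 5)
    (hs : ∀ U : Submodule ℚ H, St.IsSimpleSub per U → IsRealSub per U ∨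
      ∃ r : H →ₗ[ℚ] H₀, St.IsHom per per₀ r ∧ ∀ u ∈ U, r u = 0 → u = 0) :
    ((∀ (n : ℕ) (κ : Type) [Finite κ] (f : (Fin n → H) [⋀^κ]→ₗ[ℚ] ℚ),
        IsHodge (powPer per n) f ↔ St.WeilRing (powPer per n) κ f) ↔
      ∀ x y : H →ₗ[ℚ] H, InLef per x → InLef per y → InHdg per (x ∘ₗ y - y ∘ₗ x)) ∧
    (finrank ℂ T ≤ 7 → ∀ n : ℕ,
      ((∀ (κ : Type) [Finite κ] (f : (Fin n → H) [⋀^κ]→ₗ[ℚ] ℚ),
        IsHodge (powPer per n) f ↔ St.WeilRing (powPer per n) κ f) ↔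
      (n ≤ 1 ∨ ∀ (H' T' : Type) [AddCommGroup H'] [Module ℚ H'] [AddCommGroup T'] [Module ℂ T']
        (per' : H' →+ T') (q : H →ₗ[ℚ] H'), St.IsHom per per' q → Function.Surjective q →
          ¬IsMumfordType per'))) := by
  refine ⟨⟨fun hW => (tstar hX).1 fun n κ _ f hf => y4_of_wr ((hW n κ f).1 hf), fun hbr n κ _ f =>
    ⟨fun hf => mainG sixm hX hX₀ h5 hs hbr n f hf, fun hf => qr_isHodge (qr_of_wr hf)⟩⟩,
    fun h7 n => ⟨fun hW => (r5 H T per hX h7 n).1 fun κ _ f hf => y4_of_wr ((hW κ f).1 hf), ?_⟩⟩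
  rintro (hn | hno) κ _ f
  · exact ⟨fun hf => main_one hX hX₀ h5 hs h7 n hn f hf, fun hf => qr_isHodge (qr_of_wr hf)⟩
  · exact ⟨fun hf => mainG sixm hX hX₀ h5 hs (hbr_of hX h7 hno) n f hf,
      fun hf => qr_isHodge (qr_of_wr hf)⟩

end abs

/-- **The systems: the final theorem.** -/
theorem final_sys (A A₀ : AV) (h7 : finrank ℂ A.T ≤ 7) (h5 : finrank ℂ A₀.T ≤ 5)
    (hs : ∀ Y, IsFactor Y A → IsFactor Y A₀ ∨ HasRealMaxField Y) (𝒜 : Sys) :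
    (∀ X : AV, (∀ Y, IsFactor Y X → IsFactor Y A) → 𝒜.AllHodge X) ↔
      ∀ M : AV, IsFactor M A → IsMumfordType M.per →
        ∃ f : (prodAV M M).H [⋀^Fin 4]→ₗ[ℚ] ℚ, IsExc M f ∧ 𝒜.A (prodAV M M) (Fin 4) f := by
  constructor
  · intro hA M hM hMT
    obtain ⟨f, hf⟩ := s_exc M hMT
    refine ⟨f, hf, hA (prodAV M M) (fun Y hY => ?_) (Fin 4) f hf.1⟩
    have h1 : IsFactor Y M := (Pool.Agent.N178.HW.factor_prod hY).elim id id
    obtain ⟨hs, i, ⟨Φ, hΦ⟩, hi'⟩ := h1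
    obtain ⟨-, j, ⟨Ψ, hΨ⟩, hj'⟩ := hM
    exact ⟨hs, j.comp i, ⟨Ψ.comp Φ, fun v => by
      rw [LinearMap.comp_apply, hΦ, hΨ]
      rfl⟩, hj'.comp hi'⟩
  · intro hex X hX
    refine sysG sixm A A₀ h7 h5 hs 𝒜 (fun M hM hMT f hf => ?_) X hX
    obtain ⟨g, hg, hgA⟩ := hex M hM hMT
    exact all_of_exc 𝒜 M hMT g hg hgA (prodAV M M)
      (fun Y hY => (Pool.Agent.N178.HW.factor_prod hY).elim id id) (Fin 4) f hf

end

end Pool.Agent.H841.HC5
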