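import Mathlib
import Pool.Agent.H841.HC5.Fin
import Pool.Agent.H926.Good

/-!
# Arbitrary dimension
-/

set_option linter.unusedSectionVars false

namespace Pool.Agent.H841.HC5

open Matrix Module Pool.Agent.W437.HC Pool.Agent.W437.HD Pool.Agent.TH504.CB
open Pool.Agent.Y90
open Pool.Agent.W548.Odd hiding cv
open Pool.Agent.W437.HP (cK cK_mul cK_one)
open Pool.Agent.H204R3.CM (IsHodge)
open Pool.Agent.Y4.P (MaxM EigM mem_eigM cjS_eigM root_aut RealOddM)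
open Pool.Agent.Y4.Q (GoodF4 CMM SepM GenM T3M root_cc pd_root_cc IsTypeThreeQ IsGenericSub
  typeThree genM)
open Pool.Agent.Y4.P.G3.Sd (Φ)
open Pool.Agent.H926
open Pool.Agent.H926.T
open Pool.Agent.H926.A

noncomputable section

section sep

variable {a₁ a₂ : ℕ} {Z₁ : Matrix (Fin a₁) (Fin a₁) ℂ} {Z₂ : Matrix (Fin a₂) (Fin a₂) ℂ}
  {φ₁ : Matrix (Fin a₁ ⊕ Fin a₁) (Fin a₁ ⊕ Fin a₁) ℚ}
  {φ₂ : Matrix (Fin a₂ ⊕ Fin a₂) (Fin a₂ ⊕ Fin a₂) ℚ}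

/-- Totally real maximal subfields: all multiplicities are equal. -/
theorem real_half (h₁ : PM Z₁) (s₁ : IsSimpleAV Z₁) (g₁ : 0 < a₁) (hr : RM Z₁) (m₁ : MaxM Z₁ φ₁)
    {z₁ : ℂ} (r₁ : z₁ ∈ (minpoly ℚ φ₁).aroots ℂ) :
    pd Z₁ (EigM φ₁ z₁) = qd Z₁ (EigM φ₁ z₁) := by
  obtain ⟨φ, hφ, hre⟩ := hr
  obtain ⟨p₁, -, -⟩ := Pool.Agent.Y261.P.jspec a₁ Z₁ h₁ s₁ g₁ φ₁ m₁
  obtain ⟨q₁, q₂, -⟩ := Pool.Agent.Y261.P.jspec a₁ Z₁ h₁ s₁ g₁ φ hφ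
  have hU := (p₁ z₁ r₁).1
  obtain ⟨z, hz, T, hT, hi, hmap⟩ := q₂ _ hU
  have h1 : pd Z₁ (EigM φ z) = pd Z₁ (EigM φ₁ z₁) :=
    pd_iso (fun X hX u _ => hT X hX u) hi hU.2.1 hmap
  have h2 : pd Z₁ (EigM φ z) = qd Z₁ (EigM φ z) := by
    rw [← pd_root_cc]
    congr 2
    have h3 := hre z hz
    exact (Complex.conj_eq_iff_im.2 h3).symm
  have h3 := pd_add_qd h₁ hU.2.1
  have h4 := pd_add_qd h₁ (q₁ z hz).1.2.1
  have h5 : finrank ℂ (EigM φ z) = finrank ℂ (EigM φ₁ z₁) := by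
    rw [← hmap]
    exact finrank_map_of_inj hi
  omega

theorem half_aut (h₁ : PM Z₁) (s₁ : IsSimpleAV Z₁) (g₁ : 0 < a₁) (hr : RM Z₁) (m₁ : MaxM Z₁ φ₁)
    {z₁ : ℂ} (r₁ : z₁ ∈ (minpoly ℚ φ₁).aroots ℂ) {n : ℕ}
    (hn : pd Z₁ (EigM φ₁ z₁) + qd Z₁ (EigM φ₁ z₁) = n) (σ : ℂ ≃+* ℂ) :
    2 * pd Z₁ (EigM φ₁ (σ z₁)) = n := by
  obtain ⟨p₁, -, -⟩ := Pool.Agent.Y261.P.jspec a₁ Z₁ h₁ s₁ g₁ φ₁ m₁
  have hfr₁ : finrank ℂ (EigM φ₁ z₁) = n := by rw [← pd_add_qd h₁ (p₁ z₁ r₁).1.2.1, hn]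
  have h1 : pd Z₁ (EigM φ₁ (σ z₁)) + qd Z₁ (EigM φ₁ (σ z₁)) = n := by
    rw [pd_add_qd h₁ (p₁ _ (root_aut r₁ σ)).1.2.1, ← cjS_eigM, finrank_cjS, hfr₁]
  have h2 := real_half h₁ s₁ g₁ hr m₁ (root_aut r₁ σ)
  omega

theorem sepM_left (h₁ : PM Z₁) (s₁ : IsSimpleAV Z₁) (g₁ : 0 < a₁) (hr : RM Z₁)
    (m₁ : MaxM Z₁ φ₁) : SepM Z₁ Z₂ φ₁ φ₂ := by
  intro z₁ r₁ z₂ r₂ n hn hn₁ hn₂ hyp
  left
  intro σ
  rcases hyp σ with h0 | ⟨h0, -⟩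
  · exact h0
  · have := half_aut h₁ s₁ g₁ hr m₁ r₁ hn₁ σ
    omega

theorem sepM_right (h₂ : PM Z₂) (s₂ : IsSimpleAV Z₂) (g₂ : 0 < a₂) (hr : RM Z₂)
    (m₂ : MaxM Z₂ φ₂) : SepM Z₁ Z₂ φ₁ φ₂ := by
  intro z₁ r₁ z₂ r₂ n hn hn₁ hn₂ hyp
  left
  intro σ
  rcases hyp σ with h0 | ⟨-, h0⟩
  · exact h0
  · have := half_aut h₂ s₂ g₂ hr m₂ r₂ hn₂ σ
    omega

/-- Totally real maximal subfields exclude definite quaternion algebras. -/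
theorem not_t3 (hr : RM Z₁) : ¬T3M Z₁ := by
  rintro ⟨-, ⟨ψ, hψ, hne⟩, h3⟩
  obtain ⟨φ, hφ, hre⟩ := hr
  obtain ⟨c, hc⟩ := h3 φ hφ.1 hre
  have h1 := hφ.2 ψ hψ (by rw [hc, Matrix.mul_smul, Matrix.smul_mul, Matrix.mul_one, Matrix.one_mul])
  have h2 : Algebra.adjoin ℚ ({φ} : Set (Matrix (Fin a₁ ⊕ Fin a₁) (Fin a₁ ⊕ Fin a₁) ℚ)) ≤ ⊥ := by
    refine Algebra.adjoin_le ?_
    rintro x rfl
    rw [hc]
    exact Algebra.mem_bot.2 ⟨c, Algebra.algebraMap_eq_smul_one c⟩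
  obtain ⟨r, hr'⟩ := Algebra.mem_bot.1 (h2 h1)
  exact hne r (by rw [← hr', Algebra.algebraMap_eq_smul_one])

end sep

/-- The Lie algebra of a factor is small enough. -/
theorem good_fn {G G₀ : ℕ} {Z : Matrix (Fin G) (Fin G) ℂ} {Z₀ : Matrix (Fin G₀) (Fin G₀) ℂ}
    (hG₀ : G₀ ≤ 5) (hF : FN Z Z₀)
    (hg : ∀ (a : ℕ) (Z' : Matrix (Fin a) (Fin a) ℂ) (E : Matrix (Fin G ⊕ Fin G) (Fin a ⊕ Fin a) ℚ)
      (F : Matrix (Fin a ⊕ Fin a) (Fin G ⊕ Fin G) ℚ), Fac Z Z' E F → PM Z' → IsSimpleAV Z' →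
        0 < a → a ≤ 7 ∨ RealOddM Z' ∨ GenM Z')
    (hT : ∀ (a : ℕ) (Z' : Matrix (Fin a) (Fin a) ℂ) (E : Matrix (Fin G ⊕ Fin G) (Fin a ⊕ Fin a) ℚ)
      (F : Matrix (Fin a ⊕ Fin a) (Fin G ⊕ Fin G) ℚ), Fac Z Z' E F → PM Z' → IsSimpleAV Z' →
        a = 4 → ¬T3M Z')
    (hM : ∀ (a : ℕ) (Z' : Matrix (Fin a) (Fin a) ℂ) (E : Matrix (Fin G ⊕ Fin G) (Fin a ⊕ Fin a) ℚ)
      (F : Matrix (Fin a ⊕ Fin a) (Fin G ⊕ Fin G) ℚ), Fac Z Z' E F → PM Z' → ¬MumM Z') :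
    GoodF4 Z := by
  refine ⟨fun a Z' E F hf h' hs ha => ?_, ?_⟩
  · rcases hg a Z' E F hf h' hs ha with h7 | h7 | h7
    · have hb : ¬Bad Z' := by
        rintro (⟨ht, h4 | h6⟩ | hm)
        · exact hT a Z' E F hf h' hs h4 ht
        · rcases hF a Z' E F hf h' hs ha with hr | ⟨E', F', hf'⟩
          · exact not_t3 hr ht
          · have := fac_le hf'
            omega
        · exact hM a Z' E F hf h' hm
      rcases good_simple h' hs ha h7 hb with h1 | h1 | h1 | h1 | h1 | h1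
      · exact Or.inl h1
      · exact Or.inr (Or.inr (Or.inr (Or.inl h1)))
      · exact Or.inr (Or.inr (Or.inr (Or.inr (Or.inl h1))))
      · exact Or.inr (Or.inr (Or.inr (Or.inr (Or.inr (Or.inl h1)))))
      · exact Or.inr (Or.inr (Or.inr (Or.inr (Or.inr (Or.inr (Or.inr (Or.inl h1)))))))
      · exact Or.inr (Or.inr (Or.inr (Or.inr (Or.inr (Or.inr (Or.inr (Or.inr h1)))))))
    · exact Or.inr (Or.inr (Or.inr (Or.inl h7)))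
    · exact Or.inr (Or.inr (Or.inr (Or.inr (Or.inl h7))))
  · intro a₁ a₂ Z₁ Z₂ E₁ F₁ E₂ F₂ hf₁ hf₂ h₁ h₂ hs₁ hs₂ ha₁ ha₂ φ₁ φ₂ m₁ m₂ c₁ c₂
    rcases hF a₁ Z₁ E₁ F₁ hf₁ h₁ hs₁ ha₁ with hr₁ | ⟨E₁', F₁', hf₁'⟩
    · exact sepM_left h₁ hs₁ ha₁ hr₁ m₁
    · rcases hF a₂ Z₂ E₂ F₂ hf₂ h₂ hs₂ ha₂ with hr₂ | ⟨E₂', F₂', hf₂'⟩
      · exact sepM_right h₂ hs₂ ha₂ hr₂ m₂
      · exact sepM_of (by omega) hf₁' hf₂' h₁ h₂ hs₁ hs₂ ha₁ ha₂ m₁ m₂ c₁ c₂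

section abs

variable {H T : Type} [AddCommGroup H] [Module ℚ H] [AddCommGroup T] [Module ℂ T] {per : H →+ T}
  {H₀ T₀ : Type} [AddCommGroup H₀] [Module ℚ H₀] [AddCommGroup T₀] [Module ℂ T₀] {per₀ : H₀ →+ T₀}

/-- **Powers in arbitrary dimension.** -/
theorem any_wr (hX : St.IsAV per) (hX₀ : St.IsAV per₀) (h5 : finrank ℂ T₀ ≤ 5)
    (hs : ∀ U : Submodule ℚ H, St.IsSimpleSub per U → IsRealSub per U ∨
      ∃ r : H →ₗ[ℚ] H₀, St.IsHom per per₀ r ∧ ∀ u ∈ U, r u = 0 → u = 0)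
    (hg : ∀ U : Submodule ℚ H, St.IsSimpleSub per U → finrank ℚ U ≤ 14 ∨
      Pool.Agent.Y4.Q.IsRealOddSub per U ∨ IsGenericSub per U)
    (hT : ∀ U : Submodule ℚ H, St.IsSimpleSub per U → finrank ℚ U = 8 → ¬IsTypeThreeQ per U)
    (hno : ∀ (H' T' : Type) [AddCommGroup H'] [Module ℚ H'] [AddCommGroup T'] [Module ℂ T']
      (per' : H' →+ T') (q : H →ₗ[ℚ] H'), St.IsHom per per' q → Function.Surjective q →
        ¬IsMumfordType per') (n : ℕ)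
    {κ : Type} [Finite κ] (f : (Fin n → H) [⋀^κ]→ₗ[ℚ] ℚ) (hf : IsHodge (powPer per n) f) :
    St.WeilRing (powPer per n) κ f := by
  obtain ⟨G, Z, h, A, hC⟩ := exists_ppav hX
  obtain ⟨G₀, Z₀, h₀, A₀, hC₀⟩ := exists_ppav hX₀
  have hG₀ : G₀ ≤ 5 := by
    have h1 := A₀.finrank_eq
    rw [Module.finrank_fintype_fun_eq_card, Fintype.card_sum, Fintype.card_fin] at h1
    have h3 := hX₀.2.2.2.1
    omega
  have hF := lem5.goodn H T per H₀ T₀ per₀ G Z h A hC G₀ Z₀ h₀ A₀ hC₀ hs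
  have hgood : GoodF4 Z := by
    refine good_fn hG₀ hF (fun a Z' E F hf' h' hsim ha => ?_) (fun a Z' E F hf' h' hsim h4 ht => ?_)
      fun a Z' E F hf' h' hM => ?_
    · obtain ⟨U, e, Ψ₁, Ψ₂, s⟩ := Pool.Agent.Y4.P.G3.exists_sd A hC hf' h' hsim ha
      rcases hg U s.sim with h1 | h1 | h1
      · left
        have h2 := s.rank
        omega
      · right; left
        exact s.realOddM h' h1
      · right; right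
        exact genM s h' h1
    · obtain ⟨U, e, Ψ₁, Ψ₂, s⟩ := Pool.Agent.Y4.P.G3.exists_sd A hC hf' h' hsim (by omega)
      exact hT U s.sim (by rw [s.rank, h4]) (typeThree s h' ht)
    · obtain ⟨q, h1, h2, h3⟩ := s_mq _ _ per G Z h A hC a Z' E F hf' h' hM
      exact hno _ _ _ q h1 h2 h3
  have hb : BrH Z := s_gbr s_facp G Z h hgood
  obtain ⟨⟨Ψ₁, e₁⟩, ⟨Ψ₂, e₂⟩⟩ := iso_maps h A hC
  let Φ₁ : (Fin n → (Fin G ⊕ Fin G → ℚ)) →ₗ[ℚ] (Fin n → H) :=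
    LinearMap.pi fun i => A.symm.toLinearMap ∘ₗ LinearMap.proj i
  let Φ₂ : (Fin n → H) →ₗ[ℚ] (Fin n → (Fin G ⊕ Fin G → ℚ)) :=
    LinearMap.pi fun i => A.toLinearMap ∘ₗ LinearMap.proj i
  let Θ₁ : (Fin n → (Fin G → ℂ)) →ₗ[ℂ] (Fin n → T) :=
    LinearMap.pi fun i => Ψ₁ ∘ₗ LinearMap.proj i
  let Θ₂ : (Fin n → T) →ₗ[ℂ] (Fin n → (Fin G → ℂ)) :=
    LinearMap.pi fun i => Ψ₂ ∘ₗ LinearMap.proj i
  have g₁ : ∀ w, Θ₁ (powPer (perOne Z) n w) = powPer per n (Φ₁ w) := fun w => by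
    funext i
    exact e₁ (w i)
  have g₂ : ∀ w, Θ₂ (powPer per n w) = powPer (perOne Z) n (Φ₂ w) := fun w => by
    funext i
    exact e₂ (w i)
  have h5' : IsHodge (powPer (perOne Z) n) (f.compLinearMap Φ₁) :=
    Pool.Agent.TH504.CB.isHodge_comp Φ₁ Θ₁ g₁ hf
  have h7 := wr_pull (per' := powPer per n)
    (pow_wr sixm h h₀ hG₀ hF hb n _ h5') (q := Φ₂) ⟨Θ₂, g₂⟩
  have h8 : (f.compLinearMap Φ₁).compLinearMap Φ₂ = f := by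
    ext v
    rw [AlternatingMap.compLinearMap_apply, AlternatingMap.compLinearMap_apply]
    congr 1
    funext k i
    exact A.symm_apply_apply (v k i)
  rw [h8] at h7
  exact h7

/-- **The final theorem, with arbitrary dimensions.** -/
theorem final_any (hX : St.IsAV per) (hX₀ : St.IsAV per₀) (h5 : finrank ℂ T₀ ≤ 5)
    (hs : ∀ U : Submodule ℚ H, St.IsSimpleSub per U → IsRealSub per U ∨
      ∃ r : H →ₗ[ℚ] H₀, St.IsHom per per₀ r ∧ ∀ u ∈ U, r u = 0 → u = 0)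
    (hg : ∀ U : Submodule ℚ H, St.IsSimpleSub per U → finrank ℚ U ≤ 14 ∨
      Pool.Agent.Y4.Q.IsRealOddSub per U ∨ IsGenericSub per U)
    (hT : ∀ U : Submodule ℚ H, St.IsSimpleSub per U → finrank ℚ U = 8 → ¬IsTypeThreeQ per U)
    (hno : ∀ (H' T' : Type) [AddCommGroup H'] [Module ℚ H'] [AddCommGroup T'] [Module ℂ T']
      (per' : H' →+ T') (q : H →ₗ[ℚ] H'), St.IsHom per per' q → Function.Surjective q →
        ¬IsMumfordType per') (n : ℕ)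
    (κ : Type) [Finite κ] (f : (Fin n → H) [⋀^κ]→ₗ[ℚ] ℚ) :
    IsHodge (powPer per n) f ↔ St.WeilRing (powPer per n) κ f :=
  ⟨fun hf => any_wr hX hX₀ h5 hs hg hT hno n f hf, fun hf => qr_isHodge (qr_of_wr hf)⟩

end abs

end

end Pool.Agent.H841.HC5
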