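import Pool.Agent.H841.HC5.Jobs

/-!
# The idempotent of an orbit
-/

set_option linter.unusedSectionVars false

namespace Pool.Agent.H841.HC5

open Matrix Module Pool.Agent.W437.HC Pool.Agent.W437.HD Pool.Agent.TH504.CB Pool.Agent.W522.U
open Pool.Agent.Y90 hiding mulA exists_lam mulA_altQ
open Pool.Agent.W548.Odd hiding cv
open Pool.Agent.W437.HP (cK cK_mul cK_one)
open Pool.Agent.H204R3.CM (IsHodge)
open Pool.Agent.H204R3.SP (Kills bil2 IsTate)
open Pool.Agent.Y4.P (MaxM EigM cx)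
open Pool.Agent.H926.A (NQ clo_NQ PDq AltE S_QWEIL)

noncomputable section

namespace Orbf

open Pool.Agent.Y261.P (Rt mem_Rt Pz Pz_mem Pz_self Pz_other Pz_comm Pz_map minpoly_irr mat_ext)

variable {a : ℕ} {φ : Matrix (Fin a ⊕ Fin a) (Fin a ⊕ Fin a) ℚ}
  {J : Type} [Fintype J] {z : J → ℂ}

/-- The idempotent. -/
def ep (φ : Matrix (Fin a ⊕ Fin a) (Fin a ⊕ Fin a) ℚ) (z : J → ℂ) :
    Matrix (Fin a ⊕ Fin a) (Fin a ⊕ Fin a) ℂ := ∑ j, Pz φ (z j)

theorem ep_mulVec (v : Fin a ⊕ Fin a → ℂ) : ep φ z *ᵥ v = ∑ j, Pz φ (z j) *ᵥ v := by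
  rw [ep, Matrix.sum_mulVec]

theorem ep_self (hz : ∀ j, z j ∈ Rt φ) (hzi : Function.Injective z) {k : J}
    {v : Fin a ⊕ Fin a → ℂ} (hv : v ∈ EigM φ (z k)) : ep φ z *ᵥ v = v := by
  rw [ep_mulVec, Finset.sum_eq_single k]
  · exact Pz_self (hz k) hv
  · intro j _ hj
    exact Pz_other (fun h0 => hj (hzi h0)) (hz k) hv
  · intro h0
    exact absurd (Finset.mem_univ _) h0

theorem ep_idem (hsep : (minpoly ℚ φ).Separable) (hz : ∀ j, z j ∈ Rt φ)
    (hzi : Function.Injective z) : ep φ z * ep φ z = ep φ z := by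
  refine mat_ext fun v => ?_
  rw [← mulVec_mulVec]
  conv_lhs => rw [ep_mulVec v]
  rw [mulVec_sum, ep_mulVec v]
  exact Finset.sum_congr rfl fun k _ => ep_self hz hzi (Pz_mem hsep (hz k) v)

theorem ep_comm {Z' : Matrix (Fin a) (Fin a) ℂ} (hc : qm φ * DZ Z' = DZ Z' * qm φ) :
    ∀ X ∈ LZ Z', X * ep φ z = ep φ z * X := by
  intro X hX
  rw [ep, Finset.mul_sum, Finset.sum_mul]
  exact Finset.sum_congr rfl fun j _ => Pz_comm hc (z j) X hX

theorem ep_fix (hzi : Function.Injective z) {σ : ℂ ≃+* ℂ}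
    (hst : ∀ j, ∃ k, σ (z j) = z k) (i j : Fin a ⊕ Fin a) :
    σ (ep φ z i j) = ep φ z i j := by
  choose k hk using hst
  have hki : Function.Injective k := by
    intro j j' hjj
    apply hzi
    apply σ.injective
    rw [hk, hk, hjj]
  have hkb : Function.Bijective k := Finite.injective_iff_bijective.1 hki
  have h1 : ∀ l, σ (Pz φ (z l) i j) = Pz φ (z (k l)) i j := by
    intro l
    rw [← hk l, ← Pz_map σ (z l)]
    rfl
  rw [ep, Matrix.sum_apply, map_sum]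
  rw [Finset.sum_congr rfl fun l _ => h1 l]
  exact hkb.sum_comp (fun l => Pz φ (z l) i j)

end Orbf

open Orbf Pool.Agent.Y261.P in
theorem s_orbf (hx : S_FIX) : S_ORBF := by
  intro G a Z Z' E F hf h h' hs ha φ hφ w D hD hw J _ z hz hzi hst W hW hWz
  have hsep : (minpoly ℚ φ).Separable := (minpoly_irr h' hs ha hφ.1).separable
  have hz' : ∀ j, z j ∈ Rt φ := fun j => mem_Rt.2 (hz j)
  choose T hT1 hT2 hT3 using hWz
  have hid := ep_idem hsep hz' hzi
  have hco := ep_comm (z := z) hφ.1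
  have hent : ∀ i j, ∃ x y : ℚ, ep φ z i j = x + y * w := by
    intro i j
    exact hx w D hD hw _ fun σ hσ => ep_fix hzi (hst σ hσ) i j
  have hFE : ∀ u : Fin a ⊕ Fin a → ℂ, cK ℂ F *ᵥ (cK ℂ E *ᵥ u) = u := by
    intro u
    rw [mulVec_mulVec, hf.fe', one_mulVec]
  refine ⟨cK ℂ E * ep φ z * cK ℂ F, T, ?_, ?_, ?_, hT1, hT2, ?_, ?_⟩
  · calc cK ℂ E * ep φ z * cK ℂ F * (cK ℂ E * ep φ z * cK ℂ F)
        = cK ℂ E * (ep φ z * (cK ℂ F * cK ℂ E) * ep φ z) * cK ℂ F := by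
          simp only [Matrix.mul_assoc]
      _ = _ := by rw [hf.fe', Matrix.mul_one, hid]
  · intro X hX
    obtain ⟨c1, c2, c3⟩ := hf.comp hX
    calc X * (cK ℂ E * ep φ z * cK ℂ F) = (X * cK ℂ E) * ep φ z * cK ℂ F := by
          simp only [Matrix.mul_assoc]
      _ = cK ℂ E * ((cK ℂ F * X * cK ℂ E) * ep φ z) * cK ℂ F := by
          rw [c2]
          simp only [Matrix.mul_assoc]
      _ = cK ℂ E * (ep φ z * (cK ℂ F * X * cK ℂ E)) * cK ℂ F := by rw [hco _ c1]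
      _ = cK ℂ E * ep φ z * (cK ℂ F * X * cK ℂ E * cK ℂ F) := by simp only [Matrix.mul_assoc]
      _ = cK ℂ E * ep φ z * (cK ℂ F * X) := by rw [← c3]
      _ = _ := by simp only [Matrix.mul_assoc]
  · exact Pool.Agent.H926.A.H297.entries hent
  · -- independence
    intro j
    rw [Submodule.disjoint_def]
    intro x hx1 hx2
    let P : (Fin G ⊕ Fin G → ℂ) →ₗ[ℂ] (Fin a ⊕ Fin a → ℂ) :=
      mulVecLin (Pz φ (z j) * cK ℂ F)
    have hP : ∀ u : Fin a ⊕ Fin a → ℂ, P (ml E u) = Pz φ (z j) *ᵥ u := by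
      intro u
      change (Pz φ (z j) * cK ℂ F) *ᵥ (cK ℂ E *ᵥ u) = _
      rw [← mulVec_mulVec, hFE]
    have hle : (⨆ k, ⨆ (_ : k ≠ j), (W k).map (T k)) ≤ LinearMap.ker P := by
      refine iSup₂_le fun k hk => ?_
      rw [hT3 k]
      rintro _ ⟨u, hu, rfl⟩
      rw [LinearMap.mem_ker, hP]
      exact Pz_other (fun h0 => hk (hzi h0).symm) (hz' k) hu
    have h1 := hle hx2
    have hx3 : x ∈ (W j).map (T j) := hx1
    rw [hT3 j] at hx3
    obtain ⟨u, hu, rfl⟩ := hx3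
    rw [LinearMap.mem_ker, hP, Pz_self (hz' j) hu] at h1
    rw [h1, map_zero]
  · intro v
    constructor
    · intro hv
      have hle : (⨆ j, (W j).map (T j)) ≤
          LinearMap.ker (mulVecLin (cK ℂ E * ep φ z * cK ℂ F) - LinearMap.id) := by
        refine iSup_le fun j => ?_
        rw [hT3 j]
        rintro _ ⟨u, hu, rfl⟩
        rw [LinearMap.mem_ker, LinearMap.sub_apply, LinearMap.id_apply, sub_eq_zero,
          mulVecLin_apply, ml_apply, ← mulVec_mulVec, hFE, ← mulVec_mulVec,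
          ep_self hz' hzi hu]
      have h1 := hle hv
      rwa [LinearMap.mem_ker, LinearMap.sub_apply, LinearMap.id_apply, sub_eq_zero,
        mulVecLin_apply] at h1
    · intro hv
      rw [← hv, ← mulVec_mulVec, ← mulVec_mulVec, ep_mulVec, mulVec_sum]
      refine Submodule.sum_mem _ fun j _ => ?_
      refine Submodule.mem_iSup_of_mem j ?_
      rw [hT3 j]
      exact ⟨_, Pz_mem hsep (hz' j) _, rfl⟩

end

end Pool.Agent.H841.HC5
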