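import Mathlib
import Pool.Agent.H841.HC5.Fin
import Pool.Agent.H926.T.Main7

/-!
# Tate classes on the abelian varieties built from given simple factors
-/

set_option linter.unusedSectionVars false

namespace Pool.Agent.H841.HC5

open Matrix Module Pool.Agent.Y90 Pool.Agent.W437.HC Pool.Agent.W437.HD TensorProduct
open Pool.Agent.W548.Odd hiding cv
open Pool.Agent.W437.HP (cK cK_mul cK_one)
open Pool.Agent.H204R3.CM (IsHodge)
open Pool.Agent.TH504.CB (isHodge_comp)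
open Pool.Agent.R915 (IsFactor)
open Pool.Agent.Y224.TS.St (IsTateModule)
open Pool.Agent.H926
open Pool.Agent.H926.T
open Pool.Agent.H926.A

noncomputable section

/-- **Hodge classes are generated by divisors and Weil classes.** -/
theorem weil_seven5 (A A₀ X : AV) (h7 : finrank ℂ A.T ≤ 7) (h5 : finrank ℂ A₀.T ≤ 5)
    (hs₀ : ∀ Y, IsFactor Y A → IsFactor Y A₀ ∨ HasRealMaxField Y) (hA : NoEnd A)
    (hX : ∀ Y, IsFactor Y X → IsFactor Y A) {κ : Type} [Finite κ] (f : X.H [⋀^κ]→ₗ[ℚ] ℚ)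
    (hf : IsHodge X.per f) : St.WeilRing X.per κ f := by
  obtain ⟨B, i, r, n, P, Q, s, hi, hr, hri, hP, hQ, hPQ, hs, hsi⟩ := s_rda A X hX
  have hAV : St.IsAV B.per := ⟨B.finH, B.finT, B.span, B.rank, B.pol⟩
  have hAV₀ : St.IsAV A₀.per := ⟨A₀.finH, A₀.finT, A₀.span, A₀.rank, A₀.pol⟩
  obtain ⟨a, Z', h', e, hC'⟩ := exists_ppav hAV
  obtain ⟨G₀, Z₀, h₀, e₀, hC₀⟩ := exists_ppav hAV₀
  have hG₀ : G₀ ≤ 5 := by
    have h1 := e₀.finrank_eq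
    rw [Module.finrank_fintype_fun_eq_card, Fintype.card_sum, Fintype.card_fin] at h1
    have h11 := A₀.rank
    omega
  have ha : a ≤ 7 := by
    have h1 := e.finrank_eq
    rw [Module.finrank_fintype_fun_eq_card, Fintype.card_sum, Fintype.card_fin] at h1
    have := A.finH
    have h2 := LinearMap.finrank_le_finrank_of_injective hsi
    have h3 := A.rank
    omega
  have hBA : ∀ Y, IsFactor Y B → IsFactor Y A := by
    intro Y hY
    obtain ⟨hs1, k, hk, hk'⟩ := hY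
    exact ⟨hs1, s.comp k, Pool.Agent.R915.IsHom.comp' hs hk, hsi.comp hk'⟩
  obtain ⟨z1, z2⟩ := s_fz B a Z' h' e hC'
  have hF := fn_of B A₀ (fun Y hY => hs₀ Y (hBA Y hY)) h' e hC' h₀ e₀ hC₀
  have hbr : BrH Z' := by
    refine brh_seven (s_gbr s_facp) s_t3l s_brd h' ha fun a₁ Z₁ E₁ F₁ hf₁ h₁ hM => ?_
    have hs₁ := s_msi a₁ Z₁ h₁ hM
    have ha₁ := hM.four
    have hfa : IsFactor (AVZ h₁) A := hBA _ (z2 a₁ Z₁ E₁ F₁ hf₁ h₁ hs₁ (by omega))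
    have hfr : finrank ℂ (AVZ h₁).T = a₁ := by
      change finrank ℂ (Fin a₁ → ℂ) = a₁
      rw [Module.finrank_fintype_fun_eq_card, Fintype.card_fin]
    obtain ⟨f, hf, hfn⟩ := hA _ hfa (by rw [hfr]; exact Or.inl ha₁)
    have hre := perOne_cht' h₁
    obtain ⟨c, hc⟩ := mum_scal hM (mR_de (LinearEquiv.refl ℚ (Fin a₁ ⊕ Fin a₁ → ℚ))
      (LinearEquiv.refl ℚ (Fin a₁ ⊕ Fin a₁ → ℚ)) hre hre hf)
    apply hfn c
    refine LinearMap.ext fun v => ?_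
    have h2 := mR_mulVec (LinearEquiv.refl ℚ (Fin a₁ ⊕ Fin a₁ → ℚ))
      (LinearEquiv.refl ℚ (Fin a₁ ⊕ Fin a₁ → ℚ)) f v
    rw [hc, smul_mulVec, one_mulVec] at h2
    exact h2.symm
  -- the homomorphisms to and from the power
  obtain ⟨⟨Ξ₁, ξ₁⟩, ⟨Ξ₂, ξ₂⟩⟩ := iso_maps h' e hC'
  choose ΨP hΨP using hP
  choose ΨQ hΨQ using hQ
  let V := (Fin a ⊕ Fin a → ℚ)
  let p : (Fin n → V) →ₗ[ℚ] X.H :=
    ∑ k, (P k) ∘ₗ e.symm.toLinearMap ∘ₗ (LinearMap.proj k)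
  let Ψp : (Fin n → (Fin a → ℂ)) →ₗ[ℂ] X.T := ∑ k, (ΨP k) ∘ₗ Ξ₁ ∘ₗ (LinearMap.proj k)
  let q : X.H →ₗ[ℚ] (Fin n → V) := LinearMap.pi fun k => e.toLinearMap ∘ₗ Q k
  let Ψq : X.T →ₗ[ℂ] (Fin n → (Fin a → ℂ)) := LinearMap.pi fun k => Ξ₂ ∘ₗ ΨQ k
  have hp : ∀ w, Ψp (powPer (perOne Z') n w) = X.per (p w) := by
    intro w
    change (∑ k, (ΨP k) ∘ₗ Ξ₁ ∘ₗ (LinearMap.proj k)) (powPer (perOne Z') n w) =
      X.per ((∑ k, (P k) ∘ₗ e.symm.toLinearMap ∘ₗ (LinearMap.proj k)) w)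
    rw [LinearMap.sum_apply, LinearMap.sum_apply, map_sum]
    refine Finset.sum_congr rfl fun k _ => ?_
    have h1 : Ξ₁ (perOne Z' (w k)) = B.per (e.symm.toLinearMap (w k)) := ξ₁ (w k)
    change ΨP k (Ξ₁ (perOne Z' (w k))) = X.per (P k (e.symm.toLinearMap (w k)))
    rw [h1]
    exact hΨP k _
  have hq : ∀ v, Ψq (X.per v) = powPer (perOne Z') n (q v) := by
    intro v
    funext k
    change Ξ₂ (ΨQ k (X.per v)) = perOne Z' (e (Q k v))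
    have h1 : ΨQ k (X.per v) = B.per (Q k v) := hΨQ k v
    rw [h1]
    exact ξ₂ _
  have hpq : ∀ v, p (q v) = v := by
    intro v
    change (∑ k, (P k) ∘ₗ e.symm.toLinearMap ∘ₗ (LinearMap.proj k)) (q v) = v
    rw [LinearMap.sum_apply]
    have h1 : ∀ k, ((P k) ∘ₗ e.symm.toLinearMap ∘ₗ (LinearMap.proj k)) (q v) = P k (Q k v) := by
      intro k
      change P k (e.symm (e (Q k v))) = P k (Q k v)
      rw [e.symm_apply_apply]
    rw [Finset.sum_congr rfl fun k _ => h1 k]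
    exact hPQ v
  have h1 : IsHodge (powPer (perOne Z') n) (f.compLinearMap p) := isHodge_comp p Ψp hp hf
  have h2 := wr_pull (per' := X.per) (pow_wr sixm h' h₀ hG₀ hF hbr n _ h1) (q := q) ⟨Ψq, hq⟩
  have h3 : (f.compLinearMap p).compLinearMap q = f := by
    ext v
    rw [AlternatingMap.compLinearMap_apply, AlternatingMap.compLinearMap_apply]
    congr 1
    funext k
    exact hpq (v k)
  rwa [h3] at h2

/-- **Tate classes are generated by divisor classes and Weil classes.** -/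
theorem tw5 {K : Type} [Field K] [CharZero K] [Algebra K ℂ] {Γ : Type} [Group Γ]
    [Algebra.IsAlgebraic K ℂ] (A A₀ X : AV) (h7 : finrank ℂ A.T ≤ 7) (h5 : finrank ℂ A₀.T ≤ 5)
    (hs₀ : ∀ Y, IsFactor Y A → IsFactor Y A₀ ∨ HasRealMaxField Y) (hA : NoEnd A)
    (hX : ∀ Y, IsFactor Y X → IsFactor Y A) {E : X.H → X.H → ℚ}
    (hE : Pool.Agent.Y90.St.IsPolarization X.per E) {ρ : Representation K Γ (K ⊗[ℚ] X.H)}
    {χ : Γ →* K} (hρ : IsTateModule X.per E ρ χ) {κ : Type} [Finite κ] {m : ℕ}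
    (hκ : Nat.card κ = 2 * m) (φ : (K ⊗[ℚ] X.H) [⋀^κ]→ₗ[K] K)
    (hφ : ∃ Δ : Subgroup Γ, Δ.FiniteIndex ∧ ∀ g ∈ Δ, ∀ v : κ → K ⊗[ℚ] X.H,
      φ (fun k => ρ g (v k)) = χ g ^ m * φ v) :
    ∃ (n : ℕ) (c : Fin n → K) (f : Fin n → (X.H [⋀^κ]→ₗ[ℚ] ℚ)),
      (∀ j, St.WeilRing X.per κ (f j)) ∧
        ∀ v : κ → X.H, φ (fun k => (1 : K) ⊗ₜ[ℚ] v k) = ∑ j, c j * ((f j v : ℚ) : K) := by
  obtain ⟨n, c, f, h1, h2⟩ := th7 A X h7 hA hX hE hρ hκ φ hφ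
  exact ⟨n, c, f, fun j => weil_seven5 A A₀ X h7 h5 hs₀ hA hX (f j) (h1 j), h2⟩

end

end Pool.Agent.H841.HC5
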