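import Mathlib
import Pool.Agent.H841.HC5.Any
import Pool.Agent.H841.HC5.Tate

/-!
# Tate classes in arbitrary dimension
-/

set_option linter.unusedSectionVars false

namespace Pool.Agent.H841.HC5

open Matrix Module Pool.Agent.Y90 Pool.Agent.W437.HC Pool.Agent.W437.HD
open Pool.Agent.W548.Odd hiding cv
open Pool.Agent.H204R3.SP Pool.Agent.H204R3.GP TensorProduct
open Pool.Agent.W437.HP (cK cK_mul cK_one)
open Pool.Agent.H204R3.CM (IsHodge HodgeMul)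
open Pool.Agent.TH504.CB (isHodge_comp)
open Pool.Agent.Y224.TS
open Pool.Agent.Y224.TS.St (IsHodgeTate IsTateModule)
open Pool.Agent.Y91.L (hodgeMul_of)
open Pool.Agent.Y4.P (MaxM EigM RealOddM)
open Pool.Agent.Y4.Q (CMM SepM T3M GcdM IsTypeThreeQ typeThree)
open Pool.Agent.Y4.P.G3.Sd (Φ)
open Pool.Agent.H926
open Pool.Agent.H926.T
open Pool.Agent.H926.A

noncomputable section

/-- **Killed forms in arbitrary dimension.** -/
theorem kill_any {G G₀ : ℕ} {Z : Matrix (Fin G) (Fin G) ℂ} {Z₀ : Matrix (Fin G₀) (Fin G₀) ℂ}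
    {S : Set (Matrix (Fin G ⊕ Fin G) (Fin G ⊕ Fin G) ℂ)} (h : PM Z) (hG₀ : G₀ ≤ 5)
    (hF : FN Z Z₀) (hS : TD Z S) (hn : NoScal Z)
    (hg : ∀ (a : ℕ) (Z' : Matrix (Fin a) (Fin a) ℂ) (E : Matrix (Fin G ⊕ Fin G) (Fin a ⊕ Fin a) ℚ)
      (F : Matrix (Fin a ⊕ Fin a) (Fin G ⊕ Fin G) ℚ), Fac Z Z' E F → PM Z' → IsSimpleAV Z' →
        0 < a → a ≤ 7 ∨ RealOddM Z')
    (hT : ∀ (a : ℕ) (Z' : Matrix (Fin a) (Fin a) ℂ) (E : Matrix (Fin G ⊕ Fin G) (Fin a ⊕ Fin a) ℚ)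
      (F : Matrix (Fin a ⊕ Fin a) (Fin G ⊕ Fin G) ℚ), Fac Z Z' E F → PM Z' → IsSimpleAV Z' →
        a = 4 → ¬T3M Z') : KillA Z S := by
  have hty : ∀ (a : ℕ) (Z' : Matrix (Fin a) (Fin a) ℂ)
      (E : Matrix (Fin G ⊕ Fin G) (Fin a ⊕ Fin a) ℚ)
      (F : Matrix (Fin a ⊕ Fin a) (Fin G ⊕ Fin G) ℚ), Fac Z Z' E F → PM Z' → IsSimpleAV Z' →
      0 < a → Pool.Agent.Y224.TS.TypeT Z' ∨ GcdM Z' := by
    intro a Z' E F hf h' hs ha
    rcases hg a Z' E F hf h' hs ha with h7 | h7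
    · rcases small_classT h' hs ha h7 (hn a Z' E F hf h' hs) (by
        rintro (h4 | h6) ht
        · exact hT a Z' E F hf h' hs h4 ht
        · rcases hF a Z' E F hf h' hs ha with hr | ⟨E', F', hf'⟩
          · exact not_t3 hr ht
          · have := fac_le hf'
            omega) with h1 | h1 | h1 | h1 | h1
      · exact Or.inl (Or.inl h1)
      · exact Or.inl (Or.inr (Or.inr (Or.inr (Or.inl h1))))
      · exact Or.inl (Or.inr (Or.inr (Or.inr (Or.inr (Or.inl h1)))))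
      · exact Or.inl (Or.inr (Or.inr (Or.inr (Or.inr (Or.inr h1)))))
      · exact Or.inr h1
    · exact Or.inl (Or.inr (Or.inr (Or.inr (Or.inl h7))))
  have hsep : Pool.Agent.Y224.TS.PQ.SepF Z := by
    intro a₁ a₂ Z₁ Z₂ E₁ F₁ E₂ F₂ hf₁ hf₂ h₁ h₂ hs₁ hs₂ ha₁ ha₂ φ₁ φ₂ m₁ m₂ c₁ c₂
    rcases hF a₁ Z₁ E₁ F₁ hf₁ h₁ hs₁ ha₁ with hr₁ | ⟨E₁', F₁', hf₁'⟩
    · exact sepM_left h₁ hs₁ ha₁ hr₁ m₁
    · rcases hF a₂ Z₂ E₂ F₂ hf₂ h₂ hs₂ ha₂ with hr₂ | ⟨E₂', F₂', hf₂'⟩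
      · exact sepM_right h₂ hs₂ ha₂ hr₂ m₂
      · exact sepM_of (by omega) hf₁' hf₂' h₁ h₂ hs₁ hs₂ ha₁ ha₂ m₁ m₂ c₁ c₂
  refine killA_of_even hS fun n φ hφ => ?_
  exact Pool.Agent.Y91.L.tate_kill hS h
    (fun U hU hn => Pool.Agent.Y91.L.rk_loc Pool.Agent.Y71.OD2.duo h hty hS hU hn)
    (fun U U' hU hU' hn => Pool.Agent.Y91.L.sep_loc h hty hsep hU hU' hn) φ hφ

variable {H T : Type} [AddCommGroup H] [Module ℚ H] [AddCommGroup T] [Module ℂ T] {per : H →+ T}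
  {H₀ T₀ : Type} [AddCommGroup H₀] [Module ℚ H₀] [AddCommGroup T₀] [Module ℂ T₀] {per₀ : H₀ →+ T₀}
  {K : Type} [Field K] [CharZero K] [Algebra K ℂ] {Γ : Type} [Group Γ]

/-- Simple abelian subvarieties of dimensions four and six have non-scalar endomorphisms. -/
def NoEndSub (per : H →+ T) : Prop :=
  ∀ U : Submodule ℚ H, St.IsSimpleSub per U → finrank ℚ U = 8 ∨ finrank ℚ U = 12 →
    ∃ f : U →ₗ[ℚ] U, (∃ Ψ : T →ₗ[ℂ] T, ∀ u : U, Ψ (per u) = per (f u)) ∧ ∀ c : ℚ, f ≠ c • 1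

/-- **Tate classes are combinations of Hodge classes**, arbitrary dimension. -/
theorem tate_hodge_any [Algebra.IsAlgebraic K ℂ] (hX : St.IsAV per) (hX₀ : St.IsAV per₀)
    (h5 : finrank ℂ T₀ ≤ 5)
    (hs : ∀ U : Submodule ℚ H, St.IsSimpleSub per U → IsRealSub per U ∨
      ∃ r : H →ₗ[ℚ] H₀, St.IsHom per per₀ r ∧ ∀ u ∈ U, r u = 0 → u = 0)
    (hg : ∀ U : Submodule ℚ H, St.IsSimpleSub per U → finrank ℚ U ≤ 14 ∨
      Pool.Agent.Y4.Q.IsRealOddSub per U)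
    (hT : ∀ U : Submodule ℚ H, St.IsSimpleSub per U → finrank ℚ U = 8 → ¬IsTypeThreeQ per U)
    (hE' : NoEndSub per) {E : H → H → ℚ}
    (hE : Pool.Agent.Y90.St.IsPolarization per E) {ρ : Representation K Γ (K ⊗[ℚ] H)}
    {χ : Γ →* K} (hρ : IsTateModule per E ρ χ) {κ : Type} [Finite κ] {m : ℕ}
    (hκ : Nat.card κ = 2 * m) (φ : (K ⊗[ℚ] H) [⋀^κ]→ₗ[K] K)
    (hφ : ∃ Δ : Subgroup Γ, Δ.FiniteIndex ∧ ∀ g ∈ Δ, ∀ v : κ → K ⊗[ℚ] H,
      φ (fun k => ρ g (v k)) = χ g ^ m * φ v) :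
    ∃ (n : ℕ) (c : Fin n → K) (f : Fin n → (H [⋀^κ]→ₗ[ℚ] ℚ)),
      (∀ j, IsHodge per (f j)) ∧
        ∀ v : κ → H, φ (fun k => (1 : K) ⊗ₜ[ℚ] v k) = ∑ j, c j * ((f j v : ℚ) : K) := by
  classical
  obtain ⟨a, Z, hZ, b, hC, hb⟩ := exists_ppav' hX hE
  have hTD : TD Z (SH per ρ χ b) := td_of b hb hC hρ
  have hK : KillA Z (SH per ρ χ b) := by
    obtain ⟨G₀, Z₀, h₀, A₀, hC₀⟩ := exists_ppav hX₀
    have hG₀ : G₀ ≤ 5 := by
      have h1 := A₀.finrank_eq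
      rw [Module.finrank_fintype_fun_eq_card, Fintype.card_sum, Fintype.card_fin] at h1
      have h3 := hX₀.2.2.2.1
      omega
    have hF := lem5.goodn H T per H₀ T₀ per₀ a Z hZ b.equivFun hC G₀ Z₀ h₀ A₀ hC₀ hs
    refine kill_any hZ hG₀ hF hTD ?_ (fun a' Z' E' F' hf' h' hsim ha => ?_)
      fun a' Z' E' F' hf' h' hsim h4 ht => ?_
    · intro a' Z' E' F' hf' h' hsim h46
      obtain ⟨U, e, Ψ₁, Ψ₂, s⟩ := Pool.Agent.Y4.P.G3.exists_sd b.equivFun hC hf' h' hsim (by omega)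
      obtain ⟨f, ⟨Ψ, hΨ⟩, hfc⟩ := hE' U s.sim (by rw [s.rank]; omega)
      refine ⟨(Φ e).symm f, s.comm h' hΨ, fun c hc => hfc c ?_⟩
      have h1 := congrArg (Φ e) hc
      rw [AlgEquiv.apply_symm_apply, map_smul, map_one] at h1
      exact h1
    · obtain ⟨U, e, Ψ₁, Ψ₂, s⟩ := Pool.Agent.Y4.P.G3.exists_sd b.equivFun hC hf' h' hsim ha
      rcases hg U s.sim with h1 | h1
      · left
        have h2 := s.rank
        omega
      · right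
        exact s.realOddM h' h1
    · obtain ⟨U, e, Ψ₁, Ψ₂, s⟩ := Pool.Agent.Y4.P.G3.exists_sd b.equivFun hC hf' h' hsim (by omega)
      exact hT U s.sim (by rw [s.rank, h4]) (typeThree s h' ht)
  obtain ⟨Ψ₂, h₂⟩ := hC.hom hZ.cht (R := 1) (by rw [cK_one, Matrix.one_mul, Matrix.mul_one])
  have e₂ : ∀ v, Ψ₂ (per v) = perOne Z (b.equivFun v) := fun v => by
    have h3 := h₂ (b.equivFun v)
    have h4 : (per.comp b.equivFun.symm.toLinearMap.toAddMonoidHom) (b.equivFun v) = per v := by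
      change per (b.equivFun.symm (b.equivFun v)) = per v
      rw [LinearEquiv.symm_apply_apply]
    rwa [h4, one_mulVec] at h3
  -- the form in the standard variables
  let _ : Fintype κ := Fintype.ofFinite κ
  have e : κ ≃ Fin m × Fin 2 := Fintype.equivOfCardEq (by
    rw [← Nat.card_eq_fintype_card, hκ, Fintype.card_prod, Fintype.card_fin, Fintype.card_fin,
      mul_comm])
  let φ' : MultilinearMap K (fun _ : Fin m × Fin 2 => K ⊗[ℚ] H) K :=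
    φ.toMultilinearMap.domDomCongr e
  have hφ' : ∀ v, φ' v = φ (fun k => v (e k)) := fun v => rfl
  have hT : IsTate ρ χ m φ' := by
    obtain ⟨Δ, hΔ, h⟩ := hφ
    refine ⟨Δ, hΔ, fun s hs v => ?_⟩
    rw [hφ', hφ']
    exact h s hs (fun k => v (e k))
  have halt : ∀ (σ : Equiv.Perm (Fin m × Fin 2)) v,
      φ' (fun k => v (σ k)) = ((Equiv.Perm.sign σ : ℤ) : K) * φ' v := by
    intro σ v
    have h1 : φ' (fun k => v (σ k)) = (φ.domDomCongr e) (v ∘ σ) := rfl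
    have h2 : φ' v = (φ.domDomCongr e) v := rfl
    rw [h1, h2, AlternatingMap.map_perm, Units.smul_def, zsmul_eq_mul]
  have h0 := hK _ (FC b φ') (FC_kills b φ' hT)
  have h1 : altQ (FC b φ') ∈ Submodule.span ℂ {g : (Fin m × Fin 2 → Fin a ⊕ Fin a → ℚ) → ℂ |
      ∃ r, IsHodge (perOne Z) r ∧ g = fun v => ((r v : ℚ) : ℂ)} := by
    obtain ⟨n, c, l, hl⟩ := altQ_expand (FC b φ')
    have h2 : altQ (FC b φ') = ∑ j, c j • fun v => ((ratA (FC b φ') (l j) v : ℚ) : ℂ) := by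
      funext v
      rw [hl, Finset.sum_apply]
      rfl
    rw [h2]
    refine Submodule.sum_mem _ fun j _ => Submodule.smul_mem _ _ (Submodule.subset_span
      ⟨_, ?_, rfl⟩)
    exact hZ.cht.hodge_rat gal_LZ (DJ_JR ▸ DZ_mem) (fun X hX => act_of_kills (h0 X hX)) (l j)
  have h2 : (fun v : Fin m × Fin 2 → Fin a ⊕ Fin a → ℚ =>
      algebraMap K ℂ (φ' (fun k => (1 : K) ⊗ₜ[ℚ] b.equivFun.symm (v k)))) ∈
        Submodule.span ℂ {g : (Fin m × Fin 2 → Fin a ⊕ Fin a → ℚ) → ℂ |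
      ∃ r, IsHodge (perOne Z) r ∧ g = fun v => ((r v : ℚ) : ℂ)} := by
    have h3 : (fun v : Fin m × Fin 2 → Fin a ⊕ Fin a → ℚ =>
        algebraMap K ℂ (φ' (fun k => (1 : K) ⊗ₜ[ℚ] b.equivFun.symm (v k)))) =
        (Fintype.card (Equiv.Perm (Fin m × Fin 2)) : ℂ)⁻¹ • altQ (FC b φ') := by
      funext v
      rw [Pi.smul_apply, smul_eq_mul]
      have h4 := FC_alt b φ' halt v
      rw [h4, ← mul_assoc, inv_mul_cancel₀, one_mul]
      exact_mod_cast Fintype.card_ne_zero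
    rw [h3]
    exact Submodule.smul_mem _ _ h1
  -- descent
  let S : Set ((Fin m × Fin 2 → Fin a ⊕ Fin a → ℚ) → K) :=
    {s | ∃ r, IsHodge (perOne Z) r ∧ s = fun v => ((r v : ℚ) : K)}
  have h3 : (fun v : Fin m × Fin 2 → Fin a ⊕ Fin a → ℚ =>
      φ' (fun k => (1 : K) ⊗ₜ[ℚ] b.equivFun.symm (v k))) ∈ Submodule.span K S := by
    refine span_descent_k (Ω := ℂ) S _ ?_
    refine Submodule.span_mono ?_ h2
    rintro g ⟨r, hr, rfl⟩
    refine ⟨_, ⟨r, hr, rfl⟩, ?_⟩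
    funext v
    rw [map_ratCast]
  obtain ⟨n, c, s, hs'⟩ := Submodule.mem_span_set'.1 h3
  choose r hr hr' using fun j => (s j).2
  refine ⟨n, c, fun j => (((r j).compLinearMap b.equivFun.toLinearMap)).domDomCongr e.symm,
    fun j => ?_, fun v => ?_⟩
  · have h4 : IsHodge per ((r j).compLinearMap b.equivFun.toLinearMap) :=
      isHodge_comp b.equivFun.toLinearMap Ψ₂ e₂ (hr j)
    obtain ⟨ψ, h5, h6⟩ := h4
    refine ⟨ψ.domDomCongr e.symm, fun v => ?_, fun z hz u => ?_⟩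
    · rw [MultilinearMap.domDomCongr_apply, AlternatingMap.domDomCongr_apply]
      exact h5 _
    · rw [MultilinearMap.domDomCongr_apply, MultilinearMap.domDomCongr_apply]
      exact h6 z hz _
  · have h4 := congrFun hs' (fun k => b.equivFun (v (e.symm k)))
    beta_reduce at h4
    rw [hφ'] at h4
    have h5 : (fun k => (1 : K) ⊗ₜ[ℚ] b.equivFun.symm (b.equivFun (v (e.symm (e k))))) =
        fun k => (1 : K) ⊗ₜ[ℚ] v k := by
      funext k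
      rw [LinearEquiv.symm_apply_apply, Equiv.symm_apply_apply]
    rw [h5] at h4
    rw [← h4, Finset.sum_apply]
    refine Finset.sum_congr rfl fun j _ => ?_
    rw [Pi.smul_apply, smul_eq_mul, hr' j]
    rfl


/-- Hodge classes, arbitrary dimension, without simple factors with only the trivial endomorphisms. -/
theorem any_one (hX : St.IsAV per) (hX₀ : St.IsAV per₀) (h5 : finrank ℂ T₀ ≤ 5)
    (hs : ∀ U : Submodule ℚ H, St.IsSimpleSub per U → IsRealSub per U ∨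
      ∃ r : H →ₗ[ℚ] H₀, St.IsHom per per₀ r ∧ ∀ u ∈ U, r u = 0 → u = 0)
    (hg : ∀ U : Submodule ℚ H, St.IsSimpleSub per U → finrank ℚ U ≤ 14 ∨
      Pool.Agent.Y4.Q.IsRealOddSub per U)
    (hT : ∀ U : Submodule ℚ H, St.IsSimpleSub per U → finrank ℚ U = 8 → ¬IsTypeThreeQ per U)
    (hE' : NoEndSub per) {κ : Type} [Finite κ] (f : H [⋀^κ]→ₗ[ℚ] ℚ) (hf : IsHodge per f) :
    St.WeilRing per κ f := by
  obtain ⟨G, Z, h, A, hC⟩ := exists_ppav hX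
  obtain ⟨G₀, Z₀, h₀, A₀, hC₀⟩ := exists_ppav hX₀
  have hG₀ : G₀ ≤ 5 := by
    have h1 := A₀.finrank_eq
    rw [Module.finrank_fintype_fun_eq_card, Fintype.card_sum, Fintype.card_fin] at h1
    have h3 := hX₀.2.2.2.1
    omega
  have hF := lem5.goodn H T per H₀ T₀ per₀ G Z h A hC G₀ Z₀ h₀ A₀ hC₀ hs
  have hgood : Pool.Agent.Y4.Q.GoodF4 Z := by
    refine good_fn hG₀ hF (fun a Z' E F hf' h' hsim ha => ?_) (fun a Z' E F hf' h' hsim h4 ht => ?_)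
      fun a Z' E F hf' h' hM => ?_
    · obtain ⟨U, e, Ψ₁, Ψ₂, s⟩ := Pool.Agent.Y4.P.G3.exists_sd A hC hf' h' hsim ha
      rcases hg U s.sim with h1 | h1
      · left
        have h2 := s.rank
        omega
      · right; left
        exact s.realOddM h' h1
    · obtain ⟨U, e, Ψ₁, Ψ₂, s⟩ := Pool.Agent.Y4.P.G3.exists_sd A hC hf' h' hsim (by omega)
      exact hT U s.sim (by rw [s.rank, h4]) (typeThree s h' ht)
    · have hsim := s_msi a Z' h' hM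
      have ha := hM.four
      obtain ⟨U, e, Ψ₁, Ψ₂, s⟩ := Pool.Agent.Y4.P.G3.exists_sd A hC hf' h' hsim (by omega)
      obtain ⟨g, ⟨Ψ, hΨ⟩, hfc⟩ := hE' U s.sim (by rw [s.rank]; omega)
      obtain ⟨c, hc⟩ := mum_scal hM (s.comm h' hΨ)
      have h1 := congrArg (Φ e) hc
      rw [AlgEquiv.apply_symm_apply, map_smul, map_one] at h1
      exact hfc c h1
  have hb : BrH Z := s_gbr s_facp G Z h hgood
  obtain ⟨⟨Ψ₁, e₁⟩, ⟨Ψ₂, e₂⟩⟩ := iso_maps h A hC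
  let Φ₁ : (Fin 1 → (Fin G ⊕ Fin G → ℚ)) →ₗ[ℚ] H := A.symm.toLinearMap ∘ₗ LinearMap.proj 0
  let Φ₂ : H →ₗ[ℚ] (Fin 1 → (Fin G ⊕ Fin G → ℚ)) := LinearMap.pi fun _ => A.toLinearMap
  let Θ₁ : (Fin 1 → (Fin G → ℂ)) →ₗ[ℂ] T := Ψ₁ ∘ₗ LinearMap.proj 0
  let Θ₂ : T →ₗ[ℂ] (Fin 1 → (Fin G → ℂ)) := LinearMap.pi fun _ => Ψ₂
  have g₁ : ∀ w, Θ₁ (powPer (perOne Z) 1 w) = per (Φ₁ w) := fun w => e₁ (w 0)
  have g₂ : ∀ v, Θ₂ (per v) = powPer (perOne Z) 1 (Φ₂ v) := fun v => by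
    funext i
    exact e₂ v
  have h5' : IsHodge (powPer (perOne Z) 1) (f.compLinearMap Φ₁) := isHodge_comp Φ₁ Θ₁ g₁ hf
  have h7 := wr_pull (per' := per)
    (pow_wr sixm h h₀ hG₀ hF hb 1 _ h5') (q := Φ₂) ⟨Θ₂, g₂⟩
  have h8 : (f.compLinearMap Φ₁).compLinearMap Φ₂ = f := by
    ext v
    rw [AlternatingMap.compLinearMap_apply, AlternatingMap.compLinearMap_apply]
    congr 1
    funext k
    exact A.symm_apply_apply (v k)
  rwa [h8] at h7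

/-- **Tate classes are generated by divisor classes and Weil classes**, arbitrary dimension. -/
theorem tate_weil_any [Algebra.IsAlgebraic K ℂ] (hX : St.IsAV per) (hX₀ : St.IsAV per₀)
    (h5 : finrank ℂ T₀ ≤ 5)
    (hs : ∀ U : Submodule ℚ H, St.IsSimpleSub per U → IsRealSub per U ∨
      ∃ r : H →ₗ[ℚ] H₀, St.IsHom per per₀ r ∧ ∀ u ∈ U, r u = 0 → u = 0)
    (hg : ∀ U : Submodule ℚ H, St.IsSimpleSub per U → finrank ℚ U ≤ 14 ∨
      Pool.Agent.Y4.Q.IsRealOddSub per U)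
    (hT : ∀ U : Submodule ℚ H, St.IsSimpleSub per U → finrank ℚ U = 8 → ¬IsTypeThreeQ per U)
    (hE' : NoEndSub per) {E : H → H → ℚ}
    (hE : Pool.Agent.Y90.St.IsPolarization per E) {ρ : Representation K Γ (K ⊗[ℚ] H)}
    {χ : Γ →* K} (hρ : IsTateModule per E ρ χ) {κ : Type} [Finite κ] {m : ℕ}
    (hκ : Nat.card κ = 2 * m) (φ : (K ⊗[ℚ] H) [⋀^κ]→ₗ[K] K)
    (hφ : ∃ Δ : Subgroup Γ, Δ.FiniteIndex ∧ ∀ g ∈ Δ, ∀ v : κ → K ⊗[ℚ] H,
      φ (fun k => ρ g (v k)) = χ g ^ m * φ v) :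
    ∃ (n : ℕ) (c : Fin n → K) (f : Fin n → (H [⋀^κ]→ₗ[ℚ] ℚ)),
      (∀ j, St.WeilRing per κ (f j)) ∧
        ∀ v : κ → H, φ (fun k => (1 : K) ⊗ₜ[ℚ] v k) = ∑ j, c j * ((f j v : ℚ) : K) := by
  obtain ⟨n, c, f, h1, h2⟩ := tate_hodge_any hX hX₀ h5 hs hg hT hE' hE hρ hκ φ hφ
  exact ⟨n, c, f, fun j => any_one hX hX₀ h5 hs hg hT hE' (f j) (h1 j), h2⟩

end

end Pool.Agent.H841.HC5
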